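import Pool.Agent.H60.HL.PmA

/-!
# HL-18 CovA: the covering steps

`V` is the set of the available unit elements: symmetric, without elements of order two, `V 2` disjoint
from `Θ`.  `RichV`: only places with sign `+` are needed as `V = -V`.
In all the steps the sets `U i` are unions of pairs `{u, -u}` with `u ∈ V i`.

`pickV`: as `rich_pick` (`GadB`).
`stepAC` (`a` of type `0`, `c` of type `2`): `t`: places `(1, 0)`, `(2, a)`, `(0, -c)`.  Triples
`(a, t, -(a+t))`, `(t-c, -t, c)`.  Left: `c - t` of type `0` and `a + t` of type `2`.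
`stepBC` (`b` of type `1`, `c` of type `2`): `t`: places `(0, 0)`, `(2, b)`, `(1, -c)`.  Triples
`(t, b, -(t+b))`, `(-t, t-c, c)`.  Left: `c - t` of type `1` and `t + b` of type `2`.
`stepD` (dummy): first `s ∈ V 1` (place `(1, 0)`), then `t`: places `(0, 0)`, `(2, s)`.  Triples
`(t, s, -(t+s))`, `(-t, -s, t+s)`.  `J' = J`.
`stepM`: `t`: places `(0, 0)`, `(0, κ₁)`, `(1, a1 + b)`, `(1, -c1)`, `(2, b)`, `(2, -κ₃)` with
`κ₁ = a1 + b + c2`, `κ₃ = a2 + c1`.  The units: type `0`: `α = t`, `α' = -(κ₁+t)`; type `1`: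
`β = -(a1+b+t)`, `β' = t - c1`; type `2`: `γ = -(b+t)`, `γ' = t - κ₃`.  Triples: `(α, b, γ)`,
`(a1, β, -γ)`, `(-α, β', c1)`, `(a2, -β', γ')`, `(α', -β, c2)`.  Left: `-α' = κ₁ + t` of type `0` and
`-γ' = κ₃ - t` of type `2`.  The differences of the shifts in the types `0, 1` are `κ₁`, `a1+b`, `c1`,
`κ₁-(a1+b) = c2`, `κ₁+c1 = a1+b+c1+c2`, `a1+b+c1` and in the type `2` `b+κ₃ = a2+b+c1`, up to sign.
The two units of one type must be different: `α' = α`, `β' = β`, `γ' = γ` hold for at most two `t` each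
(`Tor2`), `α' = -α` iff `κ₁ = 0`, `β' = -β` iff `a1+b+c1 = 0`, `γ' = -γ` iff `a2+b+c1 = 0`; as `0 ∈ Θ`
these do not occur.  `bad` is enlarged by the at most `6` exceptional `t`.
Matching property: `PM_of_fn` with `ι = Fin 2` or `Fin 5` (the elements of the triples of one type are
different: elements of `J` are not in `V`, different units are disjoint pairs), and the set identity
`(J ∪ U) \ J' = ` the set of the entries.
-/

namespace Pool.Agent.H60.HL

open Finset Classical

variable {G : Type} [AddCommGroup G] [Fintype G]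

private lemma covA_nJ {J V : Finset G} (hd : Disjoint J V) {x : G} (hx : x ∈ V) : x ∉ J :=
  fun h => (Finset.disjoint_left.mp hd) h hx

private lemma covA_ne {J V : Finset G} (hd : Disjoint J V) {x y : G} (hx : x ∈ V) (hy : y ∈ J) :
    x ≠ y := by
  rintro rfl
  exact covA_nJ hd hx hy

private lemma covA_dis2 {J V : Finset G} (hd : Disjoint J V) {u : G} (hu : u ∈ V) (hu' : -u ∈ V) :
    Disjoint J {u, -u} := by
  rw [Finset.disjoint_right]
  intro x hx
  simp only [mem_insert, mem_singleton] at hx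
  rcases hx with rfl | rfl
  · exact covA_nJ hd hu
  · exact covA_nJ hd hu'

private lemma covA_dis4 {J V : Finset G} (hd : Disjoint J V) {u w : G} (hu : u ∈ V) (hu' : -u ∈ V)
    (hw : w ∈ V) (hw' : -w ∈ V) : Disjoint J {u, -u, w, -w} := by
  rw [Finset.disjoint_right]
  intro x hx
  simp only [mem_insert, mem_singleton] at hx
  rcases hx with rfl | rfl | rfl | rfl
  · exact covA_nJ hd hu
  · exact covA_nJ hd hu'
  · exact covA_nJ hd hw
  · exact covA_nJ hd hw'

private lemma covA_neg_ne {u : G} (h2 : u + u ≠ 0) : u ≠ -u := by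
  intro h
  apply h2
  nth_rewrite 2 [h]
  exact add_neg_cancel u

private lemma covA_sd1 {J V : Finset G} (hd : Disjoint J V) {a u : G} (ha : a ∈ J) (hu : u ∈ V)
    (hu' : -u ∈ V) (h2 : u + u ≠ 0) :
    (J ∪ {u, -u}) \ insert u (J.erase a) = {a, -u} := by
  have h3 := covA_neg_ne h2
  ext x
  simp only [mem_sdiff, mem_union, mem_insert, mem_singleton, mem_erase]
  by_cases hxJ : x ∈ J
  · have e1 : x ≠ u := (covA_ne hd hu hxJ).symm
    have e2 : x ≠ -u := (covA_ne hd hu' hxJ).symm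
    tauto
  · have e1 : x ≠ a := by rintro rfl; exact hxJ ha
    constructor
    · rintro ⟨h | h | h, h'⟩
      · exact absurd h hxJ
      · exact absurd (Or.inl h) h'
      · exact Or.inr h
    · rintro (h | h)
      · exact absurd h e1
      · refine ⟨Or.inr (Or.inr h), ?_⟩
        rintro (h' | h')
        · exact h3 (h'.symm.trans h)
        · exact hxJ h'.2

private lemma covA_sd0 {J V : Finset G} (hd : Disjoint J V) {u : G} (hu : u ∈ V)
    (hu' : -u ∈ V) : (J ∪ {u, -u}) \ J = {u, -u} := by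
  rw [Finset.union_sdiff_left]
  exact Finset.sdiff_eq_self_of_disjoint (covA_dis2 hd hu hu').symm

private lemma covA_sub1 (J : Finset G) (a u : G) : insert u (J.erase a) ⊆ J ∪ {u, -u} := by
  intro x hx
  simp only [mem_union, mem_insert, mem_singleton, mem_erase] at hx ⊢
  tauto

private lemma covA_PM2 {B : Fin 3 → Finset G} (x y : Fin 3 → G) (h : ∀ i, B i = {x i, y i})
    (hn : ∀ i, x i ≠ y i) (hx : x 0 + x 1 + x 2 = 0) (hy : y 0 + y 1 + y 2 = 0) : PM B := by
  have h1 := PM_of_fn (ι := Fin 2) (fun i => ![x i, y i]) (by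
    intro i
    intro p q hpq
    fin_cases p <;> fin_cases q
    · rfl
    · exact absurd hpq (hn i)
    · exact absurd hpq.symm (hn i)
    · rfl) (by
    intro p
    fin_cases p
    · exact hx
    · exact hy)
  have h2 : B = fun i => univ.image (![x i, y i] : Fin 2 → G) := by
    funext i
    rw [h i]
    ext z
    simp only [mem_insert, mem_singleton, mem_image, mem_univ, true_and, Fin.exists_fin_two,
      Matrix.cons_val_zero, Matrix.cons_val_one]
    constructor
    · rintro (h | h)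
      · exact Or.inl h.symm
      · exact Or.inr h.symm
    · rintro (h | h)
      · exact Or.inl h.symm
      · exact Or.inr h.symm
  rw [h2]
  exact h1

private lemma covA_im5 (a b c d e : G) :
    (univ.image (![a, b, c, d, e] : Fin 5 → G)) = {a, b, c, d, e} := by
  ext z
  simp only [mem_insert, mem_singleton, mem_image, mem_univ, true_and]
  constructor
  · rintro ⟨i, rfl⟩
    fin_cases i <;> simp
  · rintro (rfl | rfl | rfl | rfl | rfl)
    · exact ⟨0, rfl⟩
    · exact ⟨1, rfl⟩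
    · exact ⟨2, rfl⟩
    · exact ⟨3, rfl⟩
    · exact ⟨4, rfl⟩

private lemma covA_inj5 {a b c d e : G} (h : [a, b, c, d, e].Nodup) :
    Function.Injective (![a, b, c, d, e] : Fin 5 → G) := by
  rw [← List.nodup_ofFn]
  exact h

private lemma covA_PM5 {B : Fin 3 → Finset G} (x y z w v : Fin 3 → G)
    (h : ∀ i, B i = {x i, y i, z i, w i, v i})
    (hn : ∀ i, [x i, y i, z i, w i, v i].Nodup) (hx : x 0 + x 1 + x 2 = 0)
    (hy : y 0 + y 1 + y 2 = 0) (hz : z 0 + z 1 + z 2 = 0) (hw : w 0 + w 1 + w 2 = 0)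
    (hv : v 0 + v 1 + v 2 = 0) : PM B := by
  have h1 := PM_of_fn (ι := Fin 5) (fun i => ![x i, y i, z i, w i, v i])
    (fun i => covA_inj5 (hn i)) (by
    intro p
    fin_cases p
    · exact hx
    · exact hy
    · exact hz
    · exact hw
    · exact hv)
  have h2 : B = fun i => univ.image (![x i, y i, z i, w i, v i] : Fin 5 → G) := by
    funext i
    rw [h i, covA_im5]
  rw [h2]
  exact h1

/-- the type 0 set of `stepM` -/
private lemma covA_sd2a {J V : Finset G} (hd : Disjoint J V) {a b u w : G} (ha : a ∈ J)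
    (hb : b ∈ J) (hu : u ∈ V) (hu' : -u ∈ V) (hw : w ∈ V) (hw' : -w ∈ V) (h1 : u ≠ w)
    (h2 : u ≠ -w) (h3 : w + w ≠ 0) :
    (J ∪ {u, -u, w, -w}) \ insert (-w) ((J.erase a).erase b) = {u, a, -u, b, w} := by
  have h4 := covA_neg_ne h3
  have h5 : -u ≠ -w := fun h => h1 (neg_injective h)
  ext x
  simp only [mem_sdiff, mem_union, mem_insert, mem_singleton, mem_erase]
  by_cases hxJ : x ∈ J
  · have e1 : x ≠ u := (covA_ne hd hu hxJ).symm
    have e2 : x ≠ -u := (covA_ne hd hu' hxJ).symm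
    have e3 : x ≠ w := (covA_ne hd hw hxJ).symm
    have e4 : x ≠ -w := (covA_ne hd hw' hxJ).symm
    tauto
  · have e1 : x ≠ a := by rintro rfl; exact hxJ ha
    have e2 : x ≠ b := by rintro rfl; exact hxJ hb
    constructor
    · rintro ⟨h | h | h | h | h, h'⟩
      · exact absurd h hxJ
      · exact Or.inl h
      · exact Or.inr (Or.inr (Or.inl h))
      · exact Or.inr (Or.inr (Or.inr (Or.inr h)))
      · exact absurd (Or.inl h) h'
    · have e3 : ∀ y, x = y → y ≠ -w → ¬ (x = -w ∨ x ≠ b ∧ x ≠ a ∧ x ∈ J) := by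
        rintro y rfl hy (h | h)
        · exact hy h
        · exact hxJ h.2.2
      rintro (h | h | h | h | h)
      · exact ⟨Or.inr (Or.inl h), e3 _ h h2⟩
      · exact absurd h e1
      · exact ⟨Or.inr (Or.inr (Or.inl h)), e3 _ h h5⟩
      · exact absurd h e2
      · exact ⟨Or.inr (Or.inr (Or.inr (Or.inl h))), e3 _ h h4⟩

private lemma covA_sub2 (J : Finset G) (a b u w : G) :
    insert (-w) ((J.erase a).erase b) ⊆ J ∪ {u, -u, w, -w} := by
  intro x hx
  simp only [mem_union, mem_insert, mem_singleton, mem_erase] at hx ⊢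
  tauto

private lemma covA_sd2b {J V : Finset G} (hd : Disjoint J V) {b u w : G}
    (hb : b ∈ J) (hu : u ∈ V) (hu' : -u ∈ V) (hw : w ∈ V) (hw' : -w ∈ V) :
    (J ∪ {u, -u, w, -w}) \ J.erase b = {b, u, w, -w, -u} := by
  ext x
  simp only [mem_sdiff, mem_union, mem_insert, mem_singleton, mem_erase]
  by_cases hxJ : x ∈ J
  · have e1 : x ≠ u := (covA_ne hd hu hxJ).symm
    have e2 : x ≠ -u := (covA_ne hd hu' hxJ).symm
    have e3 : x ≠ w := (covA_ne hd hw hxJ).symm
    have e4 : x ≠ -w := (covA_ne hd hw' hxJ).symm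
    tauto
  · have e1 : x ≠ b := by rintro rfl; exact hxJ hb
    tauto

/-- Richness of a symmetric family. -/
def RichV (V : Fin 3 → Finset G) (Θ : Finset G) (m : ℕ) (c : ℝ) : Prop :=
  ∀ (ι : Type) [Fintype ι], Fintype.card ι ≤ m → ∀ (v : ι → Fin 3 × G),
    (∀ x y, x ≠ y → ((v x).1 = 2 ↔ (v y).1 = 2) → (v x).2 - (v y).2 ∉ Θ) →
    c ≤ ((univ.filter fun t : G => ∀ x, (v x).2 + t ∈ V (v x).1).card : ℝ)

/-- The available units: symmetric, no elements of order two, `V 2` avoids `Θ`. -/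
def OKV (V : Fin 3 → Finset G) (Θ : Finset G) : Prop :=
  (∀ i, ∀ x ∈ V i, -x ∈ V i ∧ x + x ≠ 0) ∧ ∀ x ∈ V 2, x ∉ Θ

theorem pickV {V : Fin 3 → Finset G} {Θ : Finset G} {m : ℕ} {c : ℝ} (hR : RichV V Θ m c)
    (bad : Finset G) {ι : Type} [Fintype ι] (hι : Fintype.card ι ≤ m) (v : ι → Fin 3 × G)
    (hv : ∀ x y, x ≠ y → ((v x).1 = 2 ↔ (v y).1 = 2) → (v x).2 - (v y).2 ∉ Θ)
    (h : (bad.card : ℝ) < c) :
    ∃ t, t ∉ bad ∧ ∀ x, (v x).2 + t ∈ V (v x).1 := by
  have h1 := hR ι hι v hv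
  have h2 : bad.card < (univ.filter fun t : G => ∀ x, (v x).2 + t ∈ V (v x).1).card := by
    exact_mod_cast lt_of_lt_of_le h h1
  obtain ⟨t, ht, ht'⟩ := Finset.exists_mem_notMem_of_card_lt_card h2
  exact ⟨t, ht', (mem_filter.mp ht).2⟩

theorem stepAC {V : Fin 3 → Finset G} {Θ : Finset G} {c0 : ℝ} (hR : RichV V Θ 6 c0)
    (hV : OKV V Θ) (hΘ : ThOK Θ) {J : Fin 3 → Finset G} (hJ : ∀ i, Disjoint (J i) (V i))
    {a c : G} (ha : a ∈ J 0) (hc : c ∈ J 2) (hc0 : c ∉ Θ) (bad : Finset G)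
    (hb : (bad.card : ℝ) < c0) :
    ∃ t, t ∉ bad ∧ t ∈ V 1 ∧ c - t ∈ V 0 ∧ a + t ∈ V 2 ∧
      Red J (fun i => if i = 0 then insert (c - t) ((J 0).erase a) else
        if i = 2 then insert (a + t) ((J 2).erase c) else J 1)
        (fun i => if i = 0 then {c - t, -(c - t)} else if i = 2 then {a + t, -(a + t)} else
          {t, -t}) := by
  have hcn : -c ∉ Θ := fun h => hc0 (by simpa using hΘ.2.1 _ h)
  obtain ⟨t, htb, ht⟩ := pickV hR bad (ι := Fin 3) (by simp) ![(1, 0), (2, a), (0, -c)] (by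
    intro x y hxy h
    fin_cases x <;> fin_cases y <;> simp at hxy h ⊢ <;> assumption) hb
  have t1 : t ∈ V 1 := by simpa using ht 0
  have t2 : a + t ∈ V 2 := ht 1
  have t0 : c - t ∈ V 0 := by
    have h2 : -c + t ∈ V 0 := ht 2
    have := (hV.1 0 _ h2).1
    rwa [show -(-c + t) = c - t by abel] at this
  have m0 := hV.1 0 _ t0
  have m1 := hV.1 1 _ t1
  have m2 := hV.1 2 _ t2
  refine ⟨t, htb, t1, t0, t2, ?_, ?_, ?_⟩
  · intro i
    fin_cases i
    · exact covA_sub1 _ _ _
    · exact Finset.subset_union_left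
    · exact covA_sub1 _ _ _
  · intro i
    fin_cases i
    · exact covA_dis2 (hJ 0) t0 m0.1
    · exact covA_dis2 (hJ 1) t1 m1.1
    · exact covA_dis2 (hJ 2) t2 m2.1
  · refine covA_PM2 (fun i => if i = 0 then a else if i = 2 then -(a + t) else t)
      (fun i => if i = 0 then -(c - t) else if i = 2 then c else -t) ?_ ?_ ?_ ?_
    · intro i
      fin_cases i
      · exact covA_sd1 (hJ 0) ha t0 m0.1 m0.2
      · exact covA_sd0 (hJ 1) t1 m1.1
      · exact (covA_sd1 (hJ 2) hc t2 m2.1 m2.2).trans (Finset.pair_comm _ _)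
    · intro i
      fin_cases i
      · exact (covA_ne (hJ 0) m0.1 ha).symm
      · exact covA_neg_ne m1.2
      · exact covA_ne (hJ 2) m2.1 hc
    · first
        | (simp; done)
        | (simp; abel)
    · first
        | (simp; done)
        | (simp; abel)

theorem stepBC {V : Fin 3 → Finset G} {Θ : Finset G} {c0 : ℝ} (hR : RichV V Θ 6 c0)
    (hV : OKV V Θ) (hΘ : ThOK Θ) {J : Fin 3 → Finset G} (hJ : ∀ i, Disjoint (J i) (V i))
    {b c : G} (hb : b ∈ J 1) (hc : c ∈ J 2) (hc0 : c ∉ Θ) (bad : Finset G)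
    (hbad : (bad.card : ℝ) < c0) :
    ∃ t, t ∉ bad ∧ t ∈ V 0 ∧ c - t ∈ V 1 ∧ b + t ∈ V 2 ∧
      Red J (fun i => if i = 0 then J 0 else
        if i = 2 then insert (b + t) ((J 2).erase c) else insert (c - t) ((J 1).erase b))
        (fun i => if i = 0 then {t, -t} else if i = 2 then {b + t, -(b + t)} else
          {c - t, -(c - t)}) := by
  have hcn : -c ∉ Θ := fun h => hc0 (by simpa using hΘ.2.1 _ h)
  obtain ⟨t, htb, ht⟩ := pickV hR bad (ι := Fin 3) (by simp) ![(0, 0), (2, b), (1, -c)] (by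
    intro x y hxy h
    fin_cases x <;> fin_cases y <;> simp at hxy h ⊢ <;> assumption) hbad
  have t1 : t ∈ V 0 := by simpa using ht 0
  have t2 : b + t ∈ V 2 := ht 1
  have t0 : c - t ∈ V 1 := by
    have h2 : -c + t ∈ V 1 := ht 2
    have := (hV.1 1 _ h2).1
    rwa [show -(-c + t) = c - t by abel] at this
  have m0 := hV.1 1 _ t0
  have m1 := hV.1 0 _ t1
  have m2 := hV.1 2 _ t2
  refine ⟨t, htb, t1, t0, t2, ?_, ?_, ?_⟩
  · intro i
    fin_cases i
    · exact Finset.subset_union_left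
    · exact covA_sub1 _ _ _
    · exact covA_sub1 _ _ _
  · intro i
    fin_cases i
    · exact covA_dis2 (hJ 0) t1 m1.1
    · exact covA_dis2 (hJ 1) t0 m0.1
    · exact covA_dis2 (hJ 2) t2 m2.1
  · refine covA_PM2 (fun i => if i = 0 then t else if i = 2 then -(b + t) else b)
      (fun i => if i = 0 then -t else if i = 2 then c else -(c - t)) ?_ ?_ ?_ ?_
    · intro i
      fin_cases i
      · exact covA_sd0 (hJ 0) t1 m1.1
      · exact covA_sd1 (hJ 1) hb t0 m0.1 m0.2
      · exact (covA_sd1 (hJ 2) hc t2 m2.1 m2.2).trans (Finset.pair_comm _ _)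
    · intro i
      fin_cases i
      · exact covA_neg_ne m1.2
      · exact (covA_ne (hJ 1) m0.1 hb).symm
      · exact covA_ne (hJ 2) m2.1 hc
    · first
        | (simp; done)
        | (simp; abel)
    · first
        | (simp; done)
        | (simp; abel)

theorem stepD {V : Fin 3 → Finset G} {Θ : Finset G} {c0 : ℝ} (hR : RichV V Θ 6 c0)
    (hV : OKV V Θ) (hΘ : ThOK Θ) {J : Fin 3 → Finset G} (hJ : ∀ i, Disjoint (J i) (V i))
    (hc0 : 3 < c0) :
    ∃ U : Fin 3 → Finset G, (∀ i, ∃ u ∈ V i, U i = {u, -u}) ∧ Red J J U := by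
  have h0 : (((∅ : Finset G).card : ℕ) : ℝ) < c0 := by
    simp only [card_empty, Nat.cast_zero]; linarith
  obtain ⟨s, -, hs⟩ := pickV hR ∅ (ι := Fin 1) (by simp) ![(1, 0)] (by
    intro x y hxy h
    exact absurd (Subsingleton.elim x y) hxy) h0
  have s1 : s ∈ V 1 := by simpa using hs 0
  obtain ⟨t, -, ht⟩ := pickV hR ∅ (ι := Fin 2) (by simp) ![(0, 0), (2, s)] (by
    intro x y hxy h
    fin_cases x <;> fin_cases y <;> simp at hxy h) h0
  have t0 : t ∈ V 0 := by simpa using ht 0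
  have t2 : s + t ∈ V 2 := ht 1
  have m0 := hV.1 0 _ t0
  have m1 := hV.1 1 _ s1
  have m2 := hV.1 2 _ t2
  refine ⟨fun i => if i = 0 then {t, -t} else if i = 2 then {s + t, -(s + t)} else {s, -s},
    ?_, ?_, ?_, ?_⟩
  · intro i
    fin_cases i
    · exact ⟨t, t0, rfl⟩
    · exact ⟨s, s1, rfl⟩
    · exact ⟨s + t, t2, rfl⟩
  · intro i
    exact Finset.subset_union_left
  · intro i
    fin_cases i
    · exact covA_dis2 (hJ 0) t0 m0.1
    · exact covA_dis2 (hJ 1) s1 m1.1
    · exact covA_dis2 (hJ 2) t2 m2.1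
  · refine covA_PM2 (fun i => if i = 0 then t else if i = 2 then -(s + t) else s)
      (fun i => if i = 0 then -t else if i = 2 then s + t else -s) ?_ ?_ ?_ ?_
    · intro i
      fin_cases i
      · exact covA_sd0 (hJ 0) t0 m0.1
      · exact covA_sd0 (hJ 1) s1 m1.1
      · exact (covA_sd0 (hJ 2) t2 m2.1).trans (Finset.pair_comm _ _)
    · intro i
      fin_cases i
      · exact covA_neg_ne m0.2
      · exact covA_neg_ne m1.2
      · exact (covA_neg_ne m2.2).symm
    · simp only [if_true, show (1 : Fin 3) ≠ 0 from by decide, show (1 : Fin 3) ≠ 2 from by decide,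
        show (2 : Fin 3) ≠ 0 from by decide, if_false]
      abel
    · simp only [if_true, show (1 : Fin 3) ≠ 0 from by decide, show (1 : Fin 3) ≠ 2 from by decide,
        show (2 : Fin 3) ≠ 0 from by decide, if_false]
      abel

theorem stepM {V : Fin 3 → Finset G} {Θ : Finset G} {c0 : ℝ} (hR : RichV V Θ 6 c0)
    (hV : OKV V Θ) (hT : Tor2 G) (hΘ : ThOK Θ) {J : Fin 3 → Finset G}
    (hJ : ∀ i, Disjoint (J i) (V i)) {a1 a2 b c1 c2 : G} (ha1 : a1 ∈ J 0) (ha2 : a2 ∈ J 0)
    (hb : b ∈ J 1) (hc1 : c1 ∈ J 2) (hc2 : c2 ∈ J 2) (ha : a1 ≠ a2) (hc : c1 ≠ c2)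
    (g1 : a1 + b + c2 ∉ Θ) (g2 : a1 + b ∉ Θ) (g3 : c1 ∉ Θ) (g4 : c2 ∉ Θ)
    (g5 : a1 + b + c1 + c2 ∉ Θ) (g6 : a1 + b + c1 ∉ Θ) (g7 : a2 + b + c1 ∉ Θ) (hc0 : 6 < c0) :
    ∃ (U : Fin 3 → Finset G) (a' c' : G),
      (∀ i, ∃ u ∈ V i, ∃ u' ∈ V i, u ≠ u' ∧ u ≠ -u' ∧ U i = {u, -u, u', -u'}) ∧
      a' ∈ U 0 ∧ c' ∈ U 2 ∧
      Red J (fun i => if i = 0 then insert a' (((J 0).erase a1).erase a2) else
        if i = 2 then insert c' (((J 2).erase c1).erase c2) else (J 1).erase b) U := by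
  have hneg : ∀ x : G, x ∉ Θ → -x ∉ Θ := fun x hx h => hx (by simpa using hΘ.2.1 _ h)
  obtain ⟨t, htb, ht⟩ := pickV hR
    ((univ.filter fun t : G => t + t = -(a1 + b + c2)) ∪
      (univ.filter fun t : G => t + t = c1 - (a1 + b)) ∪
      (univ.filter fun t : G => t + t = a2 + c1 - b)) (ι := Fin 6) (by simp)
    ![(0, 0), (0, a1 + b + c2), (1, a1 + b), (1, -c1), (2, b), (2, -(a2 + c1))] (by
      have r1 := hneg _ g1
      have r2 := hneg _ g2
      have r3 := hneg _ g3
      have r4 := hneg _ g4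
      have r5 := hneg _ g5
      have r6 := hneg _ g6
      have r7 := hneg _ g7
      intro x y hxy h
      fin_cases x <;> fin_cases y <;> first
        | exact absurd rfl hxy
        | (simp at h; done)
        | skip
      · show (0 : G) - (a1 + b + c2) ∉ Θ
        rwa [zero_sub]
      · show (0 : G) - (a1 + b) ∉ Θ
        rwa [zero_sub]
      · show (0 : G) - (-c1) ∉ Θ
        rwa [zero_sub, neg_neg]
      · show (a1 + b + c2) - (0 : G) ∉ Θ
        rwa [sub_zero]
      · show (a1 + b + c2) - (a1 + b) ∉ Θ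
        rwa [add_sub_cancel_left]
      · show (a1 + b + c2) - (-c1) ∉ Θ
        rwa [show (a1 + b + c2) - (-c1) = a1 + b + c1 + c2 by abel]
      · show (a1 + b) - (0 : G) ∉ Θ
        rwa [sub_zero]
      · show (a1 + b) - (a1 + b + c2) ∉ Θ
        rwa [show (a1 + b) - (a1 + b + c2) = -c2 by abel]
      · show (a1 + b) - (-c1) ∉ Θ
        rwa [show (a1 + b) - (-c1) = a1 + b + c1 by abel]
      · show (-c1) - (0 : G) ∉ Θ
        rwa [sub_zero]
      · show (-c1) - (a1 + b + c2) ∉ Θ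
        rwa [show (-c1) - (a1 + b + c2) = -(a1 + b + c1 + c2) by abel]
      · show (-c1) - (a1 + b) ∉ Θ
        rwa [show (-c1) - (a1 + b) = -(a1 + b + c1) by abel]
      · show b - (-(a2 + c1)) ∉ Θ
        rwa [show b - (-(a2 + c1)) = a2 + b + c1 by abel]
      · show (-(a2 + c1)) - b ∉ Θ
        rwa [show (-(a2 + c1)) - b = -(a2 + b + c1) by abel]) (by
      refine lt_of_le_of_lt ?_ hc0
      have k1 := Finset.card_union_le ((univ.filter fun t : G => t + t = -(a1 + b + c2)) ∪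
        (univ.filter fun t : G => t + t = c1 - (a1 + b)))
        (univ.filter fun t : G => t + t = a2 + c1 - b)
      have k2 := Finset.card_union_le (univ.filter fun t : G => t + t = -(a1 + b + c2))
        (univ.filter fun t : G => t + t = c1 - (a1 + b))
      have k3 := hT (-(a1 + b + c2))
      have k4 := hT (c1 - (a1 + b))
      have k5 := hT (a2 + c1 - b)
      have k6 : (((univ.filter fun t : G => t + t = -(a1 + b + c2)) ∪
        (univ.filter fun t : G => t + t = c1 - (a1 + b)) ∪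
        (univ.filter fun t : G => t + t = a2 + c1 - b)).card) ≤ 6 := by omega
      exact_mod_cast k6)
  simp only [mem_union, mem_filter, mem_univ, true_and, not_or] at htb
  obtain ⟨⟨b1, b2⟩, b3⟩ := htb
  have p0 : t ∈ V 0 := by simpa using ht 0
  have p0' : -(a1 + b + c2 + t) ∈ V 0 := (hV.1 0 _ (ht 1)).1
  have p1 : -(a1 + b + t) ∈ V 1 := (hV.1 1 _ (ht 2)).1
  have p1' : t - c1 ∈ V 1 := by
    have : -c1 + t ∈ V 1 := ht 3
    rwa [neg_add_eq_sub] at this
  have p2 : -(b + t) ∈ V 2 := (hV.1 2 _ (ht 4)).1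
  have p2' : t - (a2 + c1) ∈ V 2 := by
    have : -(a2 + c1) + t ∈ V 2 := ht 5
    rwa [neg_add_eq_sub] at this
  have z1 : a1 + b + c2 ≠ 0 := fun h => g1 (h ▸ hΘ.1)
  have z2 : a1 + b + c1 ≠ 0 := fun h => g6 (h ▸ hΘ.1)
  have z3 : a2 + b + c1 ≠ 0 := fun h => g7 (h ▸ hΘ.1)
  generalize hα : -(a1 + b + c2 + t) = α' at p0'
  generalize hβ : -(a1 + b + t) = β at p1
  generalize hβ' : t - c1 = β' at p1'
  generalize hγ : -(b + t) = γ at p2
  generalize hγ' : t - (a2 + c1) = γ' at p2'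
  have d1 : t ≠ α' := by
    intro h
    apply b1
    rw [← h] at hα
    rw [← sub_eq_zero] at hα ⊢
    rw [← neg_eq_zero, ← hα]
    abel
  have d2 : t ≠ -α' := by
    intro h
    apply z1
    rw [← hα] at h
    rw [← sub_eq_zero] at h
    rw [← neg_eq_zero, ← h]
    abel
  have d3 : β ≠ β' := by
    intro h
    apply b2
    rw [← hβ, ← hβ', ← sub_eq_zero] at h
    rw [← sub_eq_zero, ← neg_eq_zero, ← h]
    abel
  have d4 : β ≠ -β' := by
    intro h
    apply z2
    rw [← hβ, ← hβ', ← sub_eq_zero] at h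
    rw [← neg_eq_zero, ← h]
    abel
  have d5 : γ ≠ γ' := by
    intro h
    apply b3
    rw [← hγ, ← hγ', ← sub_eq_zero] at h
    rw [← sub_eq_zero, ← neg_eq_zero, ← h]
    abel
  have d6 : γ ≠ -γ' := by
    intro h
    apply z3
    rw [← hγ, ← hγ', ← sub_eq_zero] at h
    rw [← neg_eq_zero, ← h]
    abel
  have q0 := hV.1 0 _ p0
  have q0' := hV.1 0 _ p0'
  have q1 := hV.1 1 _ p1
  have q1' := hV.1 1 _ p1'
  have q2 := hV.1 2 _ p2
  have q2' := hV.1 2 _ p2'
  have e1 : -t ≠ α' := fun h => d2 (by rw [← h, neg_neg])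
  have e2 : -γ ≠ γ' := fun h => d6 (by rw [← h, neg_neg])
  have e3 : -β ≠ β' := fun h => d4 (by rw [← h, neg_neg])
  refine ⟨fun i => if i = 0 then {t, -t, α', -α'} else if i = 2 then {γ, -γ, γ', -γ'} else
    {β, -β, β', -β'}, -α', -γ', ?_, ?_, ?_, ?_, ?_, ?_⟩
  · intro i
    fin_cases i
    · exact ⟨t, p0, α', p0', d1, d2, rfl⟩
    · exact ⟨β, p1, β', p1', d3, d4, rfl⟩
    · exact ⟨γ, p2, γ', p2', d5, d6, rfl⟩
  · simp
  · simp
  · intro i
    fin_cases i
    · exact covA_sub2 _ _ _ _ _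
    · exact (Finset.erase_subset _ _).trans Finset.subset_union_left
    · exact covA_sub2 _ _ _ _ _
  · intro i
    fin_cases i
    · exact covA_dis4 (hJ 0) p0 q0.1 p0' q0'.1
    · exact covA_dis4 (hJ 1) p1 q1.1 p1' q1'.1
    · exact covA_dis4 (hJ 2) p2 q2.1 p2' q2'.1
  · refine covA_PM5 (fun i => if i = 0 then t else if i = 2 then γ else b)
      (fun i => if i = 0 then a1 else if i = 2 then -γ else β)
      (fun i => if i = 0 then -t else if i = 2 then c1 else β')
      (fun i => if i = 0 then a2 else if i = 2 then γ' else -β')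
      (fun i => if i = 0 then α' else if i = 2 then c2 else -β) ?_ ?_ ?_ ?_ ?_ ?_ ?_
    · intro i
      fin_cases i
      · exact covA_sd2a (hJ 0) ha1 ha2 p0 q0.1 p0' q0'.1 d1 d2 q0'.2
      · exact covA_sd2b (hJ 1) hb p1 q1.1 p1' q1'.1
      · refine (covA_sd2a (hJ 2) hc1 hc2 p2 q2.1 p2' q2'.1 d5 d6 q2'.2).trans ?_
        ext x
        simp only [mem_insert, mem_singleton]
        show _ ↔ x = γ ∨ x = -γ ∨ x = c1 ∨ x = γ' ∨ x = c2
        tauto
    · intro i
      fin_cases i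
      · show [t, a1, -t, a2, α'].Nodup
        have f1 := covA_ne (hJ 0) p0 ha1
        have f2 := covA_ne (hJ 0) p0 ha2
        have f3 := (covA_ne (hJ 0) q0.1 ha1).symm
        have f4 := covA_ne (hJ 0) q0.1 ha2
        have f5 := (covA_ne (hJ 0) p0' ha1).symm
        have f6 := (covA_ne (hJ 0) p0' ha2).symm
        have f7 := covA_neg_ne q0.2
        simp only [List.nodup_cons, List.mem_cons, List.not_mem_nil, or_false, not_or,
          List.nodup_nil, and_true, not_false_eq_true]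
        exact ⟨⟨f1, f7, f2, d1⟩, ⟨f3, ha, f5⟩, ⟨f4, e1⟩, f6⟩
      · show [b, β, β', -β', -β].Nodup
        have f1 := (covA_ne (hJ 1) p1 hb).symm
        have f2 := (covA_ne (hJ 1) p1' hb).symm
        have f3 := (covA_ne (hJ 1) q1.1 hb).symm
        have f4 := (covA_ne (hJ 1) q1'.1 hb).symm
        have f7 := covA_neg_ne q1.2
        have f8 := covA_neg_ne q1'.2
        have f9 : -β' ≠ -β := fun h => d3 (neg_injective h).symm
        simp only [List.nodup_cons, List.mem_cons, List.not_mem_nil, or_false, not_or,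
          List.nodup_nil, and_true, not_false_eq_true]
        exact ⟨⟨f1, f2, f4, f3⟩, ⟨d3, d4, f7⟩, ⟨f8, e3.symm⟩, f9⟩
      · show [γ, -γ, c1, γ', c2].Nodup
        have f1 := covA_ne (hJ 2) p2 hc1
        have f2 := covA_ne (hJ 2) p2 hc2
        have f3 := covA_ne (hJ 2) q2.1 hc1
        have f4 := covA_ne (hJ 2) q2.1 hc2
        have f5 := (covA_ne (hJ 2) p2' hc1).symm
        have f6 := covA_ne (hJ 2) p2' hc2
        have f7 := covA_neg_ne q2.2
        simp only [List.nodup_cons, List.mem_cons, List.not_mem_nil, or_false, not_or,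
          List.nodup_nil, and_true, not_false_eq_true]
        exact ⟨⟨f7, f1, d5, f2⟩, ⟨f3, e2, f4⟩, ⟨f5, hc⟩, f6⟩
    · show t + b + γ = 0
      rw [← hγ]; abel
    · show a1 + β + -γ = 0
      rw [← hγ, ← hβ]; abel
    · show -t + β' + c1 = 0
      rw [← hβ']; abel
    · show a2 + -β' + γ' = 0
      rw [← hβ', ← hγ']; abel
    · show α' + -β + c2 = 0
      rw [← hα, ← hβ]; abel

end Pool.Agent.H60.HL
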