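import Pool.Agent.H60.HL.CovA

/-!
# HL-19 CovB: covering the junk

`richV_sdiff`: each of the at most six places loses at most `u` values of `t`.
`macroStep`: four steps, each with `V` replaced by `V \ U` for the units `U` used before
(`richV_sdiff`; `OKV` is inherited because the sets `U i` are symmetric; the current junk is contained in
`J ∪ U`, so it stays disjoint from `V \ U`); compose them with `Red_trans`.
(R1) `stepAC` with `(a2, c2)`, parameter `t₁`: `a2' = c2 - t₁`, `c2' = a2 + t₁`; `t₁` outside the at most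
`6` values with `a1+a2+b+c1+t₁ ∈ Θ` or `c2-t₁+b+c1 ∈ Θ`.
(R2) `stepBC` with `(b, c1)`, parameter `t₂`: `b' = c1 - t₂`, `c1' = b + t₂`; `t₂` outside the values with
`a1+a2+c1+t₁-t₂ ∈ Θ`.
(R3) `stepAC` with `(a1, c2')`, parameter `t₃`: `a1' = c2' - t₃`, `c2'' = a1 + t₃`; `t₃` outside the values
with `c2'-t₃+b' ∈ Θ` or `c2'-t₃+b'+c1' ∈ Θ`.
(M) `stepM` with `(a1', a2', b', c1', c2'')`.  Its hypotheses:
`g1`: `a1'+b'+c2'' = a1+a2+c1+t₁-t₂`; `g2`: `a1'+b' = c2'-t₃+b'`; `g3`, `g4`: `c1', c2'' ∈ V 2`, so not in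
`Θ`; `g5`: `a1'+b'+c1'+c2'' = a1+a2+b+c1+t₁`; `g6`: `c2'-t₃+b'+c1'`; `g7`: `a2'+b'+c1' = c2-t₁+b+c1`.
`a1' ≠ a2'`: they lie in the unit pairs of different steps; the same for `c1' ≠ c2''`.
Every type has used one unit in each of R1, R2, R3 and two in M: `10` elements.
The new junk of the type `2` is in the old one or in `V 2`, so it avoids `Θ`.
`cover`: induction on `r` (for all `V`, `c0`, `J`).  `r = 0`: `J 1 = ∅`, `J 0 = {x}`, `J 2 = {z}`,
`U = ∅`, `PM_empty`.  `r + 1`: if `J 1 = ∅` use `stepD` five times (`J` does not change), otherwise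
`macroStep`; then the induction hypothesis for `V \ U` and `r`; `c0` drops by at most `60`.
`Red J J' U` and the final `PM` for `J'`, `U'` combine as in `Red_trans` (or state the induction with
`Red J {x}, ∅, {z}`).
-/

namespace Pool.Agent.H60.HL

open Finset Classical

variable {G : Type} [AddCommGroup G] [Fintype G]

theorem richV_sdiff {V : Fin 3 → Finset G} {Θ : Finset G} {c0 : ℝ} (hR : RichV V Θ 6 c0)
    (U : Fin 3 → Finset G) (u : ℕ) (hU : ∀ i, (U i).card ≤ u) :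
    RichV (fun i => V i \ U i) Θ 6 (c0 - 6 * u) := by
  intro ι _ hι v hv
  have h1 := hR ι hι v hv
  have hsub : (univ.filter fun t : G => ∀ x, (v x).2 + t ∈ V (v x).1) ⊆
      (univ.filter fun t : G => ∀ x, (v x).2 + t ∈ V (v x).1 \ U (v x).1) ∪
      (univ : Finset ι).biUnion (fun x => univ.filter fun t : G => (v x).2 + t ∈ U (v x).1) := by
    intro t ht
    rw [mem_filter] at ht
    rw [mem_union, mem_filter, mem_biUnion]
    by_cases h : ∃ x, (v x).2 + t ∈ U (v x).1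
    · obtain ⟨x, hx⟩ := h
      right
      exact ⟨x, mem_univ _, by rw [mem_filter]; exact ⟨mem_univ _, hx⟩⟩
    · left
      push Not at h
      refine ⟨mem_univ _, fun x => ?_⟩
      rw [mem_sdiff]
      exact ⟨ht.2 x, h x⟩
  have hx : ∀ x : ι, (univ.filter fun t : G => (v x).2 + t ∈ U (v x).1).card ≤ u := by
    intro x
    refine le_trans ?_ (hU (v x).1)
    refine card_le_card_of_injOn (fun t => (v x).2 + t) ?_ ?_
    · intro t ht
      rw [mem_coe, mem_filter] at ht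
      exact ht.2
    · intro t _ t' _ h
      exact add_left_cancel h
  have h2 := card_le_card hsub
  have h3 := h2.trans (card_union_le _ _)
  have h4 : ((univ : Finset ι).biUnion
      (fun x => univ.filter fun t : G => (v x).2 + t ∈ U (v x).1)).card ≤ 6 * u := by
    refine le_trans card_biUnion_le ?_
    refine le_trans (sum_le_sum fun x _ => hx x) ?_
    rw [sum_const, card_univ, smul_eq_mul]
    exact Nat.mul_le_mul_right u hι
  have h5 : ((univ.filter fun t : G => ∀ x, (v x).2 + t ∈ V (v x).1).card : ℝ) ≤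
      ((univ.filter fun t : G => ∀ x, (v x).2 + t ∈ V (v x).1 \ U (v x).1).card : ℝ) + 6 * u := by
    exact_mod_cast h3.trans (Nat.add_le_add_left h4 _)
  linarith

set_option linter.unusedSectionVars false

/-- One reduction step inside `V` with exactly `k` unit elements of every type. -/
private def CovB_Stp (V J J' U : Fin 3 → Finset G) (k : ℕ) : Prop :=
  (∀ i, U i ⊆ V i ∧ (∀ y ∈ U i, -y ∈ U i) ∧ (U i).card = k) ∧ Red J J' U

private theorem CovB_trans {V J J1 J2 U1 U2 : Fin 3 → Finset G} {k1 k2 : ℕ}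
    (hJ : ∀ i, Disjoint (J i) (V i)) (h1 : CovB_Stp V J J1 U1 k1)
    (h2 : CovB_Stp (fun i => V i \ U1 i) J1 J2 U2 k2) :
    CovB_Stp V J J2 (fun i => U1 i ∪ U2 i) (k1 + k2) := by
  have hd : ∀ i, Disjoint (U2 i) (J i ∪ U1 i) := by
    intro i
    rw [disjoint_union_right]
    constructor
    · exact (disjoint_of_subset_right
        ((h2.1 i).1.trans sdiff_subset) (hJ i)).symm
    · exact disjoint_of_subset_left (h2.1 i).1 sdiff_disjoint
  refine ⟨fun i => ⟨?_, ?_, ?_⟩, Red_trans h1.2 h2.2 hd⟩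
  · exact union_subset (h1.1 i).1 ((h2.1 i).1.trans sdiff_subset)
  · intro y hy
    rw [mem_union] at hy ⊢
    rcases hy with hy | hy
    · exact Or.inl ((h1.1 i).2.1 y hy)
    · exact Or.inr ((h2.1 i).2.1 y hy)
  · show (U1 i ∪ U2 i).card = k1 + k2
    rw [card_union_of_disjoint ((disjoint_union_right.1 (hd i)).2).symm, (h1.1 i).2.2,
      (h2.1 i).2.2]

private theorem CovB_rich {V J J1 U1 : Fin 3 → Finset G} {k1 : ℕ} {Θ : Finset G} {c0 : ℝ}
    (hR : RichV V Θ 6 c0) (h1 : CovB_Stp V J J1 U1 k1) :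
    RichV (fun i => V i \ U1 i) Θ 6 (c0 - 6 * k1) :=
  richV_sdiff hR U1 k1 fun i => (h1.1 i).2.2.le

private theorem CovB_ok {V J J1 U1 : Fin 3 → Finset G} {k1 : ℕ} {Θ : Finset G}
    (hV : OKV V Θ) (h1 : CovB_Stp V J J1 U1 k1) : OKV (fun i => V i \ U1 i) Θ := by
  refine ⟨fun i x hx => ?_, fun x hx => ?_⟩
  · rw [mem_sdiff] at hx
    refine ⟨?_, (hV.1 i x hx.1).2⟩
    rw [mem_sdiff]
    refine ⟨(hV.1 i x hx.1).1, fun h => hx.2 ?_⟩
    have := (h1.1 i).2.1 _ h
    rwa [neg_neg] at this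
  · rw [mem_sdiff] at hx
    exact hV.2 x hx.1

private theorem CovB_disj {V J J1 U1 : Fin 3 → Finset G} {k1 : ℕ}
    (hJ : ∀ i, Disjoint (J i) (V i)) (h1 : CovB_Stp V J J1 U1 k1) :
    ∀ i, Disjoint (J1 i) (V i \ U1 i) := by
  intro i
  refine disjoint_of_subset_left (h1.2.1 i) ?_
  rw [disjoint_union_left]
  exact ⟨disjoint_of_subset_right sdiff_subset (hJ i), disjoint_sdiff⟩

private theorem CovB_pair {V : Fin 3 → Finset G} {Θ : Finset G} (hV : OKV V Θ) {i : Fin 3} {u : G}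
    (hu : u ∈ V i) : ({u, -u} : Finset G) ⊆ V i ∧ (∀ y ∈ ({u, -u} : Finset G),
      -y ∈ ({u, -u} : Finset G)) ∧ ({u, -u} : Finset G).card = 2 := by
  have h := hV.1 i u hu
  refine ⟨?_, ?_, ?_⟩
  · intro y hy
    rw [mem_insert, mem_singleton] at hy
    rcases hy with rfl | rfl
    · exact hu
    · exact h.1
  · intro y hy
    rw [mem_insert, mem_singleton] at hy ⊢
    rcases hy with rfl | rfl
    · exact Or.inr rfl
    · exact Or.inl (neg_neg _)
  · refine card_pair fun he => h.2 ?_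
    nth_rewrite 2 [he]
    exact add_neg_cancel u

private theorem CovB_quad {V : Fin 3 → Finset G} {Θ : Finset G} (hV : OKV V Θ) {i : Fin 3}
    {u u' : G} (hu : u ∈ V i) (hu' : u' ∈ V i) (h1 : u ≠ u') (h2 : u ≠ -u') :
    ({u, -u, u', -u'} : Finset G) ⊆ V i ∧ (∀ y ∈ ({u, -u, u', -u'} : Finset G),
      -y ∈ ({u, -u, u', -u'} : Finset G)) ∧ ({u, -u, u', -u'} : Finset G).card = 4 := by
  have e : ({u, -u, u', -u'} : Finset G) = {u, -u} ∪ {u', -u'} := by
    ext x
    simp only [mem_insert, mem_singleton, mem_union]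
    tauto
  have hp := CovB_pair hV hu
  have hp' := CovB_pair hV hu'
  rw [e]
  refine ⟨union_subset hp.1 hp'.1, ?_, ?_⟩
  · intro y hy
    rw [mem_union] at hy ⊢
    rcases hy with hy | hy
    · exact Or.inl (hp.2.1 y hy)
    · exact Or.inr (hp'.2.1 y hy)
  · rw [card_union_of_disjoint, hp.2.2, hp'.2.2]
    rw [disjoint_left]
    intro y hy hy'
    rw [mem_insert, mem_singleton] at hy hy'
    rcases hy with rfl | rfl
    · rcases hy' with h | h
      · exact h1 h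
      · exact h2 h
    · rcases hy' with h | h
      · exact h2 (by rw [← h, neg_neg])
      · exact h1 (neg_injective h)

/-- The bad parameters `t` with `k + t ∈ Θ`. -/
private noncomputable def CovB_badP (Θ : Finset G) (k : G) : Finset G := Θ.image fun x => x - k

private theorem CovB_badP_card (Θ : Finset G) (k : G) : (CovB_badP Θ k).card ≤ Θ.card :=
  card_image_le

private theorem CovB_badP_not {Θ : Finset G} {k t : G} (h : t ∉ CovB_badP Θ k) : k + t ∉ Θ := by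
  intro hk
  refine h ?_
  rw [CovB_badP, mem_image]
  exact ⟨k + t, hk, by abel⟩

/-- The bad parameters `t` with `k - t ∈ Θ`. -/
private noncomputable def CovB_badM (Θ : Finset G) (k : G) : Finset G := Θ.image fun x => k - x

private theorem CovB_badM_card (Θ : Finset G) (k : G) : (CovB_badM Θ k).card ≤ Θ.card :=
  card_image_le

private theorem CovB_badM_not {Θ : Finset G} {k t : G} (h : t ∉ CovB_badM Θ k) : k - t ∉ Θ := by
  intro hk
  refine h ?_
  rw [CovB_badM, mem_image]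
  exact ⟨k - t, hk, by abel⟩

private theorem CovB_union_card {A B : Finset G} (hA : A.card ≤ 3) (hB : B.card ≤ 3) :
    ((A ∪ B).card : ℝ) ≤ 6 := by
  exact_mod_cast (card_union_le _ _).trans (Nat.add_le_add hA hB)

private theorem CovB_AC {V : Fin 3 → Finset G} {Θ : Finset G} {c0 : ℝ} (hR : RichV V Θ 6 c0)
    (hV : OKV V Θ) (hΘ : ThOK Θ) {J : Fin 3 → Finset G} (hJ : ∀ i, Disjoint (J i) (V i))
    {a c : G} (ha : a ∈ J 0) (hc : c ∈ J 2) (hc0 : c ∉ Θ) (bad : Finset G)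
    (hb : (bad.card : ℝ) < c0) :
    ∃ (t : G) (J' U : Fin 3 → Finset G), t ∉ bad ∧ t ∈ V 1 ∧ c - t ∈ V 0 ∧ a + t ∈ V 2 ∧
      c - t ∈ U 0 ∧ a + t ∈ U 2 ∧
      J' 0 = insert (c - t) ((J 0).erase a) ∧ J' 1 = J 1 ∧
      J' 2 = insert (a + t) ((J 2).erase c) ∧ (∀ i, (J' i).card = (J i).card) ∧
      CovB_Stp V J J' U 2 := by
  obtain ⟨t, h1, h2, h3, h4, h5⟩ := stepAC hR hV hΘ hJ ha hc hc0 bad hb
  refine ⟨t, (fun i => if i = 0 then insert (c - t) ((J 0).erase a) else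
        if i = 2 then insert (a + t) ((J 2).erase c) else J 1),
        (fun i => if i = 0 then {c - t, -(c - t)} else if i = 2 then {a + t, -(a + t)} else
          {t, -t}), h1, h2, h3, h4, ?_, ?_, rfl, rfl, rfl, ?_, ?_, h5⟩
  · show c - t ∈ ({c - t, -(c - t)} : Finset G)
    exact mem_insert_self _ _
  · show a + t ∈ ({a + t, -(a + t)} : Finset G)
    exact mem_insert_self _ _
  · intro i
    fin_cases i
    · show (insert (c - t) ((J 0).erase a)).card = (J 0).card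
      rw [card_insert_of_notMem, card_erase_add_one ha]
      intro h
      exact disjoint_left.1 (hJ 0) (mem_of_mem_erase h) h3
    · rfl
    · show (insert (a + t) ((J 2).erase c)).card = (J 2).card
      rw [card_insert_of_notMem, card_erase_add_one hc]
      intro h
      exact disjoint_left.1 (hJ 2) (mem_of_mem_erase h) h4
  · intro i
    fin_cases i
    · exact CovB_pair hV h3
    · exact CovB_pair hV h2
    · exact CovB_pair hV h4

private theorem CovB_BC {V : Fin 3 → Finset G} {Θ : Finset G} {c0 : ℝ} (hR : RichV V Θ 6 c0)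
    (hV : OKV V Θ) (hΘ : ThOK Θ) {J : Fin 3 → Finset G} (hJ : ∀ i, Disjoint (J i) (V i))
    {b c : G} (hb : b ∈ J 1) (hc : c ∈ J 2) (hc0 : c ∉ Θ) (bad : Finset G)
    (hbad : (bad.card : ℝ) < c0) :
    ∃ (t : G) (J' U : Fin 3 → Finset G), t ∉ bad ∧ t ∈ V 0 ∧ c - t ∈ V 1 ∧ b + t ∈ V 2 ∧
      b + t ∈ U 2 ∧
      J' 0 = J 0 ∧ J' 1 = insert (c - t) ((J 1).erase b) ∧
      J' 2 = insert (b + t) ((J 2).erase c) ∧ (∀ i, (J' i).card = (J i).card) ∧
      CovB_Stp V J J' U 2 := by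
  obtain ⟨t, h1, h2, h3, h4, h5⟩ := stepBC hR hV hΘ hJ hb hc hc0 bad hbad
  refine ⟨t, (fun i => if i = 0 then J 0 else
        if i = 2 then insert (b + t) ((J 2).erase c) else insert (c - t) ((J 1).erase b)),
        (fun i => if i = 0 then {t, -t} else if i = 2 then {b + t, -(b + t)} else
          {c - t, -(c - t)}), h1, h2, h3, h4, ?_, rfl, rfl, rfl, ?_, ?_, h5⟩
  · show b + t ∈ ({b + t, -(b + t)} : Finset G)
    exact mem_insert_self _ _
  · intro i
    fin_cases i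
    · rfl
    · show (insert (c - t) ((J 1).erase b)).card = (J 1).card
      rw [card_insert_of_notMem, card_erase_add_one hb]
      intro h
      exact disjoint_left.1 (hJ 1) (mem_of_mem_erase h) h3
    · show (insert (b + t) ((J 2).erase c)).card = (J 2).card
      rw [card_insert_of_notMem, card_erase_add_one hc]
      intro h
      exact disjoint_left.1 (hJ 2) (mem_of_mem_erase h) h4
  · intro i
    fin_cases i
    · exact CovB_pair hV h2
    · exact CovB_pair hV h3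
    · exact CovB_pair hV h4

private theorem CovB_M {V : Fin 3 → Finset G} {Θ : Finset G} {c0 : ℝ} (hR : RichV V Θ 6 c0)
    (hV : OKV V Θ) (hT : Tor2 G) (hΘ : ThOK Θ) {J : Fin 3 → Finset G}
    (hJ : ∀ i, Disjoint (J i) (V i)) {a1 a2 b c1 c2 : G} (ha1 : a1 ∈ J 0) (ha2 : a2 ∈ J 0)
    (hb : b ∈ J 1) (hc1 : c1 ∈ J 2) (hc2 : c2 ∈ J 2) (ha : a1 ≠ a2) (hc : c1 ≠ c2)
    (g1 : a1 + b + c2 ∉ Θ) (g2 : a1 + b ∉ Θ) (g3 : c1 ∉ Θ) (g4 : c2 ∉ Θ)
    (g5 : a1 + b + c1 + c2 ∉ Θ) (g6 : a1 + b + c1 ∉ Θ) (g7 : a2 + b + c1 ∉ Θ) (hc0 : 6 < c0) :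
    ∃ (J' U : Fin 3 → Finset G), (∀ i, (J' i).card + 1 = (J i).card) ∧ CovB_Stp V J J' U 4 := by
  obtain ⟨U, a', c', hU, ha', hc', h⟩ :=
    stepM hR hV hT hΘ hJ ha1 ha2 hb hc1 hc2 ha hc g1 g2 g3 g4 g5 g6 g7 hc0
  refine ⟨(fun i => if i = 0 then insert a' (((J 0).erase a1).erase a2) else
        if i = 2 then insert c' (((J 2).erase c1).erase c2) else (J 1).erase b), U, ?_, ?_, h⟩
  · intro i
    fin_cases i
    · show (insert a' (((J 0).erase a1).erase a2)).card + 1 = (J 0).card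
      have h2 : a2 ∈ (J 0).erase a1 := mem_erase.2 ⟨ha.symm, ha2⟩
      rw [card_insert_of_notMem, card_erase_add_one h2, card_erase_add_one ha1]
      intro h'
      exact disjoint_left.1 (h.2.1 0) (mem_of_mem_erase (mem_of_mem_erase h')) ha'
    · show ((J 1).erase b).card + 1 = (J 1).card
      exact card_erase_add_one hb
    · show (insert c' (((J 2).erase c1).erase c2)).card + 1 = (J 2).card
      have h2 : c2 ∈ (J 2).erase c1 := mem_erase.2 ⟨hc.symm, hc2⟩
      rw [card_insert_of_notMem, card_erase_add_one h2, card_erase_add_one hc1]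
      intro h'
      exact disjoint_left.1 (h.2.1 2) (mem_of_mem_erase (mem_of_mem_erase h')) hc'
  · intro i
    obtain ⟨u, hu, u', hu', h1, h2, h3⟩ := hU i
    rw [h3]
    exact CovB_quad hV hu hu' h1 h2

theorem macroStep {V : Fin 3 → Finset G} {Θ : Finset G} {c0 : ℝ} (hR : RichV V Θ 6 c0)
    (hV : OKV V Θ) (hT : Tor2 G) (hΘ : ThOK Θ) {J : Fin 3 → Finset G}
    (hJ : ∀ i, Disjoint (J i) (V i)) (hJΘ : ∀ x ∈ J 2, x ∉ Θ) {a1 a2 b c1 c2 : G}
    (ha1 : a1 ∈ J 0) (ha2 : a2 ∈ J 0) (hb : b ∈ J 1) (hc1 : c1 ∈ J 2) (hc2 : c2 ∈ J 2)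
    (ha : a1 ≠ a2) (hc : c1 ≠ c2) (hc0 : 200 ≤ c0) :
    ∃ U J' : Fin 3 → Finset G,
      (∀ i, U i ⊆ V i ∧ (∀ y ∈ U i, -y ∈ U i) ∧ (U i).card = 10) ∧ Red J J' U ∧
      (∀ i, (J' i).card + 1 = (J i).card) ∧ ∀ x ∈ J' 2, x ∉ Θ := by
  have hcard := hΘ.2.2
  -- R1
  obtain ⟨t1, J1, U1, hb1, -, hV1a, hV1c, hU1a, hU1c, e10, e11, e12, hk1, s1⟩ :=
    CovB_AC hR hV hΘ hJ ha2 hc2 (hJΘ c2 hc2)
      (CovB_badP Θ (a1 + a2 + b + c1) ∪ CovB_badM Θ (c2 + b + c1))
      (by
        have := CovB_union_card ((CovB_badP_card Θ (a1 + a2 + b + c1)).trans hcard)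
          ((CovB_badM_card Θ (c2 + b + c1)).trans hcard)
        push_cast
        linarith)
  rw [mem_union, not_or] at hb1
  have q1 := CovB_badP_not hb1.1
  have q2 := CovB_badM_not hb1.2
  have hR1 := CovB_rich hR s1
  have hV1 := CovB_ok hV s1
  have hJ1 := CovB_disj hJ s1
  -- R2
  have hb' : b ∈ J1 1 := by rw [e11]; exact hb
  have hc1' : c1 ∈ J1 2 := by
    rw [e12]
    exact mem_insert_of_mem (mem_erase.2 ⟨hc, hc1⟩)
  obtain ⟨t2, J2, U2, hb2, -, hV2b, hV2c, hU2c, e20, e21, e22, hk2, s2⟩ :=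
    CovB_BC hR1 hV1 hΘ hJ1 hb' hc1' (hJΘ c1 hc1) (CovB_badM Θ (a1 + a2 + c1 + t1))
      (by
        have : ((CovB_badM Θ (a1 + a2 + c1 + t1)).card : ℝ) ≤ 3 := by
          exact_mod_cast (CovB_badM_card Θ (a1 + a2 + c1 + t1)).trans hcard
        push_cast
        linarith)
  have q3 := CovB_badM_not hb2
  have hR2 := CovB_rich hR1 s2
  have hV2 := CovB_ok hV1 s2
  have hJ2 := CovB_disj hJ1 s2
  -- R3
  have ha1' : a1 ∈ J2 0 := by
    rw [e20, e10]
    exact mem_insert_of_mem (mem_erase.2 ⟨ha, ha1⟩)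
  have hne1 : a2 + t1 ≠ c1 := by
    intro h
    exact disjoint_left.1 (hJ 2) hc1 (h ▸ hV1c)
  have hc2' : a2 + t1 ∈ J2 2 := by
    rw [e22, e12]
    exact mem_insert_of_mem (mem_erase.2 ⟨hne1, mem_insert_self _ _⟩)
  obtain ⟨t3, J3, U3, hb3, -, hV3a, hV3c, hU3a, hU3c, e30, e31, e32, hk3, s3⟩ :=
    CovB_AC hR2 hV2 hΘ hJ2 ha1' hc2' (hV.2 _ hV1c)
      (CovB_badM Θ (a2 + t1 + (c1 - t2)) ∪ CovB_badM Θ (a2 + t1 + (c1 - t2) + (b + t2)))
      (by
        have := CovB_union_card ((CovB_badM_card Θ (a2 + t1 + (c1 - t2))).trans hcard)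
          ((CovB_badM_card Θ (a2 + t1 + (c1 - t2) + (b + t2))).trans hcard)
        push_cast
        linarith)
  rw [mem_union, not_or] at hb3
  have q4 := CovB_badM_not hb3.1
  have q5 := CovB_badM_not hb3.2
  have hR3 := CovB_rich hR2 s3
  have hV3 := CovB_ok hV2 s3
  have hJ3 := CovB_disj hJ2 s3
  -- M
  have m1 : a2 + t1 - t3 ∈ J3 0 := by rw [e30]; exact mem_insert_self _ _
  have m2 : c2 - t1 ∈ J3 0 := by
    rw [e30, e20, e10]
    refine mem_insert_of_mem (mem_erase.2 ⟨?_, mem_insert_self _ _⟩)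
    intro h
    exact disjoint_left.1 (hJ 0) ha1 (h ▸ hV1a)
  have m3 : c1 - t2 ∈ J3 1 := by rw [e31, e21]; exact mem_insert_self _ _
  have m4 : b + t2 ∈ J3 2 := by
    rw [e32, e22]
    refine mem_insert_of_mem (mem_erase.2 ⟨?_, mem_insert_self _ _⟩)
    intro h
    exact (mem_sdiff.1 hV2c).2 (h ▸ hU1c)
  have m5 : a1 + t3 ∈ J3 2 := by rw [e32]; exact mem_insert_self _ _
  have n1 : a2 + t1 - t3 ≠ c2 - t1 := by
    intro h
    have h' := (mem_sdiff.1 hV3a).1
    exact (mem_sdiff.1 h').2 (h ▸ hU1a)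
  have n2 : b + t2 ≠ a1 + t3 := by
    intro h
    exact (mem_sdiff.1 hV3c).2 (h ▸ hU2c)
  have hV2c' : b + t2 ∈ V 2 := (mem_sdiff.1 hV2c).1
  have hV3c' : a1 + t3 ∈ V 2 := (mem_sdiff.1 (mem_sdiff.1 hV3c).1).1
  obtain ⟨J4, U4, hk4, s4⟩ := CovB_M hR3 hV3 hT hΘ hJ3 m1 m2 m3 m4 m5 n1 n2
    (by
      have : a2 + t1 - t3 + (c1 - t2) + (a1 + t3) = a1 + a2 + c1 + t1 - t2 := by abel
      rw [this]; exact q3)
    (by
      have : a2 + t1 - t3 + (c1 - t2) = a2 + t1 + (c1 - t2) - t3 := by abel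
      rw [this]; exact q4)
    (hV.2 _ hV2c') (hV.2 _ hV3c')
    (by
      have : a2 + t1 - t3 + (c1 - t2) + (b + t2) + (a1 + t3) = a1 + a2 + b + c1 + t1 := by abel
      rw [this]; exact q1)
    (by
      have : a2 + t1 - t3 + (c1 - t2) + (b + t2) =
        a2 + t1 + (c1 - t2) + (b + t2) - t3 := by abel
      rw [this]; exact q5)
    (by
      have : c2 - t1 + (c1 - t2) + (b + t2) = c2 + b + c1 - t1 := by abel
      rw [this]; exact q2)
    (by push_cast; linarith)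
  have s34 := CovB_trans hJ2 s3 s4
  have s24 := CovB_trans hJ1 s2 s34
  have s14 := CovB_trans hJ s1 s24
  refine ⟨_, J4, s14.1, s14.2, ?_, ?_⟩
  · intro i
    rw [hk4 i, hk3 i, hk2 i, hk1 i]
  · intro x hx
    have h := s14.2.1 2 hx
    rw [mem_union] at h
    rcases h with h | h
    · exact hJΘ x h
    · exact hV.2 x ((s14.1 2).1 h)

private theorem CovB_dummy {Θ : Finset G} (hΘ : ThOK Θ) (n : ℕ) :
    ∀ (V : Fin 3 → Finset G) (c0 : ℝ) (J : Fin 3 → Finset G), RichV V Θ 6 c0 → OKV V Θ →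
      (∀ i, Disjoint (J i) (V i)) → (12 * n + 3 : ℝ) < c0 →
      ∃ U : Fin 3 → Finset G, CovB_Stp V J J U (2 * n) := by
  induction n with
  | zero =>
    intro V c0 J _ _ _ _
    refine ⟨fun _ => ∅, fun i => ⟨empty_subset _, fun y hy => absurd hy (notMem_empty y), rfl⟩,
      Red_refl J⟩
  | succ n ih =>
    intro V c0 J hR hV hJ hc
    push_cast at hc
    have hn : (0 : ℝ) ≤ n := Nat.cast_nonneg n
    obtain ⟨U, hU, hred⟩ := stepD hR hV hΘ hJ (by linarith)
    have s1 : CovB_Stp V J J U 2 := by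
      refine ⟨fun i => ?_, hred⟩
      obtain ⟨u, hu, h⟩ := hU i
      rw [h]
      exact CovB_pair hV hu
    obtain ⟨U', s2⟩ := ih (fun i => V i \ U i) (c0 - 6 * (2 : ℕ)) J (CovB_rich hR s1)
      (CovB_ok hV s1) (CovB_disj hJ s1) (by push_cast; linarith)
    refine ⟨fun i => U i ∪ U' i, ?_⟩
    have := CovB_trans hJ s1 s2
    rw [show 2 * (n + 1) = 2 + 2 * n by ring]
    exact this

private theorem CovB_cover {Θ : Finset G} (hT : Tor2 G) (hΘ : ThOK Θ) (r : ℕ) :
    ∀ (V : Fin 3 → Finset G) (c0 : ℝ) (J : Fin 3 → Finset G), RichV V Θ 6 c0 → OKV V Θ →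
      (∀ i, Disjoint (J i) (V i)) → (∀ x ∈ J 2, x ∉ Θ) → (J 0).card = (J 1).card + 1 →
      (J 2).card = (J 1).card + 1 → (J 1).card ≤ r → (60 * r + 200 : ℝ) ≤ c0 →
      ∃ (U : Fin 3 → Finset G) (x z : G),
        CovB_Stp V J (fun i => if i = 0 then {x} else if i = 2 then {z} else ∅) U (10 * r) := by
  induction r with
  | zero =>
    intro V c0 J _ _ _ _ h0 h2 h1 _
    have h1' : J 1 = ∅ := card_eq_zero.1 (Nat.le_zero.1 h1)
    rw [h1', card_empty, zero_add] at h0 h2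
    obtain ⟨x, hx⟩ := card_eq_one.1 h0
    obtain ⟨z, hz⟩ := card_eq_one.1 h2
    refine ⟨fun _ => ∅, x, z, fun i => ⟨empty_subset _, fun y hy => absurd hy (notMem_empty y),
      rfl⟩, ?_⟩
    have e : (fun i : Fin 3 => if i = 0 then {x} else if i = 2 then {z} else (∅ : Finset G)) =
        J := by
      funext i
      fin_cases i
      · exact hx.symm
      · exact h1'.symm
      · exact hz.symm
    rw [e]
    exact Red_refl J
  | succ r ih =>
    intro V c0 J hR hV hJ hJΘ h0 h2 h1 hc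
    push_cast at hc
    have hr : (0 : ℝ) ≤ r := Nat.cast_nonneg r
    by_cases h : (J 1).card = 0
    · obtain ⟨U, s⟩ := CovB_dummy hΘ 5 V c0 J hR hV hJ (by norm_num; linarith)
      obtain ⟨U', x, z, s'⟩ := ih (fun i => V i \ U i) (c0 - 6 * ((2 * 5 : ℕ) : ℝ)) J
        (CovB_rich hR s) (CovB_ok hV s) (CovB_disj hJ s) hJΘ h0 h2 (by omega)
        (by push_cast; linarith)
      refine ⟨fun i => U i ∪ U' i, x, z, ?_⟩
      have := CovB_trans hJ s s'
      rw [show 10 * (r + 1) = 2 * 5 + 10 * r by ring]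
      exact this
    · have hb : 0 < (J 1).card := Nat.pos_of_ne_zero h
      obtain ⟨b, hb⟩ := card_pos.1 hb
      obtain ⟨a1, ha1, a2, ha2, ha⟩ := one_lt_card.1 (show 1 < (J 0).card by omega)
      obtain ⟨c1, hc1, c2, hc2, hcc⟩ := one_lt_card.1 (show 1 < (J 2).card by omega)
      obtain ⟨U, J', hU, hred, hk, hJ'⟩ := macroStep hR hV hT hΘ hJ hJΘ ha1 ha2 hb hc1 hc2 ha
        hcc (by linarith)
      have s : CovB_Stp V J J' U 10 := ⟨hU, hred⟩
      have k0 := hk 0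
      have k1 := hk 1
      have k2 := hk 2
      obtain ⟨U', x, z, s'⟩ := ih (fun i => V i \ U i) (c0 - 6 * ((10 : ℕ) : ℝ)) J'
        (CovB_rich hR s) (CovB_ok hV s) (CovB_disj hJ s) hJ' (by omega) (by omega) (by omega)
        (by push_cast; linarith)
      refine ⟨fun i => U i ∪ U' i, x, z, ?_⟩
      have := CovB_trans hJ s s'
      rw [show 10 * (r + 1) = 10 + 10 * r by ring]
      exact this

theorem cover {Θ : Finset G} (hT : Tor2 G) (hΘ : ThOK Θ) (r : ℕ) :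
    ∀ (V : Fin 3 → Finset G) (c0 : ℝ) (J : Fin 3 → Finset G), RichV V Θ 6 c0 → OKV V Θ →
      (∀ i, Disjoint (J i) (V i)) → (∀ x ∈ J 2, x ∉ Θ) → (J 0).card = (J 1).card + 1 →
      (J 2).card = (J 1).card + 1 → (J 1).card ≤ r → (60 * r + 200 : ℝ) ≤ c0 →
      ∃ (U : Fin 3 → Finset G) (x z : G),
        (∀ i, U i ⊆ V i ∧ (∀ y ∈ U i, -y ∈ U i) ∧ (U i).card = 10 * r) ∧
        x ∈ J 0 ∪ U 0 ∧ z ∈ J 2 ∪ U 2 ∧
        PM (fun i => if i = 0 then (J 0 ∪ U 0).erase x else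
          if i = 2 then (J 2 ∪ U 2).erase z else J 1 ∪ U 1) := by
  intro V c0 J hR hV hJ hJΘ h0 h2 h1 hc
  obtain ⟨U, x, z, s, hsub, -, hPM⟩ := CovB_cover hT hΘ r V c0 J hR hV hJ hJΘ h0 h2 h1 hc
  refine ⟨U, x, z, s, ?_, ?_, ?_⟩
  · exact hsub 0 (mem_singleton_self x)
  · exact hsub 2 (mem_singleton_self z)
  · have e : (fun i : Fin 3 => if i = 0 then (J 0 ∪ U 0).erase x else
          if i = 2 then (J 2 ∪ U 2).erase z else J 1 ∪ U 1) =
        (fun i => (J i ∪ U i) \ (if i = 0 then {x} else if i = 2 then {z} else ∅)) := by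
      funext i
      fin_cases i
      · exact (sdiff_singleton_eq_erase x (J 0 ∪ U 0)).symm
      · exact (sdiff_empty (s := J 1 ∪ U 1)).symm
      · exact (sdiff_singleton_eq_erase z (J 2 ∪ U 2)).symm
    rw [e]
    exact hPM

end Pool.Agent.H60.HL
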