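import Mathlib

/-!
# HL: harmonious labellings of bounded degree trees with many leaves.  Definitions

`G` is a finite abelian group (in the end `ZMod q`), `q = card G`.
-/

namespace Pool.Agent.H60.HL

open Finset Classical

section

variable {G : Type} [AddCommGroup G]

/-- The point `k + t` (`e = true`) or `k - t` (`e = false`). -/
def pt (e : Bool) (k t : G) : G := if e then k + t else k - t

/-- `B 0`, `B 1`, `B 2` can be partitioned together into triples with sum zero. -/
def PM (B : Fin 3 → Finset G) : Prop :=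
  ∃ M : Finset (Fin 3 → G), (∀ t ∈ M, t 0 + t 1 + t 2 = 0) ∧
    (∀ i, Set.InjOn (fun t : Fin 3 → G => t i) (M : Set (Fin 3 → G))) ∧
    ∀ i, M.image (fun t => t i) = B i

/-- The zero sum triples with `t i ∈ B i`. -/
noncomputable def Tr [Fintype G] (B : Fin 3 → Finset G) : Finset (Fin 3 → G) :=
  univ.filter fun t => (∀ i, t i ∈ B i) ∧ t 0 + t 1 + t 2 = 0

/-- Add the unit `{f, -f}` to the type `i`. -/
noncomputable def addU (A : Fin 3 → Finset G) (i : Fin 3) (f : G) : Fin 3 → Finset G :=
  fun j => if j = i then A j ∪ {f, -f} else A j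

/-- `J` is reduced to `J'` with the help of `U`: everything in `J ∪ U` is matched, except `J'`. -/
def Red (J J' U : Fin 3 → Finset G) : Prop :=
  (∀ i, J' i ⊆ J i ∪ U i) ∧ (∀ i, Disjoint (J i) (U i)) ∧ PM (fun i => (J i ∪ U i) \ J' i)

/-- At most two solutions of `2 t = c`. -/
def Tor2 (G : Type) [AddCommGroup G] [Fintype G] : Prop :=
  ∀ c : G, (univ.filter fun t : G => t + t = c).card ≤ 2

/-- Two colourings `χ true` (labels) and `χ false` (sums) of `G` with `M` colours are random:
every pattern of at most `m` conditions at different places has the expected number of solutions.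
A place is (space, sign, shift). -/
def Rnd [Fintype G] {M : ℕ} (χ : Bool → G → Fin M) (m : ℕ) (η : ℝ) : Prop :=
  ∀ (ι : Type) [Fintype ι], Fintype.card ι ≤ m → ∀ (v : ι → Bool × Bool × G),
    Function.Injective v → ∀ K : ι → Finset (Fin M),
    |((univ.filter fun t : G => ∀ x, χ (v x).1 (pt (v x).2.1 (v x).2.2 t) ∈ K x).card : ℝ) -
      Fintype.card G * ∏ x, (((K x).card : ℝ) / M)| ≤ η * Fintype.card G

/-- Richness of `B 0`, `B 1`, `B 2`: every admissible pattern of at most `m` conditions has at least
`c * card G` solutions.  The types `0` and `1` live in the same space, `2` in another one; different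
places of the same space with the same sign must have shifts which do not differ by an element of
`Θ`. -/
def Rich [Fintype G] (B : Fin 3 → Finset G) (Θ : Finset G) (m : ℕ) (c : ℝ) : Prop :=
  ∀ (ι : Type) [Fintype ι], Fintype.card ι ≤ m → ∀ (v : ι → Fin 3 × Bool × G),
    (∀ x y, x ≠ y → ((v x).1 = 2 ↔ (v y).1 = 2) → (v x).2.1 = (v y).2.1 →
      (v x).2.2 - (v y).2.2 ∉ Θ) →
    c * Fintype.card G ≤
      ((univ.filter fun t : G => ∀ x, pt (v x).2.1 (v x).2.2 t ∈ B (v x).1).card : ℝ)

/-- The three sets `A i` have density `ρ` and behave like random sets as far as degrees and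
autocorrelations are concerned. -/
def QR [Fintype G] (A : Fin 3 → Finset G) (Θ : Finset G) (ρ η : ℝ) : Prop :=
  (∀ i, |((A i).card : ℝ) - ρ * Fintype.card G| ≤ η * Fintype.card G) ∧
  (∀ i x, |((univ.filter fun t : Fin 3 → G => t i = x ∧ (∀ j, j ≠ i → t j ∈ A j) ∧
      t 0 + t 1 + t 2 = 0).card : ℝ) - ρ ^ 2 * Fintype.card G| ≤ η * Fintype.card G) ∧
  (∀ i, ∀ k ∉ Θ, |(((A i).filter fun t => k + t ∈ A i).card : ℝ) - ρ ^ 2 * Fintype.card G| ≤
    η * Fintype.card G)

/-- `Θ` is admissible as an exceptional set of differences. -/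
def ThOK (Θ : Finset G) : Prop := (0 : G) ∈ Θ ∧ (∀ x ∈ Θ, -x ∈ Θ) ∧ Θ.card ≤ 3

/-- `A` and `B` differ in at most `ζ * card G` elements for each type. -/
def Near [Fintype G] (A B : Fin 3 → Finset G) (ζ : ℝ) : Prop :=
  ∀ i, ((A i \ B i).card : ℝ) + ((B i \ A i).card : ℝ) ≤ ζ * Fintype.card G

end

/-- A harmonious labelling of a tree with `q` edges: the definition used in the problem. -/
def Harm {V : Type} [Fintype V] (T : SimpleGraph V) : Prop :=
  ∃ f : V → ZMod (Fintype.card V - 1), Function.Surjective f ∧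
    ∀ u v x y : V, T.Adj u v → T.Adj x y → f u + f v = f x + f y → s(u, v) = s(x, y)

end Pool.Agent.H60.HL
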