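import Pool.Agent.H60.HL.NibD

/-!
# HL-06 Nib: near perfect matchings (Pippenger's theorem for dense hypergraphs)

Proof.  Let `C = 20 (r + 1)^2`, `L = log (1 / ν')` for a small `ν'` (`ν' = ν / (10 r)`, `ν < 1` may be
assumed), `ε` and `η0` so small that `(η0 + ε) * exp (C (2 L + 1)) ≤ ν'` (and `ε` as in `bite`),
`B = ⌈2 L / ε⌉` bites.
Induction on `t ≤ B`: there are `E_t ⊆ E` and a matching `M_t ⊆ E` such that every matching
`M' ⊆ E_t` is disjoint from `M_t` and `M_t ∪ M'` is a matching, and, with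
`n_i(t) = (vx E_t π i).card`, `n_i = n_i(0)`, `n = n_{i0}`,
* `Reg E_t π D_t η_t Λ`, `D_t = D (1 - (r - 1) ε)^t`, `η_t + ε ≤ (η0 + ε) (1 + C ε)^t`
  (recursion `η + ε + C (η ε + ε^2) = (η + ε) (1 + C ε)`), so `η_t ≤ ν' ≤ 1/10`;
* `n_{i0}(t) ≤ max (ν' n) ((1 - ε / 2)^t n)`;
* `M_t.card ≥ (n - n_{i0}(t)) - 2 ∑_{i ≠ i0} ((n - n_{i0}(t)) - (n_i - n_i(t)))`.
Step: if `n_{i0}(t) ≤ ν' n` do nothing.  Otherwise apply `bite` with
`κ' = κ (1 - (r - 1) ε)^B` (`n_{i0}(t) ≤ n`, `n_{i0}(t) ≥ ν' n ≥ n0` of `bite`);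
`M_{t+1} = M_t ∪ iso Q π`, `E_{t+1} = rest E_t Q π`; `n_i(t+1) = n_i(t) - (Q.image (π . i)).card`
(the image is contained in `vx E_t π i`), `n_{i0}(t+1) = n_{i0}(t) - Q.card`; `iso_card`.
End (`t = B`): `(1 - ε/2)^B ≤ exp (- ε B / 2) ≤ ν'`, so `n_{i0}(B) ≤ ν' n`.  Counting the edges by
their vertices in the classes `i` and `i0`: `n_i(B) (1 - η_B) D_B ≤ E_B.card ≤ (1 + η_B) D_B n_{i0}(B)`
so `n_i(B) ≤ 2 ν' n`, and in the same way `n_i ≥ (1 - 2 η0) n`.  So
`M_B.card ≥ (1 - ν') n - 2 r (2 η0 + 2 ν') n ≥ (1 - ν) n`.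
-/

namespace Pool.Agent.H60.HL

open Finset Classical

/-- The state of the iteration. -/
structure NibSt {α I V : Type} [Fintype I] (i0 : I) (E : Finset α) (π : α → I → V) (Λ : ℝ)
    (E' M' : Finset α) (D' η' : ℝ) : Prop where
  sub : E' ⊆ E
  subM : M' ⊆ E
  ext : ∀ M'' ⊆ E', Mat M'' π → Mat (M' ∪ M'') π ∧ Disjoint M' M''
  reg : Reg E' π D' η' Λ
  eta : 0 ≤ η'
  pos : 0 < D'
  crd : (((vx E π i0).card : ℝ) - (vx E' π i0).card) -
    2 * ∑ i ∈ univ.erase i0, ((((vx E π i0).card : ℝ) - (vx E' π i0).card) -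
      (((vx E π i).card : ℝ) - (vx E' π i).card)) ≤ M'.card

private theorem Nib_cnt {α I V : Type} {E : Finset α} {π : α → I → V} {D η Λ : ℝ}
    (h : Reg E π D η Λ) (i : I) :
    (1 - η) * D * (vx E π i).card ≤ E.card ∧ (E.card : ℝ) ≤ (1 + η) * D * (vx E π i).card := by
  have h1 : (E.card : ℝ) = ∑ v ∈ vx E π i, (dg E π i v : ℝ) := by
    have h2 : E.card = ∑ v ∈ vx E π i, dg E π i v :=
      Finset.card_eq_sum_card_image (fun e => π e i) E
    rw [h2]
    push_cast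
    rfl
  have hb : ∀ v ∈ vx E π i, (1 - η) * D ≤ (dg E π i v : ℝ) ∧ (dg E π i v : ℝ) ≤ (1 + η) * D := by
    intro v hv
    have h3 := abs_le.1 (h.1 i v hv)
    constructor
    · linarith [h3.1]
    · linarith [h3.2]
  rw [h1]
  constructor
  · have h4 := Finset.card_nsmul_le_sum (vx E π i) (fun v => (dg E π i v : ℝ)) ((1 - η) * D)
      (fun v hv => (hb v hv).1)
    rw [nsmul_eq_mul] at h4
    linarith
  · have h4 := Finset.sum_le_card_nsmul (vx E π i) (fun v => (dg E π i v : ℝ)) ((1 + η) * D)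
      (fun v hv => (hb v hv).2)
    rw [nsmul_eq_mul] at h4
    linarith

private theorem Nib_rest_sub {α I V : Type} (E Q : Finset α) (π : α → I → V) :
    rest E Q π ⊆ E := Finset.filter_subset _ _

private theorem Nib_iso_sub {α I V : Type} (Q : Finset α) (π : α → I → V) :
    iso Q π ⊆ Q := Finset.filter_subset _ _

private theorem Nib_vx_mono {α I V : Type} {E E' : Finset α} {π : α → I → V} (h : E' ⊆ E)
    (i : I) : vx E' π i ⊆ vx E π i := Finset.image_subset_image h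

private theorem Nib_init {α I V : Type} [Fintype I] (i0 : I) {E : Finset α} {π : α → I → V}
    {D η Λ : ℝ} (h : Reg E π D η Λ) (hη : 0 ≤ η) (hD : 0 < D) :
    NibSt i0 E π Λ E ∅ D η := by
  refine ⟨Finset.Subset.refl _, Finset.empty_subset _, ?_, h, hη, hD, ?_⟩
  · intro M'' _ hM
    rw [Finset.empty_union]
    exact ⟨hM, Finset.disjoint_empty_left _⟩
  · simp

private theorem Nib_step {α I V : Type} [Fintype I] {i0 : I} {E : Finset α} {π : α → I → V}
    {Λ : ℝ} {E' M' : Finset α} {D' η' : ℝ} (h : NibSt i0 E π Λ E' M' D' η') {Q : Finset α}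
    (hQ : Q ⊆ E') (hinj : Set.InjOn (fun e => π e i0) (Q : Set α)) {D'' η'' : ℝ}
    (hreg : Reg (rest E' Q π) π D'' η'' Λ) (hη : 0 ≤ η'') (hD : 0 < D'')
    (hvx : ∀ i, vx (rest E' Q π) π i = vx E' π i \ Q.image fun e => π e i) :
    NibSt i0 E π Λ (rest E' Q π) (M' ∪ iso Q π) D'' η'' ∧
    ((vx (rest E' Q π) π i0).card : ℝ) = (vx E' π i0).card - Q.card := by
  have hrest : rest E' Q π ⊆ E' := Nib_rest_sub E' Q π
  have hiso : iso Q π ⊆ Q := Nib_iso_sub Q π
  have hcard : ∀ i, ((vx (rest E' Q π) π i).card : ℝ) =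
      (vx E' π i).card - ((Q.image fun e => π e i).card : ℝ) := by
    intro i
    rw [hvx i]
    have h1 : (Q.image fun e => π e i) ⊆ vx E' π i := Finset.image_subset_image hQ
    have h2 := Finset.card_sdiff_add_card_eq_card h1
    have h3 : ((vx E' π i \ Q.image fun e => π e i).card : ℝ) +
        ((Q.image fun e => π e i).card : ℝ) = (vx E' π i).card := by
      exact_mod_cast h2
    linarith
  have hi0 : (Q.image fun e => π e i0).card = Q.card := Finset.card_image_of_injOn hinj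
  have h0 := hcard i0
  rw [hi0] at h0
  refine ⟨⟨hrest.trans h.sub, ?_, ?_, hreg, hη, hD, ?_⟩, h0⟩
  · exact Finset.union_subset h.subM ((hiso.trans hQ).trans h.sub)
  · intro M'' hM'' hMat
    obtain ⟨h1, h2⟩ := mat_union i0 hQ hMat hM''
    obtain ⟨h3, h4⟩ := h.ext (iso Q π ∪ M'')
      (Finset.union_subset (hiso.trans hQ) (hM''.trans hrest)) h1
    rw [Finset.union_assoc]
    refine ⟨h3, ?_⟩
    rw [Finset.disjoint_union_left]
    rw [Finset.disjoint_union_right] at h4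
    exact ⟨h4.2, h2⟩
  · have h5 : Disjoint M' (iso Q π) := (h.ext (iso Q π) (hiso.trans hQ) (iso_mat Q π)).2
    have h6 : ((M' ∪ iso Q π).card : ℝ) = M'.card + (iso Q π).card := by
      rw [Finset.card_union_of_disjoint h5]
      push_cast
      rfl
    have h7 := iso_card i0 Q π hinj
    have h8 := h.crd
    have h9 : ∑ i ∈ univ.erase i0, ((((vx E π i0).card : ℝ) - (vx (rest E' Q π) π i0).card) -
        (((vx E π i).card : ℝ) - (vx (rest E' Q π) π i).card)) =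
        ∑ i ∈ univ.erase i0, ((((vx E π i0).card : ℝ) - (vx E' π i0).card) -
        (((vx E π i).card : ℝ) - (vx E' π i).card)) +
        ∑ i ∈ univ.erase i0, ((Q.card : ℝ) - ((Q.image fun e => π e i).card : ℝ)) := by
      rw [← Finset.sum_add_distrib]
      refine Finset.sum_congr rfl fun i _ => ?_
      rw [h0, hcard i]
      ring
    rw [h6, h9, h0]
    linarith

/-- The counting at the end. -/
private theorem Nib_end {α I V : Type} [Fintype I] {i0 : I} {E : Finset α} {π : α → I → V}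
    {D η0 Λ : ℝ} (hreg : Reg E π D η0 Λ) (hD : 0 < D) {ν' : ℝ} (hη0 : 0 ≤ η0) (hη1 : η0 ≤ ν')
    (hν : ν' ≤ 1 / 10) {E' M' : Finset α} {D' η' : ℝ} (h : NibSt i0 E π Λ E' M' D' η')
    (hη' : η' ≤ ν') (hn : ((vx E' π i0).card : ℝ) ≤ ν' * (vx E π i0).card) :
    (1 - ν' * (1 + 8 * Fintype.card I)) * (vx E π i0).card ≤ (M'.card : ℝ) := by
  set n : ℝ := ((vx E π i0).card : ℝ) with hn_def
  set n' : ℝ := ((vx E' π i0).card : ℝ) with hn'_def
  have hn0 : 0 ≤ n := Nat.cast_nonneg _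
  have hn'0 : 0 ≤ n' := Nat.cast_nonneg _
  have hν0 : 0 ≤ ν' := hη0.trans hη1
  have hterm : ∀ i ∈ univ.erase i0, (n - n') - (((vx E π i).card : ℝ) - (vx E' π i).card) ≤
      4 * ν' * n := by
    intro i _
    have h1 := (Nib_cnt h.reg i).1.trans (Nib_cnt h.reg i0).2
    have h2 := (Nib_cnt hreg i0).1.trans (Nib_cnt hreg i).2
    have h3 : (1 - η') * ((vx E' π i).card : ℝ) ≤ (1 + η') * n' := by
      have h4 : D' * ((1 - η') * ((vx E' π i).card : ℝ)) ≤ D' * ((1 + η') * n') := by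
        calc D' * ((1 - η') * ((vx E' π i).card : ℝ)) =
            (1 - η') * D' * ((vx E' π i).card : ℝ) := by ring
          _ ≤ (1 + η') * D' * n' := h1
          _ = D' * ((1 + η') * n') := by ring
      exact le_of_mul_le_mul_left h4 h.pos
    have h5 : (1 - η0) * n ≤ (1 + η0) * ((vx E π i).card : ℝ) := by
      have h4 : D * ((1 - η0) * n) ≤ D * ((1 + η0) * ((vx E π i).card : ℝ)) := by
        calc D * ((1 - η0) * n) = (1 - η0) * D * n := by ring
          _ ≤ (1 + η0) * D * ((vx E π i).card : ℝ) := h2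
          _ = D * ((1 + η0) * ((vx E π i).card : ℝ)) := by ring
      exact le_of_mul_le_mul_left h4 hD
    have ha : (0 : ℝ) ≤ (vx E' π i).card := Nat.cast_nonneg _
    have hb : (0 : ℝ) ≤ (vx E π i).card := Nat.cast_nonneg _
    have h6 : ((vx E' π i).card : ℝ) ≤ 2 * ν' * n := by
      have h7 : (9 / 10 : ℝ) * ((vx E' π i).card : ℝ) ≤ (1 - η') * ((vx E' π i).card : ℝ) :=
        mul_le_mul_of_nonneg_right (by linarith) ha
      have h8 : (1 + η') * n' ≤ (11 / 10 : ℝ) * n' :=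
        mul_le_mul_of_nonneg_right (by linarith) hn'0
      nlinarith
    have h9 : (1 - 2 * ν') * n ≤ ((vx E π i).card : ℝ) := by
      by_contra hcon
      rw [not_le] at hcon
      have h10 : (1 + η0) * ((vx E π i).card : ℝ) < (1 + η0) * ((1 - 2 * ν') * n) :=
        mul_lt_mul_of_pos_left hcon (by linarith)
      have h11 : (1 + η0) * ((1 - 2 * ν') * n) ≤ (1 - η0) * n := by
        have h12 : (1 + η0) * (1 - 2 * ν') ≤ 1 - η0 := by nlinarith
        calc (1 + η0) * ((1 - 2 * ν') * n) = (1 + η0) * (1 - 2 * ν') * n := by ring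
          _ ≤ (1 - η0) * n := mul_le_mul_of_nonneg_right h12 hn0
      linarith
    nlinarith
  have hsum := Finset.sum_le_card_nsmul (univ.erase i0)
    (fun i => (n - n') - (((vx E π i).card : ℝ) - (vx E' π i).card)) (4 * ν' * n) hterm
  rw [nsmul_eq_mul] at hsum
  have hc : ((univ.erase i0).card : ℝ) ≤ Fintype.card I := by
    have := Finset.card_le_univ (univ.erase i0)
    exact_mod_cast this
  have hpos : 0 ≤ 4 * ν' * n := by positivity
  have h13 : ((univ.erase i0).card : ℝ) * (4 * ν' * n) ≤ Fintype.card I * (4 * ν' * n) :=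
    mul_le_mul_of_nonneg_right hc hpos
  have h14 := h.crd
  rw [← hn_def, ← hn'_def] at h14
  nlinarith

private theorem Nib_pow {ε L : ℝ} (hε : 0 < ε) (hε1 : ε ≤ 1) (B : ℕ) (hB : 2 * L / ε ≤ B) :
    (1 - ε / 2) ^ B ≤ Real.exp (-L) := by
  have h1 : (1 - ε / 2) ^ B ≤ (Real.exp (-(ε / 2))) ^ B := by
    refine pow_le_pow_left₀ (by linarith) ?_ B
    have := Real.add_one_le_exp (-(ε / 2))
    linarith
  rw [← Real.exp_nat_mul] at h1
  refine h1.trans (Real.exp_le_exp.2 ?_)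
  have h2 : 2 * L ≤ B * ε := by
    have := (div_le_iff₀ hε).1 hB
    linarith
  linarith

private theorem Nib_pow2 {C ε L : ℝ} (hC : 0 ≤ C) (hε : 0 < ε) (hε1 : ε ≤ 1) (B : ℕ)
    (hB : (B : ℝ) ≤ 2 * L / ε + 1) :
    (1 + C * ε) ^ B ≤ Real.exp (C * (2 * L + 1)) := by
  have h0 : 0 ≤ C * ε := mul_nonneg hC hε.le
  have h1 : (1 + C * ε) ^ B ≤ (Real.exp (C * ε)) ^ B := by
    refine pow_le_pow_left₀ (by linarith) ?_ B
    have := Real.add_one_le_exp (C * ε)
    linarith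
  rw [← Real.exp_nat_mul] at h1
  refine h1.trans (Real.exp_le_exp.2 ?_)
  have h2 : (B : ℝ) * ε ≤ 2 * L + 1 := by
    have h3 : (B : ℝ) * ε ≤ (2 * L / ε + 1) * ε := mul_le_mul_of_nonneg_right hB hε.le
    have h4 : (2 * L / ε + 1) * ε = 2 * L + ε := by
      field_simp
    linarith
  calc (B : ℝ) * (C * ε) = C * (B * ε) := by ring
    _ ≤ C * (2 * L + 1) := mul_le_mul_of_nonneg_left h2 hC

theorem nibble (r : ℕ) (κ ν : ℝ) (hκ : 0 < κ) (hν : 0 < ν) :
    ∃ η : ℝ, 0 < η ∧ ∃ n0 : ℕ, ∀ (α I V : Type) [Fintype I] [Fintype V], Fintype.card I = r →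
      ∀ (i0 : I) (E : Finset α) (π : α → I → V) (D Λ : ℝ), 1 ≤ Λ →
      Reg E π D η Λ → n0 ≤ (vx E π i0).card → κ * (vx E π i0).card * Λ ≤ D →
      ∃ M ⊆ E, Mat M π ∧ (1 - ν) * (vx E π i0).card ≤ M.card := by
  -- constants
  obtain ⟨ν', hν', hν'1, hν'2⟩ : ∃ ν' : ℝ, 0 < ν' ∧ ν' ≤ 1 / 10 ∧ ν' * (1 + 8 * r) ≤ ν := by
    have hR : (0 : ℝ) < 10 * ((r : ℝ) + 1) := by positivity
    have hr0 : (0 : ℝ) ≤ r := Nat.cast_nonneg r
    refine ⟨min ν 1 / (10 * ((r : ℝ) + 1)), by positivity, ?_, ?_⟩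
    · rw [div_le_div_iff₀ hR (by norm_num)]
      have := min_le_right ν 1
      nlinarith
    · rw [div_mul_eq_mul_div, div_le_iff₀ hR]
      have h1 := min_le_left ν 1
      have h2 : 0 ≤ min ν 1 := by positivity
      nlinarith
  set C : ℝ := 20 * ((r : ℝ) + 1) ^ 2 with hC
  have hr0 : (0 : ℝ) ≤ r := Nat.cast_nonneg r
  have hC0 : 0 ≤ C := by positivity
  set L : ℝ := - Real.log ν' with hL
  have hexpL : Real.exp (-L) = ν' := by
    rw [hL, neg_neg, Real.exp_log hν']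
  set K : ℝ := Real.exp (C * (2 * L + 1)) with hK
  have hL0 : 0 ≤ L := by
    have := Real.log_nonpos hν'.le (by linarith)
    linarith
  have hK1 : 1 ≤ K := Real.one_le_exp (by positivity)
  have hK0 : 0 < K := by linarith
  set ε : ℝ := ν' / (200 * K * ((r : ℝ) + 1) ^ 2) with hε
  have hden : 0 < 200 * K * ((r : ℝ) + 1) ^ 2 := by positivity
  have hε0 : 0 < ε := by positivity
  have hR1 : (1 : ℝ) ≤ ((r : ℝ) + 1) ^ 2 := by nlinarith
  have hεmul : ε * (200 * K * ((r : ℝ) + 1) ^ 2) = ν' := by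
    rw [hε]
    field_simp
  have hε100 : ε * (100 * ((r : ℝ) + 1) ^ 2) ≤ 1 := by
    have h1 : ε * (100 * ((r : ℝ) + 1) ^ 2) ≤ ε * (200 * K * ((r : ℝ) + 1) ^ 2) := by
      refine mul_le_mul_of_nonneg_left ?_ hε0.le
      refine mul_le_mul_of_nonneg_right ?_ (by positivity)
      linarith
    linarith
  have hε2K : (ε + ε) * K ≤ ν' := by
    have h1 : (ε + ε) * K ≤ ε * (200 * K * ((r : ℝ) + 1) ^ 2) := by
      have h2 : 2 * K ≤ 200 * K * ((r : ℝ) + 1) ^ 2 := by nlinarith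
      calc (ε + ε) * K = ε * (2 * K) := by ring
        _ ≤ ε * (200 * K * ((r : ℝ) + 1) ^ 2) := mul_le_mul_of_nonneg_left h2 hε0.le
    linarith
  have hε1 : ε ≤ 1 := by
    have h1 : ε * 1 ≤ ε * (100 * ((r : ℝ) + 1) ^ 2) :=
      mul_le_mul_of_nonneg_left (by linarith) hε0.le
    linarith
  have hεν : ε ≤ ν' := by
    have h1 : (ε + ε) * 1 ≤ (ε + ε) * K := mul_le_mul_of_nonneg_left hK1 (by linarith)
    linarith
  set B : ℕ := ⌈2 * L / ε⌉₊ with hB
  have hB1 : 2 * L / ε ≤ B := Nat.le_ceil _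
  have hB2 : (B : ℝ) ≤ 2 * L / ε + 1 := (Nat.ceil_lt_add_one (by positivity)).le
  set q : ℝ := 1 - ((r : ℝ) - 1) * ε with hq
  have hq0 : 0 < q := by
    have h1 : ((r : ℝ) - 1) * ε ≤ (1 / 100) := by
      have h2 : ((r : ℝ) - 1) ≤ ((r : ℝ) + 1) ^ 2 := by nlinarith
      have h3 : ((r : ℝ) - 1) * ε ≤ ((r : ℝ) + 1) ^ 2 * ε :=
        mul_le_mul_of_nonneg_right h2 hε0.le
      nlinarith
    rw [hq]
    linarith
  set κ' : ℝ := κ * q ^ B with hκ'
  have hκ'0 : 0 < κ' := by positivity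
  obtain ⟨n1, hn1⟩ := bite r κ' ε hκ'0 hε0 hε100
  refine ⟨ε, hε0, ⌈(n1 : ℝ) / ν'⌉₊ + 1, ?_⟩
  intro α I V _ _ hI i0 E π D Λ hΛ hReg hn hD
  set n : ℝ := ((vx E π i0).card : ℝ) with hn_def
  have hr1 : (1 : ℝ) ≤ r := by
    have h1 : 0 < Fintype.card I := Fintype.card_pos_iff.2 ⟨i0⟩
    rw [hI] at h1
    exact_mod_cast h1
  have hq1 : q ≤ 1 := by
    have : 0 ≤ ((r : ℝ) - 1) * ε := mul_nonneg (by linarith) hε0.le
    rw [hq]
    linarith
  have hnn : (n1 : ℝ) / ν' + 1 ≤ n := by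
    have h1 : (n1 : ℝ) / ν' ≤ ⌈(n1 : ℝ) / ν'⌉₊ := Nat.le_ceil _
    have h2 : ((⌈(n1 : ℝ) / ν'⌉₊ : ℝ) + 1) ≤ n := by
      rw [hn_def]
      exact_mod_cast hn
    linarith
  have hn1' : (n1 : ℝ) ≤ ν' * n := by
    have h1 : (n1 : ℝ) / ν' ≤ n := by linarith
    have h2 := (div_le_iff₀ hν').1 h1
    linarith
  have hnpos : 0 < n := by
    have : (0 : ℝ) ≤ (n1 : ℝ) / ν' := by positivity
    linarith
  have hDpos : 0 < D := by
    have : 0 < κ * n * Λ := by positivity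
    linarith
  have hpowK : ∀ t ≤ B, (ε + ε) * (1 + C * ε) ^ t ≤ ν' := by
    intro t ht
    have h1 : (1 + C * ε) ^ t ≤ (1 + C * ε) ^ B :=
      pow_le_pow_right₀ (by nlinarith [mul_nonneg hC0 hε0.le]) ht
    have h2 := Nib_pow2 hC0 hε0 hε1 B hB2
    rw [← hK] at h2
    calc (ε + ε) * (1 + C * ε) ^ t ≤ (ε + ε) * K :=
          mul_le_mul_of_nonneg_left (h1.trans h2) (by linarith)
      _ ≤ ν' := hε2K
  have key : ∀ t, t ≤ B → ∃ (E' M' : Finset α) (D' η' : ℝ), NibSt i0 E π Λ E' M' D' η' ∧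
      η' ≤ ν' ∧ (((vx E' π i0).card : ℝ) ≤ ν' * n ∨ (D' = D * q ^ t ∧
        η' + ε ≤ (ε + ε) * (1 + C * ε) ^ t ∧
        ((vx E' π i0).card : ℝ) ≤ (1 - ε / 2) ^ t * n)) := by
    intro t
    induction t with
    | zero =>
      intro _
      refine ⟨E, ∅, D, ε, Nib_init i0 hReg hε0.le hDpos, hεν, Or.inr ⟨?_, ?_, ?_⟩⟩
      · rw [pow_zero, mul_one]
      · rw [pow_zero, mul_one]
      · rw [pow_zero, one_mul]
    | succ t ih =>
      intro ht
      obtain ⟨E', M', D', η', hst, hη', hor⟩ := ih (by omega)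
      by_cases hsmall : ((vx E' π i0).card : ℝ) ≤ ν' * n
      · exact ⟨E', M', D', η', hst, hη', Or.inl hsmall⟩
      · obtain ⟨hD', hηt, hnt⟩ := hor.resolve_left hsmall
        rw [not_le] at hsmall
        have hn'n : ((vx E' π i0).card : ℝ) ≤ n := by
          rw [hn_def]
          exact_mod_cast Finset.card_le_card (Nib_vx_mono hst.sub i0)
        have hn1n : n1 ≤ (vx E' π i0).card := by
          have h1 : (n1 : ℝ) ≤ ((vx E' π i0).card : ℝ) := by linarith
          exact_mod_cast h1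
        have hκD : κ' * ((vx E' π i0).card : ℝ) * Λ ≤ D' := by
          have hΛ0 : 0 ≤ Λ := by linarith
          have h1 : q ^ B ≤ q ^ t := pow_le_pow_of_le_one hq0.le hq1 (by omega)
          have h2 : κ' * ((vx E' π i0).card : ℝ) * Λ ≤ κ' * n * Λ :=
            mul_le_mul_of_nonneg_right (mul_le_mul_of_nonneg_left hn'n hκ'0.le) hΛ0
          have h3 : κ' * n * Λ = q ^ B * (κ * n * Λ) := by
            rw [hκ']
            ring
          have h4 : q ^ B * (κ * n * Λ) ≤ q ^ t * D := by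
            refine mul_le_mul h1 hD (by positivity) (by positivity)
          rw [hD']
          linarith
        obtain ⟨Q, hQ, hinj, hQc, hreg, hvx⟩ := hn1 α I V hI i0 E' π D' η' Λ hΛ hst.eta
          (by linarith) hst.reg hn1n hκD
        have hη'' : 0 ≤ η' + 20 * ((r : ℝ) + 1) ^ 2 * (η' * ε + ε ^ 2) := by
          have := hst.eta
          positivity
        obtain ⟨hst', hcard⟩ := Nib_step hst hQ hinj hreg hη'' (mul_pos hst.pos hq0) hvx
        have hid : η' + 20 * ((r : ℝ) + 1) ^ 2 * (η' * ε + ε ^ 2) + ε =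
            (η' + ε) * (1 + C * ε) := by
          rw [hC]
          ring
        have h1Cε : 0 ≤ 1 + C * ε := by positivity
        have hbd : η' + 20 * ((r : ℝ) + 1) ^ 2 * (η' * ε + ε ^ 2) + ε ≤
            (ε + ε) * (1 + C * ε) ^ (t + 1) := by
          rw [hid, pow_succ, ← mul_assoc]
          exact mul_le_mul_of_nonneg_right hηt h1Cε
        have hbd2 := hpowK (t + 1) ht
        refine ⟨_, _, _, _, hst', by linarith, Or.inr ⟨?_, hbd, ?_⟩⟩
        · rw [hD', pow_succ]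
          ring
        · rw [hcard, pow_succ]
          have h5 : ((vx E' π i0).card : ℝ) - Q.card ≤
              (1 - ε / 2) * ((vx E' π i0).card : ℝ) := by linarith
          have h6 : (1 - ε / 2) * ((vx E' π i0).card : ℝ) ≤
              (1 - ε / 2) * ((1 - ε / 2) ^ t * n) :=
            mul_le_mul_of_nonneg_left hnt (by linarith)
          calc ((vx E' π i0).card : ℝ) - Q.card ≤ (1 - ε / 2) * ((1 - ε / 2) ^ t * n) :=
                h5.trans h6
            _ = (1 - ε / 2) ^ t * (1 - ε / 2) * n := by ring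
  obtain ⟨E', M', D', η', hst, hη', hor⟩ := key B le_rfl
  have hfin : ((vx E' π i0).card : ℝ) ≤ ν' * n := by
    rcases hor with h1 | ⟨-, -, h1⟩
    · exact h1
    · have h2 := Nib_pow hε0 hε1 B hB1
      rw [hexpL] at h2
      exact h1.trans (mul_le_mul_of_nonneg_right h2 hnpos.le)
  have hend := Nib_end hReg hDpos hε0.le hεν hν'1 hst hη' hfin
  refine ⟨M', hst.subM, ?_, ?_⟩
  · have h1 := (hst.ext ∅ (Finset.empty_subset _) (fun i => by simp)).1
    rw [Finset.union_empty] at h1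
    exact h1
  · rw [hI] at hend
    refine le_trans ?_ hend
    refine mul_le_mul_of_nonneg_right ?_ hnpos.le
    linarith

end Pool.Agent.H60.HL
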