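import Pool.Agent.H60.HL.RtB1

/-!
# HL-10b RtB: exact regularisation by vertex weights, bounds

Take `φ`, `D₁` (called `D'` below) from `reg_solve`; if `n = 0` take `φ = 0`, `D' = D` (all `B i` empty).
`d_i x = #{t ∈ Tr B : t i = x}`, `‖φ‖² = ∑ i x, φ i x ^ 2`.
(3) `∑ t, (φ 0 (t 0) + φ 1 (t 1) + φ 2 (t 2)) = ∑ i, ∑ x ∈ B i, d_i x φ_i x =
∑ i, ∑ x ∈ B i, (d_i x - D) φ_i x` (the sums of `φ i` vanish), at most `e D sqrt (3 n) ‖φ‖` in
absolute value; so `(D / 2) ‖φ‖² ≤ e D sqrt (3 n) ‖φ‖`, `‖φ‖ ≤ 2 e sqrt (3 n)`.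
(4) `n D' = ∑ t ∈ Tr B, w t = (Tr B).card + ∑ t, (φ 0 (t 0) + ..)`, so `|D' - D| ≤ e D + 6 e² D ≤ 2 e D`
(`(Tr B).card = ∑ x ∈ B i, d_i x`, within `e D n` of `D n`; `e ≤ 1 / 100`).
(5) For `x ∈ B i`: `d_i x (1 + φ_i x) = D' - ∑_{j ≠ i} ∑_{t i = x} φ_j (t j)` and by Cauchy-Schwarz
`|∑_{t i = x} φ_j (t j)| ≤ sqrt (d_i x) ‖φ_j‖ ≤ sqrt (1.01 D) 2 e sqrt (3 n)` (for fixed `t i = x` the
map `t ↦ t j` is injective on `Tr B`).  `e sqrt n ≤ sqrt (D / 10^5)`.  So the two sums together are at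
most `0.03 D`, and `|φ_i x| ≤ (3 e D + 0.03 D) / (0.99 D) ≤ 1 / 6`.  For `x ∉ B i`, `φ_i x = 0`.
-/

namespace Pool.Agent.H60.HL

open Finset Classical

variable {G : Type} [AddCommGroup G] [Fintype G]

theorem RtB_mem (B : Fin 3 → Finset G) (t : Fin 3 → G) :
    t ∈ Tr B ↔ (∀ i, t i ∈ B i) ∧ t 0 + t 1 + t 2 = 0 := by
  simp [Tr]

theorem RtB_inj (B : Fin 3 → Finset G) (i j : Fin 3) (hij : i ≠ j) (x : G)
    (t t' : Fin 3 → G) (ht : t ∈ (Tr B).filter fun t => t i = x)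
    (ht' : t' ∈ (Tr B).filter fun t => t i = x) (h : t j = t' j) : t = t' := by
  rw [Finset.mem_filter, RtB_mem] at ht ht'
  obtain ⟨⟨-, h0⟩, h1⟩ := ht
  obtain ⟨⟨-, h0'⟩, h1'⟩ := ht'
  have h2 : t i = t' i := h1.trans h1'.symm
  have a0 : ∀ s : Fin 3 → G, s 0 + s 1 + s 2 = 0 → s 0 = -(s 1 + s 2) := fun s hs => by
    rw [eq_neg_iff_add_eq_zero, ← add_assoc]
    exact hs
  have a1 : ∀ s : Fin 3 → G, s 0 + s 1 + s 2 = 0 → s 1 = -(s 0 + s 2) := fun s hs => by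
    rw [eq_neg_iff_add_eq_zero, ← add_assoc, add_comm (s 1)]
    exact hs
  have a2 : ∀ s : Fin 3 → G, s 0 + s 1 + s 2 = 0 → s 2 = -(s 0 + s 1) := fun s hs => by
    rw [eq_neg_iff_add_eq_zero, add_comm (s 2)]
    exact hs
  have b0 := a0 t h0
  have b1 := a1 t h0
  have b2 := a2 t h0
  have c0 := a0 t' h0'
  have c1 := a1 t' h0'
  have c2 := a2 t' h0'
  clear a0 a1 a2 h0 h0' h1 h1'
  have key : t 0 = t' 0 ∧ t 1 = t' 1 ∧ t 2 = t' 2 := by
    have h3 : ∀ i : Fin 3, i = 0 ∨ i = 1 ∨ i = 2 := by decide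
    rcases h3 i with rfl | rfl | rfl <;> rcases h3 j with rfl | rfl | rfl
    · exact absurd rfl hij
    · exact ⟨h2, h, by rw [b2, c2, h2, h]⟩
    · exact ⟨h2, by rw [b1, c1, h2, h], h⟩
    · exact ⟨h, h2, by rw [b2, c2, h2, h]⟩
    · exact absurd rfl hij
    · exact ⟨by rw [b0, c0, h2, h], h2, h⟩
    · exact ⟨h, by rw [b1, c1, h2, h], h2⟩
    · exact ⟨by rw [b0, c0, h2, h], h, h2⟩
    · exact absurd rfl hij
  funext k
  have h3 : ∀ i : Fin 3, i = 0 ∨ i = 1 ∨ i = 2 := by decide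
  rcases h3 k with rfl | rfl | rfl
  · exact key.1
  · exact key.2.1
  · exact key.2.2

/-- sums over `Tr B` by the coordinate `i` -/
theorem RtB_fiber (B : Fin 3 → Finset G) (i : Fin 3) (f : (Fin 3 → G) → ℝ) :
    ∑ x ∈ B i, ∑ t ∈ (Tr B).filter (fun t => t i = x), f t = ∑ t ∈ Tr B, f t :=
  Finset.sum_fiberwise_of_maps_to (fun t ht => ((RtB_mem B t).1 ht).1 i) f

theorem RtB_fiber1 (B : Fin 3 → Finset G) (i : Fin 3) (φ : G → ℝ) :
    ∑ t ∈ Tr B, φ (t i) =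
      ∑ x ∈ B i, (((Tr B).filter fun t => t i = x).card : ℝ) * φ x := by
  rw [← RtB_fiber B i]
  refine Finset.sum_congr rfl fun x _ => ?_
  rw [Finset.sum_congr rfl (g := fun _ => φ x) (fun t ht => by rw [(Finset.mem_filter.1 ht).2])]
  rw [Finset.sum_const, nsmul_eq_mul]

theorem RtB_card (B : Fin 3 → Finset G) (i : Fin 3) :
    ((Tr B).card : ℝ) = ∑ x ∈ B i, (((Tr B).filter fun t => t i = x).card : ℝ) := by
  have h := RtB_fiber1 B i (fun _ => 1)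
  simpa using h

/-- the sums over the fibres of the other coordinates -/
theorem RtB_other (B : Fin 3 → Finset G) (i j : Fin 3) (hij : i ≠ j) (x : G) (ψ : G → ℝ) :
    (∑ t ∈ (Tr B).filter (fun t => t i = x), ψ (t j)) ^ 2 ≤
      (((Tr B).filter fun t => t i = x).card : ℝ) * ∑ y, ψ y ^ 2 := by
  have h1 : (∑ t ∈ (Tr B).filter (fun t => t i = x), ψ (t j)) ^ 2 ≤
      (((Tr B).filter fun t => t i = x).card : ℝ) *
        ∑ t ∈ (Tr B).filter (fun t => t i = x), ψ (t j) ^ 2 := sq_sum_le_card_mul_sum_sq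
  have h2 : ∑ t ∈ (Tr B).filter (fun t => t i = x), ψ (t j) ^ 2 ≤ ∑ y, ψ y ^ 2 := by
    have h3 : ∑ t ∈ (Tr B).filter (fun t => t i = x), ψ (t j) ^ 2 =
        ∑ y ∈ ((Tr B).filter (fun t => t i = x)).image (fun t => t j), ψ y ^ 2 := by
      rw [Finset.sum_image]
      intro t ht t' ht' h
      exact RtB_inj B i j hij x t t' ht ht' h
    rw [h3]
    exact Finset.sum_le_sum_of_subset_of_nonneg (Finset.subset_univ _) fun y _ _ => sq_nonneg _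
  exact h1.trans (mul_le_mul_of_nonneg_left h2 (Nat.cast_nonneg _))

/-- one coordinate of (3) -/
theorem RtB_one (B : Fin 3 → Finset G) (n : ℕ) (hn : ∀ i, (B i).card = n) (D e : ℝ)
    (hD : 0 < D) (he : 0 ≤ e)
    (hdeg : ∀ i, ∀ x ∈ B i, |(((Tr B).filter fun t => t i = x).card : ℝ) - D| ≤ e * D)
    (i : Fin 3) (φ : G → ℝ) (h0 : ∀ x ∉ B i, φ x = 0) (h1 : ∑ x, φ x = 0) :
    (∑ t ∈ Tr B, φ (t i)) ^ 2 ≤ e ^ 2 * D ^ 2 * n * ∑ x, φ x ^ 2 := by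
  have h2 : ∑ x ∈ B i, φ x = 0 := by
    rw [← h1]
    exact Finset.sum_subset (Finset.subset_univ _) fun x _ hx => h0 x hx
  have h3 : ∑ t ∈ Tr B, φ (t i) =
      ∑ x ∈ B i, ((((Tr B).filter fun t => t i = x).card : ℝ) - D) * φ x := by
    rw [RtB_fiber1]
    simp only [sub_mul, Finset.sum_sub_distrib, ← Finset.mul_sum, h2, mul_zero, sub_zero]
  rw [h3]
  have h4 := Finset.sum_mul_sq_le_sq_mul_sq (B i)
    (fun x => (((Tr B).filter fun t => t i = x).card : ℝ) - D) φ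
  have h5 : ∑ x ∈ B i, ((((Tr B).filter fun t => t i = x).card : ℝ) - D) ^ 2 ≤
      e ^ 2 * D ^ 2 * n := by
    have : ∀ x ∈ B i, ((((Tr B).filter fun t => t i = x).card : ℝ) - D) ^ 2 ≤ (e * D) ^ 2 := by
      intro x hx
      rw [← sq_abs]
      exact pow_le_pow_left₀ (abs_nonneg _) (hdeg i x hx) 2
    have h6 := Finset.sum_le_sum this
    rw [Finset.sum_const, hn i, nsmul_eq_mul] at h6
    calc _ ≤ _ := h6
      _ = _ := by ring
  have h6 : ∑ x ∈ B i, φ x ^ 2 ≤ ∑ x, φ x ^ 2 :=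
    Finset.sum_le_sum_of_subset_of_nonneg (Finset.subset_univ _) fun y _ _ => sq_nonneg _
  calc _ ≤ _ := h4
    _ ≤ e ^ 2 * D ^ 2 * n * ∑ x, φ x ^ 2 := by
      apply mul_le_mul h5 h6
      · exact Finset.sum_nonneg fun y _ => sq_nonneg _
      · positivity

theorem RtB_zero (B : Fin 3 → Finset G) (hn : ∀ i, (B i).card = 0) (D : ℝ) (hD : 0 < D) :
    ∃ (φ : Fin 3 → G → ℝ) (D' : ℝ), D / 2 ≤ D' ∧ D' ≤ 2 * D ∧ (∀ i x, |φ i x| ≤ 1 / 6) ∧
      ∀ i, ∀ x ∈ B i, ∑ t ∈ (Tr B).filter (fun t => t i = x),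
        (1 + φ 0 (t 0) + φ 1 (t 1) + φ 2 (t 2)) = D' := by
  refine ⟨fun _ _ => 0, D, by linarith, by linarith, fun i x => by norm_num, ?_⟩
  intro i x hx
  rw [Finset.card_eq_zero.1 (hn i)] at hx
  exact absurd hx (Finset.notMem_empty x)

theorem regularize (B : Fin 3 → Finset G) (n : ℕ) (hn : ∀ i, (B i).card = n) (D e : ℝ)
    (hD : 0 < D) (he : 0 ≤ e) (he1 : e ≤ 1 / 100) (he2 : 10 ^ 5 * e ^ 2 * n ≤ D)
    (hdeg : ∀ i, ∀ x ∈ B i, |(((Tr B).filter fun t => t i = x).card : ℝ) - D| ≤ e * D)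
    (hbil : ∀ i j, i ≠ j → ∀ φ ψ : G → ℝ, (∀ x ∉ B i, φ x = 0) → (∀ x ∉ B j, ψ x = 0) →
      ∑ x, φ x = 0 → ∑ x, ψ x = 0 →
      |∑ t ∈ Tr B, φ (t i) * ψ (t j)| ≤
        D / 16 * Real.sqrt (∑ x, φ x ^ 2) * Real.sqrt (∑ x, ψ x ^ 2)) :
    ∃ (φ : Fin 3 → G → ℝ) (D' : ℝ), D / 2 ≤ D' ∧ D' ≤ 2 * D ∧ (∀ i x, |φ i x| ≤ 1 / 6) ∧
      ∀ i, ∀ x ∈ B i, ∑ t ∈ (Tr B).filter (fun t => t i = x),
        (1 + φ 0 (t 0) + φ 1 (t 1) + φ 2 (t 2)) = D' := by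
  rcases Nat.eq_zero_or_pos n with hn0 | hnpos
  · exact RtB_zero B (fun i => by rw [hn i, hn0]) D hD
  obtain ⟨φ, D1, hsup, hsum, heq, hco⟩ := reg_solve B n hn D e hD he he1 hdeg hbil
  have hnR : (1 : ℝ) ≤ n := by exact_mod_cast hnpos
  set N2 : ℝ := ∑ i, ∑ x, φ i x ^ 2 with hN2
  have hq : ∀ i, 0 ≤ ∑ x, φ i x ^ 2 := fun i => Finset.sum_nonneg fun y _ => sq_nonneg _
  have hN2' : N2 = ∑ x, φ 0 x ^ 2 + ∑ x, φ 1 x ^ 2 + ∑ x, φ 2 x ^ 2 := by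
    rw [hN2, Fin.sum_univ_three]
  have hqi : ∀ i, ∑ x, φ i x ^ 2 ≤ N2 := fun i => by
    rw [hN2]
    exact Finset.single_le_sum (f := fun i => ∑ x, φ i x ^ 2) (fun j _ => hq j) (Finset.mem_univ i)
  have hN20 : 0 ≤ N2 := (hq 0).trans (hqi 0)
  set Z : ℝ := ∑ t ∈ Tr B, (φ 0 (t 0) + φ 1 (t 1) + φ 2 (t 2)) with hZ
  have hZs : Z = ∑ t ∈ Tr B, φ 0 (t 0) + ∑ t ∈ Tr B, φ 1 (t 1) + ∑ t ∈ Tr B, φ 2 (t 2) := by
    rw [hZ, Finset.sum_add_distrib, Finset.sum_add_distrib]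
  have o0 := RtB_one B n hn D e hD he hdeg 0 (φ 0) (hsup 0) (hsum 0)
  have o1 := RtB_one B n hn D e hD he hdeg 1 (φ 1) (hsup 1) (hsum 1)
  have o2 := RtB_one B n hn D e hD he hdeg 2 (φ 2) (hsup 2) (hsum 2)
  have hZ2 : Z ^ 2 ≤ 3 * (e ^ 2 * D ^ 2 * n * N2) := by
    set a := ∑ t ∈ Tr B, φ 0 (t 0)
    set b := ∑ t ∈ Tr B, φ 1 (t 1)
    set c := ∑ t ∈ Tr B, φ 2 (t 2)
    have h1 : (a + b + c) ^ 2 ≤ 3 * (a ^ 2 + b ^ 2 + c ^ 2) := by
      nlinarith [sq_nonneg (a - b), sq_nonneg (b - c), sq_nonneg (a - c)]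
    rw [hZs]
    refine h1.trans ?_
    rw [hN2', mul_add (e ^ 2 * D ^ 2 * n), mul_add (e ^ 2 * D ^ 2 * n)]
    linarith
  -- the norm
  have hZn : D / 2 * N2 ≤ -Z := hco
  have hNb : N2 ≤ 12 * e ^ 2 * n := by
    have h1 : (D / 2 * N2) ^ 2 ≤ Z ^ 2 := by
      have h0 : 0 ≤ D / 2 * N2 := by positivity
      have := pow_le_pow_left₀ h0 hZn 2
      rwa [neg_sq] at this
    have h2 : D ^ 2 / 4 * (N2 * N2) ≤ D ^ 2 / 4 * (12 * e ^ 2 * n * N2) := by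
      calc D ^ 2 / 4 * (N2 * N2) = (D / 2 * N2) ^ 2 := by ring
        _ ≤ Z ^ 2 := h1
        _ ≤ 3 * (e ^ 2 * D ^ 2 * n * N2) := hZ2
        _ = D ^ 2 / 4 * (12 * e ^ 2 * n * N2) := by ring
    have h3 : N2 * N2 ≤ 12 * e ^ 2 * n * N2 :=
      le_of_mul_le_mul_left h2 (by positivity)
    rcases hN20.eq_or_lt with h4 | h4
    · rw [← h4]
      positivity
    · exact le_of_mul_le_mul_right h3 h4
  have hZb : |Z| ≤ 6 * e ^ 2 * D * n := by
    apply abs_le_of_sq_le_sq _ (by positivity)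
    calc Z ^ 2 ≤ 3 * (e ^ 2 * D ^ 2 * n * N2) := hZ2
      _ ≤ 3 * (e ^ 2 * D ^ 2 * n * (12 * e ^ 2 * n)) := by
        apply mul_le_mul_of_nonneg_left _ (by norm_num)
        exact mul_le_mul_of_nonneg_left hNb (by positivity)
      _ = (6 * e ^ 2 * D * n) ^ 2 := by ring
  -- the common value
  have hnD : (n : ℝ) * D1 = (Tr B).card + Z := by
    have h1 := RtB_fiber B 0 (fun t => 1 + φ 0 (t 0) + φ 1 (t 1) + φ 2 (t 2))
    rw [Finset.sum_congr rfl (heq 0), Finset.sum_const, hn 0, nsmul_eq_mul] at h1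
    rw [h1, hZ]
    simp only [Finset.sum_add_distrib, Finset.sum_const, nsmul_eq_mul, mul_one]
    ring
  have hcard : |((Tr B).card : ℝ) - n * D| ≤ n * (e * D) := by
    rw [RtB_card B 0]
    have h1 : ∑ x ∈ B 0, (((Tr B).filter fun t => t 0 = x).card : ℝ) - n * D =
        ∑ x ∈ B 0, ((((Tr B).filter fun t => t 0 = x).card : ℝ) - D) := by
      rw [Finset.sum_sub_distrib, Finset.sum_const, hn 0, nsmul_eq_mul]
    rw [h1]
    refine (Finset.abs_sum_le_sum_abs _ _).trans ?_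
    refine (Finset.sum_le_sum (hdeg 0)).trans ?_
    rw [Finset.sum_const, hn 0, nsmul_eq_mul]
  have hD1 : |D1 - D| ≤ 2 * e * D := by
    have h1 : (n : ℝ) * |D1 - D| ≤ n * (2 * e * D) := by
      have h2 : (n : ℝ) * |D1 - D| = |(((Tr B).card : ℝ) - n * D) + Z| := by
        rw [show (((Tr B).card : ℝ) - n * D) + Z = n * (D1 - D) by rw [mul_sub, hnD]; ring,
          abs_mul, abs_of_nonneg (by positivity : (0 : ℝ) ≤ n)]
      rw [h2]
      refine (abs_add_le _ _).trans ?_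
      have h3 : 6 * e ^ 2 * D * n ≤ n * (e * D) := by
        have : 6 * e ^ 2 ≤ e := by nlinarith
        have h4 : 0 ≤ D * n := by positivity
        nlinarith [mul_le_mul_of_nonneg_right this h4]
      linarith
    exact le_of_mul_le_mul_left h1 (by linarith)
  obtain ⟨hDl, hDu⟩ := abs_le.1 hD1
  have heD : e * D ≤ D / 100 := by nlinarith
  refine ⟨φ, D1, by linarith, by linarith, ?_, heq⟩
  intro i x
  by_cases hx : x ∈ B i
  swap
  · rw [hsup i x hx]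
    norm_num
  set d : ℝ := (((Tr B).filter fun t => t i = x).card : ℝ) with hd
  have hdx := hdeg i x hx
  rw [← hd] at hdx
  obtain ⟨hdl, hdu⟩ := abs_le.1 hdx
  have hoth : ∀ j, i ≠ j →
      |∑ t ∈ (Tr B).filter (fun t => t i = x), φ j (t j)| ≤ D / 50 := by
    intro j hij
    apply abs_le_of_sq_le_sq _ (by linarith)
    have h1 := RtB_other B i j hij x (φ j)
    rw [← hd] at h1
    have h2 : ∑ y, φ j y ^ 2 ≤ 12 * e ^ 2 * n := (hqi j).trans hNb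
    have h3 : 12 * e ^ 2 * n ≤ 12 * D / 10 ^ 5 := by
      have : 10 ^ 5 * (e ^ 2 * n) ≤ D := by linarith
      rw [le_div_iff₀ (by norm_num)]
      linarith
    have h4 : d ≤ 2 * D := by linarith
    have h5 : 0 ≤ d := Nat.cast_nonneg _
    calc _ ≤ d * ∑ y, φ j y ^ 2 := h1
      _ ≤ (2 * D) * (12 * D / 10 ^ 5) := by
        apply mul_le_mul h4 (h2.trans h3) (hq j) (by linarith)
      _ ≤ (D / 50) ^ 2 := by nlinarith [sq_nonneg D]
  have hown : ∑ t ∈ (Tr B).filter (fun t => t i = x), φ i (t i) = d * φ i x := by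
    rw [Finset.sum_congr rfl (g := fun _ => φ i x) (fun t ht => by rw [(Finset.mem_filter.1 ht).2])]
    rw [Finset.sum_const, nsmul_eq_mul]
  have hex := heq i x hx
  simp only [Finset.sum_add_distrib, Finset.sum_const, nsmul_eq_mul, mul_one] at hex
  rw [← hd] at hex
  have hfin : |d * φ i x| ≤ 7 / 100 * D := by
    have h3 : ∀ i : Fin 3, i = 0 ∨ i = 1 ∨ i = 2 := by decide
    rcases h3 i with h | h | h
    · have h1 := hoth 1 (by rw [h]; decide)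
      have h2 := hoth 2 (by rw [h]; decide)
      subst h
      rw [hown] at hex
      rw [abs_le] at h1 h2 ⊢
      constructor <;> linarith [h1.1, h1.2, h2.1, h2.2]
    · have h1 := hoth 0 (by rw [h]; decide)
      have h2 := hoth 2 (by rw [h]; decide)
      subst h
      rw [hown] at hex
      rw [abs_le] at h1 h2 ⊢
      constructor <;> linarith [h1.1, h1.2, h2.1, h2.2]
    · have h1 := hoth 0 (by rw [h]; decide)
      have h2 := hoth 1 (by rw [h]; decide)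
      subst h
      rw [hown] at hex
      rw [abs_le] at h1 h2 ⊢
      constructor <;> linarith [h1.1, h1.2, h2.1, h2.2]
  have hd9 : 99 / 100 * D ≤ d := by linarith
  rw [abs_mul, abs_of_nonneg (by linarith : 0 ≤ d)] at hfin
  by_contra hcon
  push_neg at hcon
  have : 99 / 100 * D * (1 / 6) ≤ d * |φ i x| :=
    mul_le_mul hd9 hcon.le (by norm_num) (by linarith)
  linarith

end Pool.Agent.H60.HL
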