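import Pool.Agent.H60.HL.RtA
import Pool.Agent.H60.HL.RtB
import Pool.Agent.H60.HL.Nib

/-!
# HL-11 RtC: almost perfect matchings in perturbed quasirandom sets, with arbitrarily small rest

The point: `η` depends only on `ρ`, not on `θ`.

Proof.  `q = card G`, `D = ρ² q`, `n = (B 0).card`, `|n - ρ q| ≤ 2 η q`.  For `x ∈ B i` the number of
`t ∈ Tr B` with `t i = x` differs from the number in `QR` (2) by at most `2 η q` (`Near`; for fixed
`t i = x` the maps `t ↦ t j` are injective), so it is within `3 η q = e D` of `D`, `e = 3 η / ρ²`.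
For small `η` (in terms of `ρ`) and large `q`: `e ≤ 1 / 100`, `10^5 e² n ≤ D`, and by `bilin` the
hypothesis `hbil` of `regularize` (`sqrt (3 q + 3 η q²) + η q ≤ ρ² q / 16` if `η ≤ ρ⁴ / 10^5`, `q ≥ 1 / η`).
So we have `φ`, `D'`.  Let `w t = 1 + φ 0 (t 0) + φ 1 (t 1) + φ 2 (t 2) ∈ [1/2, 3/2]`, `R` a large
natural number (`3 / R ≤` the `η` of `nibble` for `r = 3`, `κ = ρ / 8`, `ν = θ`; `θ ≤ 1` may be
assumed), `α = (Fin 3 → G) × ℕ`, `E = {(t, k) : t ∈ Tr B, k < ⌊R w t⌋}`, `I = Fin 3`, `V = G`,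
`π (t, k) i = t i`, `i0 = 0`, `Λ = 2 R`, degree parameter `R D'`.
Degrees: `R D' - d ≤ dg ≤ R D'` with `d = #{t ∈ Tr B : t i = x} ≤ 1.01 D ≤ 2.02 D'`, relative error at
most `3 / R`; in particular `vx E π i = B i` (every vertex of `B i` has positive degree).
Codegrees: `t` is determined by `t i`, `t j`, so at most `⌊R w t⌋ ≤ 2 R`.
`κ n Λ ≤ R D'`: `(ρ / 8) n 2 R ≤ R D / 2` as `n ≤ 2 ρ q`.
The first components of the matching are different triples; `(1 - θ) n ≤ M.card`.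
-/

namespace Pool.Agent.H60.HL

open Finset Classical

section aux

variable {G : Type} [AddCommGroup G]

private theorem RtC_ext {t t' : Fin 3 → G} (h : t 0 + t 1 + t 2 = 0)
    (h' : t' 0 + t' 1 + t' 2 = 0) {i j : Fin 3} (hij : i ≠ j) (hi : t i = t' i)
    (hj : t j = t' j) : t = t' := by
  have h0 : t 0 + t 1 + t 2 = t' 0 + t' 1 + t' 2 := h.trans h'.symm
  clear h h'
  funext k
  fin_cases i <;> fin_cases j <;> fin_cases k <;> simp_all

variable [Fintype G]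

private theorem RtC_card (i j : Fin 3) (hij : j ≠ i) (x : G) (C : Finset G) :
    (univ.filter fun t : Fin 3 → G => t i = x ∧ t 0 + t 1 + t 2 = 0 ∧ t j ∈ C).card ≤ C.card := by
  refine card_le_card_of_injOn (fun t => t j) ?_ ?_
  · intro t ht
    have ht' := (mem_filter.1 ht).2
    exact ht'.2.2
  · intro t ht t' ht' h
    have h1 := (mem_filter.1 ht).2
    have h2 := (mem_filter.1 ht').2
    exact RtC_ext h1.2.1 h2.2.1 hij h (h1.1.trans h2.1.symm)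

private theorem RtC_diff (S S' : Finset (Fin 3 → G)) (C : Fin 3 → Finset G) (i : Fin 3) (x : G)
    (M : ℝ) (hM : ∀ j, ((C j).card : ℝ) ≤ M)
    (h : ∀ t ∈ S, t ∉ S' → t i = x ∧ t 0 + t 1 + t 2 = 0 ∧ ∃ j, j ≠ i ∧ t j ∈ C j) :
    (S.card : ℝ) ≤ S'.card + 2 * M := by
  have h1 : S.card ≤ (S \ S').card + S'.card := card_le_card_sdiff_add_card
  have h2 : (S \ S').card ≤ ∑ j ∈ univ.filter (fun j : Fin 3 => j ≠ i), (C j).card := by
    refine (card_le_card (t := (univ.filter (fun j : Fin 3 => j ≠ i)).biUnion fun j =>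
      univ.filter fun t : Fin 3 → G => t i = x ∧ t 0 + t 1 + t 2 = 0 ∧ t j ∈ C j) ?_).trans ?_
    · intro t ht
      rw [mem_sdiff] at ht
      obtain ⟨e1, e2, j, hj, e3⟩ := h t ht.1 ht.2
      rw [mem_biUnion]
      exact ⟨j, mem_filter.2 ⟨mem_univ _, hj⟩, mem_filter.2 ⟨mem_univ _, e1, e2, e3⟩⟩
    · exact card_biUnion_le.trans (sum_le_sum fun j hj =>
        RtC_card i j (mem_filter.1 hj).2 x (C j))
  have h3 : ((∑ j ∈ univ.filter (fun j : Fin 3 => j ≠ i), (C j).card : ℕ) : ℝ) ≤ 2 * M := by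
    push_cast
    refine (sum_le_sum fun j _ => hM j).trans ?_
    rw [sum_const, nsmul_eq_mul]
    have h4 : (univ.filter (fun j : Fin 3 => j ≠ i)).card = 2 := by
      fin_cases i <;> rfl
    rw [h4]
    norm_num
  have h4 : (S.card : ℝ) ≤ ((S \ S').card : ℝ) + S'.card := by exact_mod_cast h1
  have h5 : ((S \ S').card : ℝ) ≤
      ((∑ j ∈ univ.filter (fun j : Fin 3 => j ≠ i), (C j).card : ℕ) : ℝ) := by
    exact_mod_cast h2
  linarith

private theorem RtC_deg {A B : Fin 3 → Finset G} {Θ : Finset G} {ρ η : ℝ} (hA : QR A Θ ρ η)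
    (hB : Near A B η) (i : Fin 3) (x : G) (hx : x ∈ B i) :
    |(((Tr B).filter fun t => t i = x).card : ℝ) - ρ ^ 2 * Fintype.card G| ≤
      3 * η * Fintype.card G := by
  have h1 := hA.2.1 i x
  have hsub1 : ∀ j, ((B j \ A j).card : ℝ) ≤ η * Fintype.card G := fun j => by
    have := hB j
    have h2 : (0 : ℝ) ≤ ((A j \ B j).card : ℝ) := Nat.cast_nonneg _
    linarith
  have hsub2 : ∀ j, ((A j \ B j).card : ℝ) ≤ η * Fintype.card G := fun j => by
    have := hB j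
    have h2 : (0 : ℝ) ≤ ((B j \ A j).card : ℝ) := Nat.cast_nonneg _
    linarith
  have h2 := RtC_diff ((Tr B).filter fun t => t i = x)
    (univ.filter fun t : Fin 3 → G => t i = x ∧ (∀ j, j ≠ i → t j ∈ A j) ∧ t 0 + t 1 + t 2 = 0)
    (fun j => B j \ A j) i x (η * Fintype.card G) hsub1 (by
      intro t ht hn
      obtain ⟨ht1, ht2⟩ := mem_filter.1 ht
      obtain ⟨-, ht3, ht4⟩ := mem_filter.1 ht1
      refine ⟨ht2, ht4, ?_⟩
      by_contra hc
      push Not at hc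
      apply hn
      refine mem_filter.2 ⟨mem_univ _, ht2, fun j hj => ?_, ht4⟩
      by_contra hjA
      exact hc j hj (mem_sdiff.2 ⟨ht3 j, hjA⟩))
  have h3 := RtC_diff
    (univ.filter fun t : Fin 3 → G => t i = x ∧ (∀ j, j ≠ i → t j ∈ A j) ∧ t 0 + t 1 + t 2 = 0)
    ((Tr B).filter fun t => t i = x)
    (fun j => A j \ B j) i x (η * Fintype.card G) hsub2 (by
      intro t ht hn
      obtain ⟨-, ht2, ht3, ht4⟩ := mem_filter.1 ht
      refine ⟨ht2, ht4, ?_⟩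
      by_contra hc
      push Not at hc
      apply hn
      refine mem_filter.2 ⟨mem_filter.2 ⟨mem_univ _, fun j => ?_, ht4⟩, ht2⟩
      by_cases hj : j = i
      · rw [hj, ht2]
        exact hx
      · by_contra hjB
        exact hc j hj (mem_sdiff.2 ⟨ht3 j hj, hjB⟩))
  rw [abs_le] at h1 ⊢
  constructor
  · linarith [h1.1]
  · linarith [h1.2]

/-- the weight -/
private noncomputable def RtCw (φ : Fin 3 → G → ℝ) (t : Fin 3 → G) : ℝ :=
  1 + φ 0 (t 0) + φ 1 (t 1) + φ 2 (t 2)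

/-- the edges with multiplicities -/
private noncomputable def RtCE (B : Fin 3 → Finset G) (φ : Fin 3 → G → ℝ) (R : ℕ) :
    Finset ((_ : Fin 3 → G) × ℕ) :=
  (Tr B).sigma fun t => range ⌊(R : ℝ) * RtCw φ t⌋₊

private theorem RtC_nib {η' : ℝ} {R : ℕ} (hR : 3 ≤ (R : ℝ) * η') (hR2 : 2 ≤ R)
    {B : Fin 3 → Finset G} {φ : Fin 3 → G → ℝ} {D D' : ℝ} (hD : 0 < D) (hD1 : D / 2 ≤ D')
    (hφ : ∀ i x, |φ i x| ≤ 1 / 6)
    (hd : ∀ i, ∀ x ∈ B i, (((Tr B).filter fun t => t i = x).card : ℝ) ≤ 101 / 100 * D)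
    (hs : ∀ i, ∀ x ∈ B i, ∑ t ∈ (Tr B).filter (fun t => t i = x),
      (1 + φ 0 (t 0) + φ 1 (t 1) + φ 2 (t 2)) = D') :
    Reg (RtCE B φ R) (fun e i => e.1 i) (R * D') η' (2 * R) ∧
      vx (RtCE B φ R) (fun e i => e.1 i) 0 = B 0 := by
  have hRpos : (0 : ℝ) < R := by
    have : (2 : ℝ) ≤ R := by exact_mod_cast hR2
    linarith
  have hR2' : (2 : ℝ) ≤ R := by exact_mod_cast hR2
  have hw : ∀ t, 1 / 2 ≤ RtCw φ t ∧ RtCw φ t ≤ 3 / 2 := by
    intro t
    have h0 := abs_le.1 (hφ 0 (t 0))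
    have h1 := abs_le.1 (hφ 1 (t 1))
    have h2 := abs_le.1 (hφ 2 (t 2))
    unfold RtCw
    constructor
    · linarith [h0.1, h1.1, h2.1]
    · linarith [h0.2, h1.2, h2.2]
  have hfl : ∀ t, ⌊(R : ℝ) * RtCw φ t⌋₊ ≤ 2 * R := by
    intro t
    apply Nat.floor_le_of_le
    push_cast
    have := (hw t).2
    nlinarith
  have hmem : ∀ e : (_ : Fin 3 → G) × ℕ, e ∈ RtCE B φ R ↔
      e.1 ∈ Tr B ∧ e.2 < ⌊(R : ℝ) * RtCw φ e.1⌋₊ := by
    intro e
    unfold RtCE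
    rw [mem_sigma, mem_range]
  have hdg : ∀ i v, (dg (RtCE B φ R) (fun e i => e.1 i) i v : ℝ) =
      ∑ t ∈ (Tr B).filter (fun t => t i = v), (⌊(R : ℝ) * RtCw φ t⌋₊ : ℝ) := by
    intro i v
    have h1 : (RtCE B φ R).filter (fun e => e.1 i = v) =
        ((Tr B).filter fun t => t i = v).sigma fun t => range ⌊(R : ℝ) * RtCw φ t⌋₊ := by
      ext e
      rw [mem_filter, hmem, mem_sigma, mem_filter, mem_range]
      tauto
    unfold dg
    rw [h1, card_sigma]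
    push_cast
    refine sum_congr rfl fun t _ => ?_
    rw [card_range]
  have hD' : 0 < D' := by linarith
  refine ⟨⟨?_, ?_⟩, ?_⟩
  · intro i v hv
    have hvB : v ∈ B i := by
      unfold vx at hv
      rw [mem_image] at hv
      obtain ⟨e, he, rfl⟩ := hv
      have h1 := ((hmem e).1 he).1
      exact (mem_filter.1 h1).2.1 i
    have h1 := hs i v hvB
    have h2 := hd i v hvB
    rw [hdg i v]
    have h3 : ∑ t ∈ (Tr B).filter (fun t => t i = v), (⌊(R : ℝ) * RtCw φ t⌋₊ : ℝ) ≤ R * D' := by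
      rw [← h1, mul_sum]
      refine sum_le_sum fun t _ => ?_
      refine Nat.floor_le ?_
      have := (hw t).1
      positivity
    have h4 : (R : ℝ) * D' - ((Tr B).filter fun t => t i = v).card ≤
        ∑ t ∈ (Tr B).filter (fun t => t i = v), (⌊(R : ℝ) * RtCw φ t⌋₊ : ℝ) := by
      rw [← h1, mul_sum]
      have h5 : (((Tr B).filter fun t => t i = v).card : ℝ) =
          ∑ t ∈ (Tr B).filter (fun t => t i = v), (1 : ℝ) := by
        rw [sum_const, nsmul_eq_mul, mul_one]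
      rw [h5, ← sum_sub_distrib]
      refine sum_le_sum fun t _ => ?_
      exact (Nat.sub_one_lt_floor _).le
    rw [abs_le]
    have h6 : (3 : ℝ) * D' ≤ η' * (R * D') := by nlinarith
    constructor
    · linarith
    · linarith
  · intro i j hij v w
    have h1 : ((RtCE B φ R).filter fun e => e.1 i = v ∧ e.1 j = w).card ≤ (range (2 * R)).card := by
      refine card_le_card_of_injOn (fun e => e.2) ?_ ?_
      · intro e he
        have h2 := ((hmem e).1 (mem_filter.1 he).1).2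
        exact mem_coe.2 (mem_range.2 (h2.trans_le (hfl _)))
      · rintro ⟨t, k⟩ he ⟨t', k'⟩ he' h
        obtain ⟨h2, h3⟩ := mem_filter.1 he
        obtain ⟨h2', h3'⟩ := mem_filter.1 he'
        have h4 : t = t' := RtC_ext (mem_filter.1 ((hmem _).1 h2).1).2.2
          (mem_filter.1 ((hmem _).1 h2').1).2.2 hij (h3.1.trans h3'.1.symm)
          (h3.2.trans h3'.2.symm)
        have h5 : k = k' := h
        rw [h4, h5]
    rw [card_range] at h1
    exact_mod_cast h1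
  · ext x
    unfold vx
    rw [mem_image]
    constructor
    · rintro ⟨e, he, rfl⟩
      exact (mem_filter.1 ((hmem e).1 he).1).2.1 0
    · intro hx
      have h1 := hs 0 x hx
      obtain ⟨t, ht⟩ : ((Tr B).filter fun t => t 0 = x).Nonempty := by
        by_contra hne
        rw [not_nonempty_iff_eq_empty] at hne
        rw [hne, sum_empty] at h1
        linarith
      obtain ⟨ht1, ht2⟩ := mem_filter.1 ht
      refine ⟨⟨t, 0⟩, (hmem _).2 ⟨ht1, ?_⟩, ht2⟩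
      show 0 < ⌊(R : ℝ) * RtCw φ t⌋₊
      rw [Nat.floor_pos]
      have := (hw t).1
      nlinarith

end aux

theorem rtnp (ρ : ℝ) (hρ : 0 < ρ) (hρ1 : ρ ≤ 1) :
    ∃ η : ℝ, 0 < η ∧ ∀ θ : ℝ, 0 < θ → ∃ q0 : ℕ, ∀ (G : Type) [AddCommGroup G] [Fintype G],
      q0 ≤ Fintype.card G → ∀ (Θ : Finset G) (A B : Fin 3 → Finset G), ThOK Θ → QR A Θ ρ η →
      Near A B η → (B 0).card = (B 1).card → (B 1).card = (B 2).card →
      ∃ M ⊆ Tr B, (∀ i, Set.InjOn (fun t : Fin 3 → G => t i) (M : Set (Fin 3 → G))) ∧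
        ((B 0).card : ℝ) ≤ M.card + θ * Fintype.card G := by
  refine ⟨ρ ^ 4 / 10 ^ 5, by positivity, fun θ hθ => ?_⟩
  obtain ⟨η', hη', n0, hnib⟩ := nibble 3 (ρ / 8) θ (by positivity) hθ
  obtain ⟨R, hR⟩ := exists_nat_ge (max 2 (3 / η'))
  have hR2 : 2 ≤ R := by
    have : (2 : ℝ) ≤ R := (le_max_left _ _).trans hR
    exact_mod_cast this
  have hR3 : 3 ≤ (R : ℝ) * η' := by
    have h1 : 3 / η' ≤ R := (le_max_right _ _).trans hR
    rwa [div_le_iff₀ hη'] at h1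
  obtain ⟨q0, hq0⟩ := exists_nat_ge (max (1 / (ρ ^ 4 / 10 ^ 5)) (2 * n0 / ρ))
  refine ⟨q0, fun G _ _ hq Θ A B hΘ hA hB hB1 hB2 => ?_⟩
  set η : ℝ := ρ ^ 4 / 10 ^ 5 with hη
  have hηpos : 0 < η := by positivity
  have hqR : (q0 : ℝ) ≤ Fintype.card G := by exact_mod_cast hq
  set q : ℝ := (Fintype.card G : ℝ) with hqdef
  have hq1 : 1 / η ≤ q := (le_max_left _ _).trans (hq0.trans hqR)
  have hq2 : 2 * n0 / ρ ≤ q := (le_max_right _ _).trans (hq0.trans hqR)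
  have hqη : 1 ≤ q * η := by rwa [div_le_iff₀ hηpos] at hq1
  have hqn : 2 * (n0 : ℝ) ≤ q * ρ := by rwa [div_le_iff₀ hρ] at hq2
  have hqpos : 0 < q := by
    by_contra h
    push Not at h
    nlinarith
  have hρ2 : ρ ^ 2 ≤ 1 := pow_le_one₀ hρ.le hρ1
  have hρ3 : ρ ^ 3 ≤ 1 := pow_le_one₀ hρ.le hρ1
  have hηρ : η ≤ ρ / 10 ^ 5 := by
    rw [hη]
    have : ρ ^ 4 = ρ * ρ ^ 3 := by ring
    rw [this]
    apply div_le_div_of_nonneg_right _ (by norm_num)
    nlinarith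
  -- sizes
  set n := (B 0).card with hn
  have hnB : ∀ i, (B i).card = n := by
    intro i
    fin_cases i
    · rfl
    · exact hB1.symm
    · exact (hB1.trans hB2).symm
  have hA0 := hA.1 0
  have hN0 := hB 0
  have c1 : ((B 0).card : ℝ) ≤ ((B 0 \ A 0).card : ℝ) + (A 0).card := by
    exact_mod_cast card_le_card_sdiff_add_card
  have c2 : ((A 0).card : ℝ) ≤ ((A 0 \ B 0).card : ℝ) + (B 0).card := by
    exact_mod_cast card_le_card_sdiff_add_card
  have c3 : (0 : ℝ) ≤ ((A 0 \ B 0).card : ℝ) := Nat.cast_nonneg _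
  have c4 : (0 : ℝ) ≤ ((B 0 \ A 0).card : ℝ) := Nat.cast_nonneg _
  rw [abs_le] at hA0
  have hnup : (n : ℝ) ≤ (ρ + 2 * η) * q := by
    rw [hn]
    linarith [hA0.2]
  have hnlo : (ρ - 2 * η) * q ≤ (n : ℝ) := by
    rw [hn]
    linarith [hA0.1]
  have hn2 : (n : ℝ) ≤ 2 * ρ * q := by nlinarith
  have hn3 : ρ / 2 * q ≤ (n : ℝ) := by nlinarith
  have hn4 : (n : ℝ) ≤ q := by
    have h1 : (B 0).card ≤ Fintype.card G := card_le_univ _
    rw [hn, hqdef]
    exact_mod_cast h1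
  have hDpos : 0 < ρ ^ 2 * q := by positivity
  have hdeg : ∀ i, ∀ x ∈ B i, |(((Tr B).filter fun t => t i = x).card : ℝ) - ρ ^ 2 * q| ≤
      3 * ρ ^ 2 / 10 ^ 5 * (ρ ^ 2 * q) := by
    intro i x hx
    refine (RtC_deg hA hB i x hx).trans (le_of_eq ?_)
    rw [hη]
    ring
  have hbil : ∀ i j, i ≠ j → ∀ φ ψ : G → ℝ, (∀ x ∉ B i, φ x = 0) → (∀ x ∉ B j, ψ x = 0) →
      ∑ x, φ x = 0 → ∑ x, ψ x = 0 →
      |∑ t ∈ Tr B, φ (t i) * ψ (t j)| ≤
        ρ ^ 2 * q / 16 * Real.sqrt (∑ x, φ x ^ 2) * Real.sqrt (∑ x, ψ x ^ 2) := by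
    intro i j hij φ ψ h1 h2 h3 h4
    refine (bilin hρ.le hρ1 hηpos.le hΘ hA hB i j hij φ ψ h1 h2 h3 h4).trans ?_
    refine mul_le_mul_of_nonneg_right (mul_le_mul_of_nonneg_right ?_ (Real.sqrt_nonneg _))
      (Real.sqrt_nonneg _)
    have h5 : Real.sqrt (3 * q + 3 * η * q ^ 2) ≤ ρ ^ 2 * q / 32 := by
      rw [Real.sqrt_le_iff]
      refine ⟨by positivity, ?_⟩
      have h6 : 3 * q ≤ 3 * η * q ^ 2 := by nlinarith
      have h7 : 6 * η * q ^ 2 ≤ (ρ ^ 2 * q / 32) ^ 2 := by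
        rw [hη]
        have h8 : (ρ ^ 2 * q / 32) ^ 2 - 6 * (ρ ^ 4 / 10 ^ 5) * q ^ 2 =
          (1 / 1024 - 6 / 10 ^ 5) * (ρ ^ 4 * q ^ 2) := by ring
        have h9 : 0 ≤ (1 / 1024 - 6 / 10 ^ 5) * (ρ ^ 4 * q ^ 2) := by
          have : (0 : ℝ) ≤ 1 / 1024 - 6 / 10 ^ 5 := by norm_num
          positivity
        linarith
      linarith
    have h6 : η * q ≤ ρ ^ 2 * q / 32 := by
      have h7 : ρ ^ 2 * q / 32 - η * q = (1 / 32 - ρ ^ 2 / 10 ^ 5) * (ρ ^ 2 * q) := by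
        rw [hη]
        ring
      have h8 : 0 ≤ (1 / 32 - ρ ^ 2 / 10 ^ 5) * (ρ ^ 2 * q) := by
        apply mul_nonneg _ hDpos.le
        linarith
      linarith
    linarith
  have hnn : (0 : ℝ) ≤ n := Nat.cast_nonneg _
  obtain ⟨φ, D', hD1, hD2, hφ, hs⟩ := regularize B n hnB (ρ ^ 2 * q) (3 * ρ ^ 2 / 10 ^ 5) hDpos
    (by positivity) (by linarith) (by
      have h1 : (10 : ℝ) ^ 5 * (3 * ρ ^ 2 / 10 ^ 5) ^ 2 * n = 9 / 10 ^ 5 * ρ ^ 4 * n := by ring
      rw [h1]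
      have h2 : 9 / 10 ^ 5 * ρ ^ 4 * n ≤ 9 / 10 ^ 5 * ρ ^ 4 * q :=
        mul_le_mul_of_nonneg_left hn4 (by positivity)
      have h3 : ρ ^ 2 * q - 9 / 10 ^ 5 * ρ ^ 4 * q = (1 - 9 / 10 ^ 5 * ρ ^ 2) * (ρ ^ 2 * q) := by
        ring
      have h4 : 0 ≤ (1 - 9 / 10 ^ 5 * ρ ^ 2) * (ρ ^ 2 * q) := by
        apply mul_nonneg _ hDpos.le
        linarith
      linarith) hdeg hbil
  have hd : ∀ i, ∀ x ∈ B i, (((Tr B).filter fun t => t i = x).card : ℝ) ≤
      101 / 100 * (ρ ^ 2 * q) := by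
    intro i x hx
    have h1 := (abs_le.1 (hdeg i x hx)).2
    have h2 : 3 * ρ ^ 2 / 10 ^ 5 * (ρ ^ 2 * q) ≤ 1 / 100 * (ρ ^ 2 * q) :=
      mul_le_mul_of_nonneg_right (by linarith) hDpos.le
    linarith
  obtain ⟨hreg, hvx⟩ := RtC_nib hR3 hR2 hDpos hD1 hφ hd hs
  have hRpos : (0 : ℝ) < R := by
    have : (2 : ℝ) ≤ R := by exact_mod_cast hR2
    linarith
  obtain ⟨M, hM, hmat, hMc⟩ := hnib ((_ : Fin 3 → G) × ℕ) (Fin 3) G (by simp) 0 (RtCE B φ R)
    (fun e i => e.1 i) (R * D') (2 * R) (by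
      have : (2 : ℝ) ≤ R := by exact_mod_cast hR2
      linarith) hreg (by
      rw [hvx]
      have h1 : (n0 : ℝ) ≤ n := by linarith
      exact_mod_cast h1) (by
      rw [hvx]
      show ρ / 8 * (n : ℝ) * (2 * R) ≤ R * D'
      have h1 : ρ / 8 * (n : ℝ) * 2 ≤ ρ ^ 2 * q / 2 := by nlinarith
      nlinarith)
  rw [hvx] at hMc
  have hinj : Set.InjOn (fun e : (_ : Fin 3 → G) × ℕ => e.1) (M : Set ((_ : Fin 3 → G) × ℕ)) := by
    intro e he e' he' h
    have h1 : e.1 = e'.1 := h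
    exact hmat 0 he he' (show e.1 0 = e'.1 0 by rw [h1])
  refine ⟨M.image fun e => e.1, ?_, ?_, ?_⟩
  · intro t ht
    obtain ⟨e, he, rfl⟩ := mem_image.1 ht
    have h1 := hM he
    unfold RtCE at h1
    exact (mem_sigma.1 h1).1
  · intro i t ht t' ht' h
    obtain ⟨e, he, rfl⟩ := mem_image.1 (mem_coe.1 ht)
    obtain ⟨e', he', rfl⟩ := mem_image.1 (mem_coe.1 ht')
    have h1 : e = e' := hmat i he he' h
    rw [h1]
  · rw [card_image_of_injOn hinj]
    have h1 : (n : ℝ) * θ ≤ q * θ := mul_le_mul_of_nonneg_right hn4 hθ.le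
    show (n : ℝ) ≤ M.card + θ * q
    have h2 : (1 - θ) * (n : ℝ) ≤ M.card := hMc
    linarith

end Pool.Agent.H60.HL
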