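import Pool.Agent.H60.HL.EmtA
import Pool.Agent.H60.HL.CovB
import Pool.Agent.H60.HL.RtC

/-!
# HL-21 Emt: the exact matching theorem

Proof of `emt`.  `q = card G`.  `ηR` from `rtnp ρ`, `ζA` from `absorb cH`;
`ζ = min (ηR, ζA, 1) / 10^6`.  Given `cF` (it may be made smaller, `cF ≤ 1`): `θ = cF / 10^4`,
`r = ⌊θ q⌋ + 1`.
(1) `V i = {x ∈ F i : -x ∈ F i, x + x ≠ 0, and for i = 2 x ∉ Θ, -x ∉ Θ}` (`richV_of`): `OKV`,
`RichV V Θ 6 (cF q - 48)`, `(V i).card ≥ cF q - 48 ≥ 20 r + 2` (pattern with one place), `≤ ζ q`.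
(2) `directEdges` for `H i = B i \ F i` and `S = B 2 ∩ Θ`: `Dm`, `PM Dm`, `Dm 2 = B 2 ∩ Θ`, `Dm 0 ⊆ H 0`,
`Dm 1 ⊆ H 1`.
(3) `absorb` with `Φ0 i = Dm i ∪ Θ`: `R`.  Note `Dm i`, `R i`, `V i` are disjoint (`Dm 2 ⊆ Θ`, `V 2` avoids
`Θ`; `Dm 0, Dm 1, R i` are in `H i`, and `V i ⊆ F i`).
(4) `B' i = B i \ (V i ∪ R i ∪ Dm i)`.  Cardinalities: by `PM_card` for `R i ∪ (V i \ U' i)` with any
symmetric `U'` with `10 r` elements in each type, `(R i).card + (V i).card` does not depend on `i`;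
also `(Dm i).card`.  So `(B' 0).card = (B' 1).card + 1 = (B' 2).card`.
(If there is doubt about the existence of `U'`: choose `5 r` pairs `{x, -x}` of `V i`.)
(5) Remove one element `x0` of `B' 0` and one element `z0` of `B' 2`: `B''`, three sets of the same size;
`Near A B'' ηR`: `B''` differs from `B` by at most `ζ q + 3 * 10^4 ζ q + 3 + 1` elements.  `rtnp` with
`θ`: `M ⊆ Tr B''`.
(6) `J i = B' i \ M.image (. i)`: `(J 1).card = (B 1'').card - M.card ≤ θ q ≤ r`,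
`(J 0).card = (J 1).card + 1 = (J 2).card`; `J 2 ∩ Θ = ∅` because `B 2 ∩ Θ = Dm 2`; disjoint from `V`.
(7) `cover` (`c0 = cF q - 48 ≥ 60 r + 200`): `U`, `x`, `z`.
(8) `PM` of everything except `x`, `z` by `PM_union` of: `R ∪ (V \ U)` (`absorb`), `M` (`PM_of_finset`),
`Dm`, and `(J ∪ U) \ {x, z}`.
-/

namespace Pool.Agent.H60.HL

open Finset Classical

theorem emt_QR_mono {G : Type} [AddCommGroup G] [Fintype G] {A : Fin 3 → Finset G}
    {Θ : Finset G} {ρ η η' : ℝ} (h : η ≤ η') (hQ : QR A Θ ρ η) : QR A Θ ρ η' := by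
  have hq : η * Fintype.card G ≤ η' * Fintype.card G :=
    mul_le_mul_of_nonneg_right h (Nat.cast_nonneg _)
  exact ⟨fun i => (hQ.1 i).trans hq, fun i x => (hQ.2.1 i x).trans hq,
    fun i k hk => (hQ.2.2 i k hk).trans hq⟩

theorem emt_sym {G : Type} [AddCommGroup G] [Fintype G] (W : Finset G)
    (h : ∀ x ∈ W, -x ∈ W ∧ x + x ≠ 0) (k : ℕ) (hk : 2 * k ≤ W.card) :
    ∃ U ⊆ W, (∀ y ∈ U, -y ∈ U) ∧ U.card = 2 * k := by
  obtain ⟨U0, hU0W, hU1, hU2, hU3⟩ := reps W h
  obtain ⟨S, hS, hSc⟩ := Finset.exists_subset_card_eq (show k ≤ U0.card by omega)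
  refine ⟨S ∪ S.image (fun x => -x), ?_, ?_, ?_⟩
  · intro y hy
    rcases Finset.mem_union.1 hy with h1 | h1
    · exact hU0W (hS h1)
    · obtain ⟨x, hx, rfl⟩ := Finset.mem_image.1 h1
      exact (h x (hU0W (hS hx))).1
  · intro y hy
    rcases Finset.mem_union.1 hy with h1 | h1
    · exact Finset.mem_union_right _ (Finset.mem_image_of_mem _ h1)
    · obtain ⟨x, hx, rfl⟩ := Finset.mem_image.1 h1
      rw [neg_neg]
      exact Finset.mem_union_left _ hx
  · have hd : Disjoint S (S.image (fun x => -x)) := by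
      rw [Finset.disjoint_left]
      intro y hy hy'
      obtain ⟨x, hx, hxy⟩ := Finset.mem_image.1 hy'
      exact hU1 x (hS hx) (by rw [hxy]; exact hS hy)
    rw [Finset.card_union_of_disjoint hd, Finset.card_image_of_injective _ neg_injective, hSc]
    omega

theorem emt_V_card {G : Type} [AddCommGroup G] [Fintype G] {V : Fin 3 → Finset G}
    {Θ : Finset G} {c : ℝ} (hR : RichV V Θ 6 c) (i : Fin 3) : c ≤ ((V i).card : ℝ) := by
  have h := hR (Fin 1) (by simp) (fun _ => (i, 0))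
    (by intro x y hxy; exact absurd (Subsingleton.elim x y) hxy)
  refine h.trans ?_
  refine Nat.cast_le.2 (Finset.card_le_card ?_)
  intro t ht
  simp only [Finset.mem_filter, Finset.mem_univ, true_and, zero_add] at ht
  exact ht 0

theorem emt_erase {α : Type} [DecidableEq α] {Q W B : Finset α} (hd : Disjoint Q W)
    (hu : Q ∪ W = B) {x : α} (hx : x ∈ W) : Q ∪ W.erase x = B.erase x := by
  subst hu
  ext y
  simp only [Finset.mem_union, Finset.mem_erase]
  constructor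
  · rintro (h | ⟨h1, h2⟩)
    · exact ⟨fun e => (Finset.disjoint_left.1 hd h) (e ▸ hx), Or.inl h⟩
    · exact ⟨h1, Or.inr h2⟩
  · rintro ⟨h1, h2 | h2⟩
    · exact Or.inl h2
    · exact Or.inr ⟨h1, h2⟩

theorem emt_parts {α : Type} [DecidableEq α] {V R D B B' I J U : Finset α}
    (a1 : ∀ y, y ∈ B' ↔ y ∈ B ∧ y ∉ V ∧ y ∉ R ∧ y ∉ D) (a2 : ∀ y, y ∈ J ↔ y ∈ B' ∧ y ∉ I)
    (a3 : ∀ y, y ∈ V → y ∈ B) (a4 : ∀ y, y ∈ R → y ∈ B) (a5 : ∀ y, y ∈ D → y ∈ B)
    (a6 : ∀ y, y ∈ I → y ∈ B') (a7 : ∀ y, y ∈ U → y ∈ V) :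
    (((R ∪ (V \ U)) ∪ I) ∪ D) ∪ (J ∪ U) = B := by
  ext y
  have b1 := a1 y
  have b2 := a2 y
  have b3 := a3 y
  have b4 := a4 y
  have b5 := a5 y
  have b6 := a6 y
  have b7 := a7 y
  simp only [Finset.mem_union, Finset.mem_sdiff]
  constructor
  · rintro ((((hR | ⟨hV, _⟩) | hI) | hD) | (hJ | hU))
    · exact b4 hR
    · exact b3 hV
    · exact (b1.1 (b6 hI)).1
    · exact b5 hD
    · exact (b1.1 (b2.1 hJ).1).1
    · exact b3 (b7 hU)
  · intro hB
    by_cases hR : y ∈ R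
    · exact Or.inl (Or.inl (Or.inl (Or.inl hR)))
    by_cases hV : y ∈ V
    · by_cases hU : y ∈ U
      · exact Or.inr (Or.inr hU)
      · exact Or.inl (Or.inl (Or.inl (Or.inr ⟨hV, hU⟩)))
    by_cases hD : y ∈ D
    · exact Or.inl (Or.inr hD)
    by_cases hI : y ∈ I
    · exact Or.inl (Or.inl (Or.inr hI))
    exact Or.inr (Or.inl (b2.2 ⟨b1.2 ⟨hB, hV, hR, hD⟩, hI⟩))

theorem emt_fin (i : Fin 3) : i = 0 ∨ i = 1 ∨ i = 2 := by
  fin_cases i <;> simp

theorem emt (ρ cH : ℝ) (hρ : 0 < ρ) (hρ1 : ρ ≤ 1) (hcH : 0 < cH) :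
    ∃ ζ : ℝ, 0 < ζ ∧ ∀ cF : ℝ, 0 < cF → ∃ q0 : ℕ, ∀ (G : Type) [AddCommGroup G] [Fintype G],
      Tor2 G → q0 ≤ Fintype.card G → ∀ (Θ : Finset G) (A B F : Fin 3 → Finset G), ThOK Θ →
      QR A Θ ρ ζ → Near A B ζ → (∀ i, F i ⊆ B i) →
      (∀ i, ((F i).card : ℝ) ≤ ζ * Fintype.card G) → Rich F Θ 12 cF →
      Rich (fun i => B i \ F i) Θ 12 cH → (B 0).card = (B 1).card + 1 →
      (B 2).card = (B 1).card + 1 →
      ∃ x ∈ B 0, ∃ z ∈ B 2, PM (fun i => if i = 0 then (B 0).erase x else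
        if i = 2 then (B 2).erase z else B 1) := by
  obtain ⟨ηR, hηR, hrt⟩ := rtnp ρ hρ hρ1
  obtain ⟨ζA, hζA, qA, hab⟩ := absorb cH hcH
  refine ⟨min ηR ζA / 10 ^ 6, div_pos (lt_min hηR hζA) (by norm_num), ?_⟩
  have hζ1 : min ηR ζA / 10 ^ 6 * 10 ^ 6 ≤ ηR := by
    rw [div_mul_cancel₀ _ (by norm_num)]; exact min_le_left _ _
  have hζ2 : min ηR ζA / 10 ^ 6 * 10 ^ 6 ≤ ζA := by
    rw [div_mul_cancel₀ _ (by norm_num)]; exact min_le_right _ _
  have hζ0 : 0 < min ηR ζA / 10 ^ 6 := div_pos (lt_min hηR hζA) (by norm_num)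
  generalize min ηR ζA / 10 ^ 6 = ζ at hζ0 hζ1 hζ2 ⊢
  intro cF hcF
  obtain ⟨θ, hθ⟩ : ∃ θ : ℝ, θ = cF / 10 ^ 4 := ⟨_, rfl⟩
  have hθ0 : 0 < θ := by rw [hθ]; positivity
  obtain ⟨qR, hrt⟩ := hrt θ hθ0
  refine ⟨max (max qA qR) (max (max ⌈1000 / cF⌉₊ ⌈1000 / cH⌉₊) (max ⌈1000 / ηR⌉₊ ⌈1000 / ζA⌉₊)), ?_⟩
  intro G _ _ hT hq Θ A B F hΘ hQR hN hFB hFc hF hH h01 h21
  simp only [max_le_iff] at hq
  obtain ⟨⟨hqA, hqR⟩, ⟨hq1, hq2⟩, hq3, hq4⟩ := hq
  have hbig : ∀ e : ℝ, 0 < e → ⌈1000 / e⌉₊ ≤ Fintype.card G → 1000 ≤ e * (Fintype.card G : ℝ) := by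
    intro e he h
    have h1 := Nat.ceil_le.1 h
    have h2 := (div_le_iff₀ he).1 h1
    linarith [mul_comm e (Fintype.card G : ℝ)]
  have g1 := hbig cF hcF hq1
  have g2 := hbig cH hcH hq2
  have g3 := hbig ηR hηR hq3
  have g4 := hbig ζA hζA hq4
  have hQ0 : (0 : ℝ) ≤ (Fintype.card G : ℝ) := Nat.cast_nonneg _
  have gz1 : ζ * (Fintype.card G : ℝ) * 10 ^ 6 ≤ ηR * (Fintype.card G : ℝ) := by
    have := mul_le_mul_of_nonneg_right hζ1 hQ0
    linarith
  have gz2 : ζ * (Fintype.card G : ℝ) * 10 ^ 6 ≤ ζA * (Fintype.card G : ℝ) := by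
    have := mul_le_mul_of_nonneg_right hζ2 hQ0
    linarith
  have gz0 : 0 ≤ ζ * (Fintype.card G : ℝ) := mul_nonneg hζ0.le hQ0
  have hθq : θ * (Fintype.card G : ℝ) * 10 ^ 4 = cF * (Fintype.card G : ℝ) := by
    rw [hθ]; ring
  have hθq0 : 0 ≤ θ * (Fintype.card G : ℝ) := mul_nonneg hθ0.le hQ0
  obtain ⟨r, hr⟩ : ∃ r : ℕ, r = ⌊θ * (Fintype.card G : ℝ)⌋₊ + 1 := ⟨_, rfl⟩
  have hr1 : (r : ℝ) ≤ θ * (Fintype.card G : ℝ) + 1 := by
    rw [hr]; push_cast
    linarith [Nat.floor_le hθq0]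
  have hr2 : θ * (Fintype.card G : ℝ) < r := by
    rw [hr]; push_cast
    exact Nat.lt_floor_add_one _
  obtain ⟨V, hOK, hRV, hVF⟩ : ∃ V : Fin 3 → Finset G, OKV V Θ ∧
      RichV V Θ 6 (cF * Fintype.card G - 48) ∧ ∀ i, V i ⊆ F i :=
    ⟨_, (richV_of hT hΘ hF).1, (richV_of hT hΘ hF).2, fun i => Finset.filter_subset _ _⟩
  have hVc : ∀ i, ((V i).card : ℝ) ≤ ζ * (Fintype.card G : ℝ) := fun i =>
    le_trans (by exact_mod_cast Finset.card_le_card (hVF i)) (hFc i)
  have hVl : ∀ i, 20 * r + 2 ≤ (V i).card := by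
    intro i
    have h := emt_V_card hRV i
    have h2 : ((20 * r + 2 : ℕ) : ℝ) ≤ ((V i).card : ℝ) := by
      push_cast
      linarith
    exact_mod_cast h2
  obtain ⟨Dm, hDP, hD2, hD0, hD1, hDc⟩ := directEdges hH hΘ (B 2 ∩ Θ)
    ((Finset.card_le_card Finset.inter_subset_right).trans hΘ.2.2) (by linarith)
  have hD0' : ∀ y ∈ Dm 0, y ∈ B 0 ∧ y ∉ F 0 := fun y hy => Finset.mem_sdiff.1 (hD0 hy)
  have hD1' : ∀ y ∈ Dm 1, y ∈ B 1 ∧ y ∉ F 1 := fun y hy => Finset.mem_sdiff.1 (hD1 hy)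
  have hD2' : ∀ y ∈ Dm 2, y ∈ B 2 ∧ y ∈ Θ := by
    intro y hy
    rw [hD2] at hy
    exact Finset.mem_inter.1 hy
  have hDB : ∀ i, ∀ y ∈ Dm i, y ∈ B i := by
    intro i
    rcases emt_fin i with rfl | rfl | rfl
    · exact fun y hy => (hD0' y hy).1
    · exact fun y hy => (hD1' y hy).1
    · exact fun y hy => (hD2' y hy).1
  have hDV : ∀ i, ∀ y ∈ Dm i, y ∉ V i := by
    intro i
    rcases emt_fin i with rfl | rfl | rfl
    · exact fun y hy h => (hD0' y hy).2 (hVF 0 h)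
    · exact fun y hy h => (hD1' y hy).2 (hVF 1 h)
    · exact fun y hy h => hOK.2 y h (hD2' y hy).2
  have hDc3 : ∀ i, (Dm i).card ≤ 3 := fun i => by
    rw [hDc i]
    exact (Finset.card_le_card Finset.inter_subset_right).trans hΘ.2.2
  obtain ⟨R, hRH, hRc, hRP⟩ := hab G hT hqA Θ (fun i => B i \ F i) V (fun i => Dm i ∪ Θ) r hΘ hH
    hOK (fun i => (hVc i).trans (by nlinarith)) (by
      intro i
      have h1 : (Dm i ∪ Θ).card ≤ 6 :=
        (Finset.card_union_le _ _).trans (by have := hDc3 i; have := hΘ.2.2; omega)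
      have h2 : ((Dm i ∪ Θ).card : ℝ) ≤ 6 := by exact_mod_cast h1
      exact h2.trans (by linarith)) hVl (by
      intro i
      rw [Finset.disjoint_left]
      intro y hy hy'
      exact (Finset.mem_sdiff.1 hy).2 (hVF i hy'))
  have hR' : ∀ i, ∀ y ∈ R i, y ∈ B i ∧ y ∉ F i ∧ y ∉ Dm i := by
    intro i y hy
    have h := Finset.mem_sdiff.1 (hRH i hy)
    have h1 : y ∈ B i \ F i := h.1
    have h2 : y ∉ Dm i ∪ Θ := h.2
    exact ⟨(Finset.mem_sdiff.1 h1).1, (Finset.mem_sdiff.1 h1).2,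
      fun h3 => h2 (Finset.mem_union_left _ h3)⟩
  have hRc' : ∀ i, ((R i).card : ℝ) ≤ 30000 * (ζ * (Fintype.card G : ℝ)) := by
    intro i
    have h1 : ((R i).card : ℝ) ≤ ((10 ^ 4 * ∑ j, (V j).card : ℕ) : ℝ) := by exact_mod_cast hRc i
    refine h1.trans ?_
    rw [Fin.sum_univ_three]
    push_cast
    have := hVc 0
    have := hVc 1
    have := hVc 2
    linarith
  -- cardinalities
  have hsym : ∀ i, ∃ U' ⊆ V i, (∀ y ∈ U', -y ∈ U') ∧ U'.card = 2 * (5 * r) := fun i =>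
    emt_sym (V i) (hOK.1 i) (5 * r) (by have := hVl i; omega)
  choose U' hU'1 hU'2 hU'3 using hsym
  have hPM := hRP U' (fun i => ⟨hU'1 i, hU'2 i, by rw [hU'3 i]; ring⟩)
  have hcRV : ∀ i, (R i ∪ (V i \ U' i)).card + 10 * r = (R i).card + (V i).card := by
    intro i
    have hd : Disjoint (R i) (V i \ U' i) := by
      rw [Finset.disjoint_left]
      intro y hy hy'
      exact (hR' i y hy).2.1 (hVF i (Finset.mem_sdiff.1 hy').1)
    rw [Finset.card_union_of_disjoint hd]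
    have h1 := Finset.card_sdiff_add_card_eq_card (hU'1 i)
    have h2 := hU'3 i
    omega
  have hcc : ∀ i, (R i).card + (V i).card = (R 1).card + (V 1).card := by
    intro i
    have h : (R i ∪ (V i \ U' i)).card = (R 1 ∪ (V 1 \ U' 1)).card := PM_card hPM i 1
    have h1 := hcRV i
    have h2 := hcRV 1
    omega
  obtain ⟨B', hB'⟩ : ∃ B' : Fin 3 → Finset G, B' = fun i => B i \ (V i ∪ R i ∪ Dm i) := ⟨_, rfl⟩
  have mB' : ∀ i y, y ∈ B' i ↔ y ∈ B i ∧ y ∉ V i ∧ y ∉ R i ∧ y ∉ Dm i := by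
    intro i y
    rw [hB']
    simp only [Finset.mem_sdiff, Finset.mem_union]
    tauto
  have hB'c : ∀ i, (B' i).card + ((V i).card + (R i).card + (Dm i).card) = (B i).card := by
    intro i
    have hs : V i ∪ R i ∪ Dm i ⊆ B i := by
      intro y hy
      simp only [Finset.mem_union] at hy
      rcases hy with (h | h) | h
      · exact hFB i (hVF i h)
      · exact (hR' i y h).1
      · exact hDB i y h
    have h1 := Finset.card_sdiff_add_card_eq_card hs
    have hd1 : Disjoint (V i) (R i) := by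
      rw [Finset.disjoint_left]
      intro y hy hy'
      exact (hR' i y hy').2.1 (hVF i hy)
    have hd2 : Disjoint (V i ∪ R i) (Dm i) := by
      rw [Finset.disjoint_left]
      intro y hy hy'
      rcases Finset.mem_union.1 hy with h | h
      · exact hDV i y hy' h
      · exact (hR' i y h).2.2 hy'
    rw [Finset.card_union_of_disjoint hd2, Finset.card_union_of_disjoint hd1] at h1
    rw [hB']
    exact h1
  have hB'01 : (B' 0).card = (B' 1).card + 1 := by
    have a0 := hB'c 0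
    have a1 := hB'c 1
    have b0 := hcc 0
    have c0 := hDc 0
    have c1 := hDc 1
    omega
  have hB'21 : (B' 2).card = (B' 1).card + 1 := by
    have a0 := hB'c 2
    have a1 := hB'c 1
    have b0 := hcc 2
    have c0 := hDc 2
    have c1 := hDc 1
    omega
  obtain ⟨x0, hx0⟩ : (B' 0).Nonempty := Finset.card_pos.1 (by omega)
  obtain ⟨z0, hz0⟩ : (B' 2).Nonempty := Finset.card_pos.1 (by omega)
  obtain ⟨B'', hB''⟩ : ∃ B'' : Fin 3 → Finset G, B'' = fun i => if i = 0 then (B' 0).erase x0 else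
    if i = 2 then (B' 2).erase z0 else B' 1 := ⟨_, rfl⟩
  have e0 : B'' 0 = (B' 0).erase x0 := by rw [hB'']; rfl
  have e1 : B'' 1 = B' 1 := by rw [hB'']; rfl
  have e2 : B'' 2 = (B' 2).erase z0 := by rw [hB'']; rfl
  have hBs : ∀ i, B'' i ⊆ B' i := by
    intro i
    rcases emt_fin i with rfl | rfl | rfl
    · rw [e0]; exact Finset.erase_subset _ _
    · rw [e1]
    · rw [e2]; exact Finset.erase_subset _ _
  have hBc : ∀ i, (B'' i).card = (B' 1).card := by
    intro i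
    rcases emt_fin i with rfl | rfl | rfl
    · rw [e0, Finset.card_erase_of_mem hx0]; omega
    · rw [e1]
    · rw [e2, Finset.card_erase_of_mem hz0]; omega
  have hBle : ∀ i, (B' i).card ≤ (B'' i).card + 1 := by
    intro i
    have h := hBc i
    rcases emt_fin i with rfl | rfl | rfl
    · omega
    · omega
    · omega
  have hNear : Near A B'' ηR := by
    intro i
    have h1 : (A i \ B'' i).card ≤ (A i \ B i).card + (B i \ B'' i).card := by
      refine (Finset.card_le_card ?_).trans (Finset.card_union_le _ _)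
      intro y hy
      rw [Finset.mem_sdiff] at hy
      by_cases hyB : y ∈ B i
      · exact Finset.mem_union_right _ (Finset.mem_sdiff.2 ⟨hyB, hy.2⟩)
      · exact Finset.mem_union_left _ (Finset.mem_sdiff.2 ⟨hy.1, hyB⟩)
    have hBB : ∀ y ∈ B'' i, y ∈ B i := fun y hy => ((mB' i y).1 (hBs i hy)).1
    have h2 : (B'' i \ A i).card ≤ (B i \ A i).card := by
      refine Finset.card_le_card ?_
      intro y hy
      rw [Finset.mem_sdiff] at hy ⊢
      exact ⟨hBB y hy.1, hy.2⟩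
    have h3 : (B i \ B'' i).card + (B'' i).card = (B i).card :=
      Finset.card_sdiff_add_card_eq_card hBB
    have h4 : (B i \ B'' i).card ≤ (V i).card + (R i).card + 4 := by
      have := hB'c i
      have := hBle i
      have := hDc3 i
      omega
    have r1 : ((A i \ B'' i).card : ℝ) ≤ (A i \ B i).card + (B i \ B'' i).card := by
      exact_mod_cast h1
    have r2 : ((B'' i \ A i).card : ℝ) ≤ (B i \ A i).card := by exact_mod_cast h2
    have r4 : ((B i \ B'' i).card : ℝ) ≤ (V i).card + (R i).card + 4 := by exact_mod_cast h4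
    have r5 := hN i
    have r6 := hVc i
    have r7 := hRc' i
    linarith
  obtain ⟨M, hM, hMi, hMc⟩ := hrt G hqR Θ A B'' hΘ
    (emt_QR_mono (by nlinarith) hQR) hNear (by rw [hBc 0, hBc 1]) (by rw [hBc 1, hBc 2])
  have hMt : ∀ t ∈ M, (∀ i, t i ∈ B'' i) ∧ t 0 + t 1 + t 2 = 0 := by
    intro t ht
    exact (Finset.mem_filter.1 (hM ht)).2
  obtain ⟨I, hI⟩ : ∃ I : Fin 3 → Finset G, I = fun i => M.image (fun t => t i) := ⟨_, rfl⟩
  have hIB : ∀ i, I i ⊆ B' i := by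
    intro i y hy
    rw [hI] at hy
    obtain ⟨t, ht, rfl⟩ := Finset.mem_image.1 hy
    exact hBs i ((hMt t ht).1 i)
  have hIc : ∀ i, (I i).card = M.card := by
    intro i
    rw [hI]
    exact Finset.card_image_of_injOn (hMi i)
  obtain ⟨J, hJ⟩ : ∃ J : Fin 3 → Finset G, J = fun i => B' i \ I i := ⟨_, rfl⟩
  have mJ : ∀ i y, y ∈ J i ↔ y ∈ B' i ∧ y ∉ I i := by
    intro i y
    rw [hJ]
    exact Finset.mem_sdiff
  have hJc : ∀ i, (J i).card + M.card = (B' i).card := by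
    intro i
    have h := Finset.card_sdiff_add_card_eq_card (hIB i)
    rw [hIc i] at h
    rw [hJ]
    exact h
  have hJr : (J 1).card ≤ r := by
    have h1 : ((J 1).card : ℝ) + M.card = (B' 1).card := by exact_mod_cast hJc 1
    have h2 : ((B'' 0).card : ℝ) = (B' 1).card := by exact_mod_cast hBc 0
    have h3 : ((J 1).card : ℝ) < r := by linarith
    have h4 : (J 1).card < r := by exact_mod_cast h3
    exact h4.le
  obtain ⟨U, x, z, hU, hx, hz, hP4⟩ := cover hT hΘ r V (cF * Fintype.card G - 48) J hRV hOK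
    (by
      intro i
      rw [Finset.disjoint_left]
      intro y hy hy'
      exact ((mB' i y).1 ((mJ i y).1 hy).1).2.1 hy')
    (by
      intro y hy hyΘ
      have h := (mB' 2 y).1 ((mJ 2 y).1 hy).1
      refine h.2.2.2 ?_
      rw [hD2]
      exact Finset.mem_inter.2 ⟨h.1, hyΘ⟩)
    (by have := hJc 0; have := hJc 1; omega) (by have := hJc 2; have := hJc 1; omega) hJr
    (by linarith)
  -- the final union
  have hQW : ∀ i, Disjoint (((R i ∪ (V i \ U i)) ∪ I i) ∪ Dm i) (J i ∪ U i) := by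
    intro i
    rw [Finset.disjoint_left]
    intro y hy hy'
    rcases Finset.mem_union.1 hy' with h | h
    · have h1 := (mJ i y).1 h
      have h2 := (mB' i y).1 h1.1
      rcases Finset.mem_union.1 hy with h3 | h3
      · rcases Finset.mem_union.1 h3 with h4 | h4
        · rcases Finset.mem_union.1 h4 with h5 | h5
          · exact h2.2.2.1 h5
          · exact h2.2.1 (Finset.mem_sdiff.1 h5).1
        · exact h1.2 h4
      · exact h2.2.2.2 h3
    · have hyV : y ∈ V i := (hU i).1 h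
      rcases Finset.mem_union.1 hy with h3 | h3
      · rcases Finset.mem_union.1 h3 with h4 | h4
        · rcases Finset.mem_union.1 h4 with h5 | h5
          · exact (hR' i y h5).2.1 (hVF i hyV)
          · exact (Finset.mem_sdiff.1 h5).2 h
        · exact ((mB' i y).1 (hIB i h4)).2.1 hyV
      · exact hDV i y h3 hyV
  have hQB : ∀ i, (((R i ∪ (V i \ U i)) ∪ I i) ∪ Dm i) ∪ (J i ∪ U i) = B i := by
    intro i
    exact emt_parts (mB' i) (mJ i) (fun y h => hFB i (hVF i h)) (fun y h => (hR' i y h).1)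
      (fun y h => hDB i y h) (fun y h => hIB i h) (fun y h => (hU i).1 h)
  have P1 : PM (fun i => R i ∪ (V i \ U i)) := hRP U hU
  have P2 : PM (fun i => I i) := by
    rw [hI]
    exact PM_of_finset M (fun t ht => (hMt t ht).2) hMi
  have P12 := PM_union P1 P2 (by
    intro i
    rw [Finset.disjoint_left]
    intro y hy hy'
    have h2 := (mB' i y).1 (hIB i hy')
    rcases Finset.mem_union.1 hy with h5 | h5
    · exact h2.2.2.1 h5
    · exact h2.2.1 (Finset.mem_sdiff.1 h5).1)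
  have P123 := PM_union P12 hDP (by
    intro i
    rw [Finset.disjoint_left]
    intro y hy hy'
    rcases Finset.mem_union.1 hy with h3 | h3
    · rcases Finset.mem_union.1 h3 with h5 | h5
      · exact (hR' i y h5).2.2 hy'
      · exact hDV i y hy' (Finset.mem_sdiff.1 h5).1
    · exact ((mB' i y).1 (hIB i h3)).2.2.2 hy')
  have P := PM_union P123 hP4 (by
    intro i
    refine Disjoint.mono_right ?_ (hQW i)
    rcases emt_fin i with rfl | rfl | rfl
    · exact Finset.erase_subset _ _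
    · exact Finset.Subset.refl _
    · exact Finset.erase_subset _ _)
  refine ⟨x, ?_, z, ?_, ?_⟩
  · rw [← hQB 0]
    exact Finset.mem_union_right _ hx
  · rw [← hQB 2]
    exact Finset.mem_union_right _ hz
  · have e : (fun i => (((R i ∪ (V i \ U i)) ∪ I i) ∪ Dm i) ∪
        (if i = 0 then (J 0 ∪ U 0).erase x else
          if i = 2 then (J 2 ∪ U 2).erase z else J 1 ∪ U 1)) =
        (fun i => if i = 0 then (B 0).erase x else if i = 2 then (B 2).erase z else B 1) := by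
      funext i
      rcases emt_fin i with rfl | rfl | rfl
      · exact emt_erase (hQW 0) (hQB 0) hx
      · exact hQB 1
      · exact emt_erase (hQW 2) (hQB 2) hz
    rw [← e]
    exact P

end Pool.Agent.H60.HL
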