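import Pool.Agent.H60.HL.GadB
import Pool.Agent.H60.HL.CovA

/-!
# HL-20a EmtA0: representatives of units, new units, direct edges, richness of the flexible sets

`reps`: induction on `W.card`: remove a pair `{x, -x}`.
`newUnits`: induction on `N` with `unit_pick`: `bad = Φ ∪ Y ∪ -Y ∪ -Φ` (or use its argument `Φ`).
`directEdges`: induction on `S`: for `c ∈ S` `rich_pick` with the places `(0, true, 0)`, `(1, false, -c)`
(`pt false (-c) t = -c - t`), outside the elements used before; triple `(t, -c - t, c)`.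
`richV_of`: a pattern with at most six places `(i, k)` gives the pattern of `Rich F` with the at most
twelve places `(i, true, k)` and `(i, false, -k)` (index type `ι × Bool`); it is admissible as
`Θ = -Θ`.  `pt false (-k) t = -k - t = -(k + t)`.  So at least `cF q` values `t` have `k + t ∈ F i` and
`-(k + t) ∈ F i` for all places; for each place at most `2 + 6` of them have `2 (k + t) = 0` or
`±(k + t) ∈ Θ`.
-/

namespace Pool.Agent.H60.HL

open Finset Classical

variable {G : Type} [AddCommGroup G] [Fintype G]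

private theorem EmtA0_neg_ne {x : G} (h : x + x ≠ 0) : x ≠ -x := by
  intro h'
  apply h
  nth_rewrite 2 [h']
  exact add_neg_cancel x

theorem reps (W : Finset G) (h : ∀ x ∈ W, -x ∈ W ∧ x + x ≠ 0) :
    ∃ U ⊆ W, (∀ x ∈ U, -x ∉ U) ∧ (∀ x ∈ W, x ∈ U ∨ -x ∈ U) ∧ W.card = 2 * U.card := by
  induction hn : W.card using Nat.strong_induction_on generalizing W with
  | _ n ih =>
    rcases W.eq_empty_or_nonempty with rfl | ⟨x, hx⟩
    · refine ⟨∅, subset_rfl, ?_, ?_, ?_⟩
      · intro x hx
        exact absurd hx (Finset.notMem_empty x)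
      · intro x hx
        exact absurd hx (Finset.notMem_empty x)
      · rw [← hn]
        rfl
    · have hne := EmtA0_neg_ne (h x hx).2
      have hx' := (h x hx).1
      have hm : -x ∈ W.erase x := Finset.mem_erase.2 ⟨hne.symm, hx'⟩
      have hc1 := Finset.card_erase_add_one hx
      have hc2 := Finset.card_erase_add_one hm
      have key : ∀ y ∈ (W.erase x).erase (-x), -y ∈ (W.erase x).erase (-x) ∧ y + y ≠ 0 := by
        intro y hy
        rw [Finset.mem_erase, Finset.mem_erase] at hy
        obtain ⟨h1, h2, h3⟩ := hy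
        refine ⟨?_, (h y h3).2⟩
        rw [Finset.mem_erase, Finset.mem_erase]
        refine ⟨?_, ?_, (h y h3).1⟩
        · intro h4
          exact h2 (neg_injective h4)
        · intro h4
          apply h1
          rw [← h4, neg_neg]
      obtain ⟨U, hU, hU1, hU2, hU3⟩ := ih _ (by omega) _ key rfl
      have hxU : x ∉ U := by
        intro h4
        have h5 := hU h4
        rw [Finset.mem_erase, Finset.mem_erase] at h5
        exact h5.2.1 rfl
      have hxU' : -x ∉ U := by
        intro h4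
        have h5 := hU h4
        rw [Finset.mem_erase] at h5
        exact h5.1 rfl
      refine ⟨insert x U, ?_, ?_, ?_, ?_⟩
      · intro y hy
        rcases Finset.mem_insert.1 hy with rfl | hy
        · exact hx
        · exact Finset.mem_of_mem_erase (Finset.mem_of_mem_erase (hU hy))
      · intro y hy h4
        rcases Finset.mem_insert.1 hy with rfl | hy
        · rcases Finset.mem_insert.1 h4 with h4 | h4
          · exact hne h4.symm
          · exact hxU' h4
        · rcases Finset.mem_insert.1 h4 with h4 | h4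
          · apply hxU'
            rw [← h4, neg_neg]
            exact hy
          · exact hU1 y hy h4
      · intro y hy
        by_cases h1 : y = x
        · exact Or.inl (Finset.mem_insert.2 (Or.inl h1))
        · by_cases h2 : y = -x
          · refine Or.inr (Finset.mem_insert.2 (Or.inl ?_))
            rw [h2, neg_neg]
          · rcases hU2 y (Finset.mem_erase.2 ⟨h2, Finset.mem_erase.2 ⟨h1, hy⟩⟩) with h3 | h3
            · exact Or.inl (Finset.mem_insert_of_mem h3)
            · exact Or.inr (Finset.mem_insert_of_mem h3)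
      · rw [Finset.card_insert_of_notMem hxU]
        omega

theorem newUnits {H : Fin 3 → Finset G} {Θ : Finset G} {c : ℝ} (hR : Rich H Θ 12 c)
    (hT : Tor2 G) (i : Fin 3) (Φ : Finset G) (N : ℕ)
    (h : ((100 * (Φ.card + N + 1) : ℕ) : ℝ) ≤ c * Fintype.card G) :
    ∃ Y : Finset G, Y.card = N ∧
      ∀ x ∈ Y, x ∈ H i ∧ -x ∈ H i ∧ x ∉ Φ ∧ -x ∉ Φ ∧ x + x ≠ 0 ∧ -x ∉ Y := by
  induction N with
  | zero =>
    refine ⟨∅, rfl, ?_⟩
    intro x hx
    exact absurd hx (Finset.notMem_empty x)
  | succ N ih =>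
    obtain ⟨Y, hY, hY'⟩ := ih (by
      refine le_trans ?_ h
      have : 100 * (Φ.card + N + 1) ≤ 100 * (Φ.card + (N + 1) + 1) := by omega
      exact_mod_cast this)
    have hb : (Φ ∪ Φ.image (fun x => -x) ∪ Y ∪ Y.image (fun x => -x)).card ≤
        2 * Φ.card + 2 * N := by
      have h1 := Finset.card_union_le (Φ ∪ Φ.image (fun x => -x) ∪ Y) (Y.image (fun x => -x))
      have h2 := Finset.card_union_le (Φ ∪ Φ.image (fun x => -x)) Y
      have h3 := Finset.card_union_le Φ (Φ.image (fun x => -x))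
      have h4 : (Φ.image (fun x => -x)).card ≤ Φ.card := Finset.card_image_le
      have h5 : (Y.image (fun x => -x)).card ≤ Y.card := Finset.card_image_le
      omega
    obtain ⟨f, hf1, hf2, hf3, hf4⟩ := unit_pick hR hT (fun _ => ∅) 0 (fun _ => le_of_eq rfl)
      (Φ ∪ Φ.image (fun x => -x) ∪ Y ∪ Y.image (fun x => -x)) i (by
        refine lt_of_lt_of_le ?_ h
        have : 12 * 0 + (Φ ∪ Φ.image (fun x => -x) ∪ Y ∪ Y.image (fun x => -x)).card + 2 <
            100 * (Φ.card + (N + 1) + 1) := by omega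
        exact_mod_cast this)
    simp only [Finset.mem_union, not_or] at hf1
    obtain ⟨⟨⟨g1, g2⟩, g3⟩, g4⟩ := hf1
    have g2' : -f ∉ Φ := fun hh => g2 (Finset.mem_image.2 ⟨-f, hh, neg_neg f⟩)
    have g4' : -f ∉ Y := fun hh => g4 (Finset.mem_image.2 ⟨-f, hh, neg_neg f⟩)
    refine ⟨insert f Y, by rw [Finset.card_insert_of_notMem g3, hY], ?_⟩
    intro x hx
    rcases Finset.mem_insert.1 hx with rfl | hx
    · refine ⟨(Finset.mem_sdiff.1 hf2).1, (Finset.mem_sdiff.1 hf3).1, g1, g2', hf4, ?_⟩
      intro hh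
      rcases Finset.mem_insert.1 hh with hh | hh
      · exact EmtA0_neg_ne hf4 hh.symm
      · exact g4' hh
    · obtain ⟨k1, k2, k3, k4, k5, k6⟩ := hY' x hx
      refine ⟨k1, k2, k3, k4, k5, ?_⟩
      intro hh
      rcases Finset.mem_insert.1 hh with hh | hh
      · apply g4
        exact Finset.mem_image.2 ⟨x, hx, hh⟩
      · exact k6 hh

theorem directEdges {H : Fin 3 → Finset G} {Θ : Finset G} {c : ℝ} (hR : Rich H Θ 12 c)
    (hΘ : ThOK Θ) (S : Finset G) (hS : S.card ≤ 3) (h : 100 ≤ c * Fintype.card G) :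
    ∃ D : Fin 3 → Finset G, PM D ∧ D 2 = S ∧ D 0 ⊆ H 0 ∧ D 1 ⊆ H 1 ∧ ∀ i, (D i).card = S.card := by
  induction S using Finset.induction_on with
  | empty =>
    exact ⟨fun _ => ∅, PM_empty, rfl, Finset.empty_subset _, Finset.empty_subset _, fun _ => rfl⟩
  | insert a S ha ih =>
    have hc := Finset.card_insert_of_notMem ha
    obtain ⟨D, hD1, hD2, hD3, hD4, hD5⟩ := ih (by omega)
    obtain ⟨t, -, ht⟩ := rich_pick hR D 3 (fun i => by rw [hD5 i]; omega) ∅ (ι := Fin 2)
      (by simp) ![(0, true, 0), (1, false, -a)] (by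
        intro x y hxy _ hxy'
        fin_cases x <;> fin_cases y
        · exact absurd rfl hxy
        · exact absurd hxy' (by simp)
        · exact absurd hxy' (by simp)
        · exact absurd rfl hxy) (by
        refine lt_of_lt_of_le ?_ h
        norm_num)
    have t0 : t ∈ H 0 \ D 0 := by
      have := ht 0
      simpa [pt] using this
    have t1 : -a - t ∈ H 1 \ D 1 := by
      have := ht 1
      simpa [pt] using this
    have hPM := PM_of_fn (ι := Fin 1) (fun i _ => if i = 0 then t else if i = 1 then -a - t else a)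
      (by
        intro i x y _
        exact Subsingleton.elim x y) (by
        intro x
        show t + (-a - t) + a = 0
        abel)
    have hdis : ∀ i, Disjoint (D i) (univ.image
        ((fun (i : Fin 3) (_ : Fin 1) => if i = 0 then t else if i = 1 then -a - t else a) i)) := by
      intro i
      rw [Finset.disjoint_right]
      intro x hx
      obtain ⟨_, _, rfl⟩ := Finset.mem_image.1 hx
      fin_cases i
      · exact (Finset.mem_sdiff.1 t0).2
      · exact (Finset.mem_sdiff.1 t1).2
      · show a ∉ D 2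
        rw [hD2]
        exact ha
    refine ⟨_, PM_union hD1 hPM hdis, ?_, ?_, ?_, ?_⟩
    · show D 2 ∪ univ.image (fun _ : Fin 1 => a) = insert a S
      rw [hD2]
      ext x
      simp only [Finset.mem_union, Finset.mem_image, Finset.mem_univ, true_and,
        Finset.mem_insert]
      constructor
      · rintro (h | ⟨_, h⟩)
        · exact Or.inr h
        · exact Or.inl h.symm
      · rintro (h | h)
        · exact Or.inr ⟨0, h.symm⟩
        · exact Or.inl h
    · refine Finset.union_subset hD3 ?_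
      intro x hx
      obtain ⟨_, _, rfl⟩ := Finset.mem_image.1 hx
      exact (Finset.mem_sdiff.1 t0).1
    · refine Finset.union_subset hD4 ?_
      intro x hx
      obtain ⟨_, _, rfl⟩ := Finset.mem_image.1 hx
      exact (Finset.mem_sdiff.1 t1).1
    · intro i
      rw [Finset.card_union_of_disjoint (hdis i), hD5 i, hc]
      congr 1

private theorem EmtA0_bad {Θ : Finset G} (hT : Tor2 G) (hΘ : ThOK Θ) (k : G) :
    (univ.filter fun t : G => (k + t) + (k + t) = 0 ∨ k + t ∈ Θ).card ≤ 5 := by
  have h1 : (univ.filter fun t : G => (k + t) + (k + t) = 0 ∨ k + t ∈ Θ) ⊆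
      (univ.filter fun t : G => t + t = -(k + k)) ∪ Θ.image (fun x => x - k) := by
    intro t ht
    rcases (Finset.mem_filter.1 ht).2 with h | h
    · refine Finset.mem_union_left _ (Finset.mem_filter.2 ⟨Finset.mem_univ _, ?_⟩)
      rw [← sub_eq_zero, ← h]
      abel
    · exact Finset.mem_union_right _ (Finset.mem_image.2 ⟨k + t, h, add_sub_cancel_left k t⟩)
  have h2 := Finset.card_le_card h1
  have h3 := Finset.card_union_le (univ.filter fun t : G => t + t = -(k + k))
    (Θ.image (fun x => x - k))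
  have h4 : (Θ.image (fun x => x - k)).card ≤ Θ.card := Finset.card_image_le
  have h5 := hT (-(k + k))
  have h6 := hΘ.2.2
  omega

theorem richV_of {F : Fin 3 → Finset G} {Θ : Finset G}
    {cF : ℝ} (hT : Tor2 G) (hΘ : ThOK Θ) (hF : Rich F Θ 12 cF) :
    OKV (fun i => (F i).filter fun x => -x ∈ F i ∧ x + x ≠ 0 ∧ (i = 2 → x ∉ Θ ∧ -x ∉ Θ)) Θ ∧
    RichV (fun i => (F i).filter fun x => -x ∈ F i ∧ x + x ≠ 0 ∧ (i = 2 → x ∉ Θ ∧ -x ∉ Θ)) Θ 6
      (cF * Fintype.card G - 48) := by
  refine ⟨⟨?_, ?_⟩, ?_⟩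
  · intro i x hx
    obtain ⟨h1, h2, h3, h4⟩ := Finset.mem_filter.1 hx
    refine ⟨Finset.mem_filter.2 ⟨h2, ?_, ?_, ?_⟩, h3⟩
    · rw [neg_neg]
      exact h1
    · intro h5
      apply h3
      rw [← neg_eq_zero, ← h5]
      abel
    · intro hi
      obtain ⟨h5, h6⟩ := h4 hi
      refine ⟨h6, ?_⟩
      rw [neg_neg]
      exact h5
  · intro x hx
    obtain ⟨h1, h2, h3, h4⟩ := Finset.mem_filter.1 hx
    exact (h4 rfl).1
  · intro ι _ hι v hv
    have hneg : ∀ x : G, x ∉ Θ → -x ∉ Θ := fun x hx h => hx (by simpa using hΘ.2.1 _ h)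
    have h1 := hF (ι × Bool) (by
      rw [Fintype.card_prod, Fintype.card_bool]
      omega) (fun x => ((v x.1).1, x.2, if x.2 then (v x.1).2 else -(v x.1).2)) (by
      rintro ⟨x, b⟩ ⟨y, b'⟩ hxy hsp hb
      have hb' : b = b' := hb
      subst hb'
      have hne : x ≠ y := fun h => hxy (by rw [h])
      have h2 := hv x y hne hsp
      cases b
      · show -(v x).2 - -(v y).2 ∉ Θ
        rw [show -(v x).2 - -(v y).2 = -((v x).2 - (v y).2) by abel]
        exact hneg _ h2
      · exact h2)
    have h2 : (univ.filter fun t : G => ∀ x : ι × Bool,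
          pt x.2 (if x.2 then (v x.1).2 else -(v x.1).2) t ∈ F (v x.1).1) ⊆
        (univ.filter fun t : G => ∀ x, (v x).2 + t ∈ ((F (v x).1).filter fun y =>
          -y ∈ F (v x).1 ∧ y + y ≠ 0 ∧ ((v x).1 = 2 → y ∉ Θ ∧ -y ∉ Θ))) ∪
        univ.biUnion (fun x : ι => univ.filter fun t : G =>
          ((v x).2 + t) + ((v x).2 + t) = 0 ∨ (v x).2 + t ∈ Θ) := by
      intro t ht
      have ht1 := (Finset.mem_filter.1 ht).2
      by_cases hbad : ∃ x : ι, ((v x).2 + t) + ((v x).2 + t) = 0 ∨ (v x).2 + t ∈ Θ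
      · obtain ⟨x, hx⟩ := hbad
        exact Finset.mem_union_right _ (Finset.mem_biUnion.2 ⟨x, Finset.mem_univ _,
          Finset.mem_filter.2 ⟨Finset.mem_univ _, hx⟩⟩)
      · refine Finset.mem_union_left _ (Finset.mem_filter.2 ⟨Finset.mem_univ _, ?_⟩)
        intro x
        have hx : ¬ (((v x).2 + t) + ((v x).2 + t) = 0 ∨ (v x).2 + t ∈ Θ) :=
          fun hh => hbad ⟨x, hh⟩
        rw [not_or] at hx
        have k1 := ht1 (x, true)
        have k2 := ht1 (x, false)
        have k1' : (v x).2 + t ∈ F (v x).1 := k1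
        have k2' : -(v x).2 - t ∈ F (v x).1 := k2
        refine Finset.mem_filter.2 ⟨k1', ?_, hx.1, fun _ => ⟨hx.2, hneg _ hx.2⟩⟩
        rw [neg_add']
        exact k2'
    have h3 := Finset.card_le_card h2
    have h4 := Finset.card_union_le (univ.filter fun t : G => ∀ x, (v x).2 + t ∈
        ((F (v x).1).filter fun y =>
          -y ∈ F (v x).1 ∧ y + y ≠ 0 ∧ ((v x).1 = 2 → y ∉ Θ ∧ -y ∉ Θ)))
        (univ.biUnion (fun x : ι => univ.filter fun t : G =>
          ((v x).2 + t) + ((v x).2 + t) = 0 ∨ (v x).2 + t ∈ Θ))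
    have h5 : (univ.biUnion (fun x : ι => univ.filter fun t : G =>
          ((v x).2 + t) + ((v x).2 + t) = 0 ∨ (v x).2 + t ∈ Θ)).card ≤ Fintype.card ι * 5 :=
      Finset.card_biUnion_le_card_mul _ _ _ fun x _ => EmtA0_bad hT hΘ _
    have h6 : (univ.filter fun t : G => ∀ x : ι × Bool,
          pt x.2 (if x.2 then (v x.1).2 else -(v x.1).2) t ∈ F (v x.1).1).card ≤
        (univ.filter fun t : G => ∀ x, (v x).2 + t ∈ ((F (v x).1).filter fun y =>
          -y ∈ F (v x).1 ∧ y + y ≠ 0 ∧ ((v x).1 = 2 → y ∉ Θ ∧ -y ∉ Θ))).card + 48 := by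
      omega
    have h7 : (((univ.filter fun t : G => ∀ x : ι × Bool,
          pt x.2 (if x.2 then (v x.1).2 else -(v x.1).2) t ∈ F (v x.1).1).card : ℕ) : ℝ) ≤
        (((univ.filter fun t : G => ∀ x, (v x).2 + t ∈ ((F (v x).1).filter fun y =>
          -y ∈ F (v x).1 ∧ y + y ≠ 0 ∧ ((v x).1 = 2 → y ∉ Θ ∧ -y ∉ Θ))).card : ℕ) : ℝ) + 48 := by
      exact_mod_cast h6
    have h8 := h1.trans h7
    linarith

end Pool.Agent.H60.HL
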