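import Pool.Agent.H60.HL.TplA

/-!
# HL-13 Tpl: the template (robustly matchable bipartite graph)

Proof.  `W = Fin (3 h)`, `Q = Fin (2 h) ⊕ Fin N`, `card Q ≤ 4 h`.  Take `f : W → Fin 24 → Fin (2 h)`
from `expander` (`3 h ≤ 2 * 2 h`; sets `S` with `4 |S| ≤ 3 * 2 h`) and `g : Q → Fin 24 → W` from
`expander` (`card Q ≤ 4 h ≤ 2 * 3 h`; sets `T` with `4 |T| ≤ 3 * 3 h`).
`Γ = {(w, inl (f w j))} ∪ {(g x j, x)}`; `Γ.card ≤ 24 * 3 h + 24 * 4 h = 168 h`.
Let `Z` have `h` elements, `R = {inl y} ∪ {inr z : z ∈ Z}`, `R.card = 3 h`.  Hall's condition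
(`Finset.all_card_le_biUnion_card_iff_exists_injective`) for `w ↦ {x ∈ R : (w, x) ∈ Γ}`: let `S ⊆ W`,
`s = S.card`, `N(S)` its neighbourhood in `R`.
If `2 s ≤ 3 h` then `4 s ≤ 3 * 2 h` and the first expansion gives `|N(S)| ≥ s`.
Otherwise suppose `|N(S)| ≤ s - 1`.  Then `R \ N(S)` has at least `3 h - s + 1` elements; take
`T ⊆ R \ N(S)` with exactly `3 h - s + 1` elements; `2 |T| ≤ 2 (3 h) - 2 s + 2 ≤ 3 h + 1`, so
`4 |T| ≤ 6 h + 2 ≤ 9 h` (`h ≥ 1`), and the second expansion gives at least `3 h - s + 1` neighbours of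
`T` in `W`, none of them in `S` (a neighbour `g x j ∈ S` would put `x` into `N(S)`), contradiction.
The injection `f : W → R` is a bijection as both have `3 h` elements.
-/

namespace Pool.Agent.H60.HL

open Finset Classical

theorem template (h N : ℕ) (h1 : 1 ≤ h) (hN : h ≤ N) (hN2 : N ≤ 2 * h) :
    ∃ Γ : Finset (Fin (3 * h) × (Fin (2 * h) ⊕ Fin N)), Γ.card ≤ 200 * h ∧
      ∀ Z : Finset (Fin N), Z.card = h → ∃ f : Fin (3 * h) → Fin (2 * h) ⊕ Fin N,
        Function.Injective f ∧ (∀ w, (w, f w) ∈ Γ) ∧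
        ∀ x, (∃ w, f w = x) ↔ ∀ z, x = Sum.inr z → z ∈ Z := by
  obtain ⟨f, hf⟩ := expander (Fin (3 * h)) (Fin (2 * h)) (by
    rw [Fintype.card_fin, Fintype.card_fin]; omega)
  obtain ⟨g, hg⟩ := expander (Fin (2 * h) ⊕ Fin N) (Fin (3 * h)) (by
    rw [Fintype.card_sum, Fintype.card_fin, Fintype.card_fin, Fintype.card_fin]; omega)
  rw [Fintype.card_fin] at hf hg
  set Γ1 : Finset (Fin (3 * h) × (Fin (2 * h) ⊕ Fin N)) :=
    (univ : Finset (Fin (3 * h) × Fin 24)).image (fun p => (p.1, Sum.inl (f p.1 p.2))) with hΓ1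
  set Γ2 : Finset (Fin (3 * h) × (Fin (2 * h) ⊕ Fin N)) :=
    (univ : Finset ((Fin (2 * h) ⊕ Fin N) × Fin 24)).image (fun p => (g p.1 p.2, p.1)) with hΓ2
  refine ⟨Γ1 ∪ Γ2, ?_, ?_⟩
  · have e1 : Γ1.card ≤ 3 * h * 24 := by
      refine Finset.card_image_le.trans ?_
      rw [Finset.card_univ, Fintype.card_prod, Fintype.card_fin, Fintype.card_fin]
    have e2 : Γ2.card ≤ (2 * h + N) * 24 := by
      refine Finset.card_image_le.trans ?_
      rw [Finset.card_univ, Fintype.card_prod, Fintype.card_sum, Fintype.card_fin,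
        Fintype.card_fin, Fintype.card_fin]
    have e3 := Finset.card_union_le Γ1 Γ2
    omega
  intro Z hZ
  set R : Finset (Fin (2 * h) ⊕ Fin N) :=
    (univ : Finset (Fin (2 * h) ⊕ Fin N)).filter (fun x => ∀ z, x = Sum.inr z → z ∈ Z) with hR
  have hRmem : ∀ x, x ∈ R ↔ ∀ z, x = Sum.inr z → z ∈ Z := by
    intro x
    rw [hR]
    simp only [Finset.mem_filter, Finset.mem_univ, true_and]
  have hRcard : R.card = 3 * h := by
    have e1 : R = (univ : Finset (Fin (2 * h))).image Sum.inl ∪ Z.image Sum.inr := by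
      ext x
      rw [hRmem, Finset.mem_union, Finset.mem_image, Finset.mem_image]
      constructor
      · intro hx
        rcases x with y | z
        · exact Or.inl ⟨y, Finset.mem_univ y, rfl⟩
        · exact Or.inr ⟨z, hx z rfl, rfl⟩
      · rintro (⟨y, _, rfl⟩ | ⟨z, hz, rfl⟩)
        · intro z hz
          exact absurd hz (by simp)
        · intro z' hz'
          rw [Sum.inr.injEq] at hz'
          rw [← hz']
          exact hz
    rw [e1, Finset.card_union_of_disjoint, Finset.card_image_of_injective _ Sum.inl_injective,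
      Finset.card_image_of_injective _ Sum.inr_injective, Finset.card_univ, Fintype.card_fin, hZ]
    · ring
    · rw [Finset.disjoint_left]
      intro x hx1 hx2
      rw [Finset.mem_image] at hx1 hx2
      obtain ⟨y, _, rfl⟩ := hx1
      obtain ⟨z, _, hz⟩ := hx2
      exact absurd hz (by simp)
  let t : Fin (3 * h) → Finset (Fin (2 * h) ⊕ Fin N) := fun w =>
    R.filter (fun x => (w, x) ∈ Γ1 ∪ Γ2)
  have hmt : ∀ w x, x ∈ t w ↔ x ∈ R ∧ (w, x) ∈ Γ1 ∪ Γ2 := by
    intro w x
    show x ∈ Finset.filter _ _ ↔ _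
    rw [Finset.mem_filter]
  have hall : ∀ S : Finset (Fin (3 * h)), S.card ≤ (S.biUnion t).card := by
    intro S
    have hSle : S.card ≤ 3 * h := by
      have := Finset.card_le_univ S
      rwa [Fintype.card_fin] at this
    rcases Nat.lt_or_ge (3 * h) (2 * S.card) with hbig | hsmall
    · by_contra hcon
      push Not at hcon
      have hNR : S.biUnion t ⊆ R := by
        intro x hx
        rw [Finset.mem_biUnion] at hx
        obtain ⟨w, _, hw⟩ := hx
        exact ((hmt w x).mp hw).1
      have hd : (R \ S.biUnion t).card = 3 * h - (S.biUnion t).card := by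
        rw [Finset.card_sdiff_of_subset hNR, hRcard]
      have hd2 : 3 * h - S.card + 1 ≤ (R \ S.biUnion t).card := by
        rw [hd]
        omega
      obtain ⟨T, hTsub, hTc⟩ := Finset.exists_subset_card_eq hd2
      have hT : T.card ≤ (T.biUnion fun x => univ.image (g x)).card := by
        refine (hg T (by rw [hTc]; omega)).trans (Finset.card_le_card ?_)
        intro w hw
        simp only [Finset.mem_biUnion, Finset.mem_image] at hw ⊢
        exact hw
      have hsub : (T.biUnion fun x => univ.image (g x)) ⊆ univ \ S := by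
        intro w hw
        rw [Finset.mem_sdiff]
        refine ⟨Finset.mem_univ w, fun hwS => ?_⟩
        rw [Finset.mem_biUnion] at hw
        obtain ⟨x, hxT, hx⟩ := hw
        rw [Finset.mem_image] at hx
        obtain ⟨j, _, hj⟩ := hx
        have hx2 := hTsub hxT
        rw [Finset.mem_sdiff] at hx2
        apply hx2.2
        rw [Finset.mem_biUnion]
        refine ⟨w, hwS, ?_⟩
        rw [hmt]
        refine ⟨hx2.1, ?_⟩
        rw [Finset.mem_union]
        right
        rw [hΓ2, Finset.mem_image]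
        exact ⟨(x, j), Finset.mem_univ _, by rw [← hj]⟩
      have hcard2 := Finset.card_le_card hsub
      rw [Finset.card_sdiff_of_subset (Finset.subset_univ S), Finset.card_univ,
        Fintype.card_fin] at hcard2
      omega
    · have hS : S.card ≤ (S.biUnion fun w => univ.image (f w)).card := by
        refine (hf S (by omega)).trans (Finset.card_le_card ?_)
        intro w hw
        simp only [Finset.mem_biUnion, Finset.mem_image] at hw ⊢
        exact hw
      refine hS.trans ?_
      rw [← Finset.card_image_of_injective (S.biUnion fun w => univ.image (f w))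
        (Sum.inl_injective : Function.Injective (Sum.inl : Fin (2 * h) → Fin (2 * h) ⊕ Fin N))]
      apply Finset.card_le_card
      intro x hx
      rw [Finset.mem_image] at hx
      obtain ⟨y, hy, rfl⟩ := hx
      rw [Finset.mem_biUnion] at hy
      obtain ⟨w, hw, hy⟩ := hy
      rw [Finset.mem_image] at hy
      obtain ⟨j, _, hj⟩ := hy
      rw [Finset.mem_biUnion]
      refine ⟨w, hw, ?_⟩
      rw [hmt]
      constructor
      · rw [hRmem]
        intro z hz
        exact absurd hz (by simp)
      · rw [Finset.mem_union]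
        left
        rw [hΓ1, Finset.mem_image]
        exact ⟨(w, j), Finset.mem_univ _, by rw [← hj]⟩
  obtain ⟨F, hFinj, hFt⟩ := (Finset.all_card_le_biUnion_card_iff_exists_injective t).mp hall
  refine ⟨F, hFinj, fun w => ((hmt w (F w)).mp (hFt w)).2, ?_⟩
  have himg : (univ : Finset (Fin (3 * h))).image F = R := by
    apply Finset.eq_of_subset_of_card_le
    · intro x hx
      rw [Finset.mem_image] at hx
      obtain ⟨w, _, rfl⟩ := hx
      exact ((hmt w (F w)).mp (hFt w)).1
    · rw [Finset.card_image_of_injective _ hFinj, Finset.card_univ, Fintype.card_fin, hRcard]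
  intro x
  rw [← hRmem, ← himg, Finset.mem_image]
  constructor
  · rintro ⟨w, hw⟩
    exact ⟨w, Finset.mem_univ w, hw⟩
  · rintro ⟨w, _, hw⟩
    exact ⟨w, hw⟩

end Pool.Agent.H60.HL
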