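import Pool.Agent.H60.HL.GadC
import Pool.Agent.H60.HL.EmtA0
import Pool.Agent.H60.HL.Tpl

/-!
# HL-20b EmtA: the absorbing structure

Proof of `absorb`.  `q = card G`, `ζ = cH / 10^8` or so.
(1) Representatives (`reps`): `V i = U i ∪ -U i`, `U i ∩ -U i = ∅`, `N i = (U i).card`, `(V i).card = 2 N i`.  `h i = N i - 5 r ≥ 1`; `N i ≤ 2 h i` as
`10 r ≤ N i`.
(2) New units `Y i` (representatives), `2 h i` of them for each type, from `newUnits` outside
`Φ i`, which contains `Φ0 i`, `V i` and their negatives.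
(3) `template (h i) (N i)` gives `Γ i`; fix bijections `Fin (2 h i) ≃ Y i`, `Fin (N i) ≃ U i`, so every
`x : Fin (2 h i) ⊕ Fin (N i)` has a unit `un i x`; different `x` have different units also up to sign
(`Y i ⊆ H i` is disjoint from `V i`).  Requests: `κ = Σ i : Fin 3, Fin (3 * h i)`, `L (i, w)` = the list of
`un i x` for the `x` with `(w, x) ∈ Γ i` (nonempty: take any `Z` with `h i` elements in `template`).
`∑ ((L r).length + 3) ≤ ∑ i, (200 h i + 9 h i)`.  `family` with `Φ i = Φ0 i ∪ V i ∪ Y i ∪ -Y i` gives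
disjoint absorbers `A r` in `H \ Φ`.
(4) `R i = (Y i ∪ -Y i) ∪ ⋃ r, A r i`.  Size: `4 h i + 8 ∑ r, ((L r).length + 1) ≤ 10^4 ∑ i, (V i).card`.
(5) Let `U'` be given, symmetric.  `Z i = {z : Fin (N i) : un i (inr z) ∉ U' i}` has
`N i - 5 r = h i` elements.  The matching `f_i` of `template` for `Z i`: for each request `(i, w)` the
absorber absorbs `un i (f_i w)`: `PM (addU (A (i, w)) i (un i (f_i w)))`.  These are pairwise disjoint,
and by `PM_biUnion` their union, which is `R i ∪ (V i \ U' i)` (the units `un i (f_i w)`, `w : Fin (3 h i)`,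
are all of `Y i` and the units of `Z i`), has `PM`.
-/

namespace Pool.Agent.H60.HL

open Finset Classical

private theorem emtA_enum {G : Type} (s : Finset G) (n : ℕ) (h : s.card = n) :
    ∃ f : Fin n → G, Function.Injective f ∧ ∀ x, x ∈ s ↔ ∃ k, f k = x := by
  refine ⟨fun k => ((s.equivFinOfCardEq h).symm k : G), ?_, ?_⟩
  · intro a b hab
    exact (s.equivFinOfCardEq h).symm.injective (Subtype.ext hab)
  · intro x
    constructor
    · intro hx
      refine ⟨s.equivFinOfCardEq h ⟨x, hx⟩, ?_⟩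
      show ((s.equivFinOfCardEq h).symm (s.equivFinOfCardEq h ⟨x, hx⟩) : G) = x
      rw [Equiv.symm_apply_apply]
    · rintro ⟨k, rfl⟩
      exact ((s.equivFinOfCardEq h).symm k).2

private theorem emtA_half {G : Type} [AddCommGroup G] (U U' V : Finset G) (r : ℕ)
    (h1 : ∀ x ∈ U, -x ∉ U) (h2 : ∀ x ∈ V, x ∈ U ∨ -x ∈ U) (h3 : U' ⊆ V)
    (h4 : ∀ y ∈ U', -y ∈ U') (h5 : U'.card = 10 * r) : (U ∩ U').card = 5 * r := by
  have e1 : U' = (U ∩ U') ∪ (U ∩ U').image (fun x => -x) := by
    ext x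
    simp only [Finset.mem_union, Finset.mem_inter, Finset.mem_image]
    constructor
    · intro hx
      rcases h2 x (h3 hx) with h | h
      · exact Or.inl ⟨h, hx⟩
      · exact Or.inr ⟨-x, ⟨h, h4 x hx⟩, neg_neg x⟩
    · rintro (⟨_, h⟩ | ⟨y, ⟨_, h⟩, rfl⟩)
      · exact h
      · exact h4 y h
  have e2 : Disjoint (U ∩ U') ((U ∩ U').image (fun x => -x)) := by
    rw [Finset.disjoint_left]
    intro x hx hx'
    obtain ⟨y, hy, rfl⟩ := Finset.mem_image.1 hx'
    exact h1 y (Finset.mem_inter.1 hy).1 (Finset.mem_inter.1 hx).1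
  have e3 : ((U ∩ U').image (fun x => -x)).card = (U ∩ U').card :=
    Finset.card_image_of_injective _ neg_injective
  have e4 := Finset.card_union_of_disjoint e2
  rw [← e1, e3, h5] at e4
  omega

private theorem emtA_deg {h N : ℕ} (Γ : Finset (Fin (3 * h) × (Fin (2 * h) ⊕ Fin N))) :
    ∑ w : Fin (3 * h), (univ.filter fun x => (w, x) ∈ Γ).card ≤ Γ.card := by
  rw [← Finset.card_sigma]
  refine Finset.card_le_card_of_injOn (fun a => (a.1, a.2)) ?_ ?_
  · rintro ⟨w, x⟩ hx
    have h1 := Finset.mem_coe.1 hx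
    rw [Finset.mem_sigma, Finset.mem_filter] at h1
    exact Finset.mem_coe.2 h1.2.2
  · rintro ⟨w, x⟩ _ ⟨w', x'⟩ _ hxx
    simp only [Prod.mk.injEq] at hxx
    obtain ⟨rfl, rfl⟩ := hxx
    rfl

theorem absorb (cH : ℝ) (hcH : 0 < cH) :
    ∃ ζ : ℝ, 0 < ζ ∧ ∃ q0 : ℕ, ∀ (G : Type) [AddCommGroup G] [Fintype G], Tor2 G →
      q0 ≤ Fintype.card G → ∀ (Θ : Finset G) (H V Φ0 : Fin 3 → Finset G) (r : ℕ), ThOK Θ →
      Rich H Θ 12 cH → OKV V Θ → (∀ i, ((V i).card : ℝ) ≤ ζ * Fintype.card G) →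
      (∀ i, ((Φ0 i).card : ℝ) ≤ ζ * Fintype.card G) → (∀ i, 20 * r + 2 ≤ (V i).card) →
      (∀ i, Disjoint (H i) (V i)) →
      ∃ R : Fin 3 → Finset G, (∀ i, R i ⊆ H i \ Φ0 i) ∧
        (∀ i, (R i).card ≤ 10 ^ 4 * ∑ j, (V j).card) ∧
        ∀ U' : Fin 3 → Finset G,
          (∀ i, U' i ⊆ V i ∧ (∀ y ∈ U' i, -y ∈ U' i) ∧ (U' i).card = 10 * r) →
          PM (fun i => R i ∪ (V i \ U' i)) := by
  refine ⟨cH / 10 ^ 8, by positivity, ⌈10 ^ 4 / cH⌉₊, ?_⟩
  intro G _ _ hT hq Θ H V Φ0 r hΘ hR hV hVc hΦc hr _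
  have hq1 : (10 : ℝ) ^ 4 ≤ cH * Fintype.card G := by
    have h1 : (10 : ℝ) ^ 4 / cH ≤ Fintype.card G := Nat.ceil_le.1 hq
    rw [div_le_iff₀ hcH] at h1
    linarith
  obtain ⟨Q, hQ⟩ : ∃ Q : ℝ, Q = cH * Fintype.card G := ⟨_, rfl⟩
  have hζ : cH / 10 ^ 8 * (Fintype.card G : ℝ) = Q / 10 ^ 8 := by
    rw [hQ]
    ring
  rw [← hQ] at hq1
  rw [hζ] at hVc hΦc
  choose U hU1 hU2 hU3 hU4 using fun i => reps (V i) (fun x hx => hV.1 i x hx)
  obtain ⟨h, hh⟩ : ∃ h : Fin 3 → ℕ, ∀ i, h i + 5 * r = (U i).card := by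
    refine ⟨fun i => (U i).card - 5 * r, fun i => ?_⟩
    have h1 := hr i
    have h2 := hU4 i
    show (U i).card - 5 * r + 5 * r = (U i).card
    omega
  have hh1 : ∀ i, 1 ≤ h i := by
    intro i
    have h1 := hr i
    have h2 := hU4 i
    have h3 := hh i
    omega
  have hh2 : ∀ i, h i ≤ (U i).card := by
    intro i
    have h3 := hh i
    omega
  have hh3 : ∀ i, (U i).card ≤ 2 * h i := by
    intro i
    have h1 := hr i
    have h2 := hU4 i
    have h3 := hh i
    omega
  choose Y hYc hY using fun i => newUnits hR hT i (Φ0 i ∪ V i) (2 * h i) (by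
    have h1 := Finset.card_union_le (Φ0 i) (V i)
    have h2 := hU4 i
    have h3 := hh2 i
    have h4 : 100 * ((Φ0 i ∪ V i).card + 2 * h i + 1) ≤
        100 * ((Φ0 i).card + 2 * (V i).card + 1) := by omega
    have h5 : ((100 * ((Φ0 i ∪ V i).card + 2 * h i + 1) : ℕ) : ℝ) ≤
        ((100 * ((Φ0 i).card + 2 * (V i).card + 1) : ℕ) : ℝ) := by exact_mod_cast h4
    refine le_trans h5 ?_
    rw [← hQ]
    push_cast
    have h6 := hVc i
    have h7 := hΦc i
    linarith)
  choose Γ hΓ1 hΓ2 using fun i => template (h i) ((U i).card) (hh1 i) (hh2 i) (hh3 i)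
  choose y hy1 hy2 using fun i => emtA_enum (Y i) (2 * h i) (hYc i)
  choose u hu1 hu2 using fun i => emtA_enum (U i) (U i).card rfl
  obtain ⟨un, hunl, hunr⟩ : ∃ un : ∀ i, Fin (2 * h i) ⊕ Fin (U i).card → G,
      (∀ i k, un i (Sum.inl k) = y i k) ∧ ∀ i k, un i (Sum.inr k) = u i k :=
    ⟨fun i => Sum.elim (y i) (u i), fun _ _ => rfl, fun _ _ => rfl⟩
  obtain ⟨Φ, hΦ⟩ : ∃ Φ : Fin 3 → Finset G, ∀ i, Φ i =
      (Φ0 i ∪ V i) ∪ (Y i ∪ (Y i).image (fun x => -x)) := ⟨_, fun _ => rfl⟩
  have hyY : ∀ i k, y i k ∈ Y i := fun i k => (hy2 i _).2 ⟨k, rfl⟩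
  have huU : ∀ i k, u i k ∈ U i := fun i k => (hu2 i _).2 ⟨k, rfl⟩
  have hun1 : ∀ i x, un i x + un i x ≠ 0 ∧ un i x ∈ Φ i ∧ -un i x ∈ Φ i := by
    intro i x
    rw [hΦ]
    simp only [Finset.mem_union, Finset.mem_image]
    rcases x with k | k
    · rw [hunl]
      exact ⟨(hY i _ (hyY i k)).2.2.2.2.1, Or.inr (Or.inl (hyY i k)),
        Or.inr (Or.inr ⟨_, hyY i k, rfl⟩)⟩
    · rw [hunr]
      have h1 := hV.1 i _ (hU1 i (huU i k))
      exact ⟨h1.2, Or.inl (Or.inr (hU1 i (huU i k))), Or.inl (Or.inr h1.1)⟩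
  have hyu : ∀ i k l, y i k ≠ u i l ∧ y i k + u i l ≠ 0 := by
    intro i k l
    have h1 := hY i _ (hyY i k)
    have h2 := hU1 i (huU i l)
    refine ⟨fun h3 => ?_, fun h3 => ?_⟩
    · rw [h3] at h1
      exact h1.2.2.1 (Finset.mem_union_right _ h2)
    · have h4 : u i l = - y i k := (neg_eq_of_add_eq_zero_right h3).symm
      rw [h4] at h2
      exact h1.2.2.2.1 (Finset.mem_union_right _ h2)
  have hun2 : ∀ i x x', x ≠ x' → un i x ≠ un i x' ∧ un i x + un i x' ≠ 0 := by
    intro i x x' hne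
    rcases x with k | k <;> rcases x' with l | l
    · rw [hunl, hunl]
      refine ⟨fun h3 => hne (by rw [hy1 i h3]), fun h3 => ?_⟩
      have h4 : y i l = - y i k := (neg_eq_of_add_eq_zero_right h3).symm
      have h5 := hyY i l
      rw [h4] at h5
      exact (hY i _ (hyY i k)).2.2.2.2.2 h5
    · rw [hunl, hunr]
      exact hyu i k l
    · rw [hunl, hunr, add_comm]
      exact ⟨(hyu i l k).1.symm, (hyu i l k).2⟩
    · rw [hunr, hunr]
      refine ⟨fun h3 => hne (by rw [hu1 i h3]), fun h3 => ?_⟩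
      have h4 : u i l = - u i k := (neg_eq_of_add_eq_zero_right h3).symm
      have h5 := huU i l
      rw [h4] at h5
      exact hU2 i _ (huU i k) h5
  obtain ⟨L, hL⟩ : ∃ L : (Σ i : Fin 3, Fin (3 * h i)) → List G, ∀ a, L a =
      (univ.filter (fun x => (a.2, x) ∈ Γ a.1)).toList.map (un a.1) := ⟨_, fun _ => rfl⟩
  have hLm : ∀ a g, g ∈ L a ↔ ∃ x, (a.2, x) ∈ Γ a.1 ∧ un a.1 x = g := by
    intro a g
    rw [hL, List.mem_map]
    constructor
    · rintro ⟨x, hx, hg⟩
      rw [Finset.mem_toList, Finset.mem_filter] at hx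
      exact ⟨x, hx.2, hg⟩
    · rintro ⟨x, hx, hg⟩
      exact ⟨x, Finset.mem_toList.2 (Finset.mem_filter.2 ⟨Finset.mem_univ _, hx⟩), hg⟩
  have hLl : ∀ a, (L a).length = (univ.filter (fun x => (a.2, x) ∈ Γ a.1)).card := by
    intro a
    rw [hL, List.length_map, Finset.length_toList]
  obtain ⟨S, hS⟩ : ∃ S : ℕ, S = ∑ j, (V j).card := ⟨_, rfl⟩
  obtain ⟨P, hP⟩ : ∃ P : ℕ, P = ∑ j, (Φ0 j).card := ⟨_, rfl⟩
  have hVS : ∀ i, (V i).card ≤ S := fun i => by
    rw [hS]
    exact Finset.single_le_sum (f := fun j => (V j).card) (fun _ _ => Nat.zero_le _)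
      (Finset.mem_univ i)
  have hΦP : ∀ i, (Φ0 i).card ≤ P := fun i => by
    rw [hP]
    exact Finset.single_le_sum (f := fun j => (Φ0 j).card) (fun _ _ => Nat.zero_le _)
      (Finset.mem_univ i)
  have hSr : (S : ℝ) ≤ 3 * (Q / 10 ^ 8) := by
    rw [hS, Fin.sum_univ_three]
    push_cast
    have e0 := hVc 0
    have e1 := hVc 1
    have e2 := hVc 2
    linarith
  have hPr : (P : ℝ) ≤ 3 * (Q / 10 ^ 8) := by
    rw [hP, Fin.sum_univ_three]
    push_cast
    have e0 := hΦc 0
    have e1 := hΦc 1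
    have e2 := hΦc 2
    linarith
  have hsum : ∑ a, ((L a).length + 3) ≤ 105 * S := by
    have e1 : ∑ a, ((L a).length + 3) = ∑ i, ∑ w, ((L ⟨i, w⟩).length + 3) :=
      Fintype.sum_sigma _
    have e2 : ∀ i, ∑ w, ((L ⟨i, w⟩).length + 3) ≤ 209 * h i := by
      intro i
      rw [Finset.sum_add_distrib, Finset.sum_const, Finset.card_univ, Fintype.card_fin]
      have e3 := emtA_deg (Γ i)
      have e4 := hΓ1 i
      have e5 : ∑ w, (L ⟨i, w⟩).length =
          ∑ w : Fin (3 * h i), (univ.filter fun x => (w, x) ∈ Γ i).card :=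
        Finset.sum_congr rfl fun w _ => hLl ⟨i, w⟩
      rw [e5, smul_eq_mul]
      omega
    rw [e1, Fin.sum_univ_three]
    have a0 := e2 0
    have a1 := e2 1
    have a2 := e2 2
    have b0 := hh2 0
    have b1 := hh2 1
    have b2 := hh2 2
    have c0 := hU4 0
    have c1 := hU4 1
    have c2 := hU4 2
    rw [Fin.sum_univ_three] at hS
    omega
  have hYn : ∀ i, (Y i ∪ (Y i).image (fun x => -x)).card ≤ 2 * (V i).card := by
    intro i
    have e1 := Finset.card_union_le (Y i) ((Y i).image (fun x => -x))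
    have e2 : ((Y i).image (fun x => -x)).card ≤ (Y i).card := Finset.card_image_le
    have e3 := hYc i
    have e4 := hU4 i
    have e5 := hh2 i
    omega
  have hΦφ : ∀ j, (Φ j).card ≤ P + 3 * S := by
    intro j
    rw [hΦ]
    have e1 := Finset.card_union_le (Φ0 j ∪ V j) (Y j ∪ (Y j).image (fun x => -x))
    have e2 := Finset.card_union_le (Φ0 j) (V j)
    have e3 := hYn j
    have e4 := hVS j
    have e5 := hΦP j
    omega
  obtain ⟨A, hA1, hA2, hA3, hA4⟩ := family hR hT hΘ (univ : Finset (Σ i : Fin 3, Fin (3 * h i)))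
    Sigma.fst L Φ (P + 3 * S) hΦφ
    (by
      intro a _ h0
      obtain ⟨Z, _, hZ⟩ := Finset.exists_subset_card_eq
        (s := (univ : Finset (Fin (U a.1).card))) (n := h a.1) (by
          rw [Finset.card_univ, Fintype.card_fin]
          exact hh2 a.1)
      obtain ⟨f, _, hf, _⟩ := hΓ2 a.1 Z hZ
      have h1 := (hLm a _).2 ⟨_, hf a.2, rfl⟩
      rw [h0] at h1
      exact List.not_mem_nil h1)
    (by
      intro a _ f hf
      obtain ⟨x, _, rfl⟩ := (hLm a f).1 hf
      exact hun1 a.1 x)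
    (by
      intro a _
      rw [hL, List.pairwise_map]
      exact (Finset.nodup_toList _).imp fun hne => hun2 _ _ _ hne)
    (by
      rw [← hQ]
      have e1 : 100 * (P + 3 * S + 8 * ∑ a, ((L a).length + 3)) ≤ 100 * P + 84300 * S := by
        omega
      have e2 : ((100 * (P + 3 * S + 8 * ∑ a, ((L a).length + 3)) : ℕ) : ℝ) ≤
          ((100 * P + 84300 * S : ℕ) : ℝ) := by exact_mod_cast e1
      refine le_trans e2 ?_
      push_cast
      linarith)
  refine ⟨fun i => (Y i ∪ (Y i).image (fun x => -x)) ∪ univ.biUnion (fun a => A a i), ?_, ?_, ?_⟩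
  · intro i x hx
    simp only [Finset.mem_union, Finset.mem_image, Finset.mem_biUnion] at hx
    rw [Finset.mem_sdiff]
    rcases hx with (hx | ⟨z, hz, rfl⟩) | ⟨a, _, hx⟩
    · have h1 := hY i x hx
      exact ⟨h1.1, fun h2 => h1.2.2.1 (Finset.mem_union_left _ h2)⟩
    · have h1 := hY i z hz
      exact ⟨h1.2.1, fun h2 => h1.2.2.2.1 (Finset.mem_union_left _ h2)⟩
    · have h1 := Finset.mem_sdiff.1 (hA1 a (Finset.mem_univ _) i hx)
      refine ⟨h1.1, fun h2 => h1.2 ?_⟩
      rw [hΦ]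
      exact Finset.mem_union_left _ (Finset.mem_union_left _ h2)
  · intro i
    rw [← hS]
    show ((Y i ∪ (Y i).image (fun x => -x)) ∪ univ.biUnion (fun a => A a i)).card ≤ 10 ^ 4 * S
    have e1 := Finset.card_union_le (Y i ∪ (Y i).image (fun x => -x))
      (univ.biUnion (fun a => A a i))
    have e2 := hYn i
    have e3 := hVS i
    have e4 : (univ.biUnion (fun a => A a i)).card ≤ ∑ a, (A a i).card :=
      Finset.card_biUnion_le
    have e5 : ∑ a, (A a i).card ≤ ∑ a, 8 * ((L a).length + 3) := by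
      refine Finset.sum_le_sum fun a _ => ?_
      have e6 := hA3 a (Finset.mem_univ _) i
      omega
    rw [← Finset.mul_sum] at e5
    omega
  · intro U' hU'
    have hZ : ∀ i, (univ.filter fun z => u i z ∉ U' i).card = h i := by
      intro i
      have e1 := emtA_half (U i) (U' i) (V i) r (hU2 i) (hU3 i) (hU' i).1 (hU' i).2.1
        (hU' i).2.2
      have e2 : (univ.filter fun z => u i z ∈ U' i).card = (U i ∩ U' i).card := by
        rw [← Finset.card_image_of_injective _ (hu1 i)]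
        congr 1
        ext x
        simp only [Finset.mem_image, Finset.mem_filter, Finset.mem_univ, true_and,
          Finset.mem_inter]
        constructor
        · rintro ⟨z, hz, rfl⟩
          exact ⟨huU i z, hz⟩
        · rintro ⟨hx, hx'⟩
          obtain ⟨z, rfl⟩ := (hu2 i x).1 hx
          exact ⟨z, hx', rfl⟩
      have e3 := Finset.card_filter_add_card_filter_not (s := (univ : Finset (Fin (U i).card)))
        (fun z => u i z ∈ U' i)
      rw [e2, e1, Finset.card_univ, Fintype.card_fin] at e3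
      have e4 := hh i
      omega
    choose f hf1 hf2 hf3 using fun i => hΓ2 i (univ.filter fun z => u i z ∉ U' i) (hZ i)
    have hAb : ∀ a, Absb a.1 (A a) (un a.1 (f a.1 a.2)) := fun a =>
      hA4 a (Finset.mem_univ _) _ ((hLm a _).2 ⟨_, hf2 a.1 a.2, rfl⟩)
    have hmB : ∀ (a : Σ i : Fin 3, Fin (3 * h i)) (j : Fin 3) (x : G),
        x ∈ addU (A a) a.1 (un a.1 (f a.1 a.2)) j ↔
          x ∈ A a j ∨ (j = a.1 ∧ (x = un a.1 (f a.1 a.2) ∨ x = -un a.1 (f a.1 a.2))) := by
      intro a j x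
      unfold addU
      split_ifs with hj
      · simp only [Finset.mem_union, Finset.mem_insert, Finset.mem_singleton, hj, true_and]
      · simp only [hj, false_and, or_false]
    have hAΦ : ∀ a j x, x ∈ A a j → x ∉ Φ j := fun a j x hx =>
      (Finset.mem_sdiff.1 (hA1 a (Finset.mem_univ _) j hx)).2
    have hgΦ : ∀ (a : Σ i : Fin 3, Fin (3 * h i)) (x : G),
        (x = un a.1 (f a.1 a.2) ∨ x = -un a.1 (f a.1 a.2)) → x ∈ Φ a.1 := by
      rintro a x (rfl | rfl)
      · exact (hun1 a.1 _).2.1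
      · exact (hun1 a.1 _).2.2
    have hPM := PM_biUnion (univ : Finset (Σ i : Fin 3, Fin (3 * h i)))
      (fun a => addU (A a) a.1 (un a.1 (f a.1 a.2))) (fun a _ => (hAb a).2.2) (by
        intro a _ b _ hab j
        rw [Finset.disjoint_left]
        intro x hx hx'
        rw [hmB] at hx hx'
        rcases hx with hx | ⟨hj, hx⟩
        · rcases hx' with hx' | ⟨hj', hx'⟩
          · exact Finset.disjoint_left.1
              (hA2 a (Finset.mem_univ _) b (Finset.mem_univ _) hab j) hx hx'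
          · refine hAΦ a j x hx ?_
            rw [hj']
            exact hgΦ b x hx'
        · rcases hx' with hx' | ⟨hj', hx'⟩
          · refine hAΦ b j x hx' ?_
            rw [hj]
            exact hgΦ a x hx
          · obtain ⟨i, w⟩ := a
            obtain ⟨i', w'⟩ := b
            have hii : i = i' := hj.symm.trans hj'
            subst hii
            have hww : f i w ≠ f i w' := by
              intro h1
              exact hab (by rw [hf1 i h1])
            obtain ⟨k1, k2⟩ := hun2 i _ _ hww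
            rcases hx with hx | hx <;> rcases hx' with hx' | hx'
            · exact k1 (hx.symm.trans hx')
            · apply k2
              have h1 : un i (f i w) = -un i (f i w') := hx.symm.trans hx'
              rw [h1, neg_add_cancel]
            · apply k2
              have h1 : -un i (f i w) = un i (f i w') := hx.symm.trans hx'
              rw [← h1, add_neg_cancel]
            · exact k1 (neg_injective (hx.symm.trans hx')))
    have hfin : (fun i => ((Y i ∪ (Y i).image (fun x => -x)) ∪ univ.biUnion (fun a => A a i)) ∪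
        (V i \ U' i)) = fun i => univ.biUnion fun a : (Σ i : Fin 3, Fin (3 * h i)) =>
          addU (A a) a.1 (un a.1 (f a.1 a.2)) i := by
      funext i
      ext x
      rw [Finset.mem_biUnion]
      simp only [hmB, Finset.mem_union, Finset.mem_image, Finset.mem_biUnion, Finset.mem_sdiff,
        Finset.mem_univ, true_and]
      have hin : ∀ t, (∀ z, t = Sum.inr z → z ∈ univ.filter fun z => u i z ∉ U' i) →
          ∀ x, (x = un i t ∨ x = -un i t) →
          ∃ a : (Σ i : Fin 3, Fin (3 * h i)), x ∈ A a i ∨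
            (i = a.1 ∧ (x = un a.1 (f a.1 a.2) ∨ x = -un a.1 (f a.1 a.2))) := by
        intro t ht x hx
        obtain ⟨w, hw⟩ := (hf3 i t).2 ht
        refine ⟨⟨i, w⟩, Or.inr ⟨rfl, ?_⟩⟩
        show x = un i (f i w) ∨ x = -un i (f i w)
        rw [hw]
        exact hx
      constructor
      · rintro (((hx | ⟨z, hz, rfl⟩) | ⟨a, hx⟩) | ⟨hx, hx'⟩)
        · obtain ⟨k, rfl⟩ := (hy2 i x).1 hx
          exact hin (Sum.inl k) (fun z hz => by cases hz) _ (Or.inl (hunl i k).symm)
        · obtain ⟨k, rfl⟩ := (hy2 i z).1 hz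
          exact hin (Sum.inl k) (fun z hz => by cases hz) _ (Or.inr (by rw [hunl]))
        · exact ⟨a, Or.inl hx⟩
        · rcases hU3 i x hx with h1 | h1
          · obtain ⟨k, rfl⟩ := (hu2 i x).1 h1
            refine hin (Sum.inr k) (fun z hz => ?_) _ (Or.inl (hunr i k).symm)
            rw [Sum.inr.injEq] at hz
            rw [← hz]
            exact Finset.mem_filter.2 ⟨Finset.mem_univ _, hx'⟩
          · obtain ⟨k, hk⟩ := (hu2 i (-x)).1 h1
            refine hin (Sum.inr k) (fun z hz => ?_) _ (Or.inr (by rw [hunr, hk, neg_neg]))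
            rw [Sum.inr.injEq] at hz
            rw [← hz]
            refine Finset.mem_filter.2 ⟨Finset.mem_univ _, fun h2 => hx' ?_⟩
            have h3 := (hU' i).2.1 _ h2
            rwa [hk, neg_neg] at h3
      · rintro ⟨a, hx | ⟨hia, hx⟩⟩
        · exact Or.inl (Or.inr ⟨a, hx⟩)
        · obtain ⟨i', w⟩ := a
          have hia' : i = i' := hia
          subst hia'
          have hx1 : x = un i (f i w) ∨ x = -un i (f i w) := hx
          have h1 := (hf3 i (f i w)).1 ⟨w, rfl⟩
          rcases hfw : f i w with k | k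
          · rw [hfw, hunl] at hx1
            rcases hx1 with hx1 | hx1
            · rw [hx1]
              exact Or.inl (Or.inl (Or.inl (hyY i k)))
            · rw [hx1]
              exact Or.inl (Or.inl (Or.inr ⟨_, hyY i k, rfl⟩))
          · have h2 := (Finset.mem_filter.1 (h1 k hfw)).2
            rw [hfw, hunr] at hx1
            have h3 := hU1 i (huU i k)
            rcases hx1 with hx1 | hx1
            · rw [hx1]
              exact Or.inr ⟨h3, h2⟩
            · rw [hx1]
              refine Or.inr ⟨(hV.1 i _ h3).1, fun h4 => h2 ?_⟩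
              have h5 := (hU' i).2.1 _ h4
              rwa [neg_neg] at h5
    rw [hfin]
    exact hPM

end Pool.Agent.H60.HL
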