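import Pool.Agent.H60.HL.PmA

/-!
# HL-15 GadA: the gadgets

`i, j, k` are the three types in any order; a unit of the type `i` is `{f, -f}`.
`gad1`: triples `(f, t, -t-f)`, `(-f, t', f-t')` (entries in the order `i, j, k`).
`gad2`: with `f`: `(f, t, -(t+f))`, `(-f, t+f+g, -(t+g))`; with `g`: `(g, t, -(t+g))`,
`(-g, t+f+g, -(t+f))`.
`gad3`: with `f`: `(f, t, -(t+f))`, `(-f, t+f+g, -(t+g))`, `(a, t+h-a, -(t+h))`,
`(a+f-h, t+g+h, -(t+f+g+a))`;
with `g`: `(g, t, -(t+g))`, `(-g, t+f+g, -(t+f))`, `(a, t+h-a, -(t+h))`,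
`(a+f-h, t+g+h, -(t+f+g+a))`;
with `h`: `(h, t, -(t+h))`, `(-h, t+g+h, -(t+g))`, `(a, t+f+g, -(t+f+g+a))`,
`(a+f-h, t+h-a, -(t+f))`.
`chain`: `(A ∪ B ∪ E g) ∪ E f = (A ∪ E f) ∪ (B ∪ E g)`, `PM_union`.
Hint: reduce to `i = 0, j = 1, k = 2` by a permutation of the coordinates or do the six cases with
`fin_cases`; `PM_of_fn` with `ι = Fin 2` or `Fin 4`.
-/

namespace Pool.Agent.H60.HL

open Finset Classical

variable {G : Type} [AddCommGroup G]

/-- Auxiliary: the sets `X, Y, Z` placed in the types `i, j, k`. -/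
noncomputable def three (i j : Fin 3) (X Y Z : Finset G) : Fin 3 → Finset G :=
  fun l => if l = i then X else if l = j then Y else Z

private theorem GadA_inj2 {a b : G} (h : a ≠ b) : Function.Injective ![a, b] := by
  intro x y hxy
  fin_cases x <;> fin_cases y <;> simp_all [eq_comm]

private theorem GadA_inj4 {a b c d : G} (h1 : a ≠ b) (h2 : a ≠ c) (h3 : a ≠ d) (h4 : b ≠ c)
    (h5 : b ≠ d) (h6 : c ≠ d) : Function.Injective ![a, b, c, d] := by
  intro x y hxy
  fin_cases x <;> fin_cases y <;> simp_all [eq_comm]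

private theorem GadA_im2 (a b : G) : (univ.image ![a, b] : Finset G) = {a, b} := by
  ext x
  simp [Fin.exists_fin_succ, eq_comm]

private theorem GadA_im4 (a b c d : G) :
    (univ.image ![a, b, c, d] : Finset G) = {a, b, c, d} := by
  ext x
  simp [Fin.exists_fin_succ, eq_comm]

private theorem GadA_sum (i j k : Fin 3) (hij : i ≠ j) (hik : i ≠ k) (hjk : j ≠ k) (x y z : G)
    (h : x + y + z = 0) (F : Fin 3 → G) (hi : F i = x) (hj : F j = y) (hk : F k = z) :
    F 0 + F 1 + F 2 = 0 := by
  have e : F 0 + F 1 + F 2 = F i + F j + F k := by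
    fin_cases i <;> fin_cases j <;> fin_cases k <;> simp at hij hik hjk ⊢ <;> abel
  rw [e, hi, hj, hk, h]

private theorem GadA_PM {ι : Type} [Fintype ι] (i j k : Fin 3) (hij : i ≠ j) (hik : i ≠ k)
    (hjk : j ≠ k) (x y z : ι → G) (hx : Function.Injective x) (hy : Function.Injective y)
    (hz : Function.Injective z) (h0 : ∀ r, x r + y r + z r = 0) (X Y Z : Finset G) (f : G)
    (hX : X ∪ {f, -f} = univ.image x) (hY : Y = univ.image y) (hZ : Z = univ.image z) :
    PM (addU (three i j X Y Z) i f) := by
  have e : addU (three i j X Y Z) i f =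
      fun l => univ.image ((fun l => if l = i then x else if l = j then y else z) l) := by
    funext l
    unfold addU three
    by_cases h1 : l = i
    · simp only [h1, if_true]
      exact hX
    · by_cases h2 : l = j
      · simp only [h2, if_true, if_neg (show j ≠ i from fun h => hij h.symm)]
        exact hY
      · simp only [h1, h2, if_false]
        exact hZ
  rw [e]
  refine PM_of_fn _ (fun l => ?_) (fun r => ?_)
  · by_cases h1 : l = i
    · simpa only [h1, if_true] using hx
    · by_cases h2 : l = j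
      · simpa only [h2, if_true, if_neg (show j ≠ i from fun h => hij h.symm)] using hy
      · simpa only [h1, h2, if_false] using hz
  · refine GadA_sum i j k hij hik hjk (x r) (y r) (z r) (h0 r)
      (fun l => (if l = i then x else if l = j then y else z) r) ?_ ?_ ?_
    · simp
    · simp [hij.symm]
    · simp [hik.symm, hjk.symm]

theorem gad1 (i j k : Fin 3) (hij : i ≠ j) (hik : i ≠ k) (hjk : j ≠ k) (f t t' : G)
    (hf : f + f ≠ 0) (h1 : t ≠ t') (h2 : t + f ≠ t' - f) :
    PM (addU (three i j ∅ {t, t'} {-(t + f), -(t' - f)}) i f) := by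
  have hf' : f ≠ -f := fun h => hf (by nth_rw 1 [h]; simp)
  refine GadA_PM i j k hij hik hjk ![f, -f] ![t, t'] ![-(t + f), -(t' - f)]
    (GadA_inj2 hf') (GadA_inj2 h1) (GadA_inj2 fun h => h2 (neg_injective h)) ?_ _ _ _ f ?_ ?_ ?_
  · intro r
    fin_cases r
    · show f + t + -(t + f) = 0
      abel
    · show -f + t' + -(t' - f) = 0
      abel
  · rw [GadA_im2, empty_union]
  · rw [GadA_im2]
  · rw [GadA_im2]

theorem gad2 (i j k : Fin 3) (hij : i ≠ j) (hik : i ≠ k) (hjk : j ≠ k) (f g t : G)
    (hf : f + f ≠ 0) (hg : g + g ≠ 0) (hfg : f ≠ g) (hfg' : f + g ≠ 0) :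
    PM (addU (three i j ∅ {t, t + f + g} {-(t + f), -(t + g)}) i f) ∧
      PM (addU (three i j ∅ {t, t + f + g} {-(t + f), -(t + g)}) i g) := by
  have hf' : f ≠ -f := fun h => hf (by nth_rw 1 [h]; simp)
  have hg' : g ≠ -g := fun h => hg (by nth_rw 1 [h]; simp)
  have hy : t ≠ t + f + g := by
    intro h
    apply hfg'
    rw [add_assoc] at h
    exact left_eq_add.mp h
  constructor
  · refine GadA_PM i j k hij hik hjk ![f, -f] ![t, t + f + g] ![-(t + f), -(t + g)]
      (GadA_inj2 hf') (GadA_inj2 hy)
      (GadA_inj2 fun h => hfg (add_left_cancel (neg_injective h))) ?_ _ _ _ f ?_ ?_ ?_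
    · intro r
      fin_cases r
      · show f + t + -(t + f) = 0
        abel
      · show -f + (t + f + g) + -(t + g) = 0
        abel
    · rw [GadA_im2, empty_union]
    · rw [GadA_im2]
    · rw [GadA_im2]
  · refine GadA_PM i j k hij hik hjk ![g, -g] ![t, t + f + g] ![-(t + g), -(t + f)]
      (GadA_inj2 hg') (GadA_inj2 hy)
      (GadA_inj2 fun h => hfg (add_left_cancel (neg_injective h)).symm) ?_ _ _ _ g ?_ ?_ ?_
    · intro r
      fin_cases r
      · show g + t + -(t + g) = 0
        abel
      · show -g + (t + f + g) + -(t + f) = 0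
        abel
    · rw [GadA_im2, empty_union]
    · rw [GadA_im2]
    · rw [GadA_im2, pair_comm]

theorem gad3 (i j k : Fin 3) (hij : i ≠ j) (hik : i ≠ k) (hjk : j ≠ k) (f g h t a : G)
    (hf : f + f ≠ 0) (hg : g + g ≠ 0) (hh : h + h ≠ 0)
    (hfg : f ≠ g) (hfh : f ≠ h) (hgh : g ≠ h) (hfg' : f + g ≠ 0) (hgh' : g + h ≠ 0)
    (h1 : h - a ≠ 0) (h2 : f + g ≠ h - a) (h3 : h - a ≠ g + h)
    (h4 : f + g + a ≠ f) (h5 : f + g + a ≠ g) (h6 : f + g + a ≠ h)
    (ha : ∀ x ∈ ({f, g, h} : Finset G), a ≠ x ∧ a ≠ -x ∧ a + f - h ≠ x ∧ a + f - h ≠ -x) :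
    (∀ x ∈ ({f, g, h} : Finset G),
      PM (addU (three i j {a, a + f - h} {t, t + f + g, t + h - a, t + g + h}
        {-(t + f), -(t + g), -(t + h), -(t + f + g + a)}) i x)) := by
  have hself : ∀ x : G, x + x ≠ 0 → x ≠ -x := fun x hx h => hx (by nth_rw 1 [h]; simp)
  have hy1 : t ≠ t + f + g := by
    intro h
    apply hfg'
    rw [add_assoc] at h
    exact left_eq_add.mp h
  have hy2 : t ≠ t + h - a := by
    intro h'
    apply h1
    rw [add_sub_assoc] at h'
    exact left_eq_add.mp h'
  have hy3 : t ≠ t + g + h := by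
    intro h'
    apply hgh'
    rw [add_assoc] at h'
    exact left_eq_add.mp h'
  have hy4 : t + f + g ≠ t + h - a := by
    intro h'
    apply h2
    rw [add_sub_assoc, add_assoc] at h'
    exact add_left_cancel h'
  have hy5 : t + f + g ≠ t + g + h := by
    intro h'
    apply hfh
    rw [add_assoc, add_assoc, add_comm g h] at h'
    exact add_right_cancel (add_left_cancel h')
  have hy6 : t + h - a ≠ t + g + h := by
    intro h'
    apply h3
    rw [add_sub_assoc, add_assoc] at h'
    exact add_left_cancel h'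
  have hz1 : -(t + f) ≠ -(t + g) := fun h' => hfg (add_left_cancel (neg_injective h'))
  have hz2 : -(t + f) ≠ -(t + h) := fun h' => hfh (add_left_cancel (neg_injective h'))
  have hz3 : -(t + g) ≠ -(t + h) := fun h' => hgh (add_left_cancel (neg_injective h'))
  have hz4 : -(t + f) ≠ -(t + f + g + a) := by
    intro h'
    apply h4
    have h'' := neg_injective h'
    rw [add_assoc, add_assoc, ← add_assoc f g a] at h''
    exact (add_left_cancel h'').symm
  have hz5 : -(t + g) ≠ -(t + f + g + a) := by
    intro h'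
    apply h5
    have h'' := neg_injective h'
    rw [add_assoc, add_assoc, ← add_assoc f g a] at h''
    exact (add_left_cancel h'').symm
  have hz6 : -(t + h) ≠ -(t + f + g + a) := by
    intro h'
    apply h6
    have h'' := neg_injective h'
    rw [add_assoc, add_assoc, ← add_assoc f g a] at h''
    exact (add_left_cancel h'').symm
  have hx1 : a ≠ a + f - h := by
    intro h'
    apply hfh
    rw [add_sub_assoc] at h'
    exact sub_eq_zero.mp (left_eq_add.mp h')
  intro x hx
  obtain ⟨a1, a2, a3, a4⟩ := ha x hx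
  simp only [mem_insert, mem_singleton] at hx
  rcases hx with hx | hx | hx
  · subst hx
    refine GadA_PM i j k hij hik hjk ![x, -x, a, a + x - h]
      ![t, t + x + g, t + h - a, t + g + h]
      ![-(t + x), -(t + g), -(t + h), -(t + x + g + a)]
      (GadA_inj4 (hself x hf) a1.symm a3.symm a2.symm a4.symm hx1)
      (GadA_inj4 hy1 hy2 hy3 hy4 hy5 hy6)
      (GadA_inj4 hz1 hz2 hz4 hz3 hz5 hz6) ?_ _ _ _ x ?_ ?_ ?_
    · intro r
      fin_cases r
      · show x + t + -(t + x) = 0
        abel
      · show -x + (t + x + g) + -(t + g) = 0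
        abel
      · show a + (t + h - a) + -(t + h) = 0
        abel
      · show a + x - h + (t + g + h) + -(t + x + g + a) = 0
        abel
    · rw [GadA_im4]
      ext y
      simp only [mem_union, mem_insert, mem_singleton]
      tauto
    · rw [GadA_im4]
    · rw [GadA_im4]
  · subst hx
    refine GadA_PM i j k hij hik hjk ![x, -x, a, a + f - h]
      ![t, t + f + x, t + h - a, t + x + h]
      ![-(t + x), -(t + f), -(t + h), -(t + f + x + a)]
      (GadA_inj4 (hself x hg) a1.symm a3.symm a2.symm a4.symm hx1)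
      (GadA_inj4 hy1 hy2 hy3 hy4 hy5 hy6)
      (GadA_inj4 hz1.symm hz3 hz5 hz2 hz4 hz6) ?_ _ _ _ x ?_ ?_ ?_
    · intro r
      fin_cases r
      · show x + t + -(t + x) = 0
        abel
      · show -x + (t + f + x) + -(t + f) = 0
        abel
      · show a + (t + h - a) + -(t + h) = 0
        abel
      · show a + f - h + (t + x + h) + -(t + f + x + a) = 0
        abel
    · rw [GadA_im4]
      ext y
      simp only [mem_union, mem_insert, mem_singleton]
      tauto
    · rw [GadA_im4]
    · rw [GadA_im4]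
      ext y
      simp only [mem_insert, mem_singleton]
      tauto
  · subst hx
    refine GadA_PM i j k hij hik hjk ![x, -x, a, a + f - x]
      ![t, t + g + x, t + f + g, t + x - a]
      ![-(t + x), -(t + g), -(t + f + g + a), -(t + f)]
      (GadA_inj4 (hself x hh) a1.symm a3.symm a2.symm a4.symm hx1)
      (GadA_inj4 hy3 hy1 hy2 hy5.symm hy6.symm hy4)
      (GadA_inj4 hz3.symm hz6 hz2.symm hz5 hz1.symm hz4.symm) ?_ _ _ _ x ?_ ?_ ?_
    · intro r
      fin_cases r
      · show x + t + -(t + x) = 0
        abel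
      · show -x + (t + g + x) + -(t + g) = 0
        abel
      · show a + (t + f + g) + -(t + f + g + a) = 0
        abel
      · show a + f - x + (t + x - a) + -(t + f) = 0
        abel
    · rw [GadA_im4]
      ext y
      simp only [mem_union, mem_insert, mem_singleton]
      tauto
    · rw [GadA_im4]
      ext y
      simp only [mem_insert, mem_singleton]
      tauto
    · rw [GadA_im4]
      ext y
      simp only [mem_insert, mem_singleton]
      tauto

/-- `A` absorbs the unit `f` of the type `i`. -/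
def Absb (i : Fin 3) (A : Fin 3 → Finset G) (f : G) : Prop :=
  f ∉ A i ∧ -f ∉ A i ∧ PM (addU A i f)

/-- Chaining: `A` absorbs `f`, `B` absorbs `g`, so `A ∪ B ∪ {g, -g}` absorbs `f`. -/
theorem chain {i : Fin 3} {A B : Fin 3 → Finset G} {f g : G} (hd : ∀ j, Disjoint (A j) (B j))
    (hA : Absb i A f) (hB : Absb i B g) (h1 : f ∉ B i) (h2 : -f ∉ B i) (h3 : g ∉ A i)
    (h4 : -g ∉ A i) (hfg : f ≠ g) (hfg' : f + g ≠ 0) :
    Absb i (addU (fun j => A j ∪ B j) i g) f := by
  have k1 : f ≠ -g := fun h => hfg' (by rw [h]; simp)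
  have k2 : -f ≠ g := fun h => hfg' (by rw [← h]; simp)
  have k3 : -f ≠ -g := fun h => hfg (neg_injective h)
  obtain ⟨a1, a2, a3⟩ := hA
  obtain ⟨b1, b2, b3⟩ := hB
  have e1 : addU (fun j => A j ∪ B j) i g i = A i ∪ B i ∪ {g, -g} := by
    simp [addU]
  refine ⟨?_, ?_, ?_⟩
  · rw [e1]
    simp only [mem_union, mem_insert, mem_singleton]
    tauto
  · rw [e1]
    simp only [mem_union, mem_insert, mem_singleton]
    tauto
  · have e2 : addU (addU (fun j => A j ∪ B j) i g) i f = fun j => addU A i f j ∪ addU B i g j := by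
      funext j
      unfold addU
      by_cases h : j = i
      · simp only [h, if_true]
        ext y
        simp only [mem_union, mem_insert, mem_singleton]
        tauto
      · simp only [h, if_false]
    rw [e2]
    refine PM_union a3 b3 fun j => ?_
    unfold addU
    by_cases h : j = i
    · simp only [h, if_true]
      have hd' := hd i
      rw [disjoint_left] at hd' ⊢
      intro y hy hy'
      simp only [mem_union, mem_insert, mem_singleton] at hy hy'
      rcases hy with hy | hy | hy
      · rcases hy' with hy' | hy' | hy'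
        · exact hd' hy hy'
        · exact h3 (hy' ▸ hy)
        · exact h4 (hy' ▸ hy)
      · subst hy
        rcases hy' with hy' | hy' | hy'
        · exact h1 hy'
        · exact hfg hy'
        · exact k1 hy'
      · subst hy
        rcases hy' with hy' | hy' | hy'
        · exact h2 hy'
        · exact k2 hy'
        · exact k3 hy'
    · simp only [h, if_false]
      exact hd j

end Pool.Agent.H60.HL
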