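import Pool.Agent.H60.HL.GadA

/-!
# HL-16 GadB: the gadgets exist in rich sets

`rich_pick`: for each `x : ι` at most `φ` of the `t` have `pt .. t ∈ Φ` (`t ↦ pt e k t` is injective),
so more than `c card G - m φ - bad.card > 0` values of `t` are left.
`unit_pick`: pattern `ι = Fin 2`, places `(i, true, 0)` and `(i, false, 0)` (`pt true 0 t = 0 + t`,
`pt false 0 t = 0 - t`), `bad` enlarged by the at most two solutions of `t + t = 0`.
`gad1_ex`: `t`: places `(j, true, 0)`, `(k, false, -f)`; then `t'`: `(j, true, 0)`, `(k, false, f)` with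
`t' ≠ t`, `t' ≠ t + f + f`.
`gad2_ex`: places `(j, true, 0)`, `(j, true, f + g)`, `(k, false, -f)`, `(k, false, -g)`; the
differences `f + g` and `g - f` (and their negatives) are not in `Θ`.
`gad3_ex`: first `a`: places `(i, true, 0)`, `(i, true, f - h)`, outside the bad set of the `a` with
`h - a ∈ Θ`, `f + g - h + a ∈ Θ`, `a + g ∈ Θ`, `a + f ∈ Θ`, `f + g + a - h ∈ Θ`, or `a` or `a + f - h` in
`{±f, ±g, ±h}` (at most `15 + 12` elements, as `Θ.card ≤ 3`).  Then `t`: eight places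
`(j, true, s)`, `s = 0, f + g, h - a, g + h`, and `(k, false, -s)`, `s = f, g, h, f + g + a`.  The
differences of the first four shifts: `f+g, h-a, g+h, f+g-h+a, f-h, -(a+g)`; of the second four:
`f-g, f-h, g-h, g+a, f+a, f+g+a-h`, all outside `Θ` (`Θ = -Θ`).
`gad3` then gives the absorber.  All the elements are outside `Φ`, and `f, g, h` and their negatives
are in `Φ i`, so `Absb` also needs `f ∉ A i`, which is clear.
-/

namespace Pool.Agent.H60.HL

open Finset Classical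

variable {G : Type} [AddCommGroup G] [Fintype G]

omit [Fintype G] in
private theorem GadB_pt_inj (e : Bool) (k : G) : Function.Injective (pt e k) := by
  intro x y h
  cases e
  · simp only [pt, Bool.false_eq_true, if_false] at h
    exact sub_right_injective h
  · simp only [pt, if_true] at h
    exact add_left_cancel h

theorem rich_pick {H : Fin 3 → Finset G} {Θ : Finset G} {m : ℕ} {c : ℝ} (hR : Rich H Θ m c)
    (Φ : Fin 3 → Finset G) (φ : ℕ) (hΦ : ∀ i, (Φ i).card ≤ φ) (bad : Finset G) {ι : Type}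
    [Fintype ι] (hι : Fintype.card ι ≤ m) (v : ι → Fin 3 × Bool × G)
    (hv : ∀ x y, x ≠ y → ((v x).1 = 2 ↔ (v y).1 = 2) → (v x).2.1 = (v y).2.1 →
      (v x).2.2 - (v y).2.2 ∉ Θ)
    (h : ((m * φ + bad.card : ℕ) : ℝ) < c * Fintype.card G) :
    ∃ t, t ∉ bad ∧ ∀ x, pt (v x).2.1 (v x).2.2 t ∈ H (v x).1 \ Φ (v x).1 := by
  have h1 := hR ι hι v hv
  set S : Finset G := univ.filter fun t : G => ∀ x, pt (v x).2.1 (v x).2.2 t ∈ H (v x).1 with hS
  set T : Finset G := (univ : Finset ι).biUnion fun x =>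
    univ.filter fun t : G => pt (v x).2.1 (v x).2.2 t ∈ Φ (v x).1 with hT
  have hTc : T.card ≤ m * φ := by
    calc T.card ≤ ∑ x : ι, (univ.filter fun t : G =>
          pt (v x).2.1 (v x).2.2 t ∈ Φ (v x).1).card := Finset.card_biUnion_le
      _ ≤ ∑ _x : ι, φ := by
          refine Finset.sum_le_sum fun x _ => ?_
          refine le_trans ?_ (hΦ (v x).1)
          refine Finset.card_le_card_of_injOn (pt (v x).2.1 (v x).2.2) ?_
            ((GadB_pt_inj _ _).injOn)
          intro t ht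
          have ht' := Finset.mem_coe.1 ht
          exact Finset.mem_coe.2 (Finset.mem_filter.1 ht').2
      _ = Fintype.card ι * φ := by
          rw [Finset.sum_const, Finset.card_univ, smul_eq_mul]
      _ ≤ m * φ := Nat.mul_le_mul_right _ hι
  have h2 : (T ∪ bad).card < S.card := by
    have h3 : ((T ∪ bad).card : ℝ) ≤ ((m * φ + bad.card : ℕ) : ℝ) := by
      exact_mod_cast le_trans (Finset.card_union_le _ _) (Nat.add_le_add_right hTc _)
    exact_mod_cast lt_of_le_of_lt h3 (lt_of_lt_of_le h h1)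
  obtain ⟨t, htS, htT⟩ := Finset.exists_mem_notMem_of_card_lt_card h2
  rw [Finset.mem_union, not_or] at htT
  refine ⟨t, htT.2, fun x => ?_⟩
  rw [Finset.mem_sdiff]
  refine ⟨(Finset.mem_filter.1 htS).2 x, fun hx => htT.1 ?_⟩
  rw [hT, Finset.mem_biUnion]
  exact ⟨x, Finset.mem_univ x, Finset.mem_filter.2 ⟨Finset.mem_univ t, hx⟩⟩

theorem unit_pick {H : Fin 3 → Finset G} {Θ : Finset G} {c : ℝ} (hR : Rich H Θ 12 c)
    (hT : Tor2 G) (Φ : Fin 3 → Finset G) (φ : ℕ) (hΦ : ∀ i, (Φ i).card ≤ φ) (bad : Finset G)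
    (i : Fin 3) (h : ((12 * φ + bad.card + 2 : ℕ) : ℝ) < c * Fintype.card G) :
    ∃ f, f ∉ bad ∧ f ∈ H i \ Φ i ∧ -f ∈ H i \ Φ i ∧ f + f ≠ 0 := by
  have hb : (bad ∪ univ.filter fun t : G => t + t = 0).card ≤ bad.card + 2 :=
    le_trans (Finset.card_union_le _ _) (Nat.add_le_add_left (hT 0) _)
  have h' : ((12 * φ + (bad ∪ univ.filter fun t : G => t + t = 0).card : ℕ) : ℝ) <
      c * Fintype.card G := by
    refine lt_of_le_of_lt ?_ h
    exact_mod_cast (by omega : 12 * φ + (bad ∪ univ.filter fun t : G => t + t = 0).card ≤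
      12 * φ + bad.card + 2)
  obtain ⟨t, ht, hv⟩ := rich_pick hR Φ φ hΦ (bad ∪ univ.filter fun t : G => t + t = 0)
    (ι := Bool) (by simp) (fun e => (i, e, 0)) (by
      intro x y hxy _ h3
      exact absurd h3 hxy) h'
  rw [Finset.mem_union, not_or] at ht
  refine ⟨t, ht.1, ?_, ?_, ?_⟩
  · have h1 := hv true
    simpa [pt] using h1
  · have h1 := hv false
    simpa [pt] using h1
  · intro h0
    exact ht.2 (Finset.mem_filter.2 ⟨Finset.mem_univ t, h0⟩)

/-- Places `t + s a` of the type `j` and `-(t + u a)` of the type `k`. -/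
private theorem GadB_place {H : Fin 3 → Finset G} {Θ : Finset G} {c : ℝ} (hR : Rich H Θ 12 c)
    (hΘ : ThOK Θ) (Φ : Fin 3 → Finset G) (φ : ℕ) (hΦ : ∀ i, (Φ i).card ≤ φ) (bad : Finset G)
    (j k : Fin 3) (n : ℕ) (hn : n ≤ 6) (s u : Fin n → G)
    (hs : ∀ a b, a ≠ b → s a - s b ∉ Θ) (hu : ∀ a b, a ≠ b → u a - u b ∉ Θ)
    (h : ((12 * φ + bad.card : ℕ) : ℝ) < c * Fintype.card G) :
    ∃ t, t ∉ bad ∧ (∀ a, t + s a ∈ H j \ Φ j) ∧ ∀ a, -(t + u a) ∈ H k \ Φ k := by
  obtain ⟨t, ht, hv⟩ := rich_pick hR Φ φ hΦ bad (ι := Fin n ⊕ Fin n)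
    (by rw [Fintype.card_sum, Fintype.card_fin]; omega)
    (fun x => Sum.elim (fun a => (j, true, s a)) (fun a => (k, false, -(u a))) x) (by
      intro x y hxy _ h3
      rcases x with a | a <;> rcases y with b | b
      · simp only [Sum.elim_inl]
        exact hs a b fun hab => hxy (by rw [hab])
      · simp at h3
      · simp at h3
      · simp only [Sum.elim_inr]
        intro hc
        have h4 := hΘ.2.1 _ hc
        have e : -(-(u a) - -(u b)) = u a - u b := by abel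
        rw [e] at h4
        exact hu a b (fun hab => hxy (by rw [hab])) h4) h
  refine ⟨t, ht, fun a => ?_, fun a => ?_⟩
  · have h1 := hv (Sum.inl a)
    simp only [Sum.elim_inl, pt, if_true] at h1
    rw [add_comm]
    exact h1
  · have h1 := hv (Sum.inr a)
    simp only [Sum.elim_inr, pt, Bool.false_eq_true, if_false] at h1
    have e : -(t + u a) = -(u a) - t := by abel
    rw [e]
    exact h1

omit [Fintype G] in
private theorem GadB_sub {Θ : Finset G} (hΘ : ThOK Θ) {x y : G} (h : x ∉ Θ)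
    (e : y = x ∨ y = -x) : y ∉ Θ := by
  rcases e with e | e
  · rw [e]
    exact h
  · rw [e]
    intro hc
    have := hΘ.2.1 _ hc
    rw [neg_neg] at this
    exact h this

omit [Fintype G] in
private theorem GadB_pair2 {Θ : Finset G} (hΘ : ThOK Θ) {x y : G} (h : x - y ∉ Θ) :
    ∀ a b : Fin 2, a ≠ b → (![x, y] : Fin 2 → G) a - (![x, y] : Fin 2 → G) b ∉ Θ := by
  intro a b hab
  fin_cases a <;> fin_cases b
  · exact absurd rfl hab
  · exact h
  · exact GadB_sub hΘ h (Or.inr (by show y - x = _; abel))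
  · exact absurd rfl hab

omit [Fintype G] in
private theorem GadB_pair4 {Θ : Finset G} (hΘ : ThOK Θ) {x y z w : G} (h1 : x - y ∉ Θ)
    (h2 : x - z ∉ Θ) (h3 : x - w ∉ Θ) (h4 : y - z ∉ Θ) (h5 : y - w ∉ Θ) (h6 : z - w ∉ Θ) :
    ∀ a b : Fin 4, a ≠ b →
      (![x, y, z, w] : Fin 4 → G) a - (![x, y, z, w] : Fin 4 → G) b ∉ Θ := by
  intro a b hab
  fin_cases a <;> fin_cases b
  · exact absurd rfl hab
  · exact h1
  · exact h2
  · exact h3
  · exact GadB_sub hΘ h1 (Or.inr (by show y - x = _; abel))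
  · exact absurd rfl hab
  · exact h4
  · exact h5
  · exact GadB_sub hΘ h2 (Or.inr (by show z - x = _; abel))
  · exact GadB_sub hΘ h4 (Or.inr (by show z - y = _; abel))
  · exact absurd rfl hab
  · exact h6
  · exact GadB_sub hΘ h3 (Or.inr (by show w - x = _; abel))
  · exact GadB_sub hΘ h5 (Or.inr (by show w - y = _; abel))
  · exact GadB_sub hΘ h6 (Or.inr (by show w - z = _; abel))
  · exact absurd rfl hab

private theorem GadB_jk (i : Fin 3) : ∃ j k : Fin 3, i ≠ j ∧ i ≠ k ∧ j ≠ k ∧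
    ∀ l, l ≠ i → l ≠ j → l = k := by
  fin_cases i
  · exact ⟨1, 2, by decide, by decide, by decide, by decide⟩
  · exact ⟨0, 2, by decide, by decide, by decide, by decide⟩
  · exact ⟨0, 1, by decide, by decide, by decide, by decide⟩

omit [AddCommGroup G] [Fintype G] in
private theorem GadB_three_i (i j : Fin 3) (X Y Z : Finset G) : three i j X Y Z i = X := by
  simp [three]

omit [AddCommGroup G] [Fintype G] in
private theorem GadB_three (i j k : Fin 3) (hl : ∀ l, l ≠ i → l ≠ j → l = k)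
    (X Y Z : Finset G) (P : Fin 3 → Finset G → Prop) (hX : P i X) (hY : P j Y) (hZ : P k Z) :
    ∀ l, P l (three i j X Y Z l) := by
  intro l
  unfold three
  by_cases h1 : l = i
  · rw [if_pos h1, h1]
    exact hX
  · rw [if_neg h1]
    by_cases h2 : l = j
    · rw [if_pos h2, h2]
      exact hY
    · rw [if_neg h2, hl l h1 h2]
      exact hZ

theorem gad1_ex {H : Fin 3 → Finset G} {Θ : Finset G} {c : ℝ} (hR : Rich H Θ 12 c)
    (hΘ : ThOK Θ) (Φ : Fin 3 → Finset G) (φ : ℕ) (hΦ : ∀ i, (Φ i).card ≤ φ) (i : Fin 3) (f : G)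
    (hf : f + f ≠ 0) (h : ((12 * φ + 2 : ℕ) : ℝ) < c * Fintype.card G) :
    ∃ A : Fin 3 → Finset G, (∀ j, A j ⊆ H j \ Φ j) ∧ (∀ j, (A j).card ≤ 2) ∧ Absb i A f := by
  obtain ⟨j, k, hij, hik, hjk, hl⟩ := GadB_jk i
  obtain ⟨t, -, ht1, ht2⟩ := GadB_place hR hΘ Φ φ hΦ ∅ j k 1 (by norm_num) ![0] ![f]
    (fun a b hab => absurd (Subsingleton.elim a b) hab)
    (fun a b hab => absurd (Subsingleton.elim a b) hab) (by
      refine lt_of_le_of_lt ?_ h
      exact_mod_cast (by simp : 12 * φ + (∅ : Finset G).card ≤ 12 * φ + 2))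
  obtain ⟨t', ht', ht3, ht4⟩ := GadB_place hR hΘ Φ φ hΦ {t, t + f + f} j k 1 (by norm_num) ![0]
    ![-f]
    (fun a b hab => absurd (Subsingleton.elim a b) hab)
    (fun a b hab => absurd (Subsingleton.elim a b) hab) (by
      refine lt_of_le_of_lt ?_ h
      have h5 : ({t, t + f + f} : Finset G).card ≤ 2 := Finset.card_le_two
      exact_mod_cast Nat.add_le_add_left h5 _)
  have a1 : t ∈ H j \ Φ j := by simpa using ht1 0
  have a2 : -(t + f) ∈ H k \ Φ k := ht2 0
  have a3 : t' ∈ H j \ Φ j := by simpa using ht3 0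
  have a4 : -(t' - f) ∈ H k \ Φ k := by
    have := ht4 0
    rw [sub_eq_add_neg]
    exact this
  rw [Finset.mem_insert, Finset.mem_singleton, not_or] at ht'
  refine ⟨three i j ∅ {t, t'} {-(t + f), -(t' - f)}, ?_, ?_, ?_⟩
  · refine GadB_three i j k hl _ _ _ (fun l X => X ⊆ H l \ Φ l) (Finset.empty_subset _) ?_ ?_
    · intro x hx
      rw [Finset.mem_insert, Finset.mem_singleton] at hx
      rcases hx with rfl | rfl
      · exact a1
      · exact a3
    · intro x hx
      rw [Finset.mem_insert, Finset.mem_singleton] at hx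
      rcases hx with rfl | rfl
      · exact a2
      · exact a4
  · exact GadB_three i j k hl _ _ _ (fun l X => X.card ≤ 2) (by simp) Finset.card_le_two
      Finset.card_le_two
  · refine ⟨?_, ?_, ?_⟩
    · rw [GadB_three_i]
      exact Finset.notMem_empty _
    · rw [GadB_three_i]
      exact Finset.notMem_empty _
    · refine gad1 i j k hij hik hjk f t t' hf (fun e => ht'.1 e.symm) fun e => ht'.2 ?_
      rw [e]
      abel

omit [Fintype G] in
private theorem GadB_ne {Θ : Finset G} (hΘ : ThOK Θ) {x y : G} (h : x - y ∉ Θ) : x ≠ y := by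
  rintro rfl
  rw [sub_self] at h
  exact h hΘ.1

omit [Fintype G] in
private theorem GadB_ne0 {Θ : Finset G} (hΘ : ThOK Θ) {x : G} (h : x ∉ Θ) : x ≠ 0 := by
  rintro rfl
  exact h hΘ.1

theorem gad2_ex {H : Fin 3 → Finset G} {Θ : Finset G} {c : ℝ} (hR : Rich H Θ 12 c)
    (hΘ : ThOK Θ) (Φ : Fin 3 → Finset G) (φ : ℕ) (hΦ : ∀ i, (Φ i).card ≤ φ) (i : Fin 3)
    (f g : G) (hf : f + f ≠ 0) (hg : g + g ≠ 0) (h1 : f + g ∉ Θ) (h2 : f - g ∉ Θ)
    (h : ((12 * φ + 2 : ℕ) : ℝ) < c * Fintype.card G) :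
    ∃ A : Fin 3 → Finset G, (∀ j, A j ⊆ H j \ Φ j) ∧ (∀ j, (A j).card ≤ 2) ∧ Absb i A f ∧
      Absb i A g := by
  obtain ⟨j, k, hij, hik, hjk, hl⟩ := GadB_jk i
  obtain ⟨t, -, ht1, ht2⟩ := GadB_place hR hΘ Φ φ hΦ ∅ j k 2 (by norm_num) ![0, f + g] ![f, g]
    (GadB_pair2 hΘ (GadB_sub hΘ h1 (Or.inr (by abel))))
    (GadB_pair2 hΘ h2) (by
      refine lt_of_le_of_lt ?_ h
      exact_mod_cast (by simp : 12 * φ + (∅ : Finset G).card ≤ 12 * φ + 2))
  have a1 : t ∈ H j \ Φ j := by simpa using ht1 0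
  have a2 : t + f + g ∈ H j \ Φ j := by
    have := ht1 1
    rw [add_assoc]
    exact this
  have a3 : -(t + f) ∈ H k \ Φ k := ht2 0
  have a4 : -(t + g) ∈ H k \ Φ k := ht2 1
  obtain ⟨p1, p2⟩ := gad2 i j k hij hik hjk f g t hf hg (GadB_ne hΘ h2) (GadB_ne0 hΘ h1)
  refine ⟨three i j ∅ {t, t + f + g} {-(t + f), -(t + g)}, ?_, ?_, ⟨?_, ?_, p1⟩, ⟨?_, ?_, p2⟩⟩
  · refine GadB_three i j k hl _ _ _ (fun l X => X ⊆ H l \ Φ l) (Finset.empty_subset _) ?_ ?_
    · intro x hx
      rw [Finset.mem_insert, Finset.mem_singleton] at hx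
      rcases hx with rfl | rfl
      · exact a1
      · exact a2
    · intro x hx
      rw [Finset.mem_insert, Finset.mem_singleton] at hx
      rcases hx with rfl | rfl
      · exact a3
      · exact a4
  · exact GadB_three i j k hl _ _ _ (fun l X => X.card ≤ 2) (by simp) Finset.card_le_two
      Finset.card_le_two
  all_goals
    rw [GadB_three_i]
    exact Finset.notMem_empty _

theorem gad3_ex {H : Fin 3 → Finset G} {Θ : Finset G} {c : ℝ} (hR : Rich H Θ 12 c)
    (hΘ : ThOK Θ) (Φ : Fin 3 → Finset G) (φ : ℕ) (hΦ : ∀ i, (Φ i).card ≤ φ) (i : Fin 3)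
    (f g h : G) (hf : f + f ≠ 0) (hg : g + g ≠ 0) (hh : h + h ≠ 0) (h1 : f + g ∉ Θ)
    (h2 : g + h ∉ Θ) (h3 : f - g ∉ Θ) (h4 : f - h ∉ Θ) (h5 : g - h ∉ Θ)
    (hs : ((12 * φ + 30 : ℕ) : ℝ) < c * Fintype.card G) :
    ∃ A : Fin 3 → Finset G, (∀ j, A j ⊆ H j \ Φ j) ∧ (∀ j, (A j).card ≤ 4) ∧ Absb i A f ∧
      Absb i A g ∧ Absb i A h := by
  obtain ⟨j, k, hij, hik, hjk, hl⟩ := GadB_jk i
  -- the bad values of `a`
  obtain ⟨six, hsix⟩ : ∃ six : Finset G, six = {f, -f, g, -g, h, -h} := ⟨_, rfl⟩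
  have hsixc : six.card ≤ 6 := by
    rw [hsix]
    exact Finset.card_le_six
  obtain ⟨bad, hbad⟩ : ∃ bad : Finset G, bad = Θ.image (fun x => h - x) ∪
      Θ.image (fun x => x - (f + g - h)) ∪ Θ.image (fun x => x - g) ∪
      Θ.image (fun x => x - f) ∪ six ∪ six.image (fun x => x - (f - h)) := ⟨_, rfl⟩
  have hbadc : bad.card ≤ 30 := by
    have c0 := hΘ.2.2
    have c1 : (Θ.image (fun x => h - x)).card ≤ Θ.card := Finset.card_image_le
    have c2 : (Θ.image (fun x => x - (f + g - h))).card ≤ Θ.card := Finset.card_image_le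
    have c3 : (Θ.image (fun x => x - g)).card ≤ Θ.card := Finset.card_image_le
    have c4 : (Θ.image (fun x => x - f)).card ≤ Θ.card := Finset.card_image_le
    have c5 : (six.image (fun x => x - (f - h))).card ≤ six.card := Finset.card_image_le
    have d1 := Finset.card_union_le (Θ.image (fun x => h - x))
      (Θ.image (fun x => x - (f + g - h)))
    have d2 := Finset.card_union_le (Θ.image (fun x => h - x) ∪
      Θ.image (fun x => x - (f + g - h))) (Θ.image (fun x => x - g))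
    have d3 := Finset.card_union_le (Θ.image (fun x => h - x) ∪
      Θ.image (fun x => x - (f + g - h)) ∪ Θ.image (fun x => x - g)) (Θ.image (fun x => x - f))
    have d4 := Finset.card_union_le (Θ.image (fun x => h - x) ∪
      Θ.image (fun x => x - (f + g - h)) ∪ Θ.image (fun x => x - g) ∪
      Θ.image (fun x => x - f)) six
    have d5 := Finset.card_union_le (Θ.image (fun x => h - x) ∪
      Θ.image (fun x => x - (f + g - h)) ∪ Θ.image (fun x => x - g) ∪
      Θ.image (fun x => x - f) ∪ six) (six.image (fun x => x - (f - h)))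
    rw [hbad]
    omega
  obtain ⟨a, ha, ha1⟩ := rich_pick hR Φ φ hΦ bad (ι := Fin 2) (by simp)
    (fun x => (i, true, (![0, f - h] : Fin 2 → G) x)) (by
      intro x y hxy _ _
      exact GadB_pair2 hΘ (GadB_sub hΘ h4 (Or.inr (by abel))) x y hxy) (by
      refine lt_of_le_of_lt ?_ hs
      exact_mod_cast Nat.add_le_add_left hbadc _)
  have b1 : a ∈ H i \ Φ i := by
    have := ha1 0
    simpa [pt] using this
  have b2 : a + f - h ∈ H i \ Φ i := by
    have := ha1 1
    simp only [pt, if_true] at this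
    have e : a + f - h = (![0, f - h] : Fin 2 → G) 1 + a := by
      show a + f - h = f - h + a
      abel
    rw [e]
    exact this
  rw [hbad] at ha
  simp only [Finset.mem_union, not_or] at ha
  obtain ⟨⟨⟨⟨⟨e1, e2⟩, e3⟩, e4⟩, e5⟩, e6⟩ := ha
  have g1 : h - a ∉ Θ := fun hc => e1 (Finset.mem_image.2 ⟨h - a, hc, by abel⟩)
  have g2 : f + g - h + a ∉ Θ :=
    fun hc => e2 (Finset.mem_image.2 ⟨f + g - h + a, hc, by abel⟩)
  have g3 : a + g ∉ Θ := fun hc => e3 (Finset.mem_image.2 ⟨a + g, hc, by abel⟩)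
  have g4 : a + f ∉ Θ := fun hc => e4 (Finset.mem_image.2 ⟨a + f, hc, by abel⟩)
  have g5 : ∀ x ∈ six, a ≠ x := fun x hx hc => e5 (hc ▸ hx)
  have g6 : ∀ x ∈ six, a + f - h ≠ x :=
    fun x hx hc => e6 (Finset.mem_image.2 ⟨x, hx, by rw [← hc]; abel⟩)
  obtain ⟨t, -, ht1, ht2⟩ := GadB_place hR hΘ Φ φ hΦ ∅ j k 4 (by norm_num)
    ![0, f + g, h - a, g + h] ![f, g, h, f + g + a]
    (GadB_pair4 hΘ (GadB_sub hΘ h1 (Or.inr (by abel))) (GadB_sub hΘ g1 (Or.inr (by abel)))
      (GadB_sub hΘ h2 (Or.inr (by abel))) (GadB_sub hΘ g2 (Or.inl (by abel)))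
      (GadB_sub hΘ h4 (Or.inl (by abel))) (GadB_sub hΘ g3 (Or.inr (by abel))))
    (GadB_pair4 hΘ h3 h4 (GadB_sub hΘ g3 (Or.inr (by abel))) h5
      (GadB_sub hΘ g4 (Or.inr (by abel))) (GadB_sub hΘ g2 (Or.inr (by abel)))) (by
      refine lt_of_le_of_lt ?_ hs
      exact_mod_cast (by simp : 12 * φ + (∅ : Finset G).card ≤ 12 * φ + 30))
  have k1 : t ∈ H j \ Φ j := by simpa using ht1 0
  have k2 : t + f + g ∈ H j \ Φ j := by
    have := ht1 1
    rw [add_assoc]
    exact this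
  have k3 : t + h - a ∈ H j \ Φ j := by
    have := ht1 2
    rw [add_sub_assoc]
    exact this
  have k4 : t + g + h ∈ H j \ Φ j := by
    have := ht1 3
    rw [add_assoc]
    exact this
  have k5 : -(t + f) ∈ H k \ Φ k := ht2 0
  have k6 : -(t + g) ∈ H k \ Φ k := ht2 1
  have k7 : -(t + h) ∈ H k \ Φ k := ht2 2
  have k8 : -(t + f + g + a) ∈ H k \ Φ k := by
    have := ht2 3
    have e : t + f + g + a = t + (f + g + a) := by abel
    rw [e]
    exact this
  have m1 : f ∈ six ∧ -f ∈ six ∧ g ∈ six ∧ -g ∈ six ∧ h ∈ six ∧ -h ∈ six := by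
    rw [hsix]
    simp
  obtain ⟨m1, m2, m3, m4, m5, m6⟩ := m1
  have hha : ∀ x ∈ ({f, g, h} : Finset G),
      a ≠ x ∧ a ≠ -x ∧ a + f - h ≠ x ∧ a + f - h ≠ -x := by
    intro x hx
    simp only [Finset.mem_insert, Finset.mem_singleton] at hx
    rcases hx with hx | hx | hx
    · rw [hx]
      exact ⟨g5 _ m1, g5 _ m2, g6 _ m1, g6 _ m2⟩
    · rw [hx]
      exact ⟨g5 _ m3, g5 _ m4, g6 _ m3, g6 _ m4⟩
    · rw [hx]
      exact ⟨g5 _ m5, g5 _ m6, g6 _ m5, g6 _ m6⟩
  have hPM := gad3 i j k hij hik hjk f g h t a hf hg hh (GadB_ne hΘ h3) (GadB_ne hΘ h4)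
    (GadB_ne hΘ h5) (GadB_ne0 hΘ h1) (GadB_ne0 hΘ h2) (GadB_ne0 hΘ g1)
    (GadB_ne hΘ (GadB_sub hΘ g2 (Or.inl (by abel))))
    (GadB_ne hΘ (GadB_sub hΘ g3 (Or.inr (by abel))))
    (GadB_ne hΘ (GadB_sub hΘ g3 (Or.inl (by abel))))
    (GadB_ne hΘ (GadB_sub hΘ g4 (Or.inl (by abel))))
    (GadB_ne hΘ (GadB_sub hΘ g2 (Or.inl (by abel)))) hha
  have hAb : ∀ x ∈ ({f, g, h} : Finset G),
      Absb i (three i j {a, a + f - h} {t, t + f + g, t + h - a, t + g + h}
        {-(t + f), -(t + g), -(t + h), -(t + f + g + a)}) x := by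
    intro x hx
    obtain ⟨n1, n2, n3, n4⟩ := hha x hx
    refine ⟨?_, ?_, hPM x hx⟩
    · rw [GadB_three_i, Finset.mem_insert, Finset.mem_singleton, not_or]
      exact ⟨n1.symm, n3.symm⟩
    · rw [GadB_three_i, Finset.mem_insert, Finset.mem_singleton, not_or]
      exact ⟨n2.symm, n4.symm⟩
  refine ⟨_, ?_, ?_, hAb f (by simp), hAb g (by simp), hAb h (by simp)⟩
  · refine GadB_three i j k hl _ _ _ (fun l X => X ⊆ H l \ Φ l) ?_ ?_ ?_
    · intro x hx
      simp only [Finset.mem_insert, Finset.mem_singleton] at hx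
      rcases hx with hx | hx
      · rw [hx]
        exact b1
      · rw [hx]
        exact b2
    · intro x hx
      simp only [Finset.mem_insert, Finset.mem_singleton] at hx
      rcases hx with hx | hx | hx | hx
      · rw [hx]
        exact k1
      · rw [hx]
        exact k2
      · rw [hx]
        exact k3
      · rw [hx]
        exact k4
    · intro x hx
      simp only [Finset.mem_insert, Finset.mem_singleton] at hx
      rcases hx with hx | hx | hx | hx
      · rw [hx]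
        exact k5
      · rw [hx]
        exact k6
      · rw [hx]
        exact k7
      · rw [hx]
        exact k8
  · refine GadB_three i j k hl _ _ _ (fun l X => X.card ≤ 4) ?_ Finset.card_le_four
      Finset.card_le_four
    exact le_trans Finset.card_le_two (by norm_num)

end Pool.Agent.H60.HL
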