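import Pool.Agent.H60.HL.GadB

/-!
# HL-17 GadC: absorbers for one unit out of a list

`abs_rec`: induction on `L` (for all `g`, `Φ`, `φ`).  `L = []`: `gad1_ex` for `g`.
`L = f :: L'`: choose a unit `g'` (`unit_pick`) in `H i \ Φ i` outside the bad set of the `x` with
`x + f' ∈ Θ` or `x - f' ∈ Θ` for some `f' ∈ g :: f :: L'` (at most `6 (L.length + 1)` elements; also
`-x ± f' ∉ Θ` as `Θ = -Θ`).  Let `Φ' = Φ` with `g', -g'` added to the type `i`.  Induction hypothesis
for `L'`, `g'`, `Φ'`, `φ + 2`: `A₁`.  Let `Φ''= Φ' ∪ A₁`, and `B` from `gad3_ex` for `(g', f, g)` and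
`Φ''`.  The absorber is `addU (A₁ ∪ B) i g'`: by `chain` (`A₁` absorbs `f'`, `B` absorbs `g'`) it absorbs
every `f' ∈ L'`, and (`B` absorbs `f` or `g`, `A₁` absorbs `g'`) it absorbs `f` and `g`.  Sizes:
`8 (L'.length + 1) + 4 + 2 ≤ 8 (L.length + 1)`.
The elements `f'` and `-f'`, `f' ∈ g :: L`, are in `Φ i`, so they are not in the new sets.
`absorber_exists`: `L = f :: L'`; choose `g` as above, `A₁` from `abs_rec` for `L'`, `g`, `B` from
`gad2_ex` for `(g, f)`; the absorber is `addU (A₁ ∪ B) i g`.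
-/

namespace Pool.Agent.H60.HL

open Finset Classical

variable {G : Type} [AddCommGroup G] [Fintype G]

omit [Fintype G] in
private theorem gadC_bad {Θ : Finset G} (hΘ : ThOK Θ) (L : List G) :
    ∃ bad : Finset G, bad.card ≤ 6 * L.length ∧
      ∀ x, x ∉ bad → ∀ f' ∈ L, f' + x ∉ Θ ∧ f' - x ∉ Θ ∧ x + f' ∉ Θ ∧ x - f' ∉ Θ := by
  refine ⟨L.toFinset.biUnion fun f' => Θ.image (fun θ => θ - f') ∪ Θ.image (fun θ => θ + f'),
    ?_, ?_⟩
  · have h1 := Finset.card_biUnion_le_card_mul L.toFinset
      (fun f' => Θ.image (fun θ => θ - f') ∪ Θ.image (fun θ => θ + f')) 6 (by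
        intro a _
        have h2 := Finset.card_union_le (Θ.image (fun θ => θ - a)) (Θ.image (fun θ => θ + a))
        have h3 : (Θ.image (fun θ => θ - a)).card ≤ Θ.card := Finset.card_image_le
        have h4 : (Θ.image (fun θ => θ + a)).card ≤ Θ.card := Finset.card_image_le
        have h5 := hΘ.2.2
        omega)
    have h6 : L.toFinset.card ≤ L.length := List.toFinset_card_le L
    have h7 : L.toFinset.card * 6 ≤ L.length * 6 := Nat.mul_le_mul_right 6 h6
    omega
  · intro x hx f' hf'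
    simp only [Finset.mem_biUnion, not_exists, not_and, Finset.mem_union, Finset.mem_image,
      List.mem_toFinset, not_or] at hx
    obtain ⟨h1, h2⟩ := hx f' hf'
    have h3 : x + f' ∉ Θ := fun h => h1 (x + f') h (by abel)
    have h4 : x - f' ∉ Θ := fun h => h2 (x - f') h (by abel)
    refine ⟨?_, ?_, h3, h4⟩
    · rw [add_comm]; exact h3
    · intro h
      apply h4
      have := hΘ.2.1 _ h
      rwa [neg_sub] at this

omit [Fintype G] in
private theorem gadC_comb {H Φ A B : Fin 3 → Finset G} {i : Fin 3} {g : G}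
    (hA : ∀ j, A j ⊆ H j \ addU Φ i g j) (hB : ∀ j, B j ⊆ H j \ (addU Φ i g j ∪ A j))
    (hg : g ∈ H i \ Φ i) (hg' : -g ∈ H i \ Φ i) (hAg : Absb i A g) (hBg : Absb i B g) :
    (∀ j, addU (fun j => A j ∪ B j) i g j ⊆ H j \ Φ j) ∧
      (∀ j, (addU (fun j => A j ∪ B j) i g j).card ≤ (A j).card + (B j).card + 2) ∧
      ∀ f, f ∈ Φ i → -f ∈ Φ i → (Absb i A f ∨ Absb i B f) →
        Absb i (addU (fun j => A j ∪ B j) i g) f := by
  have hsub : ∀ j, Φ j ⊆ addU Φ i g j := by
    intro j x hx
    unfold addU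
    split_ifs
    · exact Finset.mem_union_left _ hx
    · exact hx
  have hdis : ∀ j, Disjoint (A j) (B j) := by
    intro j
    rw [Finset.disjoint_left]
    intro x hx hx'
    have := hB j hx'
    simp only [Finset.mem_sdiff, Finset.mem_union, not_or] at this
    exact this.2.2 hx
  refine ⟨?_, ?_, ?_⟩
  · intro j x hx
    have hAj : x ∈ A j → x ∈ H j \ Φ j := by
      intro h
      have := hA j h
      rw [Finset.mem_sdiff] at this ⊢
      exact ⟨this.1, fun h' => this.2 (hsub j h')⟩
    have hBj : x ∈ B j → x ∈ H j \ Φ j := by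
      intro h
      have := hB j h
      rw [Finset.mem_sdiff, Finset.mem_union, not_or] at this
      rw [Finset.mem_sdiff]
      exact ⟨this.1, fun h' => this.2.1 (hsub j h')⟩
    unfold addU at hx
    split_ifs at hx with hj
    · subst hj
      simp only [Finset.mem_union, Finset.mem_insert, Finset.mem_singleton] at hx
      rcases hx with (h | h) | (h | h)
      · exact hAj h
      · exact hBj h
      · rw [h]; exact hg
      · rw [h]; exact hg'
    · rcases Finset.mem_union.1 hx with h | h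
      · exact hAj h
      · exact hBj h
  · intro j
    have h1 := Finset.card_union_le (A j) (B j)
    unfold addU
    split_ifs with hj
    · have h2 := Finset.card_union_le (A j ∪ B j) {g, -g}
      have h3 : ({g, -g} : Finset G).card ≤ 2 := Finset.card_le_two
      simp only at *
      omega
    · simp only at *
      omega
  · intro f hf hf' hor
    have hfne : f ≠ g := by
      rintro rfl
      exact (Finset.mem_sdiff.1 hg).2 hf
    have hfne' : f + g ≠ 0 := by
      intro h
      have : f = -g := eq_neg_of_add_eq_zero_left h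
      rw [this] at hf
      exact (Finset.mem_sdiff.1 hg').2 hf
    have hAf : ∀ x, x ∈ addU Φ i g i → x ∉ A i := fun x hx hx' =>
      (Finset.mem_sdiff.1 (hA i hx')).2 hx
    have hBf : ∀ x, x ∈ addU Φ i g i → x ∉ B i := fun x hx hx' =>
      (Finset.mem_sdiff.1 (hB i hx')).2 (Finset.mem_union_left _ hx)
    have hgi : g ∈ addU Φ i g i := by simp [addU]
    have hgi' : -g ∈ addU Φ i g i := by simp [addU]
    rcases hor with h | h
    · exact chain hdis h hBg (hBf _ (hsub i hf)) (hBf _ (hsub i hf')) (hAf _ hgi) (hAf _ hgi')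
        hfne hfne'
    · have := chain (fun j => (hdis j).symm) h hAg (hAf _ (hsub i hf)) (hAf _ (hsub i hf'))
        (hBf _ hgi) (hBf _ hgi') hfne hfne'
      have hcomm : (fun j => B j ∪ A j) = fun j => A j ∪ B j := by
        funext j
        exact Finset.union_comm _ _
      rwa [hcomm] at this

omit [Fintype G] in
private theorem gadC_card {Φ : Fin 3 → Finset G} {φ : ℕ} (hΦ : ∀ j, (Φ j).card ≤ φ) (i : Fin 3)
    (g : G) (j : Fin 3) : (addU Φ i g j).card ≤ φ + 2 := by
  unfold addU
  have h1 := hΦ j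
  split_ifs
  · have h2 := Finset.card_union_le (Φ j) {g, -g}
    have h3 : ({g, -g} : Finset G).card ≤ 2 := Finset.card_le_two
    omega
  · omega

omit [Fintype G] in
private theorem gadC_mem {Φ : Fin 3 → Finset G} (i : Fin 3) (g x : G) (hx : x ∈ Φ i) :
    x ∈ addU Φ i g i := by
  simp [addU, hx]

theorem abs_rec {H : Fin 3 → Finset G} {Θ : Finset G} {c : ℝ} (hR : Rich H Θ 12 c)
    (hT : Tor2 G) (hΘ : ThOK Θ) (i : Fin 3) (L : List G) :
    ∀ (g : G) (Φ : Fin 3 → Finset G) (φ : ℕ), (∀ j, (Φ j).card ≤ φ) →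
      (∀ f ∈ g :: L, f + f ≠ 0 ∧ f ∈ Φ i ∧ -f ∈ Φ i) →
      (L.Pairwise fun f f' => f ≠ f' ∧ f + f' ≠ 0) →
      (∀ f ∈ L, f + g ∉ Θ ∧ f - g ∉ Θ) →
      ((100 * (φ + 8 * (L.length + 2)) : ℕ) : ℝ) ≤ c * Fintype.card G →
      ∃ A : Fin 3 → Finset G, (∀ j, A j ⊆ H j \ Φ j) ∧
        (∀ j, (A j).card ≤ 8 * (L.length + 1)) ∧ ∀ f ∈ g :: L, Absb i A f := by
  induction L with
  | nil =>
    intro g Φ φ hΦ h1 _ _ h4
    obtain ⟨A, hA1, hA2, hA3⟩ := gad1_ex hR hΘ Φ φ hΦ i g (h1 g (by simp)).1 (by
      refine lt_of_lt_of_le ?_ h4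
      norm_cast
      simp only [List.length_nil]
      omega)
    refine ⟨A, hA1, fun j => ?_, ?_⟩
    · have := hA2 j
      simp only [List.length_nil]
      omega
    · intro f hf
      rw [List.mem_singleton] at hf
      rw [hf]
      exact hA3
  | cons f L' ih =>
    intro g Φ φ hΦ h1 h2 h3 h4
    simp only [List.length_cons] at h4
    obtain ⟨bad, hb1, hb2⟩ := gadC_bad hΘ (g :: f :: L')
    simp only [List.length_cons] at hb1
    obtain ⟨g', hg1, hg2, hg3, hg4⟩ := unit_pick hR hT Φ φ hΦ bad i (by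
      refine lt_of_lt_of_le ?_ h4
      norm_cast
      omega)
    have hb := hb2 g' hg1
    obtain ⟨A₁, hA1, hA2, hA3⟩ := ih g' (addU Φ i g') (φ + 2) (gadC_card hΦ i g') (by
        intro x hx
        rw [List.mem_cons] at hx
        rcases hx with rfl | hx
        · refine ⟨hg4, ?_, ?_⟩ <;> simp [addU]
        · have := h1 x (by simp [hx])
          exact ⟨this.1, gadC_mem i g' x this.2.1, gadC_mem i g' _ this.2.2⟩)
      (List.pairwise_cons.1 h2).2 (by
        intro x hx
        have := hb x (by simp [hx])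
        exact ⟨this.1, this.2.1⟩) (by
        refine le_trans ?_ h4
        norm_cast
        omega)
    have hbf := hb f (by simp)
    have hbg := hb g (by simp)
    have h3f := h3 f (by simp)
    obtain ⟨B, hB1, hB2, hB3, hB4, hB5⟩ := gad3_ex hR hΘ (fun j => addU Φ i g' j ∪ A₁ j)
      (φ + 2 + 8 * (L'.length + 1)) (by
        intro j
        have e1 := Finset.card_union_le (addU Φ i g' j) (A₁ j)
        have e2 := gadC_card hΦ i g' j
        have e3 := hA2 j
        omega) i g' f g hg4 (h1 f (by simp)).1 (h1 g (by simp)).1 hbf.2.2.1 h3f.1 hbf.2.2.2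
      hbg.2.2.2 h3f.2 (by
        refine lt_of_lt_of_le ?_ h4
        norm_cast
        omega)
    obtain ⟨hC1, hC2, hC3⟩ := gadC_comb hA1 hB1 hg2 hg3 (hA3 g' (by simp)) hB3
    refine ⟨addU (fun j => A₁ j ∪ B j) i g', hC1, ?_, ?_⟩
    · intro j
      have e1 := hC2 j
      have e2 := hA2 j
      have e3 := hB2 j
      simp only [List.length_cons]
      omega
    · intro x hx
      have hx1 := h1 x hx
      refine hC3 x hx1.2.1 hx1.2.2 ?_
      rw [List.mem_cons, List.mem_cons] at hx
      rcases hx with rfl | rfl | hx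
      · exact Or.inr hB5
      · exact Or.inr hB4
      · exact Or.inl (hA3 x (by simp [hx]))

theorem absorber_exists {H : Fin 3 → Finset G} {Θ : Finset G} {c : ℝ} (hR : Rich H Θ 12 c)
    (hT : Tor2 G) (hΘ : ThOK Θ) (i : Fin 3) (L : List G) (hL : L ≠ [])
    (Φ : Fin 3 → Finset G) (φ : ℕ) (hΦ : ∀ j, (Φ j).card ≤ φ)
    (h1 : ∀ f ∈ L, f + f ≠ 0 ∧ f ∈ Φ i ∧ -f ∈ Φ i)
    (h2 : L.Pairwise fun f f' => f ≠ f' ∧ f + f' ≠ 0)
    (h3 : ((100 * (φ + 8 * (L.length + 3)) : ℕ) : ℝ) ≤ c * Fintype.card G) :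
    ∃ A : Fin 3 → Finset G, (∀ j, A j ⊆ H j \ Φ j) ∧
      (∀ j, (A j).card ≤ 8 * (L.length + 1)) ∧ ∀ f ∈ L, Absb i A f := by
  cases L with
  | nil => exact absurd rfl hL
  | cons f L' =>
    simp only [List.length_cons] at h3
    obtain ⟨bad, hb1, hb2⟩ := gadC_bad hΘ (f :: L')
    simp only [List.length_cons] at hb1
    obtain ⟨g, hg1, hg2, hg3, hg4⟩ := unit_pick hR hT Φ φ hΦ bad i (by
      refine lt_of_lt_of_le ?_ h3
      norm_cast
      omega)
    have hb := hb2 g hg1
    obtain ⟨A₁, hA1, hA2, hA3⟩ := abs_rec hR hT hΘ i L' g (addU Φ i g) (φ + 2)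
      (gadC_card hΦ i g) (by
        intro x hx
        rw [List.mem_cons] at hx
        rcases hx with rfl | hx
        · refine ⟨hg4, ?_, ?_⟩ <;> simp [addU]
        · have := h1 x (by simp [hx])
          exact ⟨this.1, gadC_mem i g x this.2.1, gadC_mem i g _ this.2.2⟩)
      (List.pairwise_cons.1 h2).2 (by
        intro x hx
        have := hb x (by simp [hx])
        exact ⟨this.1, this.2.1⟩) (by
        refine le_trans ?_ h3
        norm_cast
        omega)
    have hbf := hb f (by simp)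
    obtain ⟨B, hB1, hB2, hB3, hB4⟩ := gad2_ex hR hΘ (fun j => addU Φ i g j ∪ A₁ j)
      (φ + 2 + 8 * (L'.length + 1)) (by
        intro j
        have e1 := Finset.card_union_le (addU Φ i g j) (A₁ j)
        have e2 := gadC_card hΦ i g j
        have e3 := hA2 j
        omega) i g f hg4 (h1 f (by simp)).1 hbf.2.2.1 hbf.2.2.2 (by
        refine lt_of_lt_of_le ?_ h3
        norm_cast
        omega)
    obtain ⟨hC1, hC2, hC3⟩ := gadC_comb hA1 hB1 hg2 hg3 (hA3 g (by simp)) hB3
    refine ⟨addU (fun j => A₁ j ∪ B j) i g, hC1, ?_, ?_⟩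
    · intro j
      have e1 := hC2 j
      have e2 := hA2 j
      have e3 := hB2 j
      simp only [List.length_cons]
      omega
    · intro x hx
      have hx1 := h1 x hx
      refine hC3 x hx1.2.1 hx1.2.2 ?_
      rw [List.mem_cons] at hx
      rcases hx with rfl | hx
      · exact Or.inr hB4
      · exact Or.inl (hA3 x (by simp [hx]))

/-- Disjoint absorbers for finitely many requests.  Induction on `s`, the previous absorbers are
added to `Φ`. -/
theorem family {H : Fin 3 → Finset G} {Θ : Finset G} {c : ℝ} (hR : Rich H Θ 12 c)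
    (hT : Tor2 G) (hΘ : ThOK Θ) {κ : Type} (s : Finset κ) (ty : κ → Fin 3) (L : κ → List G)
    (Φ : Fin 3 → Finset G) (φ : ℕ) (hΦ : ∀ j, (Φ j).card ≤ φ)
    (h0 : ∀ r ∈ s, L r ≠ [])
    (h1 : ∀ r ∈ s, ∀ f ∈ L r, f + f ≠ 0 ∧ f ∈ Φ (ty r) ∧ -f ∈ Φ (ty r))
    (h2 : ∀ r ∈ s, (L r).Pairwise fun f f' => f ≠ f' ∧ f + f' ≠ 0)
    (h3 : ((100 * (φ + 8 * ∑ r ∈ s, ((L r).length + 3)) : ℕ) : ℝ) ≤ c * Fintype.card G) :
    ∃ A : κ → Fin 3 → Finset G, (∀ r ∈ s, ∀ j, A r j ⊆ H j \ Φ j) ∧
      (∀ r ∈ s, ∀ r' ∈ s, r ≠ r' → ∀ j, Disjoint (A r j) (A r' j)) ∧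
      (∀ r ∈ s, ∀ j, (A r j).card ≤ 8 * ((L r).length + 1)) ∧
      ∀ r ∈ s, ∀ f ∈ L r, Absb (ty r) (A r) f := by
  induction s using Finset.induction_on generalizing Φ φ with
  | empty => exact ⟨fun _ _ => ∅, by simp, by simp, by simp, by simp⟩
  | insert r s hr ih =>
    rw [Finset.sum_insert hr] at h3
    obtain ⟨A₀, hA1, hA2, hA3⟩ := absorber_exists hR hT hΘ (ty r) (L r)
      (h0 r (Finset.mem_insert_self _ _)) Φ φ hΦ (h1 r (Finset.mem_insert_self _ _))
      (h2 r (Finset.mem_insert_self _ _)) (by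
        refine le_trans ?_ h3
        norm_cast
        omega)
    obtain ⟨A, hB1, hB2, hB3, hB4⟩ := ih (fun j => Φ j ∪ A₀ j) (φ + 8 * ((L r).length + 1)) (by
        intro j
        have e1 := Finset.card_union_le (Φ j) (A₀ j)
        have e2 := hΦ j
        have e3 := hA2 j
        omega) (fun x hx => h0 x (Finset.mem_insert_of_mem hx))
      (fun x hx f hf => by
        have := h1 x (Finset.mem_insert_of_mem hx) f hf
        exact ⟨this.1, Finset.mem_union_left _ this.2.1, Finset.mem_union_left _ this.2.2⟩)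
      (fun x hx => h2 x (Finset.mem_insert_of_mem hx)) (by
        refine le_trans ?_ h3
        norm_cast
        omega)
    have hne : ∀ x ∈ s, x ≠ r := by
      rintro x hx rfl
      exact hr hx
    have hBsub : ∀ x ∈ s, ∀ j, ∀ y ∈ A x j, y ∈ H j ∧ y ∉ Φ j ∧ y ∉ A₀ j := by
      intro x hx j y hy
      have := hB1 x hx j hy
      simp only [Finset.mem_sdiff, Finset.mem_union, not_or] at this
      exact ⟨this.1, this.2.1, this.2.2⟩
    refine ⟨fun x => if x = r then A₀ else A x, ?_, ?_, ?_, ?_⟩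
    · intro x hx j
      rcases Finset.mem_insert.1 hx with rfl | hx
      · simp only [if_true]
        exact hA1 j
      · simp only [if_neg (hne x hx)]
        intro y hy
        have := hBsub x hx j y hy
        exact Finset.mem_sdiff.2 ⟨this.1, this.2.1⟩
    · intro x hx y hy hxy j
      rcases Finset.mem_insert.1 hx with hxr | hx
      · rcases Finset.mem_insert.1 hy with hyr | hy
        · exact absurd (hxr.trans hyr.symm) hxy
        · simp only [if_pos hxr, if_neg (hne y hy)]
          rw [Finset.disjoint_left]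
          intro z hz hz'
          exact (hBsub y hy j z hz').2.2 hz
      · rcases Finset.mem_insert.1 hy with hyr | hy
        · simp only [if_pos hyr, if_neg (hne x hx)]
          rw [Finset.disjoint_left]
          intro z hz hz'
          exact (hBsub x hx j z hz).2.2 hz'
        · simp only [if_neg (hne x hx), if_neg (hne y hy)]
          exact hB2 x hx y hy hxy j
    · intro x hx j
      rcases Finset.mem_insert.1 hx with rfl | hx
      · simp only [if_true]
        exact hA2 j
      · simp only [if_neg (hne x hx)]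
        exact hB3 x hx j
    · intro x hx f hf
      rcases Finset.mem_insert.1 hx with rfl | hx
      · simp only [if_true]
        exact hA3 f hf
      · simp only [if_neg (hne x hx)]
        exact hB4 x hx f hf

end Pool.Agent.H60.HL
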