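import Pool.Agent.H23.RS.Pr2

/-!
# HL-01 Mcd: the inequality of McDiarmid (bounded differences), uniform product measure

`Pr`, `Ex` are the uniform probability and expectation on functions `A → Ω` (H23.RS).

Proof.  One sided bound `mcd_mgf`: `Ex (exp (s * (F - Ex F))) ≤ exp (s^2 * ∑ c a ^ 2 / 2)` for every
real `s`, by induction on `A` (for instance on a finset `S` of coordinates on which `F` depends, or
`Fintype.induction_empty_option` with the equivalence of `Option A' → Ω` with `Ω × (A' → Ω)`).
Step: average `F` over one coordinate `a`: `F' x = (∑ w, F (update x a w)) / card Ω`.  Then `F'` does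
not depend on `a`, has the same mean and the same differences `c b` in the other coordinates, and for
fixed other coordinates the function `w ↦ F (update x a w) - F' x` has mean `0` and absolute value at
most `c a`, so by the Hoeffding lemma the mean of its exponential is at most `exp (s^2 c^2 / 2)`.
Hoeffding lemma (weak form): if `|y_w| ≤ c` and the mean of `y_w` is `0`, then by convexity
`exp (s y) ≤ cosh (s c) + (y / c) sinh (s c)` (`c > 0`), the mean is `≤ cosh (s c)` and
`Real.cosh_le_exp_half_sq` gives `cosh x ≤ exp (x ^ 2 / 2)`.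
Then Markov: `Pr (l ≤ F - Ex F) ≤ exp (s^2 σ / 2 - s l)`, `s = l / σ`, gives `exp (- l^2 / (2 σ))`;
the same for `-F`.
-/

namespace Pool.Agent.H60.HL

open Finset Classical Pool.Agent.H23.RS

private theorem Mcd_hoeff {Ω : Type} [Fintype Ω] (y : Ω → ℝ) {c : ℝ} (hc0 : 0 ≤ c)
    (hy : ∀ w, |y w| ≤ c) (hs : ∑ w, y w = 0) (s : ℝ) :
    ∑ w, Real.exp (s * y w) ≤ (Fintype.card Ω : ℝ) * Real.exp (s ^ 2 * c ^ 2 / 2) := by
  rcases hc0.eq_or_lt with h0 | hc
  · have h1 : ∀ w, y w = 0 := fun w => by
      have := hy w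
      rw [← h0] at this
      exact abs_nonpos_iff.1 this
    simp only [h1, mul_zero, Real.exp_zero, Finset.sum_const, Finset.card_univ, nsmul_eq_mul,
      mul_one]
    have h2 : (1 : ℝ) ≤ Real.exp (s ^ 2 * c ^ 2 / 2) := Real.one_le_exp (by positivity)
    nlinarith [(Nat.cast_nonneg (Fintype.card Ω) : (0 : ℝ) ≤ _)]
  · have key : ∀ w, Real.exp (s * y w) ≤ Real.cosh (s * c) + y w * (Real.sinh (s * c) / c) := by
      intro w
      have h1 := abs_le.1 (hy w)
      have ha : 0 ≤ (1 + y w / c) / 2 := by
        have : -1 ≤ y w / c := by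
          rw [le_div_iff₀ hc]
          linarith
        linarith
      have hb : 0 ≤ (1 - y w / c) / 2 := by
        have : y w / c ≤ 1 := by
          rw [div_le_one hc]
          exact h1.2
        linarith
      have h2 := convexOn_exp.2 (Set.mem_univ (s * c)) (Set.mem_univ (-(s * c))) ha hb (by ring)
      simp only [smul_eq_mul] at h2
      have h3 : (1 + y w / c) / 2 * (s * c) + (1 - y w / c) / 2 * -(s * c) = s * y w := by
        field_simp
        ring
      rw [h3] at h2
      refine h2.trans (le_of_eq ?_)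
      rw [Real.cosh_eq, Real.sinh_eq]
      field_simp
      ring
    calc ∑ w, Real.exp (s * y w)
        ≤ ∑ w, (Real.cosh (s * c) + y w * (Real.sinh (s * c) / c)) :=
          Finset.sum_le_sum fun w _ => key w
      _ = (Fintype.card Ω : ℝ) * Real.cosh (s * c) := by
          rw [Finset.sum_add_distrib, ← Finset.sum_mul, hs, zero_mul, add_zero, Finset.sum_const,
            Finset.card_univ, nsmul_eq_mul]
      _ ≤ (Fintype.card Ω : ℝ) * Real.exp (s ^ 2 * c ^ 2 / 2) := by
          refine mul_le_mul_of_nonneg_left ?_ (Nat.cast_nonneg _)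
          have := Real.cosh_le_exp_half_sq (s * c)
          rwa [mul_pow] at this

private theorem Mcd_sum_update {A Ω : Type} [Fintype A] [Fintype Ω] (a : A)
    (H : (A → Ω) → ℝ) :
    ∑ x : A → Ω, ∑ w : Ω, H (Function.update x a w) = (Fintype.card Ω : ℝ) * ∑ x, H x := by
  have hinv : Function.Involutive (fun p : (A → Ω) × Ω => (Function.update p.1 a p.2, p.1 a)) := by
    rintro ⟨x, w⟩
    simp
  have h1 : ∑ x : A → Ω, ∑ w : Ω, H (Function.update x a w) =
      ∑ p : (A → Ω) × Ω, H (Function.update p.1 a p.2) :=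
    (Fintype.sum_prod_type (fun p : (A → Ω) × Ω => H (Function.update p.1 a p.2))).symm
  have h2 : ∑ p : (A → Ω) × Ω, H (Function.update p.1 a p.2) = ∑ p : (A → Ω) × Ω, H p.1 :=
    Equiv.sum_comp hinv.toPerm (fun p : (A → Ω) × Ω => H p.1)
  rw [h1, h2, Fintype.sum_prod_type, Finset.mul_sum]
  refine Finset.sum_congr rfl fun x _ => ?_
  show ∑ _w : Ω, H x = _
  rw [Finset.sum_const, Finset.card_univ, nsmul_eq_mul]

private theorem Mcd_mgf {A Ω : Type} [Fintype A] [Fintype Ω] [Nonempty Ω] (c : A → ℝ) (s : ℝ)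
    (S : Finset A) : ∀ F : (A → Ω) → ℝ,
    (∀ x y : A → Ω, (∀ b ∈ S, x b = y b) → F x = F y) →
    (∀ a, ∀ x y : A → Ω, (∀ b, b ≠ a → x b = y b) → |F x - F y| ≤ c a) →
    ∑ x, Real.exp (s * (F x - Ex F)) ≤
      (Fintype.card (A → Ω) : ℝ) * Real.exp (s ^ 2 * (∑ a ∈ S, c a ^ 2) / 2) := by
  have hq : (0 : ℝ) < (Fintype.card Ω : ℝ) := by exact_mod_cast Fintype.card_pos
  have hN : (0 : ℝ) < (Fintype.card (A → Ω) : ℝ) := by exact_mod_cast Fintype.card_pos
  induction S using Finset.induction_on with
  | empty =>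
    intro F hF _
    obtain ⟨x0⟩ : Nonempty (A → Ω) := inferInstance
    have h1 : ∀ x, F x = F x0 := fun x => hF x x0 (by simp)
    have h2 : Ex F = F x0 := by
      unfold Ex
      simp only [h1, Finset.sum_const, Finset.card_univ, nsmul_eq_mul]
      field_simp
    rw [h2]
    simp only [h1, sub_self, mul_zero, Real.exp_zero, Finset.sum_const, Finset.card_univ,
      nsmul_eq_mul, Finset.sum_empty, zero_div, mul_one, le_refl]
  | insert a S ha ih =>
    intro F hF hc
    obtain ⟨x0⟩ : Nonempty (A → Ω) := inferInstance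
    have hc0 : ∀ b, 0 ≤ c b := fun b => by
      have := hc b x0 x0 (fun _ _ => rfl)
      rw [sub_self, abs_zero] at this
      exact this
    obtain ⟨F', hF'⟩ : ∃ F' : (A → Ω) → ℝ,
        ∀ x, F' x = (∑ w, F (Function.update x a w)) / (Fintype.card Ω : ℝ) := ⟨_, fun _ => rfl⟩
    have hsum : ∀ x, ∑ w, (F (Function.update x a w) - F' x) = 0 := by
      intro x
      rw [Finset.sum_sub_distrib, Finset.sum_const, Finset.card_univ, nsmul_eq_mul, hF']
      field_simp
      ring
    have hEx : Ex F' = Ex F := by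
      unfold Ex
      congr 1
      simp only [hF']
      rw [← Finset.sum_div, Mcd_sum_update a F]
      field_simp
    have hdep : ∀ x y : A → Ω, (∀ b ∈ S, x b = y b) → F' x = F' y := by
      intro x y hxy
      rw [hF', hF']
      congr 1
      refine Finset.sum_congr rfl fun w _ => hF _ _ fun b hb => ?_
      by_cases hba : b = a
      · subst hba
        simp
      · rw [Function.update_of_ne hba, Function.update_of_ne hba]
        exact hxy b ((Finset.mem_insert.1 hb).resolve_left hba)
    have hdiff : ∀ b, ∀ x y : A → Ω, (∀ d, d ≠ b → x d = y d) → |F' x - F' y| ≤ c b := by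
      intro b x y hxy
      rw [hF', hF', ← sub_div, ← Finset.sum_sub_distrib, abs_div, abs_of_pos hq, div_le_iff₀ hq]
      refine (Finset.abs_sum_le_sum_abs _ _).trans ?_
      have h1 : ∀ w ∈ (univ : Finset Ω),
          |F (Function.update x a w) - F (Function.update y a w)| ≤ c b := by
        intro w _
        refine hc b _ _ fun d hd => ?_
        by_cases hda : d = a
        · subst hda
          simp
        · rw [Function.update_of_ne hda, Function.update_of_ne hda]
          exact hxy d hd
      refine (Finset.sum_le_sum h1).trans ?_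
      rw [Finset.sum_const, Finset.card_univ, nsmul_eq_mul, mul_comm]
    have hdev : ∀ x w, |F (Function.update x a w) - F' x| ≤ c a := by
      intro x w
      have h1 : F (Function.update x a w) - F' x =
          (∑ w', (F (Function.update x a w) - F (Function.update x a w'))) /
            (Fintype.card Ω : ℝ) := by
        rw [Finset.sum_sub_distrib, Finset.sum_const, Finset.card_univ, nsmul_eq_mul, hF']
        field_simp
      rw [h1, abs_div, abs_of_pos hq, div_le_iff₀ hq]
      refine (Finset.abs_sum_le_sum_abs _ _).trans ?_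
      have h2 : ∀ w' ∈ (univ : Finset Ω),
          |F (Function.update x a w) - F (Function.update x a w')| ≤ c a := by
        intro w' _
        refine hc a _ _ fun d hd => ?_
        rw [Function.update_of_ne hd, Function.update_of_ne hd]
      refine (Finset.sum_le_sum h2).trans ?_
      rw [Finset.sum_const, Finset.card_univ, nsmul_eq_mul, mul_comm]
    have hih := ih F' hdep hdiff
    rw [hEx] at hih
    have h1 : ∀ x, ∑ w, Real.exp (s * (F (Function.update x a w) - Ex F)) ≤
        Real.exp (s * (F' x - Ex F)) *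
          ((Fintype.card Ω : ℝ) * Real.exp (s ^ 2 * c a ^ 2 / 2)) := by
      intro x
      have h2 := Mcd_hoeff (fun w => F (Function.update x a w) - F' x) (hc0 a) (hdev x) (hsum x) s
      have h3 : ∀ w, Real.exp (s * (F (Function.update x a w) - Ex F)) =
          Real.exp (s * (F' x - Ex F)) * Real.exp (s * (F (Function.update x a w) - F' x)) := by
        intro w
        rw [← Real.exp_add]
        congr 1
        ring
      simp only [h3]
      rw [← Finset.mul_sum]
      exact mul_le_mul_of_nonneg_left h2 (Real.exp_pos _).le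
    have h4 : (Fintype.card Ω : ℝ) * ∑ x, Real.exp (s * (F x - Ex F)) ≤
        (Fintype.card Ω : ℝ) * ((Fintype.card (A → Ω) : ℝ) *
          Real.exp (s ^ 2 * (∑ b ∈ insert a S, c b ^ 2) / 2)) := by
      rw [← Mcd_sum_update a (fun x => Real.exp (s * (F x - Ex F)))]
      refine (Finset.sum_le_sum fun x _ => h1 x).trans ?_
      rw [← Finset.sum_mul]
      refine (mul_le_mul_of_nonneg_right hih (by positivity)).trans (le_of_eq ?_)
      rw [Finset.sum_insert ha]
      have h5 : Real.exp (s ^ 2 * (c a ^ 2 + ∑ b ∈ S, c b ^ 2) / 2) =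
          Real.exp (s ^ 2 * (∑ b ∈ S, c b ^ 2) / 2) * Real.exp (s ^ 2 * c a ^ 2 / 2) := by
        rw [← Real.exp_add]
        congr 1
        ring
      rw [h5]
      ring
    exact le_of_mul_le_mul_left h4 hq

theorem mcd {A Ω : Type} [Fintype A] [Fintype Ω] [Nonempty Ω] (F : (A → Ω) → ℝ) (c : A → ℝ)
    (hc : ∀ a, ∀ x y : A → Ω, (∀ b, b ≠ a → x b = y b) → |F x - F y| ≤ c a) {l σ : ℝ}
    (hl : 0 ≤ l) (hσ : 0 < σ) (hs : ∑ a, c a ^ 2 ≤ σ) :
    Pr (fun x => l ≤ |F x - Ex F|) ≤ 2 * Real.exp (-(l ^ 2) / (2 * σ)) := by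
  have hN : (0 : ℝ) < (Fintype.card (A → Ω) : ℝ) := by exact_mod_cast Fintype.card_pos
  -- one sided bound
  have one : ∀ s : ℝ, s = l / σ ∨ s = -(l / σ) →
      Pr (fun x => Real.exp (l ^ 2 / σ) ≤ Real.exp (s * (F x - Ex F))) ≤
        Real.exp (-(l ^ 2) / (2 * σ)) := by
    intro s hsl
    have hs2 : s ^ 2 = l ^ 2 / σ ^ 2 := by
      rcases hsl with h | h <;> rw [h] <;> ring
    have h1 := Mcd_mgf c s univ F (fun x y h => by
      rw [funext fun b => h b (Finset.mem_univ b)]) hc
    have h2 := markov (fun x => Real.exp (s * (F x - Ex F))) (fun x => (Real.exp_pos _).le)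
      (Real.exp_pos (l ^ 2 / σ))
    refine h2.trans ?_
    rw [div_le_iff₀ (Real.exp_pos _), ← Real.exp_add]
    have h3 : Ex (fun x => Real.exp (s * (F x - Ex F))) ≤
        Real.exp (s ^ 2 * (∑ a, c a ^ 2) / 2) := by
      unfold Ex at h1 ⊢
      rw [div_le_iff₀ hN, mul_comm (Real.exp _)]
      exact h1
    refine h3.trans (Real.exp_le_exp.2 ?_)
    have h4 : s ^ 2 * (∑ a, c a ^ 2) / 2 ≤ s ^ 2 * σ / 2 := by
      have := mul_le_mul_of_nonneg_left hs (sq_nonneg s)
      linarith
    refine h4.trans (le_of_eq ?_)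
    rw [hs2]
    field_simp
    ring
  have h1 := one (l / σ) (Or.inl rfl)
  have h2 := one (-(l / σ)) (Or.inr rfl)
  have h3 : Pr (fun x => l ≤ |F x - Ex F|) ≤
      Pr (fun x => Real.exp (l ^ 2 / σ) ≤ Real.exp (l / σ * (F x - Ex F)) ∨
        Real.exp (l ^ 2 / σ) ≤ Real.exp (-(l / σ) * (F x - Ex F))) := by
    refine Pr_mono fun x hx => ?_
    have hlσ : 0 ≤ l / σ := div_nonneg hl hσ.le
    rcases le_abs.1 hx with h | h
    · left
      rw [Real.exp_le_exp]
      calc l ^ 2 / σ = l / σ * l := by ring
        _ ≤ l / σ * (F x - Ex F) := mul_le_mul_of_nonneg_left h hlσ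
    · right
      rw [Real.exp_le_exp]
      calc l ^ 2 / σ = l / σ * l := by ring
        _ ≤ l / σ * (-(F x - Ex F)) := mul_le_mul_of_nonneg_left h hlσ
        _ = -(l / σ) * (F x - Ex F) := by ring
  refine h3.trans ((Pr_or_le _ _).trans ?_)
  linarith

end Pool.Agent.H60.HL
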