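import Pool.Agent.H60.HL.NibDefs

/-!
# HL-02 NibA: one bite, deterministic part

`nonuniq`: group `Q` by the value of `g`; a fibre with `k` elements contributes `k + 2 ≤ 2 k` if
`k ≥ 2`, and `0 + 2 = 2 k` if `k = 1` (`Finset.card_eq_sum_card_fiberwise`).

`iso_card`: an `e ∈ Q \ iso Q π` meets another `f ∈ Q` in some class `i`; `i ≠ i0` as the vertices in
the class `i0` are different; so `Q.card - (iso Q π).card` is at most the sum over `i ≠ i0` of the
numbers of `nonuniq` for `g = fun e => π e i`.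

`mat_union`: two different edges of the union: both in `iso Q π` (then they do not meet), both in
`M'`, or one in `Q` and the other in `rest E Q π`.  (For the injectivity in the case both in
`iso Q π` use the definition of `iso`; if `I` is empty everything is trivial: `Mat` is a statement
for all `i`.)  `Disjoint`: an `e` in both would satisfy `e ∈ Q` and `∀ f ∈ Q, ∀ i, π f i ≠ π e i`,
so for `f = e` and `i = i0` a contradiction.
-/

namespace Pool.Agent.H60.HL

open Finset Classical

variable {α I V : Type}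

private theorem nibA_mem_iso (Q : Finset α) (π : α → I → V) (e : α) :
    e ∈ iso Q π ↔ e ∈ Q ∧ ∀ f ∈ Q, f ≠ e → ∀ i, π f i ≠ π e i := by
  unfold iso
  rw [mem_filter]

theorem nonuniq {β γ : Type} (Q : Finset β) (g : β → γ) :
    (Q.filter fun e => ∃ f ∈ Q, f ≠ e ∧ g f = g e).card + 2 * (Q.image g).card ≤ 2 * Q.card := by
  have h1 : Q.card = ∑ b ∈ Q.image g, (Q.filter fun e => g e = b).card :=
    Finset.card_eq_sum_card_image g Q
  have h2 : (Q.filter fun e => ∃ f ∈ Q, f ≠ e ∧ g f = g e).card =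
      ∑ b ∈ Q.image g, ((Q.filter fun e => ∃ f ∈ Q, f ≠ e ∧ g f = g e).filter
        fun e => g e = b).card :=
    Finset.card_eq_sum_card_fiberwise
      (fun e he => mem_image_of_mem g (mem_filter.1 (Finset.mem_coe.1 he)).1)
  have h3 : 2 * (Q.image g).card = ∑ b ∈ Q.image g, 2 := by
    rw [Finset.sum_const, smul_eq_mul, mul_comm]
  have h4 : ∀ b ∈ Q.image g, ((Q.filter fun e => ∃ f ∈ Q, f ≠ e ∧ g f = g e).filter
        fun e => g e = b).card + 2 ≤ 2 * (Q.filter fun e => g e = b).card := by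
    intro b hb
    obtain ⟨e0, he0, rfl⟩ := mem_image.1 hb
    have hsub : ((Q.filter fun e => ∃ f ∈ Q, f ≠ e ∧ g f = g e).filter
        fun e => g e = g e0) ⊆ Q.filter fun e => g e = g e0 := by
      intro e he
      rw [mem_filter, mem_filter] at he
      exact mem_filter.2 ⟨he.1.1, he.2⟩
    have hle := card_le_card hsub
    have hmem : e0 ∈ Q.filter fun e => g e = g e0 := mem_filter.2 ⟨he0, rfl⟩
    have hpos : 0 < (Q.filter fun e => g e = g e0).card := card_pos.2 ⟨e0, hmem⟩
    by_cases hc : 2 ≤ (Q.filter fun e => g e = g e0).card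
    · omega
    · have hone : (Q.filter fun e => g e = g e0).card = 1 := by omega
      obtain ⟨a, ha⟩ := card_eq_one.1 hone
      have hempty : ((Q.filter fun e => ∃ f ∈ Q, f ≠ e ∧ g f = g e).filter
        fun e => g e = g e0) = ∅ := by
        rw [Finset.eq_empty_iff_forall_notMem]
        intro e he
        rw [mem_filter, mem_filter] at he
        obtain ⟨⟨heQ, f, hfQ, hfe, hgf⟩, hge⟩ := he
        have e1 : e ∈ Q.filter fun e => g e = g e0 := mem_filter.2 ⟨heQ, hge⟩
        have e2 : f ∈ Q.filter fun e => g e = g e0 := mem_filter.2 ⟨hfQ, hgf.trans hge⟩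
        rw [ha, mem_singleton] at e1 e2
        exact hfe (e2.trans e1.symm)
      rw [hempty, hone]
      simp
  rw [h1, h2, h3, ← Finset.sum_add_distrib, Finset.mul_sum]
  exact Finset.sum_le_sum h4

theorem iso_card [Fintype I] (i0 : I) (Q : Finset α) (π : α → I → V)
    (hQ : Set.InjOn (fun e => π e i0) (Q : Set α)) :
    (Q.card : ℝ) - 2 * ∑ i ∈ univ.erase i0, ((Q.card : ℝ) - ((Q.image fun e => π e i).card : ℝ)) ≤
      ((iso Q π).card : ℝ) := by
  have hsub : Q \ iso Q π ⊆ (univ.erase i0).biUnion fun i =>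
      Q.filter fun e => ∃ f ∈ Q, f ≠ e ∧ π f i = π e i := by
    intro e he
    rw [mem_sdiff] at he
    obtain ⟨heQ, hei⟩ := he
    have hx : ¬ ∀ f ∈ Q, f ≠ e → ∀ i, π f i ≠ π e i := by
      intro h
      apply hei
      exact (nibA_mem_iso Q π e).2 ⟨heQ, h⟩
    push Not at hx
    obtain ⟨f, hfQ, hfe, i, hi⟩ := hx
    have hii : i ≠ i0 := by
      rintro rfl
      exact hfe (hQ (Finset.mem_coe.2 hfQ) (Finset.mem_coe.2 heQ) hi)
    exact mem_biUnion.2 ⟨i, mem_erase.2 ⟨hii, mem_univ _⟩, mem_filter.2 ⟨heQ, f, hfQ, hfe, hi⟩⟩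
  have h1 : (Q \ iso Q π).card ≤ ∑ i ∈ univ.erase i0,
      (Q.filter fun e => ∃ f ∈ Q, f ≠ e ∧ π f i = π e i).card :=
    (card_le_card hsub).trans card_biUnion_le
  have h2 : (Q.card : ℝ) ≤ ((Q \ iso Q π).card : ℝ) + ((iso Q π).card : ℝ) := by
    have h := Finset.card_le_card_sdiff_add_card (s := Q) (t := iso Q π)
    exact_mod_cast h
  have h3 : ((Q \ iso Q π).card : ℝ) ≤ ∑ i ∈ univ.erase i0,
      2 * ((Q.card : ℝ) - ((Q.image fun e => π e i).card : ℝ)) := by
    have h1' : ((Q \ iso Q π).card : ℝ) ≤ ∑ i ∈ univ.erase i0,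
      ((Q.filter fun e => ∃ f ∈ Q, f ≠ e ∧ π f i = π e i).card : ℝ) := by
      exact_mod_cast h1
    refine h1'.trans (Finset.sum_le_sum ?_)
    intro i _
    have h := nonuniq Q (fun e => π e i)
    have h' : ((Q.filter fun e => ∃ f ∈ Q, f ≠ e ∧ π f i = π e i).card : ℝ) +
        2 * ((Q.image fun e => π e i).card : ℝ) ≤ 2 * (Q.card : ℝ) := by
      exact_mod_cast h
    linarith
  rw [← Finset.mul_sum] at h3
  linarith

theorem iso_mat (Q : Finset α) (π : α → I → V) : Mat (iso Q π) π := by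
  intro i e he f hf hef
  by_contra hne
  have he' := mem_filter.1 (Finset.mem_coe.1 he)
  have hf' := mem_filter.1 (Finset.mem_coe.1 hf)
  exact he'.2 f hf'.1 (fun h => hne h.symm) i hef.symm

theorem mat_union (i0 : I) {E Q M' : Finset α} {π : α → I → V} (hQ : Q ⊆ E) (hM : Mat M' π)
    (hM' : M' ⊆ rest E Q π) : Mat (iso Q π ∪ M') π ∧ Disjoint (iso Q π) M' := by
  have hcross : ∀ e ∈ iso Q π, ∀ f ∈ M', ∀ i, π e i ≠ π f i := by
    intro e he f hf i
    exact (mem_filter.1 (hM' hf)).2 e (mem_filter.1 he).1 i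
  refine ⟨?_, ?_⟩
  · intro i e he f hf hef
    rw [Finset.mem_coe, mem_union] at he hf
    rcases he with he | he
    · rcases hf with hf | hf
      · exact iso_mat Q π i (Finset.mem_coe.2 he) (Finset.mem_coe.2 hf) hef
      · exact absurd hef (hcross e he f hf i)
    · rcases hf with hf | hf
      · exact absurd hef.symm (hcross f hf e he i)
      · exact hM i (Finset.mem_coe.2 he) (Finset.mem_coe.2 hf) hef
  · rw [Finset.disjoint_left]
    intro e he he'
    exact hcross e he e he' i0 rfl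

/-- The edges of `rest` at an untouched vertex are the surviving edges. -/
theorem rest_deg {N : ℕ} (E : Finset α) (π : α → I → V) (i0 : I) (idx : α → Fin N)
    (ω : V → Fin N) (i : I) (u : V) (hu : u ∉ (Qo E π i0 idx ω).image fun e => π e i) :
    (dg (rest E (Qo E π i0 idx ω) π) π i u : ℝ) = Xs E π i0 idx i u ω := by
  have key : ((rest E (Qo E π i0 idx ω) π).filter fun e => π e i = u) =
      E.filter fun e => π e i = u ∧ Surv E π i0 idx i e ω := by
    ext e
    rw [mem_filter, mem_filter]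
    constructor
    · rintro ⟨he, heu⟩
      obtain ⟨heE, hr⟩ := mem_filter.1 he
      refine ⟨heE, heu, ?_⟩
      intro f hf hfi hj hω
      obtain ⟨j, _, hj⟩ := hj
      exact hr f (mem_filter.2 ⟨hf, hω⟩) j hj
    · rintro ⟨heE, heu, hs⟩
      refine ⟨mem_filter.2 ⟨heE, ?_⟩, heu⟩
      intro f hf j hj
      obtain ⟨hfE, hω⟩ := mem_filter.1 hf
      have hfi : π f i ≠ π e i := by
        intro h
        exact hu (mem_image.2 ⟨f, hf, h.trans heu⟩)
      have hji : j ≠ i := by
        rintro rfl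
        exact hfi hj
      exact hs f hfE hfi ⟨j, hji, hj⟩ hω
  unfold dg Xs
  rw [key]

end Pool.Agent.H60.HL
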