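import Pool.Agent.H60.HL.NibDefs
import Pool.Agent.H23.RS.Pr2

/-!
# HL-03 NibB: the probability that an edge survives

Let `S = {f ∈ E : π f i ≠ π e i, ∃ j ≠ i, π f j = π e j}` and `b = S.card`.
(1) `(r - 1) (1 - η) D - r^2 Λ ≤ b ≤ (r - 1) (1 + η) D`: the upper bound is the union bound over the
`r - 1` classes `j ≠ i` (`dg E π j (π e j) ≤ (1 + η) D`; `π e j ∈ vx E π j` as `e ∈ E`); for the
lower bound inclusion-exclusion (Bonferroni): `∑_{j ≠ i} dg (π e j)` minus the edges which also have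
`π f i = π e i` (at most `Λ` for each `j`), minus the pairs `j < j'` (at most `Λ` for each pair);
`(r - 1) + (r - 1)(r - 2) / 2 ≤ r^2`.  (For instance: the number of `f` with some `j ≠ i` is at least
the sum over `j` of the number of `f` with `π f j = π e j` and `π f l ≠ π e l` for all `l ≠ j`: these
sets are disjoint for different `j`, each has at least `dg - (r - 1) Λ` elements; total
`(r - 1) ((1 - η) D - (r - 1) Λ)`.)
(2) `Surv` says `∀ f ∈ S, ω (π f i0) ≠ idx f`, i.e. for all `v : V`, `ω v ∉ {idx f : f ∈ S,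
π f i0 = v}`.  By `Pr_coord` the probability is `∏ v, (1 - b_v / N)`, where
`b_v = #{f ∈ S : π f i0 = v}` (`idx` is injective on the edges with the same vertex in the class
`i0`), `∑ b_v = b`.
(3) `1 - b / N ≤ ∏ (1 - b_v / N) ≤ exp (- b / N) ≤ 1 - b / N + (b / N)^2` (lower bound: induction or
`Finset.prod_one_sub...`; `0 ≤ b_v / N ≤ 1`; upper bound `Real.add_one_le_exp`,
`exp (-y) ≤ 1 - y + y^2` for `y ≥ 0`).
(4) with `x = D / N`: `|b / N - (r - 1) x| ≤ r η x + r^2 Λ / N` and `b / N ≤ 2 r x`.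
-/

namespace Pool.Agent.H60.HL

open Finset Classical Pool.Agent.H23.RS

variable {α I V : Type}

private theorem nibB_prod_lower {ι : Type} (s : Finset ι) (x : ι → ℝ)
    (h0 : ∀ v ∈ s, 0 ≤ x v) (h1 : ∀ v ∈ s, x v ≤ 1) :
    (1 - ∑ v ∈ s, x v ≤ ∏ v ∈ s, (1 - x v)) ∧ 0 ≤ ∏ v ∈ s, (1 - x v) ∧
      ∏ v ∈ s, (1 - x v) ≤ 1 := by
  induction s using Finset.induction_on with
  | empty => simp
  | insert a s ha ih =>
    obtain ⟨i1, i2, i3⟩ := ih (fun v hv => h0 v (Finset.mem_insert_of_mem hv))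
      (fun v hv => h1 v (Finset.mem_insert_of_mem hv))
    rw [Finset.prod_insert ha, Finset.sum_insert ha]
    have ha0 := h0 a (Finset.mem_insert_self _ _)
    have ha1 := h1 a (Finset.mem_insert_self _ _)
    refine ⟨?_, mul_nonneg (by linarith) i2, ?_⟩
    · nlinarith
    · nlinarith

private theorem nibB_prod_upper {ι : Type} (s : Finset ι) (x : ι → ℝ)
    (h0 : ∀ v ∈ s, 0 ≤ x v) (h1 : ∀ v ∈ s, x v ≤ 1) :
    ∏ v ∈ s, (1 - x v) ≤ 1 - ∑ v ∈ s, x v + (∑ v ∈ s, x v) ^ 2 := by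
  have hs : 0 ≤ ∑ v ∈ s, x v := Finset.sum_nonneg h0
  set y := ∑ v ∈ s, x v with hy
  have e1 : ∏ v ∈ s, (1 - x v) ≤ Real.exp (-y) := by
    rw [hy, ← Finset.sum_neg_distrib, Real.exp_sum]
    refine Finset.prod_le_prod (fun v hv => by linarith [h1 v hv]) fun v hv => ?_
    have := Real.add_one_le_exp (-x v)
    linarith
  have e2 : Real.exp (-y) ≤ 1 - y + y ^ 2 := by
    have hp : 0 < 1 + y := by linarith
    have h2 : 1 + y ≤ Real.exp y := by linarith [Real.add_one_le_exp y]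
    rw [Real.exp_neg]
    calc (Real.exp y)⁻¹ ≤ (1 + y)⁻¹ := inv_anti₀ hp h2
      _ ≤ 1 - y + y ^ 2 := by
        rw [inv_le_iff_one_le_mul₀ hp]
        nlinarith [pow_nonneg hs 3]
  exact e1.trans e2

/-- the edges which can kill `e` -/
private noncomputable def nibB_S (E : Finset α) (π : α → I → V) (i : I) (e : α) : Finset α :=
  E.filter fun f => π f i ≠ π e i ∧ ∃ j, j ≠ i ∧ π f j = π e j

private theorem nibB_mem (E : Finset α) (π : α → I → V) (i : I) (e f : α) :
    f ∈ nibB_S E π i e ↔ f ∈ E ∧ π f i ≠ π e i ∧ ∃ j, j ≠ i ∧ π f j = π e j := by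
  rw [nibB_S]
  exact mem_filter

private theorem nibB_card {N : ℕ} (T : Finset (Fin N)) (p : Fin N → Prop)
    (inst : DecidablePred p) (hp : ∀ a, p a ↔ a ∉ T) :
    (@Finset.filter (Fin N) p inst univ).card = N - T.card := by
  have h1 : @Finset.filter (Fin N) p inst univ = Tᶜ := by
    ext a
    rw [mem_filter, mem_compl, hp a]
    exact ⟨fun h => h.2, fun h => ⟨mem_univ _, h⟩⟩
  rw [h1, card_compl, Fintype.card_fin]

private theorem nibB_S_upper [Fintype I] (E : Finset α) (π : α → I → V) (i : I) (e : α) {C : ℝ}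
    (hC : ∀ j, (dg E π j (π e j) : ℝ) ≤ C) :
    ((nibB_S E π i e).card : ℝ) ≤ ((Fintype.card I : ℝ) - 1) * C := by
  have h1 : nibB_S E π i e ⊆ (univ.erase i).biUnion fun j => E.filter fun f => π f j = π e j := by
    intro f hf
    obtain ⟨hf, -, j, hj, hfj⟩ := (nibB_mem E π i e f).1 hf
    rw [mem_biUnion]
    exact ⟨j, mem_erase.2 ⟨hj, mem_univ _⟩, mem_filter.2 ⟨hf, hfj⟩⟩
  have h2 : (nibB_S E π i e).card ≤ ∑ j ∈ univ.erase i, dg E π j (π e j) :=
    (card_le_card h1).trans card_biUnion_le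
  calc ((nibB_S E π i e).card : ℝ) ≤ ((∑ j ∈ univ.erase i, dg E π j (π e j) : ℕ) : ℝ) := by
        exact_mod_cast h2
    _ = ∑ j ∈ univ.erase i, (dg E π j (π e j) : ℝ) := by push_cast; rfl
    _ ≤ ∑ j ∈ univ.erase i, C := Finset.sum_le_sum fun j _ => hC j
    _ = ((Fintype.card I : ℝ) - 1) * C := by
        rw [Finset.sum_const, card_erase_of_mem (mem_univ _), nsmul_eq_mul, card_univ,
          Nat.cast_sub (Fintype.card_pos_iff.2 ⟨i⟩)]
        simp

private theorem nibB_S_lower [Fintype I] (E : Finset α) (π : α → I → V) (i : I) (e : α) {C Λ : ℝ}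
    (hC : ∀ j, C ≤ (dg E π j (π e j) : ℝ))
    (hΛ : ∀ i j, i ≠ j → ∀ v w, ((E.filter fun e => π e i = v ∧ π e j = w).card : ℝ) ≤ Λ) :
    ((Fintype.card I : ℝ) - 1) * (C - ((Fintype.card I : ℝ) - 1) * Λ) ≤
      ((nibB_S E π i e).card : ℝ) := by
  set G : I → Finset α := fun j =>
    E.filter fun f => π f j = π e j ∧ ∀ l, l ≠ j → π f l ≠ π e l with hG
  have hr : ∀ (c : ℝ) (j : I), ∑ l ∈ univ.erase j, c = ((Fintype.card I : ℝ) - 1) * c := by
    intro c j
    rw [Finset.sum_const, card_erase_of_mem (mem_univ _), nsmul_eq_mul, card_univ,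
      Nat.cast_sub (Fintype.card_pos_iff.2 ⟨i⟩)]
    simp
  have h1 : (univ.erase i).biUnion G ⊆ nibB_S E π i e := by
    intro f hf
    rw [mem_biUnion] at hf
    obtain ⟨j, hj, hf⟩ := hf
    have hji := (mem_erase.1 hj).1
    rw [hG] at hf
    obtain ⟨hfE, hfj, hfl⟩ := mem_filter.1 hf
    exact (nibB_mem E π i e f).2 ⟨hfE, hfl i (Ne.symm hji), j, hji, hfj⟩
  have h2 : ((univ.erase i).biUnion G).card = ∑ j ∈ univ.erase i, (G j).card := by
    refine card_biUnion fun j _ l _ hjl => ?_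
    refine Finset.disjoint_left.2 ?_
    intro f hf hf'
    rw [hG] at hf hf'
    exact (mem_filter.1 hf').2.2 j hjl (mem_filter.1 hf).2.1
  have h3 : ∀ j, C - ((Fintype.card I : ℝ) - 1) * Λ ≤ ((G j).card : ℝ) := by
    intro j
    have a1 : (E.filter fun f => π f j = π e j) ⊆ G j ∪ (univ.erase j).biUnion fun l =>
        E.filter fun f => π f j = π e j ∧ π f l = π e l := by
      intro f hf
      obtain ⟨hfE, hfj⟩ := mem_filter.1 hf
      rw [mem_union, mem_biUnion]
      by_cases h : ∀ l, l ≠ j → π f l ≠ π e l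
      · exact Or.inl (mem_filter.2 ⟨hfE, hfj, h⟩)
      · push Not at h
        obtain ⟨l, hl, hfl⟩ := h
        exact Or.inr ⟨l, mem_erase.2 ⟨hl, mem_univ _⟩, mem_filter.2 ⟨hfE, hfj, hfl⟩⟩
    have a2 : dg E π j (π e j) ≤ (G j).card + ∑ l ∈ univ.erase j,
        (E.filter fun f => π f j = π e j ∧ π f l = π e l).card := by
      refine (card_le_card a1).trans ((card_union_le _ _).trans ?_)
      exact Nat.add_le_add_left card_biUnion_le _
    have a3 : (dg E π j (π e j) : ℝ) ≤ (G j).card + ∑ l ∈ univ.erase j,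
        ((E.filter fun f => π f j = π e j ∧ π f l = π e l).card : ℝ) := by
      exact_mod_cast a2
    have a4 : ∑ l ∈ univ.erase j,
        ((E.filter fun f => π f j = π e j ∧ π f l = π e l).card : ℝ) ≤
        ((Fintype.card I : ℝ) - 1) * Λ := by
      rw [← hr Λ j]
      exact Finset.sum_le_sum fun l hl =>
        hΛ j l (Ne.symm (mem_erase.1 hl).1) (π e j) (π e l)
    linarith [hC j]
  calc ((Fintype.card I : ℝ) - 1) * (C - ((Fintype.card I : ℝ) - 1) * Λ)
      = ∑ j ∈ univ.erase i, (C - ((Fintype.card I : ℝ) - 1) * Λ) := (hr _ i).symm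
    _ ≤ ∑ j ∈ univ.erase i, ((G j).card : ℝ) := Finset.sum_le_sum fun j _ => h3 j
    _ = (((univ.erase i).biUnion G).card : ℝ) := by rw [h2]; push_cast; rfl
    _ ≤ ((nibB_S E π i e).card : ℝ) := by exact_mod_cast card_le_card h1

private theorem nibB_Pr [Fintype V] {N : ℕ} [NeZero N] (E : Finset α) (π : α → I → V)
    (i0 : I) (idx : α → Fin N)
    (hidx : ∀ e ∈ E, ∀ f ∈ E, π e i0 = π f i0 → idx e = idx f → e = f) (i : I) (e : α) :
    Pr (Surv E π i0 idx i e) =
      ∏ v : V, (1 - (((nibB_S E π i e).filter fun f => π f i0 = v).card : ℝ) / N) ∧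
    ∀ v : V, (((nibB_S E π i e).filter fun f => π f i0 = v).card : ℝ) / N ≤ 1 := by
  have hN : (N : ℝ) ≠ 0 := by exact_mod_cast NeZero.ne N
  have hN0 : (0 : ℝ) < N := by
    have := Nat.pos_of_ne_zero (NeZero.ne N)
    exact_mod_cast this
  set S := nibB_S E π i e with hS
  have hSE : ∀ f ∈ S, f ∈ E := fun f hf => (mem_filter.1 hf).1
  have hcard : ∀ v : V, ((S.filter fun f => π f i0 = v).image idx).card =
      (S.filter fun f => π f i0 = v).card := by
    intro v
    refine card_image_of_injOn ?_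
    intro a ha b hb hab
    have ha' := mem_filter.1 (Finset.mem_coe.1 ha)
    have hb' := mem_filter.1 (Finset.mem_coe.1 hb)
    exact hidx a (hSE a ha'.1) b (hSE b hb'.1) (ha'.2.trans hb'.2.symm) hab
  have hle : ∀ v : V, (S.filter fun f => π f i0 = v).card ≤ N := by
    intro v
    rw [← hcard v]
    exact (card_le_univ _).trans (by simp)
  have hsurv : Surv E π i0 idx i e = fun ω : V → Fin N => ∀ v ∈ (univ : Finset V),
      ω v ∉ (S.filter fun f => π f i0 = v).image idx := by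
    funext ω
    refine propext ⟨fun h v _ hv => ?_, fun h f hf h1 h2 h3 => ?_⟩
    · obtain ⟨f, hf, hfv⟩ := mem_image.1 hv
      obtain ⟨hfS, hfi⟩ := mem_filter.1 hf
      have hfS := (nibB_mem E π i e f).1 hfS
      exact h f hfS.1 hfS.2.1 hfS.2.2 (by rw [hfi, hfv])
    · refine h (π f i0) (mem_univ _) (mem_image.2 ⟨f, mem_filter.2 ⟨?_, rfl⟩, h3.symm⟩)
      exact (nibB_mem E π i e f).2 ⟨hf, h1, h2⟩
  refine ⟨?_, fun v => ?_⟩
  · rw [hsurv, Pr_coord univ fun (v : V) (a : Fin N) =>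
      a ∉ (S.filter fun f => π f i0 = v).image idx]
    refine Finset.prod_congr rfl fun v _ => ?_
    have h2 := fun inst => nibB_card ((S.filter fun f => π f i0 = v).image idx)
      (fun a => a ∉ (S.filter fun f => π f i0 = v).image idx) inst (fun a => Iff.rfl)
    rw [h2, hcard v, Fintype.card_fin, Nat.cast_sub (hle v)]
    field_simp
  · rw [div_le_one hN0]
    exact_mod_cast hle v

theorem surv_prob [Fintype I] [Fintype V] {N : ℕ} [NeZero N] (E : Finset α) (π : α → I → V)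
    (i0 : I) (idx : α → Fin N)
    (hidx : ∀ e ∈ E, ∀ f ∈ E, π e i0 = π f i0 → idx e = idx f → e = f)
    {D η Λ : ℝ} (hD : 0 ≤ D) (hη : 0 ≤ η) (hη1 : η ≤ 1) (hΛ : 0 ≤ Λ) (hReg : Reg E π D η Λ)
    (i : I) (e : α) (he : e ∈ E) :
    |Pr (Surv E π i0 idx i e) - (1 - ((Fintype.card I : ℝ) - 1) * (D / N))| ≤
      Fintype.card I * η * (D / N) + (Fintype.card I : ℝ) ^ 2 * Λ / N +
        4 * (Fintype.card I : ℝ) ^ 2 * (D / N) ^ 2 := by
  have hN0 : (0 : ℝ) < N := by
    have := Nat.pos_of_ne_zero (NeZero.ne N)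
    exact_mod_cast this
  have hr1 : (1 : ℝ) ≤ Fintype.card I := by
    have : 0 < Fintype.card I := Fintype.card_pos_iff.2 ⟨i⟩
    exact_mod_cast this
  set r : ℝ := (Fintype.card I : ℝ) with hr
  obtain ⟨hP, hb1⟩ := nibB_Pr E π i0 idx hidx i e
  set b : ℝ := ((nibB_S E π i e).card : ℝ) with hb
  have hdeg : ∀ j, |(dg E π j (π e j) : ℝ) - D| ≤ η * D := fun j =>
    hReg.1 j (π e j) (mem_image_of_mem _ he)
  have hup : b ≤ (r - 1) * ((1 + η) * D) := by
    refine nibB_S_upper E π i e fun j => ?_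
    have := (abs_le.1 (hdeg j)).2
    linarith
  have hlo : (r - 1) * ((1 - η) * D - (r - 1) * Λ) ≤ b := by
    refine nibB_S_lower E π i e (fun j => ?_) hReg.2
    have := (abs_le.1 (hdeg j)).1
    linarith
  have hsum : ∑ v : V, ((((nibB_S E π i e).filter fun f => π f i0 = v).card : ℝ) / N) = b / N := by
    rw [← Finset.sum_div, hb]
    congr 1
    have := card_eq_sum_card_fiberwise (s := nibB_S E π i e) (t := (univ : Finset V))
      (f := fun f => π f i0) (fun _ _ => Finset.mem_coe.2 (mem_univ _))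
    rw [this]
    push_cast
    rfl
  have hl := (nibB_prod_lower univ
    (fun v : V => (((nibB_S E π i e).filter fun f => π f i0 = v).card : ℝ) / N)
    (fun v _ => by positivity) (fun v _ => hb1 v)).1
  have hu := nibB_prod_upper univ
    (fun v : V => (((nibB_S E π i e).filter fun f => π f i0 = v).card : ℝ) / N)
    (fun v _ => by positivity) (fun v _ => hb1 v)
  rw [hsum, ← hP] at hl hu
  have hb0 : 0 ≤ b := Nat.cast_nonneg _
  set x : ℝ := D / N with hx
  have hx0 : 0 ≤ x := div_nonneg hD hN0.le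
  have hΛ0 : 0 ≤ Λ / N := div_nonneg hΛ hN0.le
  have e1 : b / N ≤ (r - 1) * ((1 + η) * x) := by
    rw [div_le_iff₀ hN0]
    calc b ≤ (r - 1) * ((1 + η) * D) := hup
      _ = (r - 1) * ((1 + η) * x) * N := by rw [hx]; field_simp
  have e2 : (r - 1) * ((1 - η) * x - (r - 1) * (Λ / N)) ≤ b / N := by
    rw [le_div_iff₀ hN0]
    calc (r - 1) * ((1 - η) * x - (r - 1) * (Λ / N)) * N
        = (r - 1) * ((1 - η) * D - (r - 1) * Λ) := by rw [hx]; field_simp
      _ ≤ b := hlo
  have hbN : 0 ≤ b / N := div_nonneg hb0 hN0.le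
  have e3 : b / N ≤ 2 * r * x := by
    refine e1.trans ?_
    nlinarith [mul_nonneg (sub_nonneg.2 hr1) hx0, mul_nonneg (sub_nonneg.2 hη1) hx0,
      mul_nonneg (mul_nonneg (sub_nonneg.2 hr1) hx0) (sub_nonneg.2 hη1)]
  have e4 : (b / N) ^ 2 ≤ 4 * r ^ 2 * x ^ 2 := by
    calc (b / N) ^ 2 ≤ (2 * r * x) ^ 2 := pow_le_pow_left₀ hbN e3 2
      _ = 4 * r ^ 2 * x ^ 2 := by ring
  have e5 : r ^ 2 * Λ / N = r ^ 2 * (Λ / N) := by ring
  have hηx : 0 ≤ η * x := mul_nonneg hη hx0
  have e6 : b / N ≤ (r - 1) * x + r * η * x := by nlinarith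
  have e7 : (r - 1) * x - r * η * x - r ^ 2 * (Λ / N) ≤ b / N := by
    refine le_trans ?_ e2
    nlinarith [mul_nonneg (by linarith : (0 : ℝ) ≤ 2 * r - 1) hΛ0]
  rw [e5, abs_le]
  constructor
  · nlinarith [mul_nonneg (sq_nonneg r) hΛ0, mul_nonneg (sq_nonneg r) (sq_nonneg x)]
  · nlinarith

end Pool.Agent.H60.HL
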