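import Pool.Agent.H60.HL.NibDefs
import Pool.Agent.H23.RS.Pr2

/-!
# HL-04 NibC: Lipschitz bounds

`ω` and `ω'` agree outside `a`.
`Xs_lip`: if `Surv` of `e` is different for `ω` and `ω'` then there is an `f ∈ E` with `π f i0 = a`,
`idx f ∈ {ω a, ω' a}`, `π f i ≠ u = π e i` and `π f j = π e j` for some `j ≠ i`.  By `hidx` there are
at most two such `f`; for each `f` and each `j ≠ i` at most `Λ` edges `e` with `π e i = u`,
`π e j = π f j`.  So the two sets of surviving edges differ in at most `2 r Λ` elements.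
`Xs_const`: if `a` is not a vertex in the class `i0` then no `f` has `π f i0 = a`.
`Qo_lip`: the two sets `Qo` differ in at most one element on each side
(those with `π e i0 = a`; at most one for each of `ω`, `ω'` by `hidx`).
`Qo_mean`: linearity, `Pr (ω (π e i0) = idx e) = 1 / N` (`Pr_coord` with `S = {π e i0}`).
`Xs_mean`: linearity: `Xs` is a sum over `e ∈ E` with `π e i = u` of indicators (`Pr_eq_Ex`).
-/

namespace Pool.Agent.H60.HL

open Finset Classical Pool.Agent.H23.RS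

variable {α I V : Type}

private theorem nibC_abs (A B : Finset α) {c : ℝ} (h1 : ((A \ B).card : ℝ) ≤ c)
    (h2 : ((B \ A).card : ℝ) ≤ c) : |(A.card : ℝ) - (B.card : ℝ)| ≤ c := by
  have e1 : (A \ B).card + (A ∩ B).card = A.card := Finset.card_sdiff_add_card_inter A B
  have e2 : (B \ A).card + (B ∩ A).card = B.card := Finset.card_sdiff_add_card_inter B A
  rw [Finset.inter_comm] at e2
  have e3 : ((A \ B).card : ℝ) + ((A ∩ B).card : ℝ) = (A.card : ℝ) := by exact_mod_cast e1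
  have e4 : ((B \ A).card : ℝ) + ((A ∩ B).card : ℝ) = (B.card : ℝ) := by exact_mod_cast e2
  have e5 : (0 : ℝ) ≤ ((A \ B).card : ℝ) := Nat.cast_nonneg _
  have e6 : (0 : ℝ) ≤ ((B \ A).card : ℝ) := Nat.cast_nonneg _
  rw [abs_le]
  constructor <;> linarith

private theorem nibC_one [Fintype I] {N : ℕ} (E : Finset α) (π : α → I → V) (i0 : I)
    (idx : α → Fin N)
    (hidx : ∀ e ∈ E, ∀ f ∈ E, π e i0 = π f i0 → idx e = idx f → e = f) {D η Λ : ℝ} (hΛ : 0 ≤ Λ)
    (hReg : Reg E π D η Λ) (i : I) (u a : V) (ω ω' : V → Fin N)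
    (h : ∀ b, b ≠ a → ω b = ω' b) :
    (((E.filter fun e => π e i = u ∧ Surv E π i0 idx i e ω) \
      (E.filter fun e => π e i = u ∧ Surv E π i0 idx i e ω')).card : ℝ) ≤
        Fintype.card I * Λ := by
  have key : ∀ e, e ∈ (E.filter fun e => π e i = u ∧ Surv E π i0 idx i e ω) \
      (E.filter fun e => π e i = u ∧ Surv E π i0 idx i e ω') →
      ∃ f ∈ E, π f i0 = a ∧ idx f = ω' a ∧ e ∈ E ∧ π e i = u ∧ ∃ j, j ≠ i ∧ π f j = π e j := by
    intro e he
    obtain ⟨he1, he2⟩ := Finset.mem_sdiff.1 he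
    obtain ⟨heE, heu, hs⟩ := Finset.mem_filter.1 he1
    have hns : ¬ Surv E π i0 idx i e ω' := fun hs' =>
      he2 (Finset.mem_filter.2 ⟨heE, heu, hs'⟩)
    unfold Surv at hns
    push Not at hns
    obtain ⟨f, hf, hfi, ⟨j, hj, hfj⟩, hω⟩ := hns
    have h1 := hs f hf hfi ⟨j, hj, hfj⟩
    have h2 : π f i0 = a := by
      by_contra hne
      exact h1 ((h _ hne).trans hω)
    refine ⟨f, hf, h2, ?_, heE, heu, j, hj, hfj⟩
    rw [← h2]
    exact hω.symm
  by_cases hex : ∃ f ∈ E, π f i0 = a ∧ idx f = ω' a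
  · obtain ⟨f0, hf0, hfa, hfi⟩ := hex
    have hsub : (E.filter fun e => π e i = u ∧ Surv E π i0 idx i e ω) \
        (E.filter fun e => π e i = u ∧ Surv E π i0 idx i e ω') ⊆
        (Finset.univ.filter fun j : I => j ≠ i).biUnion
          (fun j => E.filter fun e => π e i = u ∧ π e j = π f0 j) := by
      intro e he
      obtain ⟨f, hf, h1, h2, heE, heu, j, hj, hfj⟩ := key e he
      have hff : f = f0 := hidx f hf f0 hf0 (h1.trans hfa.symm) (h2.trans hfi.symm)
      rw [hff] at hfj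
      exact Finset.mem_biUnion.2 ⟨j, Finset.mem_filter.2 ⟨Finset.mem_univ _, hj⟩,
        Finset.mem_filter.2 ⟨heE, heu, hfj.symm⟩⟩
    have h1 := (Finset.card_le_card hsub).trans Finset.card_biUnion_le
    have h2 : (((E.filter fun e => π e i = u ∧ Surv E π i0 idx i e ω) \
        (E.filter fun e => π e i = u ∧ Surv E π i0 idx i e ω')).card : ℝ) ≤
        ∑ j ∈ Finset.univ.filter (fun j : I => j ≠ i),
          ((E.filter fun e => π e i = u ∧ π e j = π f0 j).card : ℝ) := by exact_mod_cast h1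
    refine h2.trans ?_
    have h3 : ∑ j ∈ Finset.univ.filter (fun j : I => j ≠ i),
        ((E.filter fun e => π e i = u ∧ π e j = π f0 j).card : ℝ) ≤
        ∑ _j ∈ Finset.univ.filter (fun j : I => j ≠ i), Λ :=
      Finset.sum_le_sum fun j hj => hReg.2 i j (Finset.mem_filter.1 hj).2.symm u (π f0 j)
    refine h3.trans ?_
    rw [Finset.sum_const, nsmul_eq_mul]
    refine mul_le_mul_of_nonneg_right ?_ hΛ
    exact_mod_cast Finset.card_le_univ _
  · have hemp : (E.filter fun e => π e i = u ∧ Surv E π i0 idx i e ω) \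
        (E.filter fun e => π e i = u ∧ Surv E π i0 idx i e ω') = ∅ := by
      rw [Finset.eq_empty_iff_forall_notMem]
      intro e he
      obtain ⟨f, hf, h1, h2, -⟩ := key e he
      exact hex ⟨f, hf, h1, h2⟩
    rw [hemp, Finset.card_empty, Nat.cast_zero]
    exact mul_nonneg (Nat.cast_nonneg _) hΛ

theorem Xs_lip [Fintype I] {N : ℕ} (E : Finset α) (π : α → I → V) (i0 : I) (idx : α → Fin N)
    (hidx : ∀ e ∈ E, ∀ f ∈ E, π e i0 = π f i0 → idx e = idx f → e = f) {D η Λ : ℝ} (hΛ : 0 ≤ Λ)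
    (hReg : Reg E π D η Λ) (i : I) (u a : V) (ω ω' : V → Fin N)
    (h : ∀ b, b ≠ a → ω b = ω' b) :
    |Xs E π i0 idx i u ω - Xs E π i0 idx i u ω'| ≤ 2 * Fintype.card I * Λ := by
  have h1 := nibC_one E π i0 idx hidx hΛ hReg i u a ω ω' h
  have h2 := nibC_one E π i0 idx hidx hΛ hReg i u a ω' ω fun b hb => (h b hb).symm
  have h3 := nibC_abs _ _ h1 h2
  have h4 : (0 : ℝ) ≤ Fintype.card I * Λ := mul_nonneg (Nat.cast_nonneg _) hΛ
  refine le_trans h3 ?_
  linarith

theorem Xs_const {N : ℕ} (E : Finset α) (π : α → I → V) (i0 : I) (idx : α → Fin N)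
    (i : I) (u a : V) (ha : a ∉ vx E π i0) (ω ω' : V → Fin N) (h : ∀ b, b ≠ a → ω b = ω' b) :
    Xs E π i0 idx i u ω = Xs E π i0 idx i u ω' := by
  have h1 : ∀ f ∈ E, ω (π f i0) = ω' (π f i0) := by
    intro f hf
    apply h
    intro h2
    apply ha
    unfold vx
    exact Finset.mem_image.2 ⟨f, hf, h2⟩
  have h2 : ∀ e, Surv E π i0 idx i e ω ↔ Surv E π i0 idx i e ω' := by
    intro e
    unfold Surv
    constructor
    · intro hs f hf h3 h4
      rw [← h1 f hf]
      exact hs f hf h3 h4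
    · intro hs f hf h3 h4
      rw [h1 f hf]
      exact hs f hf h3 h4
  unfold Xs
  have h3 : (E.filter fun e => π e i = u ∧ Surv E π i0 idx i e ω) =
      E.filter fun e => π e i = u ∧ Surv E π i0 idx i e ω' :=
    Finset.filter_congr fun e _ => and_congr_right fun _ => h2 e
  rw [h3]

private theorem nibC_Qo {N : ℕ} (E : Finset α) (π : α → I → V) (i0 : I) (idx : α → Fin N)
    (hidx : ∀ e ∈ E, ∀ f ∈ E, π e i0 = π f i0 → idx e = idx f → e = f) (a : V)
    (ω ω' : V → Fin N) (h : ∀ b, b ≠ a → ω b = ω' b) :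
    (((Qo E π i0 idx ω) \ (Qo E π i0 idx ω')).card : ℝ) ≤
      if a ∈ vx E π i0 then 1 else 0 := by
  have key : ∀ e, e ∈ (Qo E π i0 idx ω) \ (Qo E π i0 idx ω') →
      e ∈ E ∧ π e i0 = a ∧ idx e = ω a := by
    intro e he
    obtain ⟨he1, he2⟩ := Finset.mem_sdiff.1 he
    unfold Qo at he1 he2
    obtain ⟨heE, hω⟩ := Finset.mem_filter.1 he1
    have h1 : π e i0 = a := by
      by_contra hne
      exact he2 (Finset.mem_filter.2 ⟨heE, (h _ hne).symm.trans hω⟩)
    refine ⟨heE, h1, ?_⟩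
    rw [← h1]
    exact hω.symm
  by_cases ha : a ∈ vx E π i0
  · rw [if_pos ha]
    have h1 : ((Qo E π i0 idx ω) \ (Qo E π i0 idx ω')).card ≤ 1 := by
      rw [Finset.card_le_one]
      intro e he f hf
      obtain ⟨e1, e2, e3⟩ := key e he
      obtain ⟨f1, f2, f3⟩ := key f hf
      exact hidx e e1 f f1 (e2.trans f2.symm) (e3.trans f3.symm)
    exact_mod_cast h1
  · rw [if_neg ha]
    have hemp : (Qo E π i0 idx ω) \ (Qo E π i0 idx ω') = ∅ := by
      rw [Finset.eq_empty_iff_forall_notMem]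
      intro e he
      obtain ⟨e1, e2, -⟩ := key e he
      apply ha
      unfold vx
      exact Finset.mem_image.2 ⟨e, e1, e2⟩
    rw [hemp, Finset.card_empty, Nat.cast_zero]

theorem Qo_lip {N : ℕ} (E : Finset α) (π : α → I → V) (i0 : I) (idx : α → Fin N)
    (hidx : ∀ e ∈ E, ∀ f ∈ E, π e i0 = π f i0 → idx e = idx f → e = f) (a : V)
    (ω ω' : V → Fin N) (h : ∀ b, b ≠ a → ω b = ω' b) :
    |((Qo E π i0 idx ω).card : ℝ) - ((Qo E π i0 idx ω').card : ℝ)| ≤
      if a ∈ vx E π i0 then 1 else 0 :=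
  nibC_abs _ _ (nibC_Qo E π i0 idx hidx a ω ω' h)
    (nibC_Qo E π i0 idx hidx a ω' ω fun b hb => (h b hb).symm)

private theorem nibC_Ex_sum [Fintype V] {N : ℕ} (S : Finset α) (g : α → (V → Fin N) → ℝ) :
    Ex (fun ω => ∑ e ∈ S, g e ω) = ∑ e ∈ S, Ex (g e) := by
  unfold Ex
  rw [Finset.sum_comm, Finset.sum_div]

theorem Qo_mean [Fintype V] {N : ℕ} [NeZero N] (E : Finset α) (π : α → I → V) (i0 : I)
    (idx : α → Fin N) :
    Ex (fun ω => ((Qo E π i0 idx ω).card : ℝ)) = E.card / N := by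
  have h1 : (fun ω : V → Fin N => ((Qo E π i0 idx ω).card : ℝ)) =
      fun ω => ∑ e ∈ E, if ω (π e i0) = idx e then (1 : ℝ) else 0 := by
    funext ω
    unfold Qo
    rw [Finset.sum_boole]
  rw [h1, nibC_Ex_sum]
  have h2 : ∀ e ∈ E, Ex (fun ω : V → Fin N => if ω (π e i0) = idx e then (1 : ℝ) else 0) =
      1 / N := by
    intro e _
    rw [← Pr_eq_Ex (fun ω : V → Fin N => ω (π e i0) = idx e)
      (fun ω : V → Fin N => if ω (π e i0) = idx e then (1 : ℝ) else 0)
      (fun x hx => if_pos hx) (fun x hx => if_neg hx)]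
    have h3 := Pr_coord (Ω := Fin N) ({π e i0} : Finset V) fun _ b => b = idx e
    have h4 : ∀ inst : DecidablePred fun b : Fin N => b = idx e,
        (@Finset.filter _ (fun b => b = idx e) inst Finset.univ).card = 1 := by
      intro inst
      rw [Finset.card_eq_one]
      refine ⟨idx e, ?_⟩
      ext b
      simp only [Finset.mem_filter, Finset.mem_univ, true_and, Finset.mem_singleton]
    rw [Finset.prod_singleton, Fintype.card_fin, h4, Nat.cast_one] at h3
    rw [← h3]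
    simp only [Finset.mem_singleton, forall_eq]
  rw [Finset.sum_congr rfl h2, Finset.sum_const, nsmul_eq_mul, mul_one_div]

theorem Xs_mean [Fintype V] {N : ℕ} [NeZero N] (E : Finset α) (π : α → I → V) (i0 : I)
    (idx : α → Fin N) (i : I) (u : V) :
    Ex (Xs E π i0 idx i u) = ∑ e ∈ E.filter (fun e => π e i = u), Pr (Surv E π i0 idx i e) := by
  have h1 : Xs E π i0 idx i u = fun ω : V → Fin N => ∑ e ∈ E.filter (fun e => π e i = u),
      if Surv E π i0 idx i e ω then (1 : ℝ) else 0 := by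
    funext ω
    unfold Xs
    rw [Finset.sum_boole, Finset.filter_filter]
  rw [h1, nibC_Ex_sum]
  refine Finset.sum_congr rfl fun e _ => ?_
  exact (Pr_eq_Ex (Surv E π i0 idx i e)
    (fun ω : V → Fin N => if Surv E π i0 idx i e ω then (1 : ℝ) else 0)
    (fun x hx => if_pos hx) (fun x hx => if_neg hx)).symm

end Pool.Agent.H60.HL
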