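import Pool.Agent.H60.HL.NibA
import Pool.Agent.H60.HL.NibB
import Pool.Agent.H60.HL.NibC
import Pool.Agent.H60.HL.Mcd

/-!
# HL-05 NibD: one bite of the nibble

Proof.  `r = card I ≥ 1`, `n = (vx E π i0).card`, `N = ⌈D / ε⌉`, `x = D / N`.  `D ≥ κ n Λ ≥ κ n0` is
large.  `x ≤ ε` and, as `N ≤ D / ε + 1`, `x ≥ ε - ε^2 / D`.
`idx`: for every `v` an injection of the edges with `π e i0 = v` (at most `(1 + η) D ≤ 1.1 D ≤ N`)
into `Fin N`.
Means (`Xs_mean`, `surv_prob`): for `u ∈ vx E π i`, `dg ∈ (1 ± η) D`, and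
`|Ex Xs - dg * (1 - (r - 1) x)| ≤ dg * δ`, `δ = r η x + r^2 Λ / N + 4 r^2 x^2`,
`r^2 Λ / N ≤ r^2 Λ ε / D ≤ r^2 ε / (κ n) ≤ ε^2` for `n ≥ r^2 / (κ ε)`.  With `D' = D (1 - (r - 1) ε)`:
`|Ex Xs - D'| ≤ η D' + D (η r ε^2 + ε^2 + 1.1 (r η ε + ε^2 + 4 r^2 ε^2))`, using
`D (r - 1) |x - ε| ≤ r ε^2 ≤ ε^2 D`.  And `D ≤ 1.02 D'`.
Deviations (`mcd`, `Xs_lip`, `Xs_const`): `c a = 2 r Λ` for `a ∈ vx E π i0`, `0` otherwise, `l = ε^2 D`,
`σ = n (2 r Λ)^2`; the probability of a deviation is at most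
`2 exp (- ε^4 D^2 / (8 n r^2 Λ^2)) ≤ 2 exp (- ε^4 κ^2 n / (8 r^2))`.  There are at most `2 r n` pairs
`(i, u)`: `(1 - η) D (vx E π i).card ≤ E.card ≤ (1 + η) D n`.
Size of `Q`: mean `E.card / N ≥ (1 - η) x n ≥ (3/4) ε n`, `c a = 1` on `vx E π i0`, deviation `ε n / 4`,
probability `≤ 2 exp (- ε^2 n / 32)`.
For `n ≥ n0` the sum of all failure probabilities is `< 1` (`Pr_exists_le`, `exists_of_Pr` or
counting), so some `ω` is good; `Q = Qo E π i0 idx ω`.
Injectivity on `Q` in the class `i0` by `hidx`.  The vertices of `rest`: none of them is in the image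
of `Q`; conversely `u ∈ vx E π i` not in the image of `Q` has degree `Xs ≥ D' (1 - η') > 0` in `rest`
(`rest_deg`).  Codegrees only decrease.
-/

namespace Pool.Agent.H60.HL

open Finset Classical

/-- the numerical estimate of the degrees -/
theorem nibD_key {R ε η D x d L X m : ℝ} (hR : 1 ≤ R) (hε : 0 < ε)
    (hε1 : ε * (100 * (R + 1) ^ 2) ≤ 1) (hη : 0 ≤ η) (hη1 : η ≤ 1 / 10) (hD : 2 * R ≤ D)
    (hx0 : 0 ≤ x) (hx : x ≤ ε) (hx2 : D * (ε - x) ≤ ε ^ 2) (hd : |d - D| ≤ η * D)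
    (hL : L ≤ ε ^ 2) (hX : |X - m| ≤ ε ^ 2 * D)
    (hm : |m - d * (1 - (R - 1) * x)| ≤ d * (R * η * x + L + 4 * R ^ 2 * x ^ 2)) :
    |X - D * (1 - (R - 1) * ε)| ≤
      (η + 20 * (R + 1) ^ 2 * (η * ε + ε ^ 2)) * (D * (1 - (R - 1) * ε)) := by
  have hD0 : 0 < D := by linarith
  have hRε : (R - 1) * ε ≤ 1 / 100 := by nlinarith
  have hRε0 : 0 ≤ (R - 1) * ε := mul_nonneg (by linarith) hε.le
  have hRx : (R - 1) * x ≤ (R - 1) * ε := mul_le_mul_of_nonneg_left hx (by linarith)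
  obtain ⟨hd1, hd2⟩ := abs_le.1 hd
  have hd3 : d ≤ 11 / 10 * D := by nlinarith
  have hd0 : 0 ≤ d := by nlinarith
  -- second term
  have h2 : R * η * x + L + 4 * R ^ 2 * x ^ 2 ≤ R * η * ε + ε ^ 2 + 4 * R ^ 2 * ε ^ 2 := by
    have e1 : R * η * x ≤ R * η * ε := mul_le_mul_of_nonneg_left hx (by positivity)
    have e2 : x ^ 2 ≤ ε ^ 2 := pow_le_pow_left₀ hx0 hx 2
    have e3 : 4 * R ^ 2 * x ^ 2 ≤ 4 * R ^ 2 * ε ^ 2 := mul_le_mul_of_nonneg_left e2 (by positivity)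
    linarith
  have h2' : d * (R * η * x + L + 4 * R ^ 2 * x ^ 2) ≤
      11 / 10 * D * (R * η * ε + ε ^ 2 + 4 * R ^ 2 * ε ^ 2) := by
    calc d * (R * η * x + L + 4 * R ^ 2 * x ^ 2)
        ≤ d * (R * η * ε + ε ^ 2 + 4 * R ^ 2 * ε ^ 2) := mul_le_mul_of_nonneg_left h2 hd0
      _ ≤ _ := mul_le_mul_of_nonneg_right hd3 (by positivity)
  -- third term
  have h3 : |d * (1 - (R - 1) * x) - D * (1 - (R - 1) * ε)| ≤
      η * (D * (1 - (R - 1) * ε)) + 11 / 20 * (D * ε ^ 2) := by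
    have e1 : d * (1 - (R - 1) * x) - D * (1 - (R - 1) * ε) =
        (d - D) * (1 - (R - 1) * x) + (R - 1) * (D * (ε - x)) := by ring
    have e2 : |(d - D) * (1 - (R - 1) * x)| ≤ η * D * (1 - (R - 1) * x) := by
      rw [abs_mul, abs_of_nonneg (show 0 ≤ 1 - (R - 1) * x by linarith)]
      exact mul_le_mul_of_nonneg_right hd (by linarith)
    have e3 : 0 ≤ D * (ε - x) := mul_nonneg hD0.le (by linarith)
    have e4 : |(R - 1) * (D * (ε - x))| = (R - 1) * (D * (ε - x)) :=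
      abs_of_nonneg (mul_nonneg (by linarith) e3)
    have e5 : η * D * (1 - (R - 1) * x) = η * (D * (1 - (R - 1) * ε)) +
        η * ((R - 1) * (D * (ε - x))) := by ring
    have e6 : (R - 1) * (D * (ε - x)) ≤ (R - 1) * ε ^ 2 :=
      mul_le_mul_of_nonneg_left hx2 (by linarith)
    have e7 : (R - 1) * ε ^ 2 ≤ D / 2 * ε ^ 2 :=
      mul_le_mul_of_nonneg_right (by linarith) (by positivity)
    have e8 : 0 ≤ (R - 1) * (D * (ε - x)) := mul_nonneg (by linarith) e3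
    have e9 : η * ((R - 1) * (D * (ε - x))) ≤ 1 / 10 * ((R - 1) * (D * (ε - x))) :=
      mul_le_mul_of_nonneg_right hη1 e8
    rw [e1]
    refine (abs_add_le _ _).trans ?_
    rw [e4]
    linarith
  -- the sum
  have h4 : |X - D * (1 - (R - 1) * ε)| ≤ |X - m| + |m - d * (1 - (R - 1) * x)| +
      |d * (1 - (R - 1) * x) - D * (1 - (R - 1) * ε)| := by
    have := abs_add_three (X - m) (m - d * (1 - (R - 1) * x))
      (d * (1 - (R - 1) * x) - D * (1 - (R - 1) * ε))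
    have e1 : X - m + (m - d * (1 - (R - 1) * x)) +
      (d * (1 - (R - 1) * x) - D * (1 - (R - 1) * ε)) = X - D * (1 - (R - 1) * ε) := by ring
    rwa [e1] at this
  have h5 : 0 ≤ D * (η * ε) := by positivity
  have h6 : 0 ≤ D * ε ^ 2 := by positivity
  have h7 : ε ^ 2 * D + 11 / 10 * D * (R * η * ε + ε ^ 2 + 4 * R ^ 2 * ε ^ 2) +
      11 / 20 * (D * ε ^ 2) ≤ 19 * (R + 1) ^ 2 * (D * (η * ε) + D * ε ^ 2) := by
    have e1 : 11 / 10 * R * (D * (η * ε)) ≤ 19 * (R + 1) ^ 2 * (D * (η * ε)) :=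
      mul_le_mul_of_nonneg_right (by nlinarith) h5
    have e2 : (1 + 11 / 10 + 44 / 10 * R ^ 2 + 11 / 20) * (D * ε ^ 2) ≤
        19 * (R + 1) ^ 2 * (D * ε ^ 2) :=
      mul_le_mul_of_nonneg_right (by nlinarith) h6
    nlinarith
  have h8 : 19 * (R + 1) ^ 2 * (D * (η * ε) + D * ε ^ 2) ≤
      20 * (R + 1) ^ 2 * (η * ε + ε ^ 2) * (D * (1 - (R - 1) * ε)) := by
    have e1 : 19 * (R + 1) ^ 2 * (D * (η * ε) + D * ε ^ 2) =
        20 * (R + 1) ^ 2 * (η * ε + ε ^ 2) * (D * (19 / 20)) := by ring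
    rw [e1]
    refine mul_le_mul_of_nonneg_left (mul_le_mul_of_nonneg_left ?_ hD0.le) (by positivity)
    linarith
  linarith

theorem nibD_exp {y : ℝ} (hy : 0 < y) : Real.exp (-y) ≤ 2 / y ^ 2 := by
  rw [Real.exp_neg, inv_eq_one_div, div_le_div_iff₀ (Real.exp_pos y) (by positivity)]
  have := Real.quadratic_le_exp_of_nonneg hy.le
  nlinarith

theorem nibD_num (r : ℕ) (κ ε : ℝ) (hκ : 0 < κ) (hε : 0 < ε) (hr : 1 ≤ r) :
    ∃ n0 : ℕ, ∀ n : ℝ, (n0 : ℝ) ≤ n → 1 ≤ n ∧ (r : ℝ) ^ 2 / (κ * ε) ≤ n ∧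
      2 * (r : ℝ) ≤ κ * n ∧
      r * (2 * n) * (2 * Real.exp (-(ε ^ 4 * κ ^ 2 / (8 * (r : ℝ) ^ 2) * n))) +
        2 * Real.exp (-(ε ^ 2 / 32 * n)) < 1 := by
  have hR : (1 : ℝ) ≤ r := by exact_mod_cast hr
  have hR0 : (0 : ℝ) < r := by linarith
  obtain ⟨c₁, hc₁⟩ : ∃ c : ℝ, c = ε ^ 4 * κ ^ 2 / (8 * (r : ℝ) ^ 2) := ⟨_, rfl⟩
  obtain ⟨c₂, hc₂⟩ : ∃ c : ℝ, c = ε ^ 2 / 32 := ⟨_, rfl⟩
  have h1 : 0 < c₁ := by rw [hc₁]; positivity
  have h2 : 0 < c₂ := by rw [hc₂]; positivity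
  obtain ⟨n0, hn0⟩ := exists_nat_ge (1 + (r : ℝ) ^ 2 / (κ * ε) + 2 * (r : ℝ) / κ +
    24 * r / c₁ ^ 2 + 12 / c₂ ^ 2)
  refine ⟨n0, fun n hn => ?_⟩
  rw [← hc₁, ← hc₂]
  have p1 : 0 ≤ (r : ℝ) ^ 2 / (κ * ε) := by positivity
  have p2 : 0 ≤ 2 * (r : ℝ) / κ := by positivity
  have p3 : 0 ≤ 24 * r / c₁ ^ 2 := by positivity
  have p4 : 0 ≤ 12 / c₂ ^ 2 := by positivity
  have q1 : 1 ≤ n := by linarith
  have q0 : 0 < n := by linarith
  refine ⟨q1, by linarith, ?_, ?_⟩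
  · have h3 : 2 * (r : ℝ) / κ ≤ n := by linarith
    rw [div_le_iff₀ hκ] at h3
    linarith
  · have e1 := nibD_exp (y := c₁ * n) (by positivity)
    have e2 := nibD_exp (y := c₂ * n) (by positivity)
    have e3 : (r : ℝ) * (2 * n) * (2 * Real.exp (-(c₁ * n))) ≤ 8 * r / c₁ ^ 2 / n := by
      calc (r : ℝ) * (2 * n) * (2 * Real.exp (-(c₁ * n)))
          ≤ (r : ℝ) * (2 * n) * (2 * (2 / (c₁ * n) ^ 2)) := by gcongr
        _ = 8 * r / c₁ ^ 2 / n := by
          field_simp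
          ring
    have e4 : 8 * r / c₁ ^ 2 / n ≤ 1 / 3 := by
      rw [div_le_iff₀ q0]
      have : 24 * r / c₁ ^ 2 = 3 * (8 * r / c₁ ^ 2) := by ring
      linarith
    have e5 : 2 * Real.exp (-(c₂ * n)) ≤ 4 / c₂ ^ 2 / n ^ 2 := by
      calc 2 * Real.exp (-(c₂ * n)) ≤ 2 * (2 / (c₂ * n) ^ 2) := by gcongr
        _ = 4 / c₂ ^ 2 / n ^ 2 := by
          field_simp
          ring
    have e6 : 4 / c₂ ^ 2 / n ^ 2 ≤ 1 / 3 := by
      rw [div_le_iff₀ (by positivity)]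
      have : 12 / c₂ ^ 2 = 3 * (4 / c₂ ^ 2) := by ring
      nlinarith
    linarith


variable {α I V : Type}

/-- the numbers of the edges -/
theorem nibD_idx {N : ℕ} [NeZero N] (E : Finset α) (π : α → I → V) (i0 : I)
    (h : ∀ v, dg E π i0 v ≤ N) : ∃ idx : α → Fin N,
      ∀ e ∈ E, ∀ f ∈ E, π e i0 = π f i0 → idx e = idx f → e = f := by
  have h1 : ∀ v : V, ∃ g : α → Fin N, Set.InjOn g (E.filter fun e => π e i0 = v : Finset α) := by
    intro v
    have hle : (E.filter fun e => π e i0 = v).card ≤ N := h v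
    refine ⟨fun e => if he : e ∈ E.filter fun e => π e i0 = v then
      Fin.castLE hle ((E.filter fun e => π e i0 = v).equivFin ⟨e, he⟩) else 0, ?_⟩
    intro e he f hf hef
    have he' : e ∈ E.filter fun e => π e i0 = v := he
    have hf' : f ∈ E.filter fun e => π e i0 = v := hf
    simp only [dif_pos he', dif_pos hf'] at hef
    have h2 := (E.filter fun e => π e i0 = v).equivFin.injective (Fin.castLE_injective hle hef)
    exact congrArg Subtype.val h2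
  choose g hg using h1
  refine ⟨fun e => g (π e i0) e, fun e he f hf hef hidx => ?_⟩
  refine hg (π e i0) (Finset.mem_coe.2 (Finset.mem_filter.2 ⟨he, rfl⟩))
    (Finset.mem_coe.2 (Finset.mem_filter.2 ⟨hf, hef.symm⟩)) ?_
  have h3 : g (π e i0) e = g (π f i0) f := hidx
  rw [h3, hef]

/-- the number of edges -/
theorem nibD_card (E : Finset α) (π : α → I → V) {D η Λ : ℝ} (hReg : Reg E π D η Λ) (i : I) :
    (1 - η) * D * (vx E π i).card ≤ E.card ∧ (E.card : ℝ) ≤ (1 + η) * D * (vx E π i).card := by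
  have h1 : (E.card : ℝ) = ∑ v ∈ vx E π i, (dg E π i v : ℝ) := by
    have := Finset.card_eq_sum_card_image (fun e => π e i) E
    unfold vx dg
    rw [← Nat.cast_sum]
    exact congrArg Nat.cast this
  rw [h1]
  constructor
  · have h2 : ∑ v ∈ vx E π i, (1 - η) * D ≤ ∑ v ∈ vx E π i, (dg E π i v : ℝ) :=
      Finset.sum_le_sum fun v hv => by
        have := (abs_le.1 (hReg.1 i v hv)).1
        linarith
    rw [Finset.sum_const, nsmul_eq_mul] at h2
    linarith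
  · have h2 : ∑ v ∈ vx E π i, (dg E π i v : ℝ) ≤ ∑ v ∈ vx E π i, (1 + η) * D :=
      Finset.sum_le_sum fun v hv => by
        have := (abs_le.1 (hReg.1 i v hv)).2
        linarith
    rw [Finset.sum_const, nsmul_eq_mul] at h2
    linarith

theorem nibD_dg_le (E : Finset α) (π : α → I → V) {D η Λ : ℝ} (hReg : Reg E π D η Λ)
    (hD : 0 ≤ (1 + η) * D) (i : I) (v : V) : (dg E π i v : ℝ) ≤ (1 + η) * D := by
  by_cases hv : v ∈ vx E π i
  · have := (abs_le.1 (hReg.1 i v hv)).2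
    linarith
  · have h0 : dg E π i v = 0 := by
      unfold dg
      rw [Finset.card_eq_zero, Finset.filter_eq_empty_iff]
      intro e he hev
      exact hv (Finset.mem_image.2 ⟨e, he, hev⟩)
    rw [h0, Nat.cast_zero]
    exact hD

/-- the conclusion from a good choice -/
theorem nibD_good {N : ℕ} (E : Finset α) (π : α → I → V) (i0 : I) (idx : α → Fin N)
    (hidx : ∀ e ∈ E, ∀ f ∈ E, π e i0 = π f i0 → idx e = idx f → e = f)
    {D η Λ D' η' s : ℝ} (hReg : Reg E π D η Λ) (hD' : 0 < D') (hη' : η' < 1)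
    (ω : V → Fin N) (h1 : s ≤ (Qo E π i0 idx ω).card)
    (h2 : ∀ i, ∀ u ∈ vx E π i, |Xs E π i0 idx i u ω - D'| ≤ η' * D') :
    ∃ Q ⊆ E, Set.InjOn (fun e => π e i0) (Q : Set α) ∧ s ≤ Q.card ∧
      Reg (rest E Q π) π D' η' Λ ∧
      ∀ i, vx (rest E Q π) π i = vx E π i \ Q.image fun e => π e i := by
  have hvx : ∀ i, vx (rest E (Qo E π i0 idx ω) π) π i =
      vx E π i \ (Qo E π i0 idx ω).image fun e => π e i := by
    intro i
    ext u
    constructor
    · intro hu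
      obtain ⟨e, he, rfl⟩ := Finset.mem_image.1 hu
      obtain ⟨he1, he2⟩ := Finset.mem_filter.1 he
      refine Finset.mem_sdiff.2 ⟨Finset.mem_image.2 ⟨e, he1, rfl⟩, fun h => ?_⟩
      obtain ⟨f, hf, hfe⟩ := Finset.mem_image.1 h
      exact he2 f hf i hfe
    · intro hu
      obtain ⟨hu1, hu2⟩ := Finset.mem_sdiff.1 hu
      have h3 := rest_deg E π i0 idx ω i u hu2
      have h4 := (abs_le.1 (h2 i u hu1)).1
      have h5 : 0 < D' * (1 - η') := mul_pos hD' (by linarith)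
      have h6 : (0 : ℝ) < (dg (rest E (Qo E π i0 idx ω) π) π i u : ℝ) := by
        rw [h3]
        linarith
      have h7 : 0 < dg (rest E (Qo E π i0 idx ω) π) π i u := by exact_mod_cast h6
      unfold dg at h7
      obtain ⟨e, he⟩ := Finset.card_pos.1 h7
      obtain ⟨he1, he2⟩ := Finset.mem_filter.1 he
      exact Finset.mem_image.2 ⟨e, he1, he2⟩
  refine ⟨Qo E π i0 idx ω, Finset.filter_subset _ _, ?_, h1, ⟨?_, ?_⟩, hvx⟩
  · intro e he f hf hef
    obtain ⟨he1, he2⟩ := Finset.mem_filter.1 (Finset.mem_coe.1 he)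
    obtain ⟨hf1, hf2⟩ := Finset.mem_filter.1 (Finset.mem_coe.1 hf)
    have hef' : π e i0 = π f i0 := hef
    refine hidx e he1 f hf1 hef' ?_
    rw [← he2, ← hf2, hef']
  · intro i v hv
    rw [hvx i] at hv
    obtain ⟨hv1, hv2⟩ := Finset.mem_sdiff.1 hv
    rw [rest_deg E π i0 idx ω i v hv2]
    exact h2 i v hv1
  · intro i j hij v w
    refine le_trans ?_ (hReg.2 i j hij v w)
    have h3 : ((rest E (Qo E π i0 idx ω) π).filter fun e => π e i = v ∧ π e j = w) ⊆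
        E.filter fun e => π e i = v ∧ π e j = w :=
      Finset.filter_subset_filter _ (Finset.filter_subset _ _)
    exact_mod_cast Finset.card_le_card h3

open Pool.Agent.H23.RS in
theorem bite (r : ℕ) (κ ε : ℝ) (hκ : 0 < κ) (hε : 0 < ε) (hε1 : ε * (100 * ((r : ℝ) + 1) ^ 2) ≤ 1) :
    ∃ n0 : ℕ, ∀ (α I V : Type) [Fintype I] [Fintype V], Fintype.card I = r →
      ∀ (i0 : I) (E : Finset α) (π : α → I → V) (D η Λ : ℝ), 1 ≤ Λ → 0 ≤ η → η ≤ 1 / 10 →
      Reg E π D η Λ → n0 ≤ (vx E π i0).card → κ * (vx E π i0).card * Λ ≤ D →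
      ∃ Q ⊆ E, Set.InjOn (fun e => π e i0) (Q : Set α) ∧
        ε / 2 * (vx E π i0).card ≤ Q.card ∧
        Reg (rest E Q π) π (D * (1 - ((r : ℝ) - 1) * ε))
          (η + 20 * ((r : ℝ) + 1) ^ 2 * (η * ε + ε ^ 2)) Λ ∧
        ∀ i, vx (rest E Q π) π i = vx E π i \ Q.image fun e => π e i := by
  rcases Nat.eq_zero_or_pos r with hr0 | hr
  · refine ⟨0, fun α I V _ _ hI i0 => ?_⟩
    rw [hr0, Fintype.card_eq_zero_iff] at hI
    exact (hI.false i0).elim
  obtain ⟨n0, hn0⟩ := nibD_num r κ ε hκ hε hr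
  refine ⟨n0, ?_⟩
  intro α I V _ _ hI i0 E π D η Λ hΛ hη hη1 hReg hn hD
  obtain ⟨n1, n2, n3, n4⟩ := hn0 ((vx E π i0).card : ℝ) (by exact_mod_cast hn)
  obtain ⟨n, hnn⟩ : ∃ n : ℝ, n = ((vx E π i0).card : ℝ) := ⟨_, rfl⟩
  rw [← hnn] at n1 n2 n3 n4 hD ⊢
  have hR : (1 : ℝ) ≤ r := by exact_mod_cast hr
  have hR0 : (0 : ℝ) < r := by linarith
  have hε2 : ε ≤ 1 / 400 := by nlinarith
  have hn0' : 0 < n := by linarith
  have hΛ0 : 0 < Λ := by linarith
  have hκn : 0 < κ * n := by positivity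
  have hD1 : κ * n ≤ D := by nlinarith
  have hD2 : 2 * (r : ℝ) ≤ D := by linarith
  have hD0 : 0 < D := by linarith
  -- the number of choices
  obtain ⟨N, hN⟩ : ∃ N : ℕ, N = ⌈D / ε⌉₊ := ⟨_, rfl⟩
  have hN1 : D / ε ≤ N := by rw [hN]; exact Nat.le_ceil _
  have hN2 : (N : ℝ) < D / ε + 1 := by
    rw [hN]
    exact Nat.ceil_lt_add_one (by positivity)
  have hN0 : (0 : ℝ) < N := lt_of_lt_of_le (by positivity) hN1
  have hNne : NeZero N := ⟨by
    rintro rfl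
    simp at hN0⟩
  have hx0 : 0 ≤ D / N := by positivity
  have hx1 : D / N ≤ ε := by
    rw [div_le_iff₀ hN0]
    rw [div_le_iff₀ hε] at hN1
    linarith
  have hx2 : D * (ε - D / N) ≤ ε ^ 2 := by
    have h1 : ε * N ≤ D + ε := by
      have h2 := mul_le_mul_of_nonneg_left hN2.le hε.le
      have h3 : ε * (D / ε + 1) = D + ε := by
        field_simp
      linarith
    have h4 : D * (ε - D / N) = D / N * (ε * N - D) := by
      field_simp
    rw [h4]
    calc D / N * (ε * N - D) ≤ D / N * ε := mul_le_mul_of_nonneg_left (by linarith) hx0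
      _ ≤ ε * ε := mul_le_mul_of_nonneg_right hx1 hε.le
      _ = ε ^ 2 := by ring
  -- the numbers of the edges
  have hdgN : ∀ v, dg E π i0 v ≤ N := by
    intro v
    have h1 := nibD_dg_le E π hReg (by positivity) i0 v
    have h2 : (1 + η) * D ≤ D / ε := by
      rw [le_div_iff₀ hε]
      have h3 : (1 + η) * ε ≤ 1 := by nlinarith
      nlinarith
    have h3 : (dg E π i0 v : ℝ) ≤ N := by linarith
    exact_mod_cast h3
  obtain ⟨idx, hidx⟩ := nibD_idx E π i0 hdgN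
  -- the deviations
  have hX : ∀ i u, Pr (fun ω : V → Fin N => ε ^ 2 * D ≤
      |Xs E π i0 idx i u ω - Ex (Xs E π i0 idx i u)|) ≤
      2 * Real.exp (-(ε ^ 4 * κ ^ 2 / (8 * (r : ℝ) ^ 2) * n)) := by
    intro i u
    have h1 := mcd (F := Xs E π i0 idx i u) (c := fun a : V => if a ∈ vx E π i0 then 2 * (r : ℝ) * Λ
      else 0) (l := ε ^ 2 * D) (σ := n * (2 * (r : ℝ) * Λ) ^ 2) (by
        intro a ω ω' h
        by_cases ha : a ∈ vx E π i0
        · have h2 := Xs_lip E π i0 idx hidx hΛ0.le hReg i u a ω ω' h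
          rw [hI] at h2
          rw [if_pos ha]
          exact h2
        · rw [if_neg ha, Xs_const E π i0 idx i u a ha ω ω' h, sub_self, abs_zero]) (by positivity)
        (by positivity) (by
        have h2 : ∑ a : V, (if a ∈ vx E π i0 then 2 * (r : ℝ) * Λ else 0) ^ 2 =
            ∑ a : V, if a ∈ vx E π i0 then (2 * (r : ℝ) * Λ) ^ 2 else 0 := by
          refine Finset.sum_congr rfl fun a _ => ?_
          split_ifs
          · rfl
          · ring
        rw [h2, Finset.sum_ite_mem, Finset.univ_inter, Finset.sum_const, nsmul_eq_mul, hnn])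
    refine h1.trans ?_
    refine mul_le_mul_of_nonneg_left (Real.exp_le_exp.2 ?_) (by norm_num)
    rw [neg_div, neg_le_neg_iff, le_div_iff₀ (by positivity)]
    have h3 : ε ^ 4 * κ ^ 2 / (8 * (r : ℝ) ^ 2) * n * (2 * (n * (2 * (r : ℝ) * Λ) ^ 2)) =
        ε ^ 4 * (κ * n * Λ) ^ 2 := by
      field_simp
      ring
    rw [h3]
    have h4 : (κ * n * Λ) ^ 2 ≤ D ^ 2 := pow_le_pow_left₀ (by positivity) hD 2
    calc ε ^ 4 * (κ * n * Λ) ^ 2 ≤ ε ^ 4 * D ^ 2 := mul_le_mul_of_nonneg_left h4 (by positivity)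
      _ = (ε ^ 2 * D) ^ 2 := by ring
  have hQ : Pr (fun ω : V → Fin N => ε * n / 4 ≤
      |((Qo E π i0 idx ω).card : ℝ) - Ex (fun ω => ((Qo E π i0 idx ω).card : ℝ))|) ≤
      2 * Real.exp (-(ε ^ 2 / 32 * n)) := by
    have h1 := mcd (F := fun ω : V → Fin N => ((Qo E π i0 idx ω).card : ℝ))
      (c := fun a : V => if a ∈ vx E π i0 then 1 else 0) (l := ε * n / 4) (σ := n)
      (fun a ω ω' h => Qo_lip E π i0 idx hidx a ω ω' h) (by positivity) hn0' (by
        have h2 : ∑ a : V, (if a ∈ vx E π i0 then (1 : ℝ) else 0) ^ 2 =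
            ∑ a : V, if a ∈ vx E π i0 then (1 : ℝ) else 0 := by
          refine Finset.sum_congr rfl fun a _ => ?_
          split_ifs
          · norm_num
          · norm_num
        rw [h2, Finset.sum_ite_mem, Finset.univ_inter, Finset.sum_const, nsmul_eq_mul, hnn,
          mul_one])
    refine h1.trans ?_
    refine mul_le_mul_of_nonneg_left (Real.exp_le_exp.2 ?_) (by norm_num)
    rw [neg_div, neg_le_neg_iff, le_div_iff₀ (by positivity)]
    refine le_of_eq ?_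
    ring
  -- the number of the events
  have hcard : ∀ i, ((vx E π i).card : ℝ) ≤ 2 * n := by
    intro i
    have h1 := (nibD_card E π hReg i).1
    have h2 := (nibD_card E π hReg i0).2
    rw [← hnn] at h2
    have h3 : 9 / 10 * (D * (vx E π i).card) ≤ 11 / 10 * (D * n) := by
      have e1 : 9 / 10 * (D * (vx E π i).card) ≤ (1 - η) * (D * (vx E π i).card) :=
        mul_le_mul_of_nonneg_right (by linarith) (by positivity)
      have e2 : (1 + η) * (D * n) ≤ 11 / 10 * (D * n) :=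
        mul_le_mul_of_nonneg_right (by linarith) (by positivity)
      linarith
    have h4 : D * (vx E π i).card ≤ D * (2 * n) := by nlinarith [mul_pos hD0 hn0']
    exact le_of_mul_le_mul_left h4 hD0
  have hbad : Pr (fun ω : V → Fin N => (∃ p ∈ (univ : Finset I).sigma (fun i => vx E π i),
      ε ^ 2 * D ≤ |Xs E π i0 idx p.1 p.2 ω - Ex (Xs E π i0 idx p.1 p.2)|) ∨
      ε * n / 4 ≤ |((Qo E π i0 idx ω).card : ℝ) -
        Ex (fun ω => ((Qo E π i0 idx ω).card : ℝ))|) < 1 := by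
    refine lt_of_le_of_lt (Pr_or_le _ _) ?_
    have h1 := Pr_exists_le ((univ : Finset I).sigma (fun i => vx E π i))
      (fun (p : (_ : I) × V) (ω : V → Fin N) =>
        ε ^ 2 * D ≤ |Xs E π i0 idx p.1 p.2 ω - Ex (Xs E π i0 idx p.1 p.2)|)
    have h2 : ∑ p ∈ (univ : Finset I).sigma (fun i => vx E π i), Pr (fun ω : V → Fin N =>
        ε ^ 2 * D ≤ |Xs E π i0 idx p.1 p.2 ω - Ex (Xs E π i0 idx p.1 p.2)|) ≤
        r * (2 * n) * (2 * Real.exp (-(ε ^ 4 * κ ^ 2 / (8 * (r : ℝ) ^ 2) * n))) := by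
      refine (Finset.sum_le_card_nsmul _ _ _ fun p _ => hX p.1 p.2).trans ?_
      rw [nsmul_eq_mul]
      refine mul_le_mul_of_nonneg_right ?_ (by positivity)
      rw [Finset.card_sigma, Nat.cast_sum]
      refine (Finset.sum_le_card_nsmul _ _ (2 * n) fun i _ => hcard i).trans ?_
      rw [Finset.card_univ, hI, nsmul_eq_mul]
    linarith
  obtain ⟨ω, hω⟩ : ∃ ω : V → Fin N, ¬ ((∃ p ∈ (univ : Finset I).sigma (fun i => vx E π i),
      ε ^ 2 * D ≤ |Xs E π i0 idx p.1 p.2 ω - Ex (Xs E π i0 idx p.1 p.2)|) ∨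
      ε * n / 4 ≤ |((Qo E π i0 idx ω).card : ℝ) -
        Ex (fun ω => ((Qo E π i0 idx ω).card : ℝ))|) := by
    by_contra hcon
    push Not at hcon
    have h1 := Pr_mono (V := V) (Ω := Fin N) (A := fun _ => True) fun ω _ => hcon ω
    rw [Pr_true] at h1
    have h2 := lt_of_le_of_lt h1 hbad
    exact lt_irrefl _ h2
  rw [not_or] at hω
  obtain ⟨hω1, hω2⟩ := hω
  push Not at hω1 hω2
  have hrε : ((r : ℝ) - 1) * ε ≤ 1 / 100 := by nlinarith
  have hrε0 : 0 ≤ ((r : ℝ) - 1) * ε := mul_nonneg (by linarith) hε.le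
  refine nibD_good E π i0 idx hidx hReg (D' := D * (1 - ((r : ℝ) - 1) * ε)) ?_ ?_ ω ?_ ?_
  · exact mul_pos hD0 (by linarith)
  · have h1 : 20 * ((r : ℝ) + 1) ^ 2 * (η * ε + ε ^ 2) =
        1 / 5 * (ε * (100 * ((r : ℝ) + 1) ^ 2)) * (η + ε) := by ring
    have h2 : 1 / 5 * (ε * (100 * ((r : ℝ) + 1) ^ 2)) * (η + ε) ≤ 1 / 5 * 1 * (η + ε) := by
      refine mul_le_mul_of_nonneg_right ?_ (by positivity)
      linarith
    rw [h1]
    linarith
  · rw [Qo_mean] at hω2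
    have h1 := (nibD_card E π hReg i0).1
    rw [← hnn] at h1
    have h2 : 3 / 4 * (ε * n) ≤ (E.card : ℝ) / N := by
      have e1 : 3 / 4 * ε ≤ (1 - η) * (D / N) := by
        have e2 : ε - D / N ≤ ε * ε := by
          have e3 : 1 * (ε - D / N) ≤ D * (ε - D / N) :=
            mul_le_mul_of_nonneg_right (by linarith) (by linarith)
          have e4 : ε ^ 2 = ε * ε := by ring
          linarith
        nlinarith
      calc 3 / 4 * (ε * n) = 3 / 4 * ε * n := by ring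
        _ ≤ (1 - η) * (D / N) * n := mul_le_mul_of_nonneg_right e1 hn0'.le
        _ = (1 - η) * D * n / N := by ring
        _ ≤ (E.card : ℝ) / N := div_le_div_of_nonneg_right h1 hN0.le
    have h3 := (abs_lt.1 hω2).1
    linarith
  · intro i u hu
    have h1 := hω1 ⟨i, u⟩ (Finset.mem_sigma.2 ⟨Finset.mem_univ _, hu⟩)
    refine nibD_key hR hε hε1 hη hη1 hD2 hx0 hx1 hx2 (d := (dg E π i u : ℝ))
      (L := (r : ℝ) ^ 2 * Λ / N) (m := Ex (Xs E π i0 idx i u)) (hReg.1 i u hu) ?_ h1.le ?_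
    · -- codegrees
      rw [div_le_iff₀ hN0]
      have e1 : (r : ℝ) ^ 2 ≤ ε * (κ * n) := by
        rw [div_le_iff₀ (by positivity)] at n2
        linarith
      have e2 : ε ^ 2 * (D / ε) ≤ ε ^ 2 * N := mul_le_mul_of_nonneg_left hN1 (by positivity)
      have e3 : ε ^ 2 * (D / ε) = ε * D := by
        field_simp
      have e4 : (r : ℝ) ^ 2 * Λ ≤ ε * (κ * n) * Λ := mul_le_mul_of_nonneg_right e1 hΛ0.le
      have e5 : ε * (κ * n * Λ) ≤ ε * D := mul_le_mul_of_nonneg_left hD hε.le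
      linarith
    · -- the mean
      rw [Xs_mean]
      have e1 : (dg E π i u : ℝ) * (1 - ((r : ℝ) - 1) * (D / N)) =
          ∑ e ∈ E.filter (fun e => π e i = u), (1 - ((r : ℝ) - 1) * (D / N)) := by
        rw [Finset.sum_const, nsmul_eq_mul]
        rfl
      rw [e1, ← Finset.sum_sub_distrib]
      refine (Finset.abs_sum_le_sum_abs _ _).trans ?_
      have e2 : (dg E π i u : ℝ) * ((r : ℝ) * η * (D / N) + (r : ℝ) ^ 2 * Λ / N +
          4 * (r : ℝ) ^ 2 * (D / N) ^ 2) = ∑ e ∈ E.filter (fun e => π e i = u),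
          ((r : ℝ) * η * (D / N) + (r : ℝ) ^ 2 * Λ / N + 4 * (r : ℝ) ^ 2 * (D / N) ^ 2) := by
        rw [Finset.sum_const, nsmul_eq_mul]
        rfl
      rw [e2]
      refine Finset.sum_le_sum fun e he => ?_
      have e3 := surv_prob E π i0 idx hidx hD0.le hη (by linarith) hΛ0.le hReg i e
        (Finset.mem_filter.1 he).1
      rw [hI] at e3
      exact e3

end Pool.Agent.H60.HL
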