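import Mathlib

/-!
# HL: the dense nibble.  Definitions

A hypergraph with classes `i : I`: edges `e ∈ E`, the vertex of `e` in the class `i` is `π e i : V`;
the vertices of the class `i` are the elements of `vx E π i`.
-/

namespace Pool.Agent.H60.HL

open Finset Classical

variable {α I V : Type}

/-- degree of the vertex `(i, v)` -/
noncomputable def dg (E : Finset α) (π : α → I → V) (i : I) (v : V) : ℕ :=
  (E.filter fun e => π e i = v).card

/-- vertices of the class `i` -/
noncomputable def vx (E : Finset α) (π : α → I → V) (i : I) : Finset V := E.image fun e => π e i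

/-- `M` is a matching -/
def Mat (M : Finset α) (π : α → I → V) : Prop :=
  ∀ i, Set.InjOn (fun e => π e i) (M : Set α)

/-- degrees `D (1 ± η)`, codegrees at most `Λ` -/
def Reg (E : Finset α) (π : α → I → V) (D η Λ : ℝ) : Prop :=
  (∀ i, ∀ v ∈ vx E π i, |(dg E π i v : ℝ) - D| ≤ η * D) ∧
  ∀ i j, i ≠ j → ∀ v w, ((E.filter fun e => π e i = v ∧ π e j = w).card : ℝ) ≤ Λ

/-- the edges of `Q` which meet no other edge of `Q` -/
noncomputable def iso (Q : Finset α) (π : α → I → V) : Finset α :=
  Q.filter fun e => ∀ f ∈ Q, f ≠ e → ∀ i, π f i ≠ π e i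

/-- the edges of `E` which meet no edge of `Q` -/
noncomputable def rest (E Q : Finset α) (π : α → I → V) : Finset α :=
  E.filter fun e => ∀ f ∈ Q, ∀ i, π f i ≠ π e i

/-- The proposals: `e` is proposed if its vertex in the class `i0` chooses the number `idx e`. -/
noncomputable def Qo {N : ℕ} (E : Finset α) (π : α → I → V) (i0 : I) (idx : α → Fin N)
    (ω : V → Fin N) : Finset α :=
  E.filter fun e => ω (π e i0) = idx e

/-- No proposal which avoids the vertex `π e i` of `e` meets `e` in another vertex. -/
def Surv {N : ℕ} (E : Finset α) (π : α → I → V) (i0 : I) (idx : α → Fin N) (i : I) (e : α)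
    (ω : V → Fin N) : Prop :=
  ∀ f ∈ E, π f i ≠ π e i → (∃ j, j ≠ i ∧ π f j = π e j) → ω (π f i0) ≠ idx f

/-- The number of edges at `(i, u)` which survive. -/
noncomputable def Xs {N : ℕ} (E : Finset α) (π : α → I → V) (i0 : I) (idx : α → Fin N) (i : I)
    (u : V) (ω : V → Fin N) : ℝ :=
  ((E.filter fun e => π e i = u ∧ Surv E π i0 idx i e ω).card : ℝ)

end Pool.Agent.H60.HL
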