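import Pool.Agent.H60.HL.Defs

/-!
# HL-14 PmA: basic facts on perfect matchings by zero sum triples and on reductions

`PM_of_fn`: `M = univ.image (fun x => fun i => f i x)`.
`PM_union`: the union of the two finsets of triples; injectivity: if `t ∈ M`, `t' ∈ M'` and
`t i = t' i` then this element lies in `B i ∩ B' i`.
`PM_biUnion`: induction over `s` with `PM_union`.
`Red_trans`: `(J i ∪ (U i ∪ U' i)) \ J'' i` is the disjoint union of `(J i ∪ U i) \ J' i` and
`(J' i ∪ U' i) \ J'' i`, as `J' ⊆ J ∪ U`, `J'' ⊆ J' ∪ U'` and `U'` is disjoint from `J ∪ U`.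
-/

namespace Pool.Agent.H60.HL

open Finset Classical

variable {G : Type} [AddCommGroup G]

theorem PM_empty : PM (fun _ => (∅ : Finset G)) := by
  refine ⟨∅, ?_, ?_, ?_⟩
  · intro t ht
    simp at ht
  · intro i
    simp
  · intro i
    simp

theorem PM_of_fn {ι : Type} [Fintype ι] (f : Fin 3 → ι → G) (hf : ∀ i, Function.Injective (f i))
    (h0 : ∀ x, f 0 x + f 1 x + f 2 x = 0) : PM (fun i => univ.image (f i)) := by
  refine ⟨univ.image (fun x => fun i => f i x), ?_, ?_, ?_⟩
  · intro t ht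
    obtain ⟨x, _, rfl⟩ := Finset.mem_image.1 ht
    exact h0 x
  · intro i t ht t' ht' h
    obtain ⟨x, _, rfl⟩ := Finset.mem_image.1 (Finset.mem_coe.1 ht)
    obtain ⟨y, _, rfl⟩ := Finset.mem_image.1 (Finset.mem_coe.1 ht')
    have hxy : x = y := hf i h
    rw [hxy]
  · intro i
    ext z
    simp only [Finset.mem_image, Finset.mem_univ, true_and]
    constructor
    · rintro ⟨t, ⟨x, rfl⟩, rfl⟩
      exact ⟨x, rfl⟩
    · rintro ⟨x, rfl⟩
      exact ⟨_, ⟨x, rfl⟩, rfl⟩

theorem PM_of_finset (M : Finset (Fin 3 → G)) (h0 : ∀ t ∈ M, t 0 + t 1 + t 2 = 0)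
    (hi : ∀ i, Set.InjOn (fun t : Fin 3 → G => t i) (M : Set (Fin 3 → G))) :
    PM (fun i => M.image (fun t => t i)) :=
  ⟨M, h0, hi, fun _ => rfl⟩

theorem PM_union {B B' : Fin 3 → Finset G} (h : PM B) (h' : PM B')
    (hd : ∀ i, Disjoint (B i) (B' i)) : PM (fun i => B i ∪ B' i) := by
  obtain ⟨M, h0, hi, hB⟩ := h
  obtain ⟨M', h0', hi', hB'⟩ := h'
  have key : ∀ i, ∀ t ∈ M, ∀ t' ∈ M', t i ≠ t' i := by
    intro i t ht t' ht' hne
    have h1 : t i ∈ B i := by
      rw [← hB i]
      exact Finset.mem_image_of_mem _ ht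
    have h2 : t i ∈ B' i := by
      rw [hne, ← hB' i]
      exact Finset.mem_image_of_mem _ ht'
    exact Finset.disjoint_left.1 (hd i) h1 h2
  refine ⟨M ∪ M', ?_, ?_, ?_⟩
  · intro t ht
    rcases Finset.mem_union.1 ht with h | h
    · exact h0 t h
    · exact h0' t h
  · intro i t ht t' ht' h
    rcases Finset.mem_union.1 (Finset.mem_coe.1 ht) with h1 | h1
    · rcases Finset.mem_union.1 (Finset.mem_coe.1 ht') with h2 | h2
      · exact hi i (Finset.mem_coe.2 h1) (Finset.mem_coe.2 h2) h
      · exact absurd h (key i t h1 t' h2)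
    · rcases Finset.mem_union.1 (Finset.mem_coe.1 ht') with h2 | h2
      · exact absurd h.symm (key i t' h2 t h1)
      · exact hi' i (Finset.mem_coe.2 h1) (Finset.mem_coe.2 h2) h
  · intro i
    rw [Finset.image_union, hB i, hB' i]

theorem PM_biUnion {κ : Type} (s : Finset κ) (B : κ → Fin 3 → Finset G)
    (h : ∀ a ∈ s, PM (B a)) (hd : ∀ a ∈ s, ∀ b ∈ s, a ≠ b → ∀ i, Disjoint (B a i) (B b i)) :
    PM (fun i => s.biUnion fun a => B a i) := by
  induction s using Finset.induction_on with
  | empty =>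
    simp only [Finset.biUnion_empty]
    exact PM_empty
  | insert a s ha ih =>
    simp only [Finset.biUnion_insert]
    apply PM_union
    · exact h a (Finset.mem_insert_self a s)
    · exact ih (fun b hb => h b (Finset.mem_insert_of_mem hb))
        (fun b hb c hc hbc => hd b (Finset.mem_insert_of_mem hb) c (Finset.mem_insert_of_mem hc) hbc)
    · intro i
      rw [Finset.disjoint_biUnion_right]
      intro b hb
      apply hd a (Finset.mem_insert_self a s) b (Finset.mem_insert_of_mem hb)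
      rintro rfl
      exact ha hb

theorem PM_card {B : Fin 3 → Finset G} (h : PM B) (i j : Fin 3) : (B i).card = (B j).card := by
  obtain ⟨M, h0, hi, hB⟩ := h
  rw [← hB i, ← hB j, Finset.card_image_of_injOn (hi i), Finset.card_image_of_injOn (hi j)]

theorem Red_refl (J : Fin 3 → Finset G) : Red J J (fun _ => ∅) := by
  refine ⟨?_, ?_, ?_⟩
  · intro i
    simp
  · intro i
    simp
  · have h : (fun i => (J i ∪ (∅ : Finset G)) \ J i) = fun _ : Fin 3 => (∅ : Finset G) := by
      funext i
      simp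
    rw [h]
    exact PM_empty

theorem Red_trans {J J' J'' U U' : Fin 3 → Finset G} (h : Red J J' U) (h' : Red J' J'' U')
    (hd : ∀ i, Disjoint (U' i) (J i ∪ U i)) : Red J J'' (fun i => U i ∪ U' i) := by
  obtain ⟨h1, h2, h3⟩ := h
  obtain ⟨h1', h2', h3'⟩ := h'
  have hU : ∀ i x, x ∈ U' i → x ∉ J i ∧ x ∉ U i := by
    intro i x hx
    have h4 := Finset.disjoint_left.1 (hd i) hx
    rw [Finset.mem_union, not_or] at h4
    exact h4
  have hJ' : ∀ i x, x ∈ J' i → x ∈ J i ∨ x ∈ U i := by
    intro i x hx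
    exact Finset.mem_union.1 (h1 i hx)
  have hJ'' : ∀ i x, x ∈ J'' i → x ∈ J' i ∨ x ∈ U' i := by
    intro i x hx
    exact Finset.mem_union.1 (h1' i hx)
  refine ⟨?_, ?_, ?_⟩
  · intro i x hx
    simp only [Finset.mem_union]
    rcases hJ'' i x hx with h | h
    · rcases hJ' i x h with h | h
      · exact Or.inl h
      · exact Or.inr (Or.inl h)
    · exact Or.inr (Or.inr h)
  · intro i
    rw [Finset.disjoint_union_right]
    refine ⟨h2 i, ?_⟩
    rw [Finset.disjoint_left]
    intro x hx hx'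
    exact (hU i x hx').1 hx
  · have e : (fun i => (J i ∪ (U i ∪ U' i)) \ J'' i) =
        fun i => ((J i ∪ U i) \ J' i) ∪ ((J' i ∪ U' i) \ J'' i) := by
      funext i
      ext x
      simp only [Finset.mem_union, Finset.mem_sdiff]
      have a1 := hU i x
      have a2 := hJ' i x
      have a3 := hJ'' i x
      tauto
    rw [e]
    apply PM_union h3 h3'
    intro i
    rw [Finset.disjoint_left]
    intro x hx hx'
    simp only [Finset.mem_union, Finset.mem_sdiff] at hx hx'
    have a1 := hU i x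
    tauto

end Pool.Agent.H60.HL
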