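import Pool.Agent.H60.HL.Defs
import Pool.Agent.H60.HL.Mcd

/-!
# HL-07 RndEx: random colourings exist

Proof.  `Ω = Fin M`, coordinates `A = Bool × G` (a colouring is `ω : Bool × G → Fin M`,
`χ s g = ω (s, g)`).  It is enough to treat `ι = Fin j`, `j ≤ m` (choose an equivalence
`Fintype.equivFin`).  Fix `j`, an injective `v : Fin j → Bool × Bool × G` and `K`.  Let
`F ω = #{t : ∀ x, ω ((v x).1, pt ..) ∈ K x}` (as a real number).
(1) Mean: call `t` bad if two different `x, y` give the same coordinate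
`((v x).1, pt (v x).2.1 (v x).2.2 t)`.  Then the spaces are equal; if the signs are equal then the
shifts are equal, contradiction to injectivity; if the signs are different then
`t + t = k' - k` for the two shifts, at most `2` values of `t` (`Tor2`).  So at most `2 m^2` bad `t`.
For a `t` which is not bad the probability is exactly `∏ x, (K x).card / M` (`Pr_coord` with
`S` = the image of the coordinates, `B` chosen accordingly).  So
`|Ex F - card G * ∏| ≤ 2 m^2` (all probabilities and products lie in `[0, 1]`).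
(2) Differences: changing one coordinate changes the condition only for those `t` with
`pt e k t = g` for some `x`: at most `j ≤ m` values of `t`.  So `c a = m`, `∑ c^2 ≤ 2 card G m^2`.
(3) `mcd` with `l = η card G / 2` (and `σ = 2 card G m^2 + 1` or so): failure probability at most
`2 exp (- η^2 card G / (32 m^2))` if `m ≥ 1`.
(4) The number of triples `(j, v, K)` is at most `(m + 1) (4 card G)^m 2^(M m)`.  For large `card G`
the sum of the failure probabilities is `< 1` and `2 m^2 ≤ η card G / 2`.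
(`m = 0`: `ι` is empty, the count is `card G`, the product is `1`.)
-/

namespace Pool.Agent.H60.HL

open Finset Classical Pool.Agent.H23.RS

section RndExAux

variable {G : Type} [AddCommGroup G] [Fintype G]

private noncomputable def RndEx_cnt {ι : Type} [Fintype ι] {M : ℕ} (χ : Bool → G → Fin M)
    (v : ι → Bool × Bool × G) (K : ι → Finset (Fin M)) : ℝ :=
  ((univ.filter fun t : G => ∀ x, χ (v x).1 (pt (v x).2.1 (v x).2.2 t) ∈ K x).card : ℝ)

private theorem RndEx_cnt_sum {ι : Type} [Fintype ι] {M : ℕ} (χ : Bool → G → Fin M)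
    (v : ι → Bool × Bool × G) (K : ι → Finset (Fin M)) :
    RndEx_cnt χ v K =
      ∑ t : G, PrAux.I (fun χ' : Bool → (G → Fin M) =>
        ∀ x, χ' (v x).1 (pt (v x).2.1 (v x).2.2 t) ∈ K x) χ := by
  unfold RndEx_cnt PrAux.I
  rw [Finset.card_filter, Nat.cast_sum]
  refine Finset.sum_congr rfl fun t _ => ?_
  by_cases h : ∀ x, χ (v x).1 (pt (v x).2.1 (v x).2.2 t) ∈ K x
  · rw [if_pos h, if_pos h, Nat.cast_one]
  · rw [if_neg h, if_neg h, Nat.cast_zero]

omit [Fintype G] in
private theorem RndEx_pt_inj {e : Bool} {k t t' : G} (h : pt e k t = pt e k t') : t = t' := by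
  unfold pt at h
  cases e <;> simpa using h

private theorem RndEx_pair (hT : Tor2 G) {w w' : Bool × Bool × G} (hw : w ≠ w') :
    (univ.filter fun t : G => (w.1, pt w.2.1 w.2.2 t) = (w'.1, pt w'.2.1 w'.2.2 t)).card ≤ 2 := by
  obtain ⟨s, e, k⟩ := w
  obtain ⟨s', e', k'⟩ := w'
  simp only [Prod.mk.injEq]
  by_cases hs : s = s'
  · subst hs
    cases e <;> cases e'
    · have hk : k ≠ k' := fun h => hw (by rw [h])
      refine le_trans (le_of_eq ?_) (Nat.zero_le 2)
      rw [Finset.card_eq_zero, Finset.filter_eq_empty_iff]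
      rintro t - ⟨-, h⟩
      simp only [pt, Bool.false_eq_true, if_false] at h
      exact hk (by simpa using h)
    · refine le_trans (Finset.card_le_card ?_) (hT (k - k'))
      intro t ht
      simp only [mem_filter, mem_univ, true_and, pt, Bool.false_eq_true, if_false, if_true] at ht ⊢
      have := ht
      calc t + t = (k' + t) - k' + t := by abel
        _ = (k - t) - k' + t := by rw [← this]
        _ = k - k' := by abel
    · refine le_trans (Finset.card_le_card ?_) (hT (k' - k))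
      intro t ht
      simp only [mem_filter, mem_univ, true_and, pt, Bool.false_eq_true, if_false, if_true] at ht ⊢
      have := ht
      calc t + t = (k + t) - k + t := by abel
        _ = (k' - t) - k + t := by rw [this]
        _ = k' - k := by abel
    · have hk : k ≠ k' := fun h => hw (by rw [h])
      refine le_trans (le_of_eq ?_) (Nat.zero_le 2)
      rw [Finset.card_eq_zero, Finset.filter_eq_empty_iff]
      rintro t - ⟨-, h⟩
      simp only [pt, if_true] at h
      exact hk (by simpa using h)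
  · refine le_trans (le_of_eq ?_) (Nat.zero_le 2)
    rw [Finset.card_eq_zero, Finset.filter_eq_empty_iff]
    rintro t - ⟨h, -⟩
    exact hs h

/-- the bad parameters -/
private noncomputable def RndEx_bad {ι : Type} [Fintype ι] (v : ι → Bool × Bool × G) : Finset G :=
  univ.filter fun t : G => ∃ x y, x ≠ y ∧
    ((v x).1, pt (v x).2.1 (v x).2.2 t) = ((v y).1, pt (v y).2.1 (v y).2.2 t)

private theorem RndEx_bad_card (hT : Tor2 G) {ι : Type} [Fintype ι] {v : ι → Bool × Bool × G}
    (hv : Function.Injective v) {m : ℕ} (hm : Fintype.card ι ≤ m) :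
    (RndEx_bad v).card ≤ 2 * m ^ 2 := by
  have h1 : RndEx_bad v ⊆ ((univ : Finset (ι × ι)).filter fun p => p.1 ≠ p.2).biUnion fun p =>
      univ.filter fun t : G =>
        ((v p.1).1, pt (v p.1).2.1 (v p.1).2.2 t) = ((v p.2).1, pt (v p.2).2.1 (v p.2).2.2 t) := by
    intro t ht
    obtain ⟨x, y, hxy, h⟩ := (Finset.mem_filter.1 ht).2
    rw [Finset.mem_biUnion]
    exact ⟨(x, y), Finset.mem_filter.2 ⟨mem_univ _, hxy⟩, Finset.mem_filter.2 ⟨mem_univ _, h⟩⟩
  refine le_trans (Finset.card_le_card h1) (le_trans Finset.card_biUnion_le ?_)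
  refine le_trans (Finset.sum_le_card_nsmul _ _ 2 fun p hp => ?_) ?_
  · exact RndEx_pair hT (hv.ne (Finset.mem_filter.1 hp).2)
  · rw [smul_eq_mul, mul_comm]
    refine Nat.mul_le_mul_left 2 (le_trans (Finset.card_le_univ _) ?_)
    rw [Fintype.card_prod, sq]
    exact Nat.mul_le_mul hm hm

private theorem RndEx_Pr_good {ι : Type} [Fintype ι] {M : ℕ} [Nonempty (Fin M)]
    (v : ι → Bool × Bool × G) (K : ι → Finset (Fin M)) {t : G} (ht : t ∉ RndEx_bad v) :
    Pr (fun ω : Bool × G → Fin M => ∀ x, ω ((v x).1, pt (v x).2.1 (v x).2.2 t) ∈ K x) =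
      ∏ x, (((K x).card : ℝ) / M) := by
  set co : ι → Bool × G := fun x => ((v x).1, pt (v x).2.1 (v x).2.2 t) with hco
  have hinj : Function.Injective co := by
    intro x y hxy
    by_contra hne
    exact ht (Finset.mem_filter.2 ⟨mem_univ _, x, y, hne, hxy⟩)
  have h1 := Pr_coord (V := Bool × G) (Ω := Fin M) (univ.image co)
    (fun w a => ∀ x, co x = w → a ∈ K x)
  have h2 : (fun ω : Bool × G → Fin M => ∀ x, ω (co x) ∈ K x) =
      fun ω => ∀ w ∈ univ.image co, ∀ x, co x = w → ω w ∈ K x := by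
    funext ω
    apply propext
    constructor
    · intro h w _ x hx
      rw [← hx]; exact h x
    · intro h x
      exact h (co x) (Finset.mem_image_of_mem _ (mem_univ _)) x rfl
  rw [h2, h1, Finset.prod_image fun x _ y _ h => hinj h]
  refine Finset.prod_congr rfl fun x _ => ?_
  have h3 : ∀ D : DecidablePred fun a => ∀ y, co y = co x → a ∈ K y,
      (@Finset.filter _ (fun a => ∀ y, co y = co x → a ∈ K y) D univ) = K x := by
    intro D
    ext a
    rw [Finset.mem_filter]
    constructor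
    · intro h; exact h.2 x rfl
    · intro h
      refine ⟨mem_univ _, fun y hy => ?_⟩
      rw [hinj hy]; exact h
  rw [h3, Fintype.card_fin]

private theorem RndEx_prod_mem {ι : Type} [Fintype ι] {M : ℕ} (hM : 1 ≤ M)
    (K : ι → Finset (Fin M)) :
    0 ≤ ∏ x, (((K x).card : ℝ) / M) ∧ ∏ x, (((K x).card : ℝ) / M) ≤ 1 := by
  have hM' : (0 : ℝ) < M := by exact_mod_cast hM
  refine ⟨Finset.prod_nonneg fun x _ => by positivity, Finset.prod_le_one (fun x _ => by positivity)
    fun x _ => ?_⟩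
  rw [div_le_one hM']
  have := Finset.card_le_univ (K x)
  rw [Fintype.card_fin] at this
  exact_mod_cast this

private theorem RndEx_Pr_le_one {V Ω : Type} [Fintype V] [Fintype Ω] [Nonempty Ω]
    (A : (V → Ω) → Prop) : Pr A ≤ 1 := by
  rw [← Pr_true (V := V) (Ω := Ω)]
  exact Pr_mono fun _ _ => trivial

private theorem RndEx_mean (hT : Tor2 G) {ι : Type} [Fintype ι] {M : ℕ} (hM : 1 ≤ M)
    [Nonempty (Fin M)] {v : ι → Bool × Bool × G} (hv : Function.Injective v)
    (K : ι → Finset (Fin M)) {m : ℕ} (hm : Fintype.card ι ≤ m) :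
    |Ex (fun ω : Bool × G → Fin M => RndEx_cnt (fun s g => ω (s, g)) v K) -
      Fintype.card G * ∏ x, (((K x).card : ℝ) / M)| ≤ 2 * (m : ℝ) ^ 2 := by
  set P : ℝ := ∏ x, (((K x).card : ℝ) / M) with hP
  have hP01 := RndEx_prod_mem hM K
  rw [← hP] at hP01
  have h1 : Ex (fun ω : Bool × G → Fin M => RndEx_cnt (fun s g => ω (s, g)) v K) =
      ∑ t : G, Pr (fun ω : Bool × G → Fin M =>
        ∀ x, ω ((v x).1, pt (v x).2.1 (v x).2.2 t) ∈ K x) := by
    unfold Ex
    simp only [RndEx_cnt_sum]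
    rw [Finset.sum_comm, Finset.sum_div]
    refine Finset.sum_congr rfl fun t _ => ?_
    rw [PrAux.Pr_eq]
    rfl
  have h2 : (Fintype.card G : ℝ) * P = ∑ _t : G, P := by
    rw [Finset.sum_const, Finset.card_univ, nsmul_eq_mul]
  rw [h1, h2, ← Finset.sum_sub_distrib]
  refine le_trans (Finset.abs_sum_le_sum_abs _ _) ?_
  have h3 : ∀ t : G, |Pr (fun ω : Bool × G → Fin M =>
        ∀ x, ω ((v x).1, pt (v x).2.1 (v x).2.2 t) ∈ K x) - P| ≤
      if t ∈ RndEx_bad v then 1 else 0 := by
    intro t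
    split_ifs with ht
    · have h4 := Pr_nonneg (fun ω : Bool × G → Fin M =>
        ∀ x, ω ((v x).1, pt (v x).2.1 (v x).2.2 t) ∈ K x)
      have h5 := RndEx_Pr_le_one (fun ω : Bool × G → Fin M =>
        ∀ x, ω ((v x).1, pt (v x).2.1 (v x).2.2 t) ∈ K x)
      rw [abs_le]
      constructor <;> linarith
    · rw [RndEx_Pr_good v K ht, ← hP, sub_self, abs_zero]
  refine le_trans (Finset.sum_le_sum fun t _ => h3 t) ?_
  rw [Finset.sum_boole]
  have h6 : (univ.filter fun t : G => t ∈ RndEx_bad v) = RndEx_bad v := by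
    ext t; simp
  rw [h6]
  exact_mod_cast RndEx_bad_card hT hv hm

private theorem RndEx_diff {ι : Type} [Fintype ι] {M : ℕ}
    (v : ι → Bool × Bool × G) (K : ι → Finset (Fin M)) {m : ℕ} (hm : Fintype.card ι ≤ m)
    (a : Bool × G) (ω ω' : Bool × G → Fin M) (h : ∀ b, b ≠ a → ω b = ω' b) :
    RndEx_cnt (fun s g => ω (s, g)) v K - RndEx_cnt (fun s g => ω' (s, g)) v K ≤ m := by
  set U : Finset G := univ.filter fun t : G => ∃ x, ((v x).1, pt (v x).2.1 (v x).2.2 t) = a with hU
  have hUc : U.card ≤ m := by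
    have h1 : U ⊆ (univ : Finset ι).biUnion fun x =>
        univ.filter fun t : G => ((v x).1, pt (v x).2.1 (v x).2.2 t) = a := by
      intro t ht
      obtain ⟨x, hx⟩ := (Finset.mem_filter.1 ht).2
      exact Finset.mem_biUnion.2 ⟨x, mem_univ _, Finset.mem_filter.2 ⟨mem_univ _, hx⟩⟩
    refine le_trans (Finset.card_le_card h1) (le_trans Finset.card_biUnion_le ?_)
    refine le_trans (Finset.sum_le_card_nsmul _ _ 1 fun x _ => ?_) ?_
    · rw [Finset.card_le_one]
      intro t ht t' ht'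
      have e1 := (Finset.mem_filter.1 ht).2
      have e2 := (Finset.mem_filter.1 ht').2
      have e3 := e1.trans e2.symm
      rw [Prod.mk.injEq] at e3
      exact RndEx_pt_inj e3.2
    · simpa using hm
  have h2 : (univ.filter fun t : G => ∀ x, ω ((v x).1, pt (v x).2.1 (v x).2.2 t) ∈ K x) ⊆
      (univ.filter fun t : G => ∀ x, ω' ((v x).1, pt (v x).2.1 (v x).2.2 t) ∈ K x) ∪ U := by
    intro t ht
    rw [Finset.mem_union]
    by_cases htU : t ∈ U
    · exact Or.inr htU
    · left
      refine Finset.mem_filter.2 ⟨mem_univ _, fun x => ?_⟩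
      rw [← h]
      · exact (Finset.mem_filter.1 ht).2 x
      · intro hx
        exact htU (Finset.mem_filter.2 ⟨mem_univ _, x, hx⟩)
  have h3 := le_trans (Finset.card_le_card h2) (Finset.card_union_le _ _)
  have h4 : (univ.filter fun t : G => ∀ x, ω ((v x).1, pt (v x).2.1 (v x).2.2 t) ∈ K x).card ≤
      (univ.filter fun t : G => ∀ x, ω' ((v x).1, pt (v x).2.1 (v x).2.2 t) ∈ K x).card + m :=
    le_trans h3 (Nat.add_le_add_left hUc _)
  have h5 : ((univ.filter fun t : G =>
      ∀ x, ω ((v x).1, pt (v x).2.1 (v x).2.2 t) ∈ K x).card : ℝ) ≤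
      ((univ.filter fun t : G =>
        ∀ x, ω' ((v x).1, pt (v x).2.1 (v x).2.2 t) ∈ K x).card : ℝ) + m := by
    exact_mod_cast h4
  unfold RndEx_cnt
  linarith

private theorem RndEx_equiv {ι ι' : Type} [Fintype ι] [Fintype ι'] (e : ι ≃ ι') {M : ℕ}
    (χ : Bool → G → Fin M) (v : ι → Bool × Bool × G) (K : ι → Finset (Fin M)) :
    RndEx_cnt χ v K = RndEx_cnt χ (fun y => v (e.symm y)) (fun y => K (e.symm y)) ∧
    ∏ x, (((K x).card : ℝ) / M) = ∏ y, (((K (e.symm y)).card : ℝ) / M) := by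
  constructor
  · unfold RndEx_cnt
    have : (univ.filter fun t : G => ∀ x, χ (v x).1 (pt (v x).2.1 (v x).2.2 t) ∈ K x) =
        (univ.filter fun t : G => ∀ y, χ (v (e.symm y)).1
          (pt (v (e.symm y)).2.1 (v (e.symm y)).2.2 t) ∈ K (e.symm y)) := by
      ext t
      simp only [mem_filter, mem_univ, true_and]
      constructor
      · intro h y; exact h _
      · intro h x
        have := h (e x)
        simpa using this
    rw [this]
  · exact (Equiv.prod_comp e.symm fun x => (((K x).card : ℝ) / M)).symm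

end RndExAux

/-- the numerical part -/
private theorem RndEx_num (M m : ℕ) (η : ℝ) (hη : 0 < η) :
    ∃ q0 : ℕ, ∀ q : ℕ, q0 ≤ q → 1 ≤ q ∧ 2 * (m : ℝ) ^ 2 ≤ η * q / 2 ∧
      ((m : ℝ) + 1) * (4 * q * 2 ^ M) ^ m *
        (2 * Real.exp (-((η * q / 2) ^ 2) / (2 * (2 * q * m ^ 2 + 1)))) < 1 := by
  set α : ℝ := η ^ 2 / (8 * (2 * m ^ 2 + 1)) with hα
  have hα0 : 0 < α := by positivity
  have hlim : Filter.Tendsto (fun x : ℝ => x ^ m * Real.exp (-(α * x))) Filter.atTop (nhds 0) := by
    have h1 := (Real.tendsto_pow_mul_exp_neg_atTop_nhds_zero m).comp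
      (Filter.tendsto_id.const_mul_atTop hα0)
    have h2 : Filter.Tendsto (fun x : ℝ => (1 / α ^ m) * ((α * x) ^ m * Real.exp (-(α * x))))
        Filter.atTop (nhds ((1 / α ^ m) * 0)) := h1.const_mul _
    rw [mul_zero] at h2
    refine h2.congr fun x => ?_
    rw [mul_pow]
    field_simp
  have hC : 0 < ((m : ℝ) + 1) * (4 * 2 ^ M) ^ m * 2 := by positivity
  have hev : ∀ᶠ x : ℝ in Filter.atTop, x ^ m * Real.exp (-(α * x)) <
      1 / (((m : ℝ) + 1) * (4 * 2 ^ M) ^ m * 2) :=
    hlim.eventually_lt_const (by positivity)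
  have hev2 : ∀ᶠ q : ℕ in Filter.atTop, (q : ℝ) ^ m * Real.exp (-(α * q)) <
      1 / (((m : ℝ) + 1) * (4 * 2 ^ M) ^ m * 2) := tendsto_natCast_atTop_atTop.eventually hev
  have hev3 : ∀ᶠ q : ℕ in Filter.atTop, 4 * (m : ℝ) ^ 2 / η ≤ q :=
    tendsto_natCast_atTop_atTop.eventually (Filter.eventually_ge_atTop _)
  obtain ⟨q0, hq0⟩ := Filter.eventually_atTop.1 (hev2.and (hev3.and (Filter.eventually_ge_atTop 1)))
  refine ⟨q0, fun q hq => ?_⟩
  obtain ⟨h1, h2, h3⟩ := hq0 q hq
  have hq1 : (1 : ℝ) ≤ q := by exact_mod_cast h3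
  refine ⟨h3, ?_, ?_⟩
  · rw [div_le_iff₀ hη] at h2
    linarith
  · have h4 : Real.exp (-((η * q / 2) ^ 2) / (2 * (2 * q * m ^ 2 + 1))) ≤
        Real.exp (-(α * q)) := by
      refine Real.exp_le_exp.2 ?_
      rw [hα, div_le_iff₀ (by positivity)]
      have e1 : η ^ 2 / (8 * (2 * (m : ℝ) ^ 2 + 1)) * q * (2 * (2 * q * m ^ 2 + 1)) ≤
          (η * q / 2) ^ 2 := by
        have e2 : (2 * (q : ℝ) * m ^ 2 + 1) ≤ q * (2 * m ^ 2 + 1) := by nlinarith
        calc η ^ 2 / (8 * (2 * (m : ℝ) ^ 2 + 1)) * q * (2 * (2 * q * m ^ 2 + 1))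
            ≤ η ^ 2 / (8 * (2 * (m : ℝ) ^ 2 + 1)) * q * (2 * (q * (2 * m ^ 2 + 1))) := by
              refine mul_le_mul_of_nonneg_left ?_ (by positivity)
              linarith
          _ = (η * q / 2) ^ 2 := by
              field_simp
              ring
      linarith
    calc ((m : ℝ) + 1) * (4 * q * 2 ^ M) ^ m *
        (2 * Real.exp (-((η * q / 2) ^ 2) / (2 * (2 * q * m ^ 2 + 1))))
        ≤ ((m : ℝ) + 1) * (4 * q * 2 ^ M) ^ m * (2 * Real.exp (-(α * q))) := by
          refine mul_le_mul_of_nonneg_left ?_ (by positivity)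
          linarith
      _ = (((m : ℝ) + 1) * (4 * 2 ^ M) ^ m * 2) * ((q : ℝ) ^ m * Real.exp (-(α * q))) := by
          have : (4 * (q : ℝ) * 2 ^ M) ^ m = (4 * 2 ^ M) ^ m * (q : ℝ) ^ m := by
            rw [← mul_pow]; congr 1; ring
          rw [this]; ring
      _ < (((m : ℝ) + 1) * (4 * 2 ^ M) ^ m * 2) * (1 / (((m : ℝ) + 1) * (4 * 2 ^ M) ^ m * 2)) :=
          mul_lt_mul_of_pos_left h1 hC
      _ = 1 := by
          rw [mul_one_div, div_self hC.ne']

theorem exists_rnd (M m : ℕ) (hM : 1 ≤ M) (η : ℝ) (hη : 0 < η) :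
    ∃ q0 : ℕ, ∀ (G : Type) [AddCommGroup G] [Fintype G], Tor2 G → q0 ≤ Fintype.card G →
      ∃ χ : Bool → G → Fin M, Rnd χ m η := by
  obtain ⟨q0, hq0⟩ := RndEx_num M m η hη
  refine ⟨q0, fun G _ _ hT hq => ?_⟩
  obtain ⟨hq1, hq2, hq3⟩ := hq0 _ hq
  have : Nonempty (Fin M) := ⟨⟨0, hM⟩⟩
  set q : ℕ := Fintype.card G with hqdef
  have hqR : (1 : ℝ) ≤ q := by exact_mod_cast hq1
  -- one triple
  set l : ℝ := η * q / 2 with hl
  set σ : ℝ := 2 * q * m ^ 2 + 1 with hσ
  have hl0 : 0 ≤ l := by positivity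
  have hσ0 : 0 < σ := by positivity
  set p : ℝ := 2 * Real.exp (-(l ^ 2) / (2 * σ)) with hp
  have hone : ∀ (j : ℕ), j ≤ m → ∀ (v : Fin j → Bool × Bool × G) (K : Fin j → Finset (Fin M)),
      Pr (fun ω : Bool × G → Fin M => l ≤ |RndEx_cnt (fun s g => ω (s, g)) v K -
        Ex (fun ω : Bool × G → Fin M => RndEx_cnt (fun s g => ω (s, g)) v K)|) ≤ p := by
    intro j hj v K
    refine mcd (fun ω : Bool × G → Fin M => RndEx_cnt (fun s g => ω (s, g)) v K)
      (fun _ => (m : ℝ)) ?_ hl0 hσ0 ?_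
    · intro a x y hxy
      have hj' : Fintype.card (Fin j) ≤ m := by rw [Fintype.card_fin]; exact hj
      have h1 := RndEx_diff v K hj' a x y hxy
      have h2 := RndEx_diff v K hj' a y x fun b hb => (hxy b hb).symm
      rw [abs_le]
      constructor <;> linarith
    · rw [Finset.sum_const, Finset.card_univ, Fintype.card_prod, Fintype.card_bool, nsmul_eq_mul,
        ← hqdef]
      push_cast
      rw [hσ]
      linarith
  -- union bound
  set J : Finset (Σ j : ℕ, (Fin j → Bool × Bool × G) × (Fin j → Finset (Fin M))) :=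
    (Finset.range (m + 1)).sigma fun j => univ with hJ
  have hJc : (J.card : ℝ) ≤ ((m : ℝ) + 1) * (4 * q * 2 ^ M) ^ m := by
    have h1 : J.card = ∑ j ∈ Finset.range (m + 1), (4 * q * 2 ^ M) ^ j := by
      rw [hJ, Finset.card_sigma]
      refine Finset.sum_congr rfl fun j _ => ?_
      rw [Finset.card_univ, Fintype.card_prod, Fintype.card_fun, Fintype.card_fun,
        Fintype.card_prod, Fintype.card_prod, Fintype.card_bool, Fintype.card_fin,
        Fintype.card_finset, Fintype.card_fin, ← hqdef, ← mul_pow]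
      congr 1
      ring
    have h2 : J.card ≤ (m + 1) * (4 * q * 2 ^ M) ^ m := by
      rw [h1]
      refine le_trans (Finset.sum_le_card_nsmul _ _ ((4 * q * 2 ^ M) ^ m) fun j hj => ?_) ?_
      · refine Nat.pow_le_pow_right ?_ (Nat.lt_succ_iff.1 (Finset.mem_range.1 hj))
        positivity
      · rw [Finset.card_range, smul_eq_mul]
    exact_mod_cast h2
  have hun := Pr_exists_le J (fun (T : Σ j : ℕ, (Fin j → Bool × Bool × G) ×
      (Fin j → Finset (Fin M))) (ω : Bool × G → Fin M) =>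
      l ≤ |RndEx_cnt (fun s g => ω (s, g)) T.2.1 T.2.2 -
        Ex (fun ω : Bool × G → Fin M => RndEx_cnt (fun s g => ω (s, g)) T.2.1 T.2.2)|)
  have hun2 : Pr (fun ω : Bool × G → Fin M => ∃ T ∈ J,
      l ≤ |RndEx_cnt (fun s g => ω (s, g)) T.2.1 T.2.2 -
        Ex (fun ω : Bool × G → Fin M => RndEx_cnt (fun s g => ω (s, g)) T.2.1 T.2.2)|) < 1 := by
    refine lt_of_le_of_lt hun ?_
    refine lt_of_le_of_lt (Finset.sum_le_card_nsmul _ _ p fun T hT' => ?_) ?_
    · refine hone T.1 ?_ T.2.1 T.2.2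
      have := (Finset.mem_sigma.1 hT').1
      exact Nat.lt_succ_iff.1 (Finset.mem_range.1 this)
    · rw [nsmul_eq_mul]
      have hp0 : 0 ≤ p := by positivity
      refine lt_of_le_of_lt (mul_le_mul_of_nonneg_right hJc hp0) ?_
      rw [hp, hl, hσ]
      exact hq3
  have hex : ∃ ω : Bool × G → Fin M, ¬ ∃ T ∈ J,
      l ≤ |RndEx_cnt (fun s g => ω (s, g)) T.2.1 T.2.2 -
        Ex (fun ω : Bool × G → Fin M => RndEx_cnt (fun s g => ω (s, g)) T.2.1 T.2.2)| := by
    by_contra hne
    push Not at hne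
    have : Pr (fun ω : Bool × G → Fin M => ∃ T ∈ J,
      l ≤ |RndEx_cnt (fun s g => ω (s, g)) T.2.1 T.2.2 -
        Ex (fun ω : Bool × G → Fin M => RndEx_cnt (fun s g => ω (s, g)) T.2.1 T.2.2)|) = 1 := by
      rw [← Pr_true (V := Bool × G) (Ω := Fin M)]
      refine le_antisymm (Pr_mono fun _ _ => trivial) (Pr_mono fun ω _ => hne ω)
    linarith
  obtain ⟨ω, hω⟩ := hex
  refine ⟨fun s g => ω (s, g), ?_⟩
  intro ι _ hι v hv K
  change |RndEx_cnt (fun s g => ω (s, g)) v K - (q : ℝ) * ∏ x, (((K x).card : ℝ) / M)| ≤ η * q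
  have e := Fintype.equivFin ι
  obtain ⟨h1, h2⟩ := RndEx_equiv e (fun s g => ω (s, g)) v K
  rw [h1, h2]
  have hv' : Function.Injective fun y => v (e.symm y) := hv.comp e.symm.injective
  have h3 := RndEx_mean hT hM hv' (fun y => K (e.symm y)) (m := m)
    (by rw [Fintype.card_fin]; exact hι)
  have h4 : |RndEx_cnt (fun s g => ω (s, g)) (fun y => v (e.symm y)) (fun y => K (e.symm y)) -
      Ex (fun ω : Bool × G → Fin M => RndEx_cnt (fun s g => ω (s, g)) (fun y => v (e.symm y))
        (fun y => K (e.symm y)))| < l := by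
    by_contra hge
    push Not at hge
    refine hω ⟨⟨Fintype.card ι, (fun y => v (e.symm y), fun y => K (e.symm y))⟩, ?_, hge⟩
    rw [hJ, Finset.mem_sigma]
    exact ⟨Finset.mem_range.2 (Nat.lt_succ_iff.2 hι), mem_univ _⟩
  rw [← hqdef] at h3
  have h5 : η * q = l + η * q / 2 := by rw [hl]; ring
  have h6 := abs_add_le (RndEx_cnt (fun s g => ω (s, g)) (fun y => v (e.symm y))
      (fun y => K (e.symm y)) - Ex (fun ω : Bool × G → Fin M =>
        RndEx_cnt (fun s g => ω (s, g)) (fun y => v (e.symm y)) (fun y => K (e.symm y))))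
      (Ex (fun ω : Bool × G → Fin M =>
        RndEx_cnt (fun s g => ω (s, g)) (fun y => v (e.symm y)) (fun y => K (e.symm y))) -
        (q : ℝ) * ∏ y, (((K (e.symm y)).card : ℝ) / M))
  rw [sub_add_sub_cancel] at h6
  rw [h5]
  linarith

end Pool.Agent.H60.HL
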