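import Pool.Agent.H60.HL.Defs

/-!
# HL-08 RndUse: consequences of randomness for the three types

`cls χ K i` is the ideal set of the type `i`: labels with a colour in `K 0`, labels with a colour in
`K 1`, negatives of sums with a colour in `K 2`.

`cls_card`: `Rnd` with one place `(true, true, 0)` resp. `(false, true, 0)` (`x ↦ -x` is a bijection).
`qr_of_rnd`: (1) `cls_card` and `|(K i).card / M - ρ| ≤ η`.  (2) for `i = 2` the number of `t : G`
with `t ∈ A 0`, `-x - t ∈ A 1`: places `(true, true, 0)` and `(true, false, -x)`; for `i = 0`: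
`t ∈ A 1`, `-x - t ∈ A 2` iff `χ false (x + t) ∈ K 2`: places `(true, true, 0)`, `(false, true, x)`;
`i = 1` the same with `A 0`.  The functions `t : Fin 3 → G` with `t i = x` and sum zero are in
bijection with their value at one other coordinate.  The product of the two densities is within
`3 η` of `ρ ^ 2` (`ρ ≤ 1`, `η ≤ 1`).  (3) `k ≠ 0` as `0 ∈ Θ`: places `(s, true, 0)`, `(s, true, k)` (for
`i = 2` use `x = -t`, the condition is `χ false t' ∈ K 2`, `χ false (t' - k) ∈ K 2` with `t' = -t`:
shifts `0`, `-k`).
`rich_of_rnd`: a place `(i, e, k)` of `Rich` corresponds to the place `(true, e, k)` for `i = 0, 1`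
and to `(false, !e, -k)` for `i = 2` (`- pt e k t = pt (!e) (-k) t`); this map is injective on the
places of an admissible pattern since equal images mean same space, same sign, same shift, and
`0 ∈ Θ` (if `i ∈ {0, 1}` and `j ∈ {0, 1}` are different types with the same sign and shift, this is also
excluded by admissibility).  So at least `(α ^ m - η) card G` points `t` have all `pt .. ∈ cls χ K`,
and for each `x : ι` at most `ζ card G` of them have `pt .. ∉ B` (`t ↦ pt e k t` is injective).
-/

namespace Pool.Agent.H60.HL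

open Finset Classical

variable {G : Type} [AddCommGroup G] [Fintype G]

/-- The ideal sets of the three types. -/
noncomputable def cls {M : ℕ} (χ : Bool → G → Fin M) (K : Fin 3 → Finset (Fin M)) :
    Fin 3 → Finset G :=
  fun i => if i = 2 then univ.filter (fun x => χ false (-x) ∈ K 2)
    else univ.filter (fun x => χ true x ∈ K i)

private lemma rndUse_mem {M : ℕ} (χ : Bool → G → Fin M) (K : Fin 3 → Finset (Fin M)) (i : Fin 3)
    (x : G) : x ∈ cls χ K i ↔ if i = 2 then χ false (-x) ∈ K 2 else χ true x ∈ K i := by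
  unfold cls
  split_ifs <;> simp

omit [Fintype G] in
private lemma rndUse_M {M : ℕ} (χ : Bool → G → Fin M) : 0 < M :=
  Fin.pos (χ true 0)

omit [Fintype G] in
private lemma rndUse_dens {M : ℕ} (χ : Bool → G → Fin M) (K : Finset (Fin M)) :
    0 ≤ (K.card : ℝ) / M ∧ (K.card : ℝ) / M ≤ 1 := by
  have hM : (0 : ℝ) < M := by exact_mod_cast rndUse_M χ
  refine ⟨by positivity, ?_⟩
  rw [div_le_one hM]
  have := Finset.card_le_univ K
  rw [Fintype.card_fin] at this
  exact_mod_cast this

private lemma rndUse_one {M : ℕ} {χ : Bool → G → Fin M} {m : ℕ} {η : ℝ} (hm : 1 ≤ m)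
    (h : Rnd χ m η) (v : Bool × Bool × G) (K : Finset (Fin M)) :
    |((univ.filter fun t : G => χ v.1 (pt v.2.1 v.2.2 t) ∈ K).card : ℝ) -
      Fintype.card G * ((K.card : ℝ) / M)| ≤ η * Fintype.card G := by
  have h1 := h Unit (by simpa using hm) (fun _ => v) (fun _ _ _ => rfl) (fun _ => K)
  simpa using h1

private lemma rndUse_two {M : ℕ} {χ : Bool → G → Fin M} {m : ℕ} {η : ℝ} (hm : 2 ≤ m)
    (h : Rnd χ m η) (v w : Bool × Bool × G) (hvw : v ≠ w) (K L : Finset (Fin M)) :
    |((univ.filter fun t : G => χ v.1 (pt v.2.1 v.2.2 t) ∈ K ∧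
        χ w.1 (pt w.2.1 w.2.2 t) ∈ L).card : ℝ) -
      Fintype.card G * (((K.card : ℝ) / M) * ((L.card : ℝ) / M))| ≤ η * Fintype.card G := by
  have hinj : Function.Injective (fun b : Bool => if b then v else w) := by
    intro a b hab
    cases a
    · cases b
      · rfl
      · exact absurd hab.symm hvw
    · cases b
      · exact absurd hab hvw
      · rfl
  have h1 := h Bool (by simpa using hm) (fun b => if b then v else w) hinj
    (fun b => if b then K else L)
  have h2 : ∀ inst : DecidablePred fun t : G => ∀ x : Bool,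
      χ (if x then v else w).1 (pt (if x then v else w).2.1 (if x then v else w).2.2 t) ∈
        (if x then K else L),
      (@Finset.filter G (fun t : G => ∀ x : Bool,
      χ (if x then v else w).1 (pt (if x then v else w).2.1 (if x then v else w).2.2 t) ∈
        (if x then K else L)) inst univ) =
      univ.filter fun t : G => χ v.1 (pt v.2.1 v.2.2 t) ∈ K ∧
        χ w.1 (pt w.2.1 w.2.2 t) ∈ L := by
    intro inst
    ext t
    simp only [mem_filter, mem_univ, true_and]
    constructor
    · intro h3
      exact ⟨by simpa using h3 true, by simpa using h3 false⟩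
    · rintro ⟨h3, h4⟩ x
      cases x
      · simpa using h4
      · simpa using h3
  rw [h2, Fintype.prod_bool] at h1
  exact h1

private lemma rndUse_prod {a b ρ η : ℝ} (hb0 : 0 ≤ b) (hb : b ≤ 1) (hρ : 0 ≤ ρ) (hρ1 : ρ ≤ 1)
    (h1 : |a - ρ| ≤ η) (h2 : |b - ρ| ≤ η) : |a * b - ρ ^ 2| ≤ 2 * η := by
  have hη : 0 ≤ η := (abs_nonneg _).trans h1
  have e : a * b - ρ ^ 2 = (a - ρ) * b + ρ * (b - ρ) := by ring
  rw [e]
  calc |(a - ρ) * b + ρ * (b - ρ)| ≤ |(a - ρ) * b| + |ρ * (b - ρ)| := abs_add_le _ _
    _ = |a - ρ| * b + ρ * |b - ρ| := by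
        rw [abs_mul, abs_mul, abs_of_nonneg hb0, abs_of_nonneg hρ]
    _ ≤ η * 1 + 1 * η := by
        refine add_le_add (mul_le_mul h1 hb hb0 hη) (mul_le_mul hρ1 h2 (abs_nonneg _) zero_le_one)
    _ = 2 * η := by ring

private lemma rndUse_fin {c n d D η κ : ℝ} (hn : 0 ≤ n) (hκ : κ + η ≤ 5 * η)
    (h1 : |c - n * d| ≤ η * n) (h2 : |d - D| ≤ κ) : |c - D * n| ≤ 5 * η * n := by
  have e : c - D * n = (c - n * d) + n * (d - D) := by ring
  rw [e]
  calc |(c - n * d) + n * (d - D)| ≤ |c - n * d| + |n * (d - D)| := abs_add_le _ _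
    _ = |c - n * d| + n * |d - D| := by rw [abs_mul, abs_of_nonneg hn]
    _ ≤ η * n + n * κ := add_le_add h1 (mul_le_mul_of_nonneg_left h2 hn)
    _ = (κ + η) * n := by ring
    _ ≤ 5 * η * n := mul_le_mul_of_nonneg_right hκ hn

theorem cls_card {M : ℕ} {χ : Bool → G → Fin M} {m : ℕ} {η : ℝ} (hm : 1 ≤ m) (h : Rnd χ m η)
    (K : Fin 3 → Finset (Fin M)) (i : Fin 3) :
    |((cls χ K i).card : ℝ) - (K i).card / M * Fintype.card G| ≤ η * Fintype.card G := by
  rw [mul_comm ((K i).card / M : ℝ)]
  by_cases hi : i = 2
  · subst hi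
    have h1 := rndUse_one hm h (false, false, 0) (K 2)
    have h2 : (univ.filter fun t : G => χ false (pt false 0 t) ∈ K 2) = cls χ K 2 := by
      ext t
      rw [rndUse_mem]
      simp [pt]
    simp only at h1
    rw [h2] at h1
    exact h1
  · have h1 := rndUse_one hm h (true, true, 0) (K i)
    have h2 : (univ.filter fun t : G => χ true (pt true 0 t) ∈ K i) = cls χ K i := by
      ext t
      rw [rndUse_mem]
      simp [pt, hi]
    simp only at h1
    rw [h2] at h1
    exact h1

private lemma rndUse_sum {i : Fin 3} {P : Fin 3 → G → Prop} {x : G} {Q : G → Prop}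
    [DecidablePred Q] [DecidablePred fun t : Fin 3 → G => t i = x ∧ (∀ j, j ≠ i → P j (t j)) ∧
      t 0 + t 1 + t 2 = 0]
    (mk : G → Fin 3 → G) (pr : (Fin 3 → G) → G)
    (h1 : ∀ t, Q t → (mk t i = x ∧ (∀ j, j ≠ i → P j (mk t j)) ∧
      mk t 0 + mk t 1 + mk t 2 = 0))
    (h2 : ∀ t : Fin 3 → G, (t i = x ∧ (∀ j, j ≠ i → P j (t j)) ∧ t 0 + t 1 + t 2 = 0) →
      Q (pr t) ∧ mk (pr t) = t) (h3 : ∀ t, pr (mk t) = t) :
    (univ.filter fun t : Fin 3 → G => t i = x ∧ (∀ j, j ≠ i → P j (t j)) ∧
      t 0 + t 1 + t 2 = 0).card = (univ.filter Q).card := by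
  symm
  refine Finset.card_bij' (fun t _ => mk t) (fun t _ => pr t) ?_ ?_ ?_ ?_
  · intro t ht
    rw [mem_filter] at ht ⊢
    exact ⟨mem_univ _, h1 t ht.2⟩
  · intro t ht
    rw [mem_filter] at ht ⊢
    exact ⟨mem_univ _, (h2 t ht.2).1⟩
  · intro t _
    exact h3 t
  · intro t ht
    rw [mem_filter] at ht
    exact (h2 t ht.2).2

theorem qr_of_rnd {M : ℕ} {χ : Bool → G → Fin M} {m : ℕ} {η ρ : ℝ} (hm : 2 ≤ m) (hη : 0 ≤ η)
    (hη1 : η ≤ 1) (hρ : 0 ≤ ρ) (hρ1 : ρ ≤ 1) (h : Rnd χ m η) (K : Fin 3 → Finset (Fin M))
    (hK : ∀ i, |((K i).card : ℝ) / M - ρ| ≤ η) {Θ : Finset G} (hΘ : (0 : G) ∈ Θ) :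
    QR (cls χ K) Θ ρ (5 * η) := by
  have hn : (0 : ℝ) ≤ Fintype.card G := Nat.cast_nonneg _
  have hd := fun i => rndUse_dens χ (K i)
  have hpr : ∀ i j : Fin 3, |((K i).card : ℝ) / M * (((K j).card : ℝ) / M) - ρ ^ 2| ≤ 2 * η :=
    fun i j => rndUse_prod (hd j).1 (hd j).2 hρ hρ1 (hK i) (hK j)
  refine ⟨fun i => ?_, fun i x => ?_, fun i k hk => ?_⟩
  · have h1 := cls_card (le_trans one_le_two hm) h K i
    rw [mul_comm ((K i).card / M : ℝ)] at h1
    exact rndUse_fin hn (κ := η) (by linarith) h1 (hK i)
  · -- the second condition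
    have h012 : i = 0 ∨ i = 1 ∨ i = 2 := by
      fin_cases i <;> simp
    rcases h012 with rfl | rfl | rfl
    · have h1 := rndUse_two hm h (true, true, 0) (false, true, x) (by simp) (K 1) (K 2)
      have h2 := rndUse_sum (i := (0 : Fin 3)) (P := fun j y => y ∈ cls χ K j) (x := x)
        (Q := fun t : G => χ true (pt true 0 t) ∈ K 1 ∧ χ false (pt true x t) ∈ K 2)
        (fun t => ![x, t, -x - t]) (fun t => t 1)
        (by
          rintro t ⟨h3, h4⟩
          refine ⟨by simp, ?_, by simp⟩
          intro j hj
          fin_cases j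
          · exact absurd rfl hj
          · change t ∈ cls χ K 1
            rw [rndUse_mem]
            simpa [pt] using h3
          · change -x - t ∈ cls χ K 2
            rw [rndUse_mem]
            have e : -(-x - t) = x + t := by abel
            simpa [pt, e] using h4)
        (by
          rintro t ⟨h3, h4, h5⟩
          have h6 : t 2 = -x - t 1 := by
            rw [h3] at h5
            have := eq_neg_of_add_eq_zero_right h5
            rw [this]; abel
          refine ⟨⟨?_, ?_⟩, ?_⟩
          · have := h4 1 (by decide)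
            rw [rndUse_mem] at this
            simpa [pt] using this
          · have := h4 2 (by decide)
            rw [rndUse_mem, h6] at this
            have e : -(-x - t 1) = x + t 1 := by abel
            simpa [pt, e] using this
          · funext j
            fin_cases j
            · exact h3.symm
            · rfl
            · exact h6.symm)
        (by intro t; rfl)
      rw [h2]
      exact rndUse_fin hn (κ := 2 * η) (by linarith) h1 (hpr 1 2)
    · have h1 := rndUse_two hm h (true, true, 0) (false, true, x) (by simp) (K 0) (K 2)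
      have h2 := rndUse_sum (i := (1 : Fin 3)) (P := fun j y => y ∈ cls χ K j) (x := x)
        (Q := fun t : G => χ true (pt true 0 t) ∈ K 0 ∧ χ false (pt true x t) ∈ K 2)
        (fun t => ![t, x, -x - t]) (fun t => t 0)
        (by
          rintro t ⟨h3, h4⟩
          refine ⟨by simp, ?_, ?_⟩
          · intro j hj
            fin_cases j
            · change t ∈ cls χ K 0
              rw [rndUse_mem]
              simpa [pt] using h3
            · exact absurd rfl hj
            · change -x - t ∈ cls χ K 2
              rw [rndUse_mem]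
              have e : -(-x - t) = x + t := by abel
              simpa [pt, e] using h4
          · change t + x + (-x - t) = 0
            abel)
        (by
          rintro t ⟨h3, h4, h5⟩
          have h6 : t 2 = -x - t 0 := by
            rw [h3] at h5
            have := eq_neg_of_add_eq_zero_right h5
            rw [this]; abel
          refine ⟨⟨?_, ?_⟩, ?_⟩
          · have := h4 0 (by decide)
            rw [rndUse_mem] at this
            simpa [pt] using this
          · have := h4 2 (by decide)
            rw [rndUse_mem, h6] at this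
            have e : -(-x - t 0) = x + t 0 := by abel
            simpa [pt, e] using this
          · funext j
            fin_cases j
            · rfl
            · exact h3.symm
            · exact h6.symm)
        (by intro t; rfl)
      rw [h2]
      exact rndUse_fin hn (κ := 2 * η) (by linarith) h1 (hpr 0 2)
    · have h1 := rndUse_two hm h (true, true, 0) (true, false, -x) (by simp) (K 0) (K 1)
      have h2 := rndUse_sum (i := (2 : Fin 3)) (P := fun j y => y ∈ cls χ K j) (x := x)
        (Q := fun t : G => χ true (pt true 0 t) ∈ K 0 ∧ χ true (pt false (-x) t) ∈ K 1)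
        (fun t => ![t, -x - t, x]) (fun t => t 0)
        (by
          rintro t ⟨h3, h4⟩
          refine ⟨by simp, ?_, ?_⟩
          · intro j hj
            fin_cases j
            · change t ∈ cls χ K 0
              rw [rndUse_mem]
              simpa [pt] using h3
            · change -x - t ∈ cls χ K 1
              rw [rndUse_mem]
              simpa [pt] using h4
            · exact absurd rfl hj
          · change t + (-x - t) + x = 0
            abel)
        (by
          rintro t ⟨h3, h4, h5⟩
          have h6 : t 1 = -x - t 0 := by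
            rw [h3] at h5
            have h7 : t 1 + (t 0 + x) = 0 := by rw [← h5]; abel
            have := eq_neg_of_add_eq_zero_left h7
            rw [this]; abel
          refine ⟨⟨?_, ?_⟩, ?_⟩
          · have := h4 0 (by decide)
            rw [rndUse_mem] at this
            simpa [pt] using this
          · have := h4 1 (by decide)
            rw [rndUse_mem, h6] at this
            simpa [pt] using this
          · funext j
            fin_cases j
            · rfl
            · exact h6.symm
            · exact h3.symm)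
        (by intro t; rfl)
      rw [h2]
      exact rndUse_fin hn (κ := 2 * η) (by linarith) h1 (hpr 0 1)
  · have hk0 : k ≠ 0 := by
      rintro rfl
      exact hk hΘ
    by_cases hi : i = 2
    · subst hi
      have h1 := rndUse_two hm h (false, false, 0) (false, false, -k)
        (by
          intro h2
          have h3 : (0 : G) = -k := congrArg (fun z => z.2.2) h2
          exact hk0 (neg_eq_zero.mp h3.symm)) (K 2) (K 2)
      have h2 : (univ.filter fun t : G => χ false (pt false 0 t) ∈ K 2 ∧
          χ false (pt false (-k) t) ∈ K 2) = (cls χ K 2).filter fun t => k + t ∈ cls χ K 2 := by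
        ext t
        rw [mem_filter, mem_filter, rndUse_mem, rndUse_mem]
        have e : -(k + t) = -k - t := by abel
        simp [pt, e]
      simp only at h1
      rw [h2] at h1
      exact rndUse_fin hn (κ := 2 * η) (by linarith) h1 (hpr 2 2)
    · have h1 := rndUse_two hm h (true, true, 0) (true, true, k)
        (by
          intro h2
          have h3 : (0 : G) = k := congrArg (fun z => z.2.2) h2
          exact hk0 h3.symm) (K i) (K i)
      have h2 : (univ.filter fun t : G => χ true (pt true 0 t) ∈ K i ∧
          χ true (pt true k t) ∈ K i) = (cls χ K i).filter fun t => k + t ∈ cls χ K i := by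
        ext t
        rw [mem_filter, mem_filter, rndUse_mem, rndUse_mem]
        simp [pt, hi]
      simp only at h1
      rw [h2] at h1
      exact rndUse_fin hn (κ := 2 * η) (by linarith) h1 (hpr i i)

theorem rich_of_rnd {M : ℕ} {χ : Bool → G → Fin M} {m : ℕ} {η α ζ : ℝ} (hα : 0 ≤ α) (hα1 : α ≤ 1)
    (hζ : 0 ≤ ζ) (h : Rnd χ m η) (K : Fin 3 → Finset (Fin M))
    (hK : ∀ i, α ≤ ((K i).card : ℝ) / M) {Θ : Finset G} (hΘ : (0 : G) ∈ Θ)
    (B : Fin 3 → Finset G)
    (hB : ∀ i, ((cls χ K i \ B i).card : ℝ) ≤ ζ * Fintype.card G) :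
    Rich B Θ m (α ^ m - η - m * ζ) := by
  intro ι _ hι v hv
  have hn : (0 : ℝ) ≤ Fintype.card G := Nat.cast_nonneg _
  let v' : ι → Bool × Bool × G := fun x =>
    if (v x).1 = 2 then (false, !(v x).2.1, -(v x).2.2) else (true, (v x).2.1, (v x).2.2)
  have hinj : Function.Injective v' := by
    intro x y hxy
    by_contra hne
    have key : ((v x).1 = 2 ↔ (v y).1 = 2) ∧ (v x).2.1 = (v y).2.1 ∧
        (v x).2.2 = (v y).2.2 := by
      simp only [v'] at hxy
      by_cases hx : (v x).1 = 2 <;> by_cases hy : (v y).1 = 2 <;> simp_all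
    apply hv x y hne key.1 key.2.1
    rw [key.2.2, sub_self]
    exact hΘ
  have h1 := h ι hι v' hinj (fun x => K (v x).1)
  have h2 : (univ.filter fun t : G => ∀ x, χ (v' x).1 (pt (v' x).2.1 (v' x).2.2 t) ∈
      K (v x).1) = univ.filter fun t : G => ∀ x, pt (v x).2.1 (v x).2.2 t ∈
        cls χ K (v x).1 := by
    ext t
    simp only [mem_filter, mem_univ, true_and]
    refine forall_congr' fun x => ?_
    rw [rndUse_mem]
    by_cases hx : (v x).1 = 2
    · have e : -(pt (v x).2.1 (v x).2.2 t) = pt (!(v x).2.1) (-(v x).2.2) t := by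
        cases h3 : (v x).2.1
        · simp only [pt, Bool.not_false, if_true, Bool.false_eq_true, if_false]; abel
        · simp only [pt, Bool.not_true, if_true, Bool.false_eq_true, if_false]; abel
      simp only [v', hx, if_true, e]
    · simp only [v', hx, if_false]
  rw [h2] at h1
  have h3 : α ^ m ≤ ∏ x : ι, (((K (v x).1).card : ℝ) / M) := by
    calc α ^ m ≤ α ^ Fintype.card ι := pow_le_pow_of_le_one hα hα1 hι
      _ = ∏ _x : ι, α := by simp
      _ ≤ _ := Finset.prod_le_prod (fun _ _ => hα) fun x _ => hK _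
  have h4 : (α ^ m - η) * Fintype.card G ≤ ((univ.filter fun t : G => ∀ x,
      pt (v x).2.1 (v x).2.2 t ∈ cls χ K (v x).1).card : ℝ) := by
    have h5 := (abs_le.mp h1).1
    have h6 := mul_le_mul_of_nonneg_left h3 hn
    linarith
  have h5 : ∀ x : ι, ((univ.filter fun t : G => pt (v x).2.1 (v x).2.2 t ∈
      cls χ K (v x).1 \ B (v x).1).card : ℝ) ≤ ζ * Fintype.card G := by
    intro x
    refine le_trans ?_ (hB (v x).1)
    norm_cast
    refine Finset.card_le_card_of_injOn (fun t => pt (v x).2.1 (v x).2.2 t) ?_ ?_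
    · intro t ht
      exact (mem_filter.mp ht).2
    · intro t _ t' _ htt
      simp only [pt] at htt
      split_ifs at htt
      · exact add_left_cancel htt
      · exact sub_right_injective htt
  have h6 : (univ.filter fun t : G => ∀ x, pt (v x).2.1 (v x).2.2 t ∈ cls χ K (v x).1) ⊆
      (univ.filter fun t : G => ∀ x, pt (v x).2.1 (v x).2.2 t ∈ B (v x).1) ∪
        univ.biUnion fun x : ι => univ.filter fun t : G => pt (v x).2.1 (v x).2.2 t ∈
          cls χ K (v x).1 \ B (v x).1 := by
    intro t ht
    rw [mem_filter] at ht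
    by_cases h7 : ∀ x, pt (v x).2.1 (v x).2.2 t ∈ B (v x).1
    · exact mem_union_left _ (mem_filter.mpr ⟨mem_univ _, h7⟩)
    · push Not at h7
      obtain ⟨x, hx⟩ := h7
      refine mem_union_right _ (mem_biUnion.mpr ⟨x, mem_univ _, mem_filter.mpr
        ⟨mem_univ _, mem_sdiff.mpr ⟨ht.2 x, hx⟩⟩⟩)
  have h7 : ((univ.filter fun t : G => ∀ x, pt (v x).2.1 (v x).2.2 t ∈
      cls χ K (v x).1).card : ℝ) ≤ ((univ.filter fun t : G => ∀ x,
        pt (v x).2.1 (v x).2.2 t ∈ B (v x).1).card : ℝ) + m * (ζ * Fintype.card G) := by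
    have h8 := (Finset.card_le_card h6).trans (Finset.card_union_le _ _)
    have h9 : ((univ.biUnion fun x : ι => univ.filter fun t : G =>
        pt (v x).2.1 (v x).2.2 t ∈ cls χ K (v x).1 \ B (v x).1).card : ℝ) ≤
        m * (ζ * Fintype.card G) := by
      calc ((univ.biUnion fun x : ι => univ.filter fun t : G =>
        pt (v x).2.1 (v x).2.2 t ∈ cls χ K (v x).1 \ B (v x).1).card : ℝ) ≤
          ((∑ x : ι, (univ.filter fun t : G => pt (v x).2.1 (v x).2.2 t ∈
            cls χ K (v x).1 \ B (v x).1).card : ℕ) : ℝ) := by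
            exact_mod_cast Finset.card_biUnion_le
        _ = ∑ x : ι, ((univ.filter fun t : G => pt (v x).2.1 (v x).2.2 t ∈
            cls χ K (v x).1 \ B (v x).1).card : ℝ) := by push_cast; rfl
        _ ≤ ∑ _x : ι, ζ * Fintype.card G := Finset.sum_le_sum fun x _ => h5 x
        _ = Fintype.card ι * (ζ * Fintype.card G) := by simp
        _ ≤ m * (ζ * Fintype.card G) :=
            mul_le_mul_of_nonneg_right (by exact_mod_cast hι) (mul_nonneg hζ hn)
    have h10 : ((univ.filter fun t : G => ∀ x, pt (v x).2.1 (v x).2.2 t ∈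
      cls χ K (v x).1).card : ℝ) ≤ ((univ.filter fun t : G => ∀ x,
        pt (v x).2.1 (v x).2.2 t ∈ B (v x).1).card : ℝ) + ((univ.biUnion fun x : ι =>
        univ.filter fun t : G => pt (v x).2.1 (v x).2.2 t ∈
          cls χ K (v x).1 \ B (v x).1).card : ℝ) := by exact_mod_cast h8
    linarith
  have h8 : (α ^ m - η - m * ζ) * (Fintype.card G : ℝ) =
      (α ^ m - η) * Fintype.card G - m * (ζ * Fintype.card G) := by ring
  rw [h8]
  linarith

end Pool.Agent.H60.HL
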