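import Pool.Agent.H60.HL.Defs

/-!
# HL-09 RtA: the bilinear form of a quasirandom set

Let `q = card G`, `f = 1_{A i} - ρ`, `g = 1_{B i} - 1_{A i}`, `{i, j, k} = {0, 1, 2}`.
`∑ t ∈ Tr B, φ (t j) ψ (t k) = ∑ y z, φ y ψ z 1_{B i} (-y - z)` (the support of `φ` is in `B j`, that of
`ψ` in `B k`, and `t` is determined by `t j`, `t k`)
`= ∑ y z, φ y ψ z f (-y - z) + ∑ y z, φ y ψ z g (-y - z)` as `∑ φ = 0` (`∑ ψ = 0`) kills the constant `ρ`.
First sum: by Cauchy-Schwarz its square is at most `‖φ‖² ∑ y, (∑ z, f (-y - z) ψ z)²`, and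
`∑ y, (∑ z, f (-y - z) ψ z)² = ∑ z z', ψ z ψ z' R (z - z')` with `R k = ∑ t, f t f (k + t)`
(`= R (-k)`), `|ψ z ψ z'| ≤ (ψ z² + ψ z'²) / 2`, so it is at most `‖ψ‖² ∑ k, |R k|`.
For `k ∉ Θ`: `R k = #{t ∈ A i : k + t ∈ A i} - 2 ρ #A i + ρ² q`, so `|R k| ≤ η q + 2 ρ η q ≤ 3 η q`.
For `k ∈ Θ`: `|R k| ≤ q` (`|f| ≤ 1`).  So the sum over `k` is at most `3 q + 3 η q²`.
Second sum: for every `w`, `|∑ y, φ y ψ (-y - w)| ≤ ‖φ‖ ‖ψ‖`, so it is at most
`‖φ‖ ‖ψ‖ ∑ |g| ≤ η q ‖φ‖ ‖ψ‖` (`∑ |g| = #(A i \ B i) + #(B i \ A i)`).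
-/

namespace Pool.Agent.H60.HL

open Finset Classical

variable {G : Type} [AddCommGroup G] [Fintype G]

namespace RtA

lemma third (j k : Fin 3) (h : j ≠ k) :
    ∃ i, i ≠ j ∧ i ≠ k ∧ (∀ l, l = i ∨ l = j ∨ l = k) := by
  revert j k; decide

omit [Fintype G] in
lemma perm3 {i j k : Fin 3} (h1 : i ≠ j) (h2 : i ≠ k) (h3 : j ≠ k) (t : Fin 3 → G) :
    t 0 + t 1 + t 2 = t i + t j + t k := by
  fin_cases i <;> fin_cases j <;> fin_cases k <;> simp at h1 h2 h3 <;> simp <;> abel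

lemma sumTr {B : Fin 3 → Finset G} {i j k : Fin 3} (hij : i ≠ j) (hik : i ≠ k) (hjk : j ≠ k)
    (hl : ∀ l, l = i ∨ l = j ∨ l = k) (φ ψ : G → ℝ) (hφ : ∀ x ∉ B j, φ x = 0)
    (hψ : ∀ x ∉ B k, ψ x = 0) :
    ∑ t ∈ Tr B, φ (t j) * ψ (t k) =
      ∑ y, ∑ z, φ y * ψ z * (if -y - z ∈ B i then (1 : ℝ) else 0) := by
  have h1 : ∑ y, ∑ z, φ y * ψ z * (if -y - z ∈ B i then (1 : ℝ) else 0) =
      ∑ p : G × G, φ p.1 * ψ p.2 * (if -p.1 - p.2 ∈ B i then (1 : ℝ) else 0) := by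
    rw [Fintype.sum_prod_type]
  have h2 : ∑ p : G × G, φ p.1 * ψ p.2 * (if -p.1 - p.2 ∈ B i then (1 : ℝ) else 0) =
      ∑ p ∈ (univ : Finset (G × G)).filter
        (fun p => p.1 ∈ B j ∧ p.2 ∈ B k ∧ -p.1 - p.2 ∈ B i), φ p.1 * ψ p.2 := by
    rw [Finset.sum_filter]
    refine Finset.sum_congr rfl fun p _ => ?_
    by_cases a : p.1 ∈ B j
    · by_cases b : p.2 ∈ B k
      · by_cases c : -p.1 - p.2 ∈ B i
        · simp [a, b, c]
        · simp [a, b, c]
      · simp [a, b, hψ _ b]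
    · simp [a, hφ _ a]
  rw [h1, h2]
  refine Finset.sum_nbij' (fun t => (t j, t k))
    (fun p l => if l = j then p.1 else if l = k then p.2 else -p.1 - p.2) ?_ ?_ ?_ ?_ ?_
  · intro t ht
    rw [Tr, mem_filter] at ht
    obtain ⟨-, h3, h4⟩ := ht
    rw [perm3 hij hik hjk] at h4
    rw [mem_filter]
    refine ⟨mem_univ _, h3 j, h3 k, ?_⟩
    have : -(t j) - t k = t i := by
      have : t i = -(t j + t k) := by
        rw [add_assoc] at h4
        exact eq_neg_of_add_eq_zero_left h4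
      rw [this]; abel
    simp only [this]
    exact h3 i
  · intro p hp
    rw [mem_filter] at hp
    obtain ⟨-, h3, h4, h5⟩ := hp
    rw [Tr, mem_filter]
    refine ⟨mem_univ _, ?_, ?_⟩
    · intro l
      rcases hl l with h | h | h
      · subst h; simp [hij, hik, h5]
      · subst h; simp [h3]
      · subst h; simp [hjk.symm, h4]
    · rw [perm3 hij hik hjk (fun l => if l = j then p.1 else if l = k then p.2 else -p.1 - p.2)]
      simp only [hij, hik, hjk.symm, if_true, if_false]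
      abel
  · intro t ht
    rw [Tr, mem_filter] at ht
    obtain ⟨-, h3, h4⟩ := ht
    rw [perm3 hij hik hjk] at h4
    have h5 : -(t j) - t k = t i := by
      have : t i = -(t j + t k) := by
        rw [add_assoc] at h4
        exact eq_neg_of_add_eq_zero_left h4
      rw [this]; abel
    funext l
    rcases hl l with h | h | h
    · subst h; simp [hij, hik, h5]
    · subst h; simp
    · subst h; simp [hjk.symm]
  · intro p hp
    simp [hjk.symm]
  · intro t ht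
    rfl

/-- the first sum -/
lemma first (f φ ψ : G → ℝ) :
    (∑ y, ∑ z, φ y * ψ z * f (-y - z)) ^ 2 ≤
      (∑ x, φ x ^ 2) * ((∑ x, ψ x ^ 2) * ∑ k, |∑ t, f t * f (k + t)|) := by
  have h1 : (∑ y, ∑ z, φ y * ψ z * f (-y - z)) = ∑ y, φ y * ∑ z, ψ z * f (-y - z) := by
    refine Finset.sum_congr rfl fun y _ => ?_
    rw [Finset.mul_sum]
    exact Finset.sum_congr rfl fun z _ => by ring
  rw [h1]
  refine (Finset.sum_mul_sq_le_sq_mul_sq _ _ _).trans ?_
  refine mul_le_mul_of_nonneg_left ?_ (Finset.sum_nonneg fun x _ => sq_nonneg _)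
  have h2 : ∑ y, (∑ z, ψ z * f (-y - z)) ^ 2 =
      ∑ z, ∑ z', ψ z * ψ z' * ∑ t, f t * f ((z - z') + t) := by
    have h3 : ∀ y, (∑ z, ψ z * f (-y - z)) ^ 2 =
        ∑ z, ∑ z', ψ z * ψ z' * (f (-y - z) * f (-y - z')) := by
      intro y
      rw [sq, Finset.sum_mul_sum]
      exact Finset.sum_congr rfl fun z _ => Finset.sum_congr rfl fun z' _ => by ring
    rw [Finset.sum_congr rfl fun y _ => h3 y, Finset.sum_comm]
    refine Finset.sum_congr rfl fun z _ => ?_
    rw [Finset.sum_comm]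
    refine Finset.sum_congr rfl fun z' _ => ?_
    rw [← Finset.mul_sum]
    congr 1
    refine Fintype.sum_equiv ((Equiv.neg G).trans (Equiv.subRight z)) _ _ fun y => ?_
    simp only [Equiv.trans_apply, Equiv.neg_apply, Equiv.subRight_apply]
    congr 2
    abel
  rw [h2]
  have h4 : ∀ z z', ψ z * ψ z' * ∑ t, f t * f ((z - z') + t) ≤
      (ψ z ^ 2 / 2) * |∑ t, f t * f ((z - z') + t)| +
        (ψ z' ^ 2 / 2) * |∑ t, f t * f ((z - z') + t)| := by
    intro z z'
    set R := ∑ t, f t * f ((z - z') + t)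
    have h5 : ψ z * ψ z' * R ≤ |ψ z * ψ z'| * |R| := by
      rw [← abs_mul]; exact le_abs_self _
    have h6 : |ψ z * ψ z'| ≤ ψ z ^ 2 / 2 + ψ z' ^ 2 / 2 := by
      rw [abs_le]
      constructor
      · nlinarith [sq_nonneg (ψ z + ψ z')]
      · nlinarith [sq_nonneg (ψ z - ψ z')]
    calc ψ z * ψ z' * R ≤ |ψ z * ψ z'| * |R| := h5
      _ ≤ (ψ z ^ 2 / 2 + ψ z' ^ 2 / 2) * |R| := mul_le_mul_of_nonneg_right h6 (abs_nonneg _)
      _ = _ := by ring
  calc ∑ z, ∑ z', ψ z * ψ z' * ∑ t, f t * f ((z - z') + t)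
      ≤ ∑ z, ∑ z', ((ψ z ^ 2 / 2) * |∑ t, f t * f ((z - z') + t)| +
        (ψ z' ^ 2 / 2) * |∑ t, f t * f ((z - z') + t)|) :=
        Finset.sum_le_sum fun z _ => Finset.sum_le_sum fun z' _ => h4 z z'
    _ = ∑ z, ∑ z', (ψ z ^ 2 / 2) * |∑ t, f t * f ((z - z') + t)| +
        ∑ z', ∑ z, (ψ z' ^ 2 / 2) * |∑ t, f t * f ((z - z') + t)| := by
        rw [Finset.sum_comm (f := fun z' z => (ψ z' ^ 2 / 2) * |∑ t, f t * f ((z - z') + t)|),
          ← Finset.sum_add_distrib]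
        exact Finset.sum_congr rfl fun z _ => Finset.sum_add_distrib
    _ = ∑ z, (ψ z ^ 2 / 2) * (∑ k, |∑ t, f t * f (k + t)|) +
        ∑ z', (ψ z' ^ 2 / 2) * (∑ k, |∑ t, f t * f (k + t)|) := by
        congr 1
        · refine Finset.sum_congr rfl fun z _ => ?_
          rw [← Finset.mul_sum]
          congr 1
          exact Fintype.sum_equiv (Equiv.subLeft z) _ _ fun z' => by
            simp only [Equiv.subLeft_apply]
        · refine Finset.sum_congr rfl fun z' _ => ?_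
          rw [← Finset.mul_sum]
          congr 1
          exact Fintype.sum_equiv (Equiv.subRight z') _ _ fun z => by
            simp only [Equiv.subRight_apply]
    _ = (∑ x, ψ x ^ 2) * ∑ k, |∑ t, f t * f (k + t)| := by
        rw [← Finset.sum_mul, ← Finset.sum_div]
        ring

/-- the second sum -/
lemma second (g φ ψ : G → ℝ) :
    |∑ y, ∑ z, φ y * ψ z * g (-y - z)| ≤
      Real.sqrt (∑ x, φ x ^ 2) * Real.sqrt (∑ x, ψ x ^ 2) * ∑ w, |g w| := by
  have h1 : ∑ y, ∑ z, φ y * ψ z * g (-y - z) = ∑ w, g w * ∑ y, φ y * ψ (-y - w) := by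
    have h2 : ∀ y, ∑ z, φ y * ψ z * g (-y - z) = ∑ w, φ y * ψ (-y - w) * g w := by
      intro y
      refine Fintype.sum_equiv (Equiv.subLeft (-y)) _ _ fun z => ?_
      simp only [Equiv.subLeft_apply]
      congr 3
      abel
    rw [Finset.sum_congr rfl fun y _ => h2 y, Finset.sum_comm]
    refine Finset.sum_congr rfl fun w _ => ?_
    rw [Finset.mul_sum]
    exact Finset.sum_congr rfl fun y _ => by ring
  rw [h1]
  refine (Finset.abs_sum_le_sum_abs _ _).trans ?_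
  rw [Finset.mul_sum]
  refine Finset.sum_le_sum fun w _ => ?_
  rw [abs_mul, mul_comm]
  refine mul_le_mul_of_nonneg_right ?_ (abs_nonneg _)
  have h3 : ∑ y, ψ (-y - w) ^ 2 = ∑ x, ψ x ^ 2 :=
    Fintype.sum_equiv ((Equiv.neg G).trans (Equiv.subRight w)) _ _ fun y => by
      simp only [Equiv.trans_apply, Equiv.neg_apply, Equiv.subRight_apply]
  have h4 := Finset.sum_mul_sq_le_sq_mul_sq (univ : Finset G) φ (fun y => ψ (-y - w))
  rw [h3] at h4
  rw [← Real.sqrt_mul (Finset.sum_nonneg fun x _ => sq_nonneg _)]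
  exact Real.abs_le_sqrt h4

end RtA

open RtA

theorem bilin {A B : Fin 3 → Finset G} {Θ : Finset G} {ρ η : ℝ} (hρ : 0 ≤ ρ) (hρ1 : ρ ≤ 1)
    (hη : 0 ≤ η) (hΘ : ThOK Θ) (hA : QR A Θ ρ η) (hB : Near A B η) (j k : Fin 3) (hjk : j ≠ k)
    (φ ψ : G → ℝ) (hφ : ∀ x ∉ B j, φ x = 0) (hψ : ∀ x ∉ B k, ψ x = 0) (hφ0 : ∑ x, φ x = 0)
    (hψ0 : ∑ x, ψ x = 0) :
    |∑ t ∈ Tr B, φ (t j) * ψ (t k)| ≤
      (Real.sqrt (3 * Fintype.card G + 3 * η * (Fintype.card G : ℝ) ^ 2) +
        η * Fintype.card G) * Real.sqrt (∑ x, φ x ^ 2) * Real.sqrt (∑ x, ψ x ^ 2) := by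
  obtain ⟨i, hij, hik, hl⟩ := third j k hjk
  rw [sumTr hij hik hjk hl φ ψ hφ hψ]
  set q : ℝ := (Fintype.card G : ℝ) with hq
  have hq0 : 0 ≤ q := by rw [hq]; positivity
  set f : G → ℝ := fun t => (if t ∈ A i then (1 : ℝ) else 0) - ρ with hf
  set g : G → ℝ := fun t => (if t ∈ B i then (1 : ℝ) else 0) - (if t ∈ A i then (1 : ℝ) else 0)
    with hg
  have e1 : ∑ y, ∑ z, φ y * ψ z * (if -y - z ∈ B i then (1 : ℝ) else 0) =
      ∑ y, ∑ z, φ y * ψ z * f (-y - z) + ∑ y, ∑ z, φ y * ψ z * g (-y - z) := by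
    have e2 : ∑ y, ∑ z, φ y * ψ z * ρ = 0 := by
      have : ∑ y, ∑ z, φ y * ψ z * ρ = (∑ y, φ y) * (∑ z, ψ z) * ρ := by
        rw [Finset.sum_mul_sum, Finset.sum_mul]
        exact Finset.sum_congr rfl fun y _ => by rw [Finset.sum_mul]
      rw [this, hφ0]; ring
    have e3 : ∑ y, ∑ z, φ y * ψ z * (if -y - z ∈ B i then (1 : ℝ) else 0) =
        ∑ y, ∑ z, φ y * ψ z * f (-y - z) + ∑ y, ∑ z, φ y * ψ z * g (-y - z) +
          ∑ y, ∑ z, φ y * ψ z * ρ := by
      rw [← Finset.sum_add_distrib, ← Finset.sum_add_distrib]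
      refine Finset.sum_congr rfl fun y _ => ?_
      rw [← Finset.sum_add_distrib, ← Finset.sum_add_distrib]
      refine Finset.sum_congr rfl fun z _ => ?_
      simp only [hf, hg]
      ring
    rw [e3, e2, add_zero]
  rw [e1]
  have hR : ∑ k, |∑ t, f t * f (k + t)| ≤ 3 * q + 3 * η * q ^ 2 := by
    have hf1 : ∀ t, |f t| ≤ 1 := by
      intro t
      simp only [hf]
      rw [abs_le]
      split_ifs <;> constructor <;> linarith
    have hin : ∀ k, |∑ t, f t * f (k + t)| ≤ q := by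
      intro k
      refine (Finset.abs_sum_le_sum_abs _ _).trans ?_
      have : ∑ t : G, |f t * f (k + t)| ≤ ∑ t : G, (1 : ℝ) := by
        refine Finset.sum_le_sum fun t _ => ?_
        rw [abs_mul]
        exact mul_le_one₀ (hf1 _) (abs_nonneg _) (hf1 _)
      refine this.trans ?_
      simp [hq]
    have hout : ∀ k ∉ Θ, |∑ t, f t * f (k + t)| ≤ 3 * η * q := by
      intro k hk
      have h3 := hA.2.2 i k hk
      have h4 := hA.1 i
      have e5 : ∑ t, (if t ∈ A i then (1 : ℝ) else 0) = ((A i).card : ℝ) := by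
        simp
      have e6 : ∑ t, (if k + t ∈ A i then (1 : ℝ) else 0) = ((A i).card : ℝ) := by
        rw [← e5]
        exact Fintype.sum_equiv (Equiv.addLeft k) _ _ fun t => rfl
      have e7 : ∑ t, (if t ∈ A i then (1 : ℝ) else 0) * (if k + t ∈ A i then (1 : ℝ) else 0) =
          (((A i).filter fun t => k + t ∈ A i).card : ℝ) := by
        rw [Finset.card_filter]
        push_cast
        rw [← Finset.sum_filter_add_sum_filter_not univ (fun t => t ∈ A i)]
        have : ∑ t ∈ univ.filter (fun t => ¬ t ∈ A i),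
            (if t ∈ A i then (1 : ℝ) else 0) * (if k + t ∈ A i then (1 : ℝ) else 0) = 0 := by
          refine Finset.sum_eq_zero fun t ht => ?_
          rw [mem_filter] at ht
          simp [ht.2]
        rw [this, add_zero]
        have h8 : univ.filter (fun t => t ∈ A i) = A i := by ext t; simp
        rw [h8]
        refine Finset.sum_congr rfl fun t ht => ?_
        simp [ht]
      have e8 : ∑ t, f t * f (k + t) =
          (((A i).filter fun t => k + t ∈ A i).card : ℝ) - 2 * ρ * ((A i).card : ℝ) +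
            ρ ^ 2 * q := by
        have : ∀ t, f t * f (k + t) =
            (if t ∈ A i then (1 : ℝ) else 0) * (if k + t ∈ A i then (1 : ℝ) else 0) -
            ρ * (if t ∈ A i then (1 : ℝ) else 0) - ρ * (if k + t ∈ A i then (1 : ℝ) else 0) +
            ρ ^ 2 := by
          intro t
          simp only [hf]
          ring
        rw [Finset.sum_congr rfl fun t _ => this t, Finset.sum_add_distrib,
          Finset.sum_sub_distrib, Finset.sum_sub_distrib, ← Finset.mul_sum, ← Finset.mul_sum,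
          e5, e6, e7]
        simp only [Finset.sum_const, Finset.card_univ, nsmul_eq_mul]
        ring
      rw [e8]
      rw [abs_le] at h3 h4 ⊢
      obtain ⟨a1, a2⟩ := h3
      obtain ⟨b1, b2⟩ := h4
      have c1 : ρ * (((A i).card : ℝ) - ρ * q) ≤ η * q := by
        calc ρ * (((A i).card : ℝ) - ρ * q) ≤ ρ * (η * q) := mul_le_mul_of_nonneg_left b2 hρ
          _ ≤ 1 * (η * q) := mul_le_mul_of_nonneg_right hρ1 (by positivity)
          _ = η * q := one_mul _
      have c2 : -(η * q) ≤ ρ * (((A i).card : ℝ) - ρ * q) := by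
        calc -(η * q) = -(1 * (η * q)) := by ring
          _ ≤ -(ρ * (η * q)) := by
            exact neg_le_neg (mul_le_mul_of_nonneg_right hρ1 (by positivity))
          _ = ρ * (-(η * q)) := by ring
          _ ≤ ρ * (((A i).card : ℝ) - ρ * q) := mul_le_mul_of_nonneg_left b1 hρ
      constructor <;> nlinarith
    rw [← Finset.sum_filter_add_sum_filter_not univ (fun k => k ∈ Θ)]
    have s1 : ∑ k ∈ univ.filter (fun k => k ∈ Θ), |∑ t, f t * f (k + t)| ≤ 3 * q := by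
      have h8 : univ.filter (fun t => t ∈ Θ) = Θ := by ext t; simp
      rw [h8]
      refine (Finset.sum_le_card_nsmul _ _ q fun k _ => hin k).trans ?_
      rw [nsmul_eq_mul]
      refine mul_le_mul_of_nonneg_right ?_ hq0
      exact_mod_cast hΘ.2.2
    have s2 : ∑ k ∈ univ.filter (fun k => ¬ k ∈ Θ), |∑ t, f t * f (k + t)| ≤
        3 * η * q ^ 2 := by
      refine (Finset.sum_le_card_nsmul _ _ (3 * η * q) fun k hk =>
        hout k (mem_filter.1 hk).2).trans ?_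
      rw [nsmul_eq_mul]
      have : (((univ.filter (fun k : G => ¬ k ∈ Θ)).card : ℕ) : ℝ) ≤ q := by
        rw [hq]
        exact_mod_cast Finset.card_le_univ _
      calc _ ≤ q * (3 * η * q) := mul_le_mul_of_nonneg_right this (by positivity)
        _ = _ := by ring
    linarith
  have hG : ∑ w, |g w| ≤ η * q := by
    refine le_trans (le_of_eq ?_) (hB i)
    have : ∀ w, |g w| = (if w ∈ A i \ B i then (1 : ℝ) else 0) +
        (if w ∈ B i \ A i then (1 : ℝ) else 0) := by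
      intro w
      simp only [hg, mem_sdiff]
      by_cases a : w ∈ A i <;> by_cases b : w ∈ B i <;> simp [a, b]
    rw [Finset.sum_congr rfl fun w _ => this w, Finset.sum_add_distrib]
    congr 1
    · rw [Finset.sum_ite_mem]; simp
    · rw [Finset.sum_ite_mem]; simp
  have hP : 0 ≤ ∑ x, φ x ^ 2 := Finset.sum_nonneg fun x _ => sq_nonneg _
  have hQ : 0 ≤ ∑ x, ψ x ^ 2 := Finset.sum_nonneg fun x _ => sq_nonneg _
  have h1 : |∑ y, ∑ z, φ y * ψ z * f (-y - z)| ≤
      Real.sqrt (3 * q + 3 * η * q ^ 2) * Real.sqrt (∑ x, φ x ^ 2) *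
        Real.sqrt (∑ x, ψ x ^ 2) := by
    rw [← Real.sqrt_mul (by positivity), ← Real.sqrt_mul (by positivity)]
    refine Real.abs_le_sqrt ((first f φ ψ).trans ?_)
    calc (∑ x, φ x ^ 2) * ((∑ x, ψ x ^ 2) * ∑ k, |∑ t, f t * f (k + t)|)
        ≤ (∑ x, φ x ^ 2) * ((∑ x, ψ x ^ 2) * (3 * q + 3 * η * q ^ 2)) :=
          mul_le_mul_of_nonneg_left (mul_le_mul_of_nonneg_left hR hQ) hP
      _ = _ := by ring
  have h2 : |∑ y, ∑ z, φ y * ψ z * g (-y - z)| ≤
      Real.sqrt (∑ x, φ x ^ 2) * Real.sqrt (∑ x, ψ x ^ 2) * (η * q) :=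
    (second g φ ψ).trans (mul_le_mul_of_nonneg_left hG (by positivity))
  calc |∑ y, ∑ z, φ y * ψ z * f (-y - z) + ∑ y, ∑ z, φ y * ψ z * g (-y - z)|
      ≤ |∑ y, ∑ z, φ y * ψ z * f (-y - z)| + |∑ y, ∑ z, φ y * ψ z * g (-y - z)| :=
        abs_add_le _ _
    _ ≤ Real.sqrt (3 * q + 3 * η * q ^ 2) * Real.sqrt (∑ x, φ x ^ 2) *
        Real.sqrt (∑ x, ψ x ^ 2) +
        Real.sqrt (∑ x, φ x ^ 2) * Real.sqrt (∑ x, ψ x ^ 2) * (η * q) := add_le_add h1 h2
    _ = _ := by ring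

end Pool.Agent.H60.HL
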