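import Pool.Agent.H60.HL.Defs

/-!
# HL-10a RtB1: solving the linear system of the regularisation

Let `E = (Fin 3 → G → ℝ)`, `H ≤ E` the subspace of the `φ` with `φ i x = 0` for `x ∉ B i` and
`∑ x, φ i x = 0` for each `i`, `‖φ‖² = ∑ i x, φ i x ^ 2`, `S φ t = ∑ i, φ i (t i)` and the symmetric
bilinear form `b φ ψ = ∑ t ∈ Tr B, S φ t * S ψ t`.  `d_i x = #{t ∈ Tr B : t i = x}`.
(1) Coercivity: `b φ φ = ∑ i x, d_i x φ_i x ^ 2 + ∑_{i ≠ j} ∑ t, φ_i (t i) φ_j (t j) ≥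
(1 - e) D ‖φ‖² - (D / 16) ∑_{i ≠ j} ‖φ_i‖ ‖φ_j‖ ≥ (1 - e - 1/8) D ‖φ‖² ≥ (D / 2) ‖φ‖²`
(`∑_{i ≠ j} ‖φ_i‖ ‖φ_j‖ ≤ 2 ‖φ‖²`).
(2) So the linear map `H → Module.Dual ℝ H`, `φ ↦ b φ .` is injective, hence surjective (finite
dimension, `LinearMap.injective_iff_surjective_of_finrank_eq_finrank`, or `LinearMap.BilinForm`
nondegenerate `toDual`; or: minimise the continuous coercive function `b φ φ / 2 + ∑ t, S φ t` on `H`).
Take `φ ∈ H` with `b φ ψ = - ∑ t ∈ Tr B, S ψ t` for all `ψ ∈ H`.  With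
`w t = 1 + S φ t`: `∑ t ∈ Tr B, w t * S ψ t = 0` for all `ψ ∈ H`.  Taking for `ψ` the function
`δ_x - δ_y` in the coordinate `i` (`x, y ∈ B i`): `∑_{t i = x} w t = ∑_{t i = y} w t`.  So this is a
constant `c_i` on `B i`, and `n c_i = ∑ t ∈ Tr B, w t` does not depend on `i` (if `n = 0` everything is
trivial: `Tr B` and `B i` are empty, take `φ = 0`, `D' = D`).  `D' = c_i`.
The last claim is (1) with `ψ = φ`.
-/

namespace Pool.Agent.H60.HL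

open Finset Classical

variable {G : Type} [AddCommGroup G] [Fintype G]

private lemma rtb1_fib (B : Fin 3 → Finset G) (i : Fin 3) (g : G → ℝ) :
    ∑ t ∈ Tr B, g (t i) = ∑ x, (((Tr B).filter fun t => t i = x).card : ℝ) * g x := by
  rw [← Finset.sum_fiberwise (Tr B) (fun t => t i) (fun t => g (t i))]
  refine Finset.sum_congr rfl fun x _ => ?_
  rw [Finset.sum_congr rfl (g := fun _ => g x) (fun t ht => by rw [(Finset.mem_filter.1 ht).2])]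
  rw [Finset.sum_const, nsmul_eq_mul]

private lemma rtb1_coer (B : Fin 3 → Finset G) (D e : ℝ)
    (hD : 0 < D) (he1 : e ≤ 1 / 100)
    (hdeg : ∀ i, ∀ x ∈ B i, |(((Tr B).filter fun t => t i = x).card : ℝ) - D| ≤ e * D)
    (hbil : ∀ i j, i ≠ j → ∀ φ ψ : G → ℝ, (∀ x ∉ B i, φ x = 0) → (∀ x ∉ B j, ψ x = 0) →
      ∑ x, φ x = 0 → ∑ x, ψ x = 0 →
      |∑ t ∈ Tr B, φ (t i) * ψ (t j)| ≤
        D / 16 * Real.sqrt (∑ x, φ x ^ 2) * Real.sqrt (∑ x, ψ x ^ 2))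
    (φ : Fin 3 → G → ℝ) (h1 : ∀ i, ∀ x ∉ B i, φ i x = 0) (h2 : ∀ i, ∑ x, φ i x = 0) :
    D / 2 * ∑ i, ∑ x, φ i x ^ 2 ≤ ∑ t ∈ Tr B, (φ 0 (t 0) + φ 1 (t 1) + φ 2 (t 2)) *
      (φ 0 (t 0) + φ 1 (t 1) + φ 2 (t 2)) := by
  have hdiag : ∀ i, (1 - e) * D * ∑ x, φ i x ^ 2 ≤ ∑ t ∈ Tr B, φ i (t i) ^ 2 := by
    intro i
    rw [rtb1_fib B i (fun x => φ i x ^ 2), Finset.mul_sum]
    refine Finset.sum_le_sum fun x _ => ?_
    by_cases hx : x ∈ B i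
    · have h := hdeg i x hx
      have h' := (abs_le.1 h).1
      have : (1 - e) * D ≤ (((Tr B).filter fun t => t i = x).card : ℝ) := by linarith
      exact mul_le_mul_of_nonneg_right this (sq_nonneg _)
    · rw [h1 i x hx]; simp
  have hcr : ∀ i j, i ≠ j → |∑ t ∈ Tr B, φ i (t i) * φ j (t j)| ≤
      D / 16 * Real.sqrt (∑ x, φ i x ^ 2) * Real.sqrt (∑ x, φ j x ^ 2) := fun i j hij =>
    hbil i j hij (φ i) (φ j) (h1 i) (h1 j) (h2 i) (h2 j)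
  have hexp : ∑ t ∈ Tr B, (φ 0 (t 0) + φ 1 (t 1) + φ 2 (t 2)) *
      (φ 0 (t 0) + φ 1 (t 1) + φ 2 (t 2)) =
      ∑ t ∈ Tr B, φ 0 (t 0) ^ 2 + ∑ t ∈ Tr B, φ 1 (t 1) ^ 2 + ∑ t ∈ Tr B, φ 2 (t 2) ^ 2 +
      2 * (∑ t ∈ Tr B, φ 0 (t 0) * φ 1 (t 1)) + 2 * (∑ t ∈ Tr B, φ 0 (t 0) * φ 2 (t 2)) +
      2 * (∑ t ∈ Tr B, φ 1 (t 1) * φ 2 (t 2)) := by
    rw [Finset.mul_sum, Finset.mul_sum, Finset.mul_sum, ← Finset.sum_add_distrib,
      ← Finset.sum_add_distrib, ← Finset.sum_add_distrib, ← Finset.sum_add_distrib,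
      ← Finset.sum_add_distrib]
    refine Finset.sum_congr rfl fun t _ => ?_
    ring
  rw [hexp, Fin.sum_univ_three]
  have d0 := hdiag 0
  have d1 := hdiag 1
  have d2 := hdiag 2
  have c01 := (abs_le.1 (hcr 0 1 (by decide))).1
  have c02 := (abs_le.1 (hcr 0 2 (by decide))).1
  have c12 := (abs_le.1 (hcr 1 2 (by decide))).1
  have q0 : Real.sqrt (∑ x, φ 0 x ^ 2) ^ 2 = ∑ x, φ 0 x ^ 2 :=
    Real.sq_sqrt (Finset.sum_nonneg fun x _ => sq_nonneg _)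
  have q1 : Real.sqrt (∑ x, φ 1 x ^ 2) ^ 2 = ∑ x, φ 1 x ^ 2 :=
    Real.sq_sqrt (Finset.sum_nonneg fun x _ => sq_nonneg _)
  have q2 : Real.sqrt (∑ x, φ 2 x ^ 2) ^ 2 = ∑ x, φ 2 x ^ 2 :=
    Real.sq_sqrt (Finset.sum_nonneg fun x _ => sq_nonneg _)
  generalize Real.sqrt (∑ x, φ 0 x ^ 2) = N0 at *
  generalize Real.sqrt (∑ x, φ 1 x ^ 2) = N1 at *
  generalize Real.sqrt (∑ x, φ 2 x ^ 2) = N2 at *
  rw [← q0] at d0 ⊢
  rw [← q1] at d1 ⊢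
  rw [← q2] at d2 ⊢
  generalize ∑ t ∈ Tr B, φ 0 (t 0) ^ 2 = a0 at *
  generalize ∑ t ∈ Tr B, φ 1 (t 1) ^ 2 = a1 at *
  generalize ∑ t ∈ Tr B, φ 2 (t 2) ^ 2 = a2 at *
  generalize ∑ t ∈ Tr B, φ 0 (t 0) * φ 1 (t 1) = b01 at *
  generalize ∑ t ∈ Tr B, φ 0 (t 0) * φ 2 (t 2) = b02 at *
  generalize ∑ t ∈ Tr B, φ 1 (t 1) * φ 2 (t 2) = b12 at *
  have hN : 0 ≤ N0 ^ 2 + N1 ^ 2 + N2 ^ 2 := by positivity
  have k1 : 0 ≤ D * (N0 - N1) ^ 2 := mul_nonneg hD.le (sq_nonneg _)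
  have k2 : 0 ≤ D * (N0 - N2) ^ 2 := mul_nonneg hD.le (sq_nonneg _)
  have k3 : 0 ≤ D * (N1 - N2) ^ 2 := mul_nonneg hD.le (sq_nonneg _)
  have k4 : 0 ≤ (1 / 100 - e) * (D * (N0 ^ 2 + N1 ^ 2 + N2 ^ 2)) :=
    mul_nonneg (by linarith) (mul_nonneg hD.le hN)
  have k5 : 0 ≤ D * (N0 ^ 2 + N1 ^ 2 + N2 ^ 2) := mul_nonneg hD.le hN
  nlinarith

private def rtb1H (B : Fin 3 → Finset G) : Submodule ℝ (Fin 3 → G → ℝ) where
  carrier := {φ | (∀ i, ∀ x ∉ B i, φ i x = 0) ∧ ∀ i, ∑ x, φ i x = 0}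
  add_mem' := by
    rintro a b ⟨ha, ha'⟩ ⟨hb, hb'⟩
    refine ⟨fun i x hx => ?_, fun i => ?_⟩
    · show a i x + b i x = 0
      rw [ha i x hx, hb i x hx, add_zero]
    · show ∑ x, (a i x + b i x) = 0
      rw [Finset.sum_add_distrib, ha', hb', add_zero]
  zero_mem' := ⟨fun i x _ => rfl, fun i => by
    show ∑ x : G, (0 : ℝ) = 0
    simp⟩
  smul_mem' := by
    rintro c a ⟨ha, ha'⟩
    refine ⟨fun i x hx => ?_, fun i => ?_⟩
    · show c * a i x = 0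
      rw [ha i x hx, mul_zero]
    · show ∑ x, c * a i x = 0
      rw [← Finset.mul_sum, ha', mul_zero]

/-- the linear functional `ψ ↦ ∑ t, w t * S ψ t`. -/
private noncomputable def rtb1L (B : Fin 3 → Finset G) (w : (Fin 3 → G) → ℝ) :
    (Fin 3 → G → ℝ) →ₗ[ℝ] ℝ where
  toFun ψ := ∑ t ∈ Tr B, w t * (ψ 0 (t 0) + ψ 1 (t 1) + ψ 2 (t 2))
  map_add' a b := by
    rw [← Finset.sum_add_distrib]
    refine Finset.sum_congr rfl fun t _ => ?_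
    show w t * ((a 0 (t 0) + b 0 (t 0)) + (a 1 (t 1) + b 1 (t 1)) + (a 2 (t 2) + b 2 (t 2))) = _
    ring
  map_smul' c a := by
    rw [smul_eq_mul, Finset.mul_sum]
    refine Finset.sum_congr rfl fun t _ => ?_
    show w t * (c * a 0 (t 0) + c * a 1 (t 1) + c * a 2 (t 2)) = _
    simp only [RingHom.id_apply]
    ring

private lemma rtb1L_apply (B : Fin 3 → Finset G) (w : (Fin 3 → G) → ℝ) (ψ : Fin 3 → G → ℝ) :
    rtb1L B w ψ = ∑ t ∈ Tr B, w t * (ψ 0 (t 0) + ψ 1 (t 1) + ψ 2 (t 2)) := rfl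

private noncomputable def rtb1T (B : Fin 3 → Finset G) :
    rtb1H B →ₗ[ℝ] Module.Dual ℝ (rtb1H B) where
  toFun φ := (rtb1L B (fun t => φ.1 0 (t 0) + φ.1 1 (t 1) + φ.1 2 (t 2))).comp (rtb1H B).subtype
  map_add' a b := by
    ext ψ
    simp only [LinearMap.comp_apply, LinearMap.add_apply, rtb1L_apply]
    rw [← Finset.sum_add_distrib]
    refine Finset.sum_congr rfl fun t _ => ?_
    show ((a.1 0 (t 0) + b.1 0 (t 0)) + (a.1 1 (t 1) + b.1 1 (t 1)) +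
      (a.1 2 (t 2) + b.1 2 (t 2))) * _ = _
    ring
  map_smul' c a := by
    ext ψ
    simp only [LinearMap.comp_apply, LinearMap.smul_apply, rtb1L_apply, RingHom.id_apply,
      smul_eq_mul]
    rw [Finset.mul_sum]
    refine Finset.sum_congr rfl fun t _ => ?_
    show (c * a.1 0 (t 0) + c * a.1 1 (t 1) + c * a.1 2 (t 2)) * _ = _
    ring

private lemma rtb1T_apply (B : Fin 3 → Finset G) (φ ψ : rtb1H B) :
    rtb1T B φ ψ = ∑ t ∈ Tr B, (φ.1 0 (t 0) + φ.1 1 (t 1) + φ.1 2 (t 2)) *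
      (ψ.1 0 (t 0) + ψ.1 1 (t 1) + ψ.1 2 (t 2)) := rfl

theorem reg_solve (B : Fin 3 → Finset G) (n : ℕ) (hn : ∀ i, (B i).card = n) (D e : ℝ)
    (hD : 0 < D) (he : 0 ≤ e) (he1 : e ≤ 1 / 100)
    (hdeg : ∀ i, ∀ x ∈ B i, |(((Tr B).filter fun t => t i = x).card : ℝ) - D| ≤ e * D)
    (hbil : ∀ i j, i ≠ j → ∀ φ ψ : G → ℝ, (∀ x ∉ B i, φ x = 0) → (∀ x ∉ B j, ψ x = 0) →
      ∑ x, φ x = 0 → ∑ x, ψ x = 0 →
      |∑ t ∈ Tr B, φ (t i) * ψ (t j)| ≤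
        D / 16 * Real.sqrt (∑ x, φ x ^ 2) * Real.sqrt (∑ x, ψ x ^ 2)) :
    ∃ (φ : Fin 3 → G → ℝ) (D' : ℝ), (∀ i, ∀ x ∉ B i, φ i x = 0) ∧ (∀ i, ∑ x, φ i x = 0) ∧
      (∀ i, ∀ x ∈ B i, ∑ t ∈ (Tr B).filter (fun t => t i = x),
        (1 + φ 0 (t 0) + φ 1 (t 1) + φ 2 (t 2)) = D') ∧
      D / 2 * ∑ i, ∑ x, φ i x ^ 2 ≤ -∑ t ∈ Tr B, (φ 0 (t 0) + φ 1 (t 1) + φ 2 (t 2)) := by
  have hcoer := rtb1_coer B D e hD he1 hdeg hbil
  -- the linear system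
  have hinj : Function.Injective (rtb1T B) := by
    rw [← LinearMap.ker_eq_bot, LinearMap.ker_eq_bot']
    intro φ hφ
    have h0 : rtb1T B φ φ = 0 := by rw [hφ]; rfl
    rw [rtb1T_apply] at h0
    have h1 := hcoer φ.1 φ.2.1 φ.2.2
    rw [h0] at h1
    have h2 : ∑ i, ∑ x, φ.1 i x ^ 2 ≤ 0 := by
      by_contra hc
      push Not at hc
      have := mul_pos (half_pos hD) hc
      linarith
    have h3 : ∀ i x, φ.1 i x = 0 := by
      intro i x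
      have h4 : φ.1 i x ^ 2 ≤ ∑ i, ∑ x, φ.1 i x ^ 2 :=
        le_trans (Finset.single_le_sum (f := fun x => φ.1 i x ^ 2) (fun y _ => sq_nonneg _)
          (Finset.mem_univ x))
          (Finset.single_le_sum (f := fun i => ∑ x, φ.1 i x ^ 2)
            (fun j _ => Finset.sum_nonneg fun y _ => sq_nonneg _) (Finset.mem_univ i))
      have h5 : φ.1 i x ^ 2 = 0 := le_antisymm (h4.trans h2) (sq_nonneg _)
      exact pow_eq_zero_iff (two_ne_zero) |>.1 h5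
    apply Subtype.ext
    funext i x
    exact h3 i x
  have hsurj : Function.Surjective (rtb1T B) :=
    (LinearMap.injective_iff_surjective_of_finrank_eq_finrank
      (Subspace.dual_finrank_eq (K := ℝ) (V := rtb1H B)).symm).1 hinj
  obtain ⟨φ, hφ⟩ := hsurj (-((rtb1L B (fun _ => 1)).comp (rtb1H B).subtype))
  have hsys : ∀ ψ : Fin 3 → G → ℝ, (∀ i, ∀ x ∉ B i, ψ i x = 0) → (∀ i, ∑ x, ψ i x = 0) →
      ∑ t ∈ Tr B, (1 + φ.1 0 (t 0) + φ.1 1 (t 1) + φ.1 2 (t 2)) *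
        (ψ 0 (t 0) + ψ 1 (t 1) + ψ 2 (t 2)) = 0 := by
    intro ψ h1 h2
    have h := LinearMap.congr_fun hφ ⟨ψ, h1, h2⟩
    rw [rtb1T_apply] at h
    have h' : (-((rtb1L B (fun _ => 1)).comp (rtb1H B).subtype)) ⟨ψ, h1, h2⟩ =
        -∑ t ∈ Tr B, 1 * (ψ 0 (t 0) + ψ 1 (t 1) + ψ 2 (t 2)) := rfl
    rw [h'] at h
    have h3 : ∑ t ∈ Tr B, (1 + φ.1 0 (t 0) + φ.1 1 (t 1) + φ.1 2 (t 2)) *
        (ψ 0 (t 0) + ψ 1 (t 1) + ψ 2 (t 2)) =
        ∑ t ∈ Tr B, (φ.1 0 (t 0) + φ.1 1 (t 1) + φ.1 2 (t 2)) *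
          (ψ 0 (t 0) + ψ 1 (t 1) + ψ 2 (t 2)) +
        ∑ t ∈ Tr B, 1 * (ψ 0 (t 0) + ψ 1 (t 1) + ψ 2 (t 2)) := by
      rw [← Finset.sum_add_distrib]
      refine Finset.sum_congr rfl fun t _ => ?_
      ring
    rw [h3]
    have h4 : ∑ t ∈ Tr B, (φ.1 0 (t 0) + φ.1 1 (t 1) + φ.1 2 (t 2)) *
          (ψ 0 (t 0) + ψ 1 (t 1) + ψ 2 (t 2)) =
          -∑ t ∈ Tr B, 1 * (ψ 0 (t 0) + ψ 1 (t 1) + ψ 2 (t 2)) := h
    rw [h4]
    ring
  obtain ⟨w, hw⟩ : ∃ w : (Fin 3 → G) → ℝ,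
      w = fun t => 1 + φ.1 0 (t 0) + φ.1 1 (t 1) + φ.1 2 (t 2) := ⟨_, rfl⟩
  -- equal sums
  have heq : ∀ i, ∀ x ∈ B i, ∀ y ∈ B i, ∑ t ∈ (Tr B).filter (fun t => t i = x), w t =
      ∑ t ∈ (Tr B).filter (fun t => t i = y), w t := by
    intro i x hx y hy
    have h := hsys (fun j z => if j = i then ((if z = x then 1 else 0) - (if z = y then 1 else 0))
      else 0) ?_ ?_
    · have h1 : ∑ t ∈ Tr B, (1 + φ.1 0 (t 0) + φ.1 1 (t 1) + φ.1 2 (t 2)) *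
          ((if (0 : Fin 3) = i then ((if t 0 = x then (1 : ℝ) else 0) -
            (if t 0 = y then 1 else 0)) else 0) +
          (if (1 : Fin 3) = i then ((if t 1 = x then (1 : ℝ) else 0) -
            (if t 1 = y then 1 else 0)) else 0) +
          (if (2 : Fin 3) = i then ((if t 2 = x then (1 : ℝ) else 0) -
            (if t 2 = y then 1 else 0)) else 0)) =
          ∑ t ∈ Tr B, ((if t i = x then w t else 0) - (if t i = y then w t else 0)) := by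
        refine Finset.sum_congr rfl fun t _ => ?_
        have h2 : ((if (0 : Fin 3) = i then ((if t 0 = x then (1 : ℝ) else 0) -
            (if t 0 = y then 1 else 0)) else 0) +
          (if (1 : Fin 3) = i then ((if t 1 = x then (1 : ℝ) else 0) -
            (if t 1 = y then 1 else 0)) else 0) +
          (if (2 : Fin 3) = i then ((if t 2 = x then (1 : ℝ) else 0) -
            (if t 2 = y then 1 else 0)) else 0)) =
            (if t i = x then (1 : ℝ) else 0) - (if t i = y then 1 else 0) := by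
          fin_cases i <;> simp
        rw [h2, hw]
        rw [mul_sub, mul_ite, mul_ite, mul_one, mul_zero]
      have h3 : ∑ t ∈ Tr B, ((if t i = x then w t else 0) - (if t i = y then w t else 0)) = 0 := by
        rw [← h1]; exact h
      rw [Finset.sum_sub_distrib, ← Finset.sum_filter, ← Finset.sum_filter] at h3
      linarith
    · intro j z hz
      by_cases hj : j = i
      · subst hj
        have h1 : z ≠ x := fun hc => hz (hc ▸ hx)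
        have h2 : z ≠ y := fun hc => hz (hc ▸ hy)
        simp [h1, h2]
      · simp [hj]
    · intro j
      by_cases hj : j = i
      · simp [hj, Finset.sum_sub_distrib]
      · simp [hj]
  have hfin : D / 2 * ∑ i, ∑ x, φ.1 i x ^ 2 ≤
      -∑ t ∈ Tr B, (φ.1 0 (t 0) + φ.1 1 (t 1) + φ.1 2 (t 2)) := by
    refine (hcoer φ.1 φ.2.1 φ.2.2).trans (le_of_eq ?_)
    have h := hsys φ.1 φ.2.1 φ.2.2
    have h3 : ∑ t ∈ Tr B, (1 + φ.1 0 (t 0) + φ.1 1 (t 1) + φ.1 2 (t 2)) *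
        (φ.1 0 (t 0) + φ.1 1 (t 1) + φ.1 2 (t 2)) =
        ∑ t ∈ Tr B, (φ.1 0 (t 0) + φ.1 1 (t 1) + φ.1 2 (t 2)) *
          (φ.1 0 (t 0) + φ.1 1 (t 1) + φ.1 2 (t 2)) +
        ∑ t ∈ Tr B, (φ.1 0 (t 0) + φ.1 1 (t 1) + φ.1 2 (t 2)) := by
      rw [← Finset.sum_add_distrib]
      refine Finset.sum_congr rfl fun t _ => ?_
      ring
    rw [h3] at h
    linarith
  rcases Nat.eq_zero_or_pos n with hn0 | hn0
  · refine ⟨φ.1, D, φ.2.1, φ.2.2, fun i x hx => ?_, hfin⟩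
    have : B i = ∅ := Finset.card_eq_zero.1 ((hn i).trans hn0)
    rw [this] at hx
    exact absurd hx (Finset.notMem_empty x)
  · refine ⟨φ.1, (∑ t ∈ Tr B, w t) / n, φ.2.1, φ.2.2, fun i x hx => ?_, hfin⟩
    have hfib : ∑ y ∈ B i, ∑ t ∈ (Tr B).filter (fun t => t i = y), w t = ∑ t ∈ Tr B, w t := by
      refine Finset.sum_fiberwise_of_maps_to (fun t ht => ?_) _
      exact (Finset.mem_filter.1 ht).2.1 i
    have hc : ∑ y ∈ B i, ∑ t ∈ (Tr B).filter (fun t => t i = y), w t =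
        n * ∑ t ∈ (Tr B).filter (fun t => t i = x), w t := by
      rw [Finset.sum_congr rfl (fun y hy => heq i y hy x hx), Finset.sum_const, hn i,
        nsmul_eq_mul]
    have hn' : (n : ℝ) ≠ 0 := by exact_mod_cast hn0.ne'
    rw [eq_div_iff hn', ← hfib, hc, hw]
    ring

end Pool.Agent.H60.HL
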