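import Mathlib

/-!
# HL-12 TplA: a random bipartite graph of degree 24 expands

Proof.  `m = card B ≥ 1` (if `m = 0` then `4 S.card ≤ 3 m` forces `S = ∅`; a function `A → Fin 24 → B`
need not exist if `A` is nonempty and `B` empty, but `card A ≤ 2 card B = 0` then).  Count the pairs:
if `f` is bad then for some `S` with `1 ≤ s = S.card ≤ 3 m / 4` the set of all `f w j`, `w ∈ S`, has at
most `s - 1` elements, so it is contained in some `T ⊆ B` with `T.card = s` (`s ≤ m`).  For fixed
`S, T` the number of `f : A → Fin 24 → B` with `f w j ∈ T` for all `w ∈ S` and all `j` is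
`s ^ (24 s) * m ^ (24 (card A - s))` (`Fintype.card_piFinset`).  So the proportion of the bad `f` is at
most `∑_{s=1}^{3m/4} C(2m, s) C(m, s) (s/m)^(24 s)`.  With `C(n, s) ≤ n^s / s! ≤ (3 n / s)^s`
(`s! ≥ (s/3)^s`, by induction, or from `Real.add_one_le_exp`; `Nat.choose_le_pow_div`) each term is at
most `(6 m/s * 3 m/s * (s/m)^24)^s = (18 (s/m)^22)^s ≤ (18 (3/4)^22)^s ≤ (1/10)^s` and the sum is
`≤ 1/9 < 1`.
-/

namespace Pool.Agent.H60.HL

open Finset Classical

private theorem TplA_pow_self_le (s : ℕ) : (s : ℝ) ^ s ≤ 3 ^ s * (s.factorial : ℝ) := by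
  have h1 : (s : ℝ) ^ s / (s.factorial : ℝ) ≤ Real.exp (s : ℝ) :=
    Real.pow_div_factorial_le_exp (s : ℝ) (Nat.cast_nonneg s) s
  have h2 : Real.exp (s : ℝ) ≤ 3 ^ s := by
    have h3 : Real.exp (s : ℝ) = Real.exp 1 ^ s := by
      rw [← Real.exp_nat_mul]
      congr 1
      ring
    rw [h3]
    apply pow_le_pow_left₀ (Real.exp_pos 1).le
    have := Real.exp_one_lt_d9
    linarith
  have h4 : (0 : ℝ) < (s.factorial : ℝ) := by
    exact_mod_cast Nat.factorial_pos s
  rw [div_le_iff₀ h4] at h1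
  nlinarith [h1, h2, h4]

private theorem TplA_choose_le (n s : ℕ) : (n.choose s : ℝ) * (s : ℝ) ^ s ≤ (3 * n : ℝ) ^ s := by
  have h4 : (0 : ℝ) < (s.factorial : ℝ) := by
    exact_mod_cast Nat.factorial_pos s
  have h1 : (n.choose s : ℝ) ≤ (n : ℝ) ^ s / (s.factorial : ℝ) := Nat.choose_le_pow_div s n
  calc (n.choose s : ℝ) * (s : ℝ) ^ s
      ≤ ((n : ℝ) ^ s / (s.factorial : ℝ)) * (3 ^ s * (s.factorial : ℝ)) :=
        mul_le_mul h1 (TplA_pow_self_le s) (by positivity) (by positivity)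
    _ = (3 * n : ℝ) ^ s := by
        rw [mul_pow]
        field_simp

private theorem TplA_term (a m s : ℕ) (h : a ≤ 2 * m) (h4 : 4 * s ≤ 3 * m) (hm : 0 < m) :
    (a.choose s : ℝ) * (m.choose s : ℝ) * (((s : ℝ) ^ 24) ^ s * ((m : ℝ) ^ 24) ^ (a - s)) ≤
      (1 / 10 : ℝ) ^ s * ((m : ℝ) ^ 24) ^ a := by
  rcases Nat.lt_or_ge a s with hlt | hge
  · rw [Nat.choose_eq_zero_of_lt hlt]
    simp only [Nat.cast_zero, zero_mul]
    positivity
  have hM : (0 : ℝ) < (m : ℝ) := by exact_mod_cast hm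
  have hsplit : ((m : ℝ) ^ 24) ^ a = ((m : ℝ) ^ 24) ^ s * ((m : ℝ) ^ 24) ^ (a - s) := by
    rw [← pow_add]
    congr 1
    omega
  rw [hsplit]
  have hS : (s : ℝ) ≤ 3 / 4 * (m : ℝ) := by
    have : ((4 * s : ℕ) : ℝ) ≤ ((3 * m : ℕ) : ℝ) := by exact_mod_cast h4
    push_cast at this
    linarith
  have hS0 : (0 : ℝ) ≤ (s : ℝ) := Nat.cast_nonneg s
  have h22 : (s : ℝ) ^ 22 ≤ (3 / 4 : ℝ) ^ 22 * (m : ℝ) ^ 22 := by
    rw [← mul_pow]
    exact pow_le_pow_left₀ hS0 hS 22
  have hA : (a.choose s : ℝ) * (s : ℝ) ^ s ≤ (6 * m : ℝ) ^ s := by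
    refine (TplA_choose_le a s).trans ?_
    apply pow_le_pow_left₀ (by positivity)
    have : ((a : ℕ) : ℝ) ≤ ((2 * m : ℕ) : ℝ) := by exact_mod_cast h
    push_cast at this
    linarith
  have hB : (m.choose s : ℝ) * (s : ℝ) ^ s ≤ (3 * m : ℝ) ^ s := TplA_choose_le m s
  have key : (a.choose s : ℝ) * (m.choose s : ℝ) * ((s : ℝ) ^ 24) ^ s ≤
      (1 / 10 : ℝ) ^ s * ((m : ℝ) ^ 24) ^ s := by
    calc (a.choose s : ℝ) * (m.choose s : ℝ) * ((s : ℝ) ^ 24) ^ s
        = ((a.choose s : ℝ) * (s : ℝ) ^ s) * ((m.choose s : ℝ) * (s : ℝ) ^ s) *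
            ((s : ℝ) ^ 22) ^ s := by
          have : ((s : ℝ) ^ 24) ^ s = (s : ℝ) ^ s * (s : ℝ) ^ s * ((s : ℝ) ^ 22) ^ s := by
            rw [← mul_pow, ← mul_pow]
            congr 1
            ring
          rw [this]
          ring
      _ ≤ (6 * m : ℝ) ^ s * (3 * m : ℝ) ^ s * ((3 / 4 : ℝ) ^ 22 * (m : ℝ) ^ 22) ^ s := by
          apply mul_le_mul (mul_le_mul hA hB (by positivity) (by positivity))
            (pow_le_pow_left₀ (by positivity) h22 s) (by positivity) (by positivity)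
      _ = (18 * (3 / 4 : ℝ) ^ 22 * (m : ℝ) ^ 24) ^ s := by
          rw [← mul_pow, ← mul_pow]
          congr 1
          ring
      _ ≤ (1 / 10 * (m : ℝ) ^ 24) ^ s := by
          apply pow_le_pow_left₀ (by positivity)
          apply mul_le_mul_of_nonneg_right _ (by positivity)
          norm_num
      _ = (1 / 10 : ℝ) ^ s * ((m : ℝ) ^ 24) ^ s := by rw [mul_pow]
  calc (a.choose s : ℝ) * (m.choose s : ℝ) * (((s : ℝ) ^ 24) ^ s * ((m : ℝ) ^ 24) ^ (a - s))
      = ((a.choose s : ℝ) * (m.choose s : ℝ) * ((s : ℝ) ^ 24) ^ s) * ((m : ℝ) ^ 24) ^ (a - s) := by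
        ring
    _ ≤ ((1 / 10 : ℝ) ^ s * ((m : ℝ) ^ 24) ^ s) * ((m : ℝ) ^ 24) ^ (a - s) :=
        mul_le_mul_of_nonneg_right key (by positivity)
    _ = (1 / 10 : ℝ) ^ s * (((m : ℝ) ^ 24) ^ s * ((m : ℝ) ^ 24) ^ (a - s)) := by ring

private theorem TplA_geom (n : ℕ) :
    ∑ i ∈ range n, (1 / 10 : ℝ) ^ (i + 1) = 1 / 9 - 1 / 9 * (1 / 10 : ℝ) ^ n := by
  induction n with
  | zero => simp
  | succ n ih =>
    rw [Finset.sum_range_succ, ih]
    ring

theorem expander (A B : Type) [Fintype A] [Fintype B]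
    (h : Fintype.card A ≤ 2 * Fintype.card B) :
    ∃ f : A → Fin 24 → B, ∀ S : Finset A, 4 * S.card ≤ 3 * Fintype.card B →
      S.card ≤ (S.biUnion fun w => univ.image (f w)).card := by
  rcases Nat.eq_zero_or_pos (Fintype.card B) with hB | hm
  · have hA : Fintype.card A = 0 := by omega
    have : IsEmpty A := Fintype.card_eq_zero_iff.mp hA
    refine ⟨fun a => isEmptyElim a, fun S _ => ?_⟩
    have : S = ∅ := Finset.eq_empty_of_isEmpty S
    subst this
    simp
  by_contra hcon
  push Not at hcon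
  set m := Fintype.card B with hmdef
  set a := Fintype.card A with hadef
  let E : Finset A → Finset B → Finset (A → Fin 24 → B) := fun S T =>
    Fintype.piFinset (fun w => if w ∈ S then Fintype.piFinset (fun _ : Fin 24 => T)
      else (univ : Finset (Fin 24 → B)))
  have hE : ∀ S T, (E S T).card = (T.card ^ 24) ^ S.card * (m ^ 24) ^ (a - S.card) := by
    intro S T
    have h1 : (E S T).card = ∏ w : A, (if w ∈ S then T.card ^ 24 else m ^ 24) := by
      show (Fintype.piFinset _).card = _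
      rw [Fintype.card_piFinset]
      apply Finset.prod_congr rfl
      intro w _
      split_ifs
      · rw [Fintype.card_piFinset]
        simp
      · rw [Finset.card_univ, Fintype.card_fun, Fintype.card_fin]
    rw [h1, Finset.prod_ite, Finset.prod_const, Finset.prod_const]
    congr 2
    · congr 1
      ext w
      simp
    · have : (Finset.filter (fun w => w ∉ S) (univ : Finset A)) = Sᶜ := by
        ext w
        simp
      rw [this, Finset.card_compl]
  let bad : ℕ → Finset (A → Fin 24 → B) := fun s =>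
    (Finset.powersetCard s (univ : Finset A) ×ˢ Finset.powersetCard s (univ : Finset B)).biUnion
      (fun p => E p.1 p.2)
  have hcover : (univ : Finset (A → Fin 24 → B)) ⊆
      ((range m).filter (fun i => 4 * (i + 1) ≤ 3 * m)).biUnion (fun i => bad (i + 1)) := by
    intro f _
    obtain ⟨S, hS4, hSlt⟩ := hcon f
    have hSm : S.card ≤ m := by omega
    have hS1 : 1 ≤ S.card := by omega
    have hNle : (S.biUnion fun w => univ.image (f w)).card ≤ S.card := hSlt.le
    obtain ⟨T, hNT, hTc⟩ := Finset.exists_superset_card_eq hNle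
      (by rw [← hmdef]; exact hSm)
    rw [Finset.mem_biUnion]
    refine ⟨S.card - 1, ?_, ?_⟩
    · rw [Finset.mem_filter, Finset.mem_range]
      constructor
      · omega
      · have : S.card - 1 + 1 = S.card := by omega
        rw [this]
        exact hS4
    · have hs : S.card - 1 + 1 = S.card := by omega
      rw [hs]
      show f ∈ Finset.biUnion _ _
      rw [Finset.mem_biUnion]
      refine ⟨(S, T), ?_, ?_⟩
      · rw [Finset.mem_product]
        constructor
        · rw [Finset.mem_powersetCard]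
          exact ⟨Finset.subset_univ _, rfl⟩
        · rw [Finset.mem_powersetCard]
          exact ⟨Finset.subset_univ _, hTc⟩
      · show f ∈ Fintype.piFinset _
        rw [Fintype.mem_piFinset]
        intro w
        split_ifs with hw
        · rw [Fintype.mem_piFinset]
          intro j
          apply hNT
          rw [Finset.mem_biUnion]
          exact ⟨w, hw, Finset.mem_image.mpr ⟨j, Finset.mem_univ j, rfl⟩⟩
        · exact Finset.mem_univ _
  have hcount : ((m : ℝ) ^ 24) ^ a ≤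
      ∑ i ∈ (range m).filter (fun i => 4 * (i + 1) ≤ 3 * m),
        (1 / 10 : ℝ) ^ (i + 1) * ((m : ℝ) ^ 24) ^ a := by
    have h1 := Finset.card_le_card hcover
    have h2 : (univ : Finset (A → Fin 24 → B)).card = (m ^ 24) ^ a := by
      rw [Finset.card_univ, Fintype.card_fun, Fintype.card_fun, Fintype.card_fin]
    rw [h2] at h1
    have h3 := h1.trans Finset.card_biUnion_le
    have h4 : (((m ^ 24) ^ a : ℕ) : ℝ) ≤
        ((∑ i ∈ (range m).filter (fun i => 4 * (i + 1) ≤ 3 * m), (bad (i + 1)).card : ℕ) : ℝ) := by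
      exact_mod_cast h3
    push_cast at h4
    refine h4.trans ?_
    apply Finset.sum_le_sum
    intro i hi
    rw [Finset.mem_filter] at hi
    have h5 : (bad (i + 1)).card ≤ a.choose (i + 1) * m.choose (i + 1) *
        ((((i + 1) ^ 24) ^ (i + 1)) * (m ^ 24) ^ (a - (i + 1))) := by
      have h6 : (bad (i + 1)).card ≤
          ∑ p ∈ (Finset.powersetCard (i + 1) (univ : Finset A) ×ˢ
            Finset.powersetCard (i + 1) (univ : Finset B)), (E p.1 p.2).card :=
        Finset.card_biUnion_le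
      refine h6.trans ?_
      have h7 : ∀ p ∈ (Finset.powersetCard (i + 1) (univ : Finset A) ×ˢ
            Finset.powersetCard (i + 1) (univ : Finset B)), (E p.1 p.2).card =
            (((i + 1) ^ 24) ^ (i + 1)) * (m ^ 24) ^ (a - (i + 1)) := by
        intro p hp
        rw [Finset.mem_product, Finset.mem_powersetCard, Finset.mem_powersetCard] at hp
        rw [hE, hp.1.2, hp.2.2]
      rw [Finset.sum_congr rfl h7, Finset.sum_const, Finset.card_product,
        Finset.card_powersetCard, Finset.card_powersetCard, Finset.card_univ, Finset.card_univ,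
        smul_eq_mul]
    have h8 : ((bad (i + 1)).card : ℝ) ≤ ((a.choose (i + 1) * m.choose (i + 1) *
        ((((i + 1) ^ 24) ^ (i + 1)) * (m ^ 24) ^ (a - (i + 1))) : ℕ) : ℝ) := by
      exact_mod_cast h5
    refine h8.trans ?_
    have h9 := TplA_term a m (i + 1) h hi.2 hm
    push_cast at h9 ⊢
    exact h9
  rw [← Finset.sum_mul] at hcount
  have hpos : (0 : ℝ) < ((m : ℝ) ^ 24) ^ a := by
    have : (0 : ℝ) < (m : ℝ) := by exact_mod_cast hm
    positivity
  have hsum : ∑ i ∈ (range m).filter (fun i => 4 * (i + 1) ≤ 3 * m), (1 / 10 : ℝ) ^ (i + 1) ≤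
      1 / 9 := by
    have h1 : ∑ i ∈ (range m).filter (fun i => 4 * (i + 1) ≤ 3 * m), (1 / 10 : ℝ) ^ (i + 1) ≤
        ∑ i ∈ range m, (1 / 10 : ℝ) ^ (i + 1) := by
      apply Finset.sum_le_sum_of_subset_of_nonneg (Finset.filter_subset _ _)
      intro i _ _
      positivity
    rw [TplA_geom] at h1
    have h2 : (0 : ℝ) ≤ 1 / 9 * (1 / 10 : ℝ) ^ m := by positivity
    linarith
  have hfin : ((m : ℝ) ^ 24) ^ a ≤ 1 / 9 * ((m : ℝ) ^ 24) ^ a :=
    hcount.trans (mul_le_mul_of_nonneg_right hsum hpos.le)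
  linarith

end Pool.Agent.H60.HL
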