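import Pool.Agent.H60.HL.TrA1

/-!
# HL-22b TrA (theorem pieces and alloc; `dec` is job HL-22a): a tree is cut into small pieces

A tree with the vertices `0, ..., n - 1` is given by the parent function `p`, `p i < i` for `0 < i`.

`dec`: for every weight function `w` there are `C ⊆ range n` with `K * C.card ≤ ∑_{i < n} w i` and a
function `comp` such that for `i < n`, `i ∉ C`: `comp i ∉ C`, `comp i < n`, `comp i ≤ i`,
`comp (comp i) = comp i`; `comp i = i` if `i = 0` or `p i ∈ C`, and `comp i = comp (p i)` otherwise; and for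
every `r`: `∑_{i < n, i ∉ C, comp i = r} w i < K` or `≤ K - 1` (so `≤ K`).
Proof by induction on `n` (for all `w`).  `n = 0`: `C = ∅`.  Step from `n` to `n + 1`: the vertex `n` has no
children.  If `w n ≥ K`: take `C'`, `comp` for `n` and `w`, and `C = insert n C'`.  If `w n < K` and
`n = 0`: `C = ∅`, `comp 0 = 0`.  If `w n < K`, `n > 0`: let `w' = w` with `w' (p n) = w (p n) + w n`, take
`C`, `comp` for `n`, `w'`; if `p n ∉ C` put `comp n = comp (p n)`, then the sums over the classes are the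
same as before; if `p n ∈ C` put `comp n = n` (a new class of weight `w n < K`).
`pieces` (with `w = 1`): `R = {i < n : i ∉ C, comp i = i}`, `Pc r = {i < n : i ∉ C, comp i = r}` for
`r ∈ R`, `k r = (Pc r).card`, `e r j` the elements of `Pc r` in increasing order
(`Finset.orderEmbOfFin`); `e r 0 = r` as `comp i ≤ i`.  For `0 < j`, `i = e r j > r`, so `comp i ≠ i`,
hence `i ≠ 0`, `p i ∉ C` and `comp (p i) = comp i = r`, so `p i ∈ Pc r`, `p i < i`, and `p i = e r (P r j)`
with `P r j < j`.  For `j = 0`: `comp r = r`; if `r ≠ 0` and `p r ∉ C` then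
`r = comp r = comp (p r) ≤ p r < r`, contradiction.
`alloc`: induction, or a bijection of `Σ j, Fin (s j)` with an initial segment of `Fin M`
(`K j` = the image of the fibre over `j` under an injection `(Σ j, Fin (s j)) → Fin M`).
-/

namespace Pool.Agent.H60.HL

open Finset Classical

private theorem TrA_mem (n : ℕ) (C : Finset ℕ) (comp : ℕ → ℕ) (r i : ℕ) :
    i ∈ (range n).filter (fun i => i ∉ C ∧ comp i = r) ↔ i < n ∧ i ∉ C ∧ comp i = r := by
  simp [Finset.mem_filter]

/-- an increasing enumeration of a finite set -/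
private theorem TrA_enum (S : Finset ℕ) : ∃ e : ℕ → ℕ, (∀ j < S.card, e j ∈ S) ∧
    (∀ i ∈ S, ∃ j < S.card, e j = i) ∧
    (∀ j < S.card, ∀ j' < S.card, e j < e j' → j < j') ∧
    (∀ j < S.card, ∀ j' < S.card, e j = e j' → j = j') := by
  refine ⟨fun j => if h : j < S.card then S.orderEmbOfFin rfl ⟨j, h⟩ else 0, ?_, ?_, ?_, ?_⟩
  · intro j hj
    simp only [hj, dif_pos]
    exact Finset.orderEmbOfFin_mem S rfl _
  · intro i hi
    have h : i ∈ Set.range (S.orderEmbOfFin rfl) := by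
      rw [Finset.range_orderEmbOfFin]; exact hi
    obtain ⟨j, hj⟩ := h
    refine ⟨j.1, j.2, ?_⟩
    simp only [j.2, dif_pos]
    exact hj
  · intro j hj j' hj' h
    simp only [hj, hj', dif_pos] at h
    have := (S.orderEmbOfFin rfl).lt_iff_lt.1 h
    exact this
  · intro j hj j' hj' h
    simp only [hj, hj', dif_pos] at h
    have := (S.orderEmbOfFin rfl).injective h
    exact congrArg Fin.val this

theorem pieces (K : ℕ) (hK : 1 ≤ K) (n : ℕ) (p : ℕ → ℕ) (hp : ∀ i, 0 < i → i < n → p i < i) :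
    ∃ (C R : Finset ℕ) (k : ℕ → ℕ) (e P : ℕ → ℕ → ℕ), C ⊆ range n ∧ C.card * K ≤ n ∧
      (∀ r ∈ R, 1 ≤ k r ∧ k r ≤ K) ∧
      (∀ r ∈ R, ∀ j < k r, e r j < n ∧ e r j ∉ C) ∧
      (∀ i < n, i ∉ C → ∃ r ∈ R, ∃ j < k r, e r j = i) ∧
      (∀ r ∈ R, ∀ r' ∈ R, ∀ j < k r, ∀ j' < k r', e r j = e r' j' → r = r' ∧ j = j') ∧
      (∀ r ∈ R, ∀ j, 0 < j → j < k r → P r j < j ∧ e r (P r j) = p (e r j)) ∧
      ∀ r ∈ R, e r 0 = 0 ∨ p (e r 0) ∈ C := by
  obtain ⟨C, comp, hCn, hCc, h1, h2, h3, h4⟩ := dec K hK n p hp (fun _ => 1)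
  set Pc : ℕ → Finset ℕ := fun r => (range n).filter (fun i => i ∉ C ∧ comp i = r) with hPc
  have hmem : ∀ r i, i ∈ Pc r ↔ i < n ∧ i ∉ C ∧ comp i = r := fun r i => TrA_mem n C comp r i
  choose e he1 he2 he3 he4 using fun r => TrA_enum (Pc r)
  set R : Finset ℕ := (range n).filter (fun i => i ∉ C ∧ comp i = i) with hR
  have hRm : ∀ r, r ∈ R ↔ r < n ∧ r ∉ C ∧ comp r = r := by
    intro r; simp [hR, Finset.mem_filter]
  have hself : ∀ r ∈ R, r ∈ Pc r := fun r hr => (hmem r r).2 ((hRm r).1 hr)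
  have hpos : ∀ r ∈ R, 1 ≤ (Pc r).card := fun r hr => Finset.card_pos.2 ⟨r, hself r hr⟩
  have hge : ∀ r, ∀ i ∈ Pc r, r ≤ i := by
    intro r i hi
    obtain ⟨hi1, hi2, hi3⟩ := (hmem r i).1 hi
    have := (h1 i hi1 hi2).2.1
    omega
  have he0 : ∀ r ∈ R, e r 0 = r := by
    intro r hr
    obtain ⟨j, hj, hje⟩ := he2 r r (hself r hr)
    have h0 := hge r _ (he1 r 0 (hpos r hr))
    rcases Nat.lt_or_ge r (e r 0) with h | h
    · have := he3 r j hj 0 (hpos r hr) (by rw [hje]; exact h)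
      omega
    · omega
  have hpar : ∀ r ∈ R, ∀ j, 0 < j → j < (Pc r).card →
      ∃ j', j' < j ∧ e r j' = p (e r j) := by
    intro r hr j hj0 hj
    have hi := he1 r j hj
    obtain ⟨hi1, hi2, hi3⟩ := (hmem r _).1 hi
    have hne : e r j ≠ r := by
      intro h
      have := he4 r j hj 0 (hpos r hr) (by rw [h, he0 r hr])
      omega
    have hci : comp (e r j) ≠ e r j := by rw [hi3]; exact fun h => hne h.symm
    have hi0 : 0 < e r j := by
      rcases Nat.eq_zero_or_pos (e r j) with h | h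
      · exact absurd (h2 _ hi1 hi2 (Or.inl h)) hci
      · exact h
    have hpC : p (e r j) ∉ C := fun h => hci (h2 _ hi1 hi2 (Or.inr h))
    have hlt := hp _ hi0 hi1
    have hcp := h3 _ hi1 hi2 hi0 hpC
    have hpm : p (e r j) ∈ Pc r := (hmem r _).2 ⟨by omega, hpC, by rw [← hcp, hi3]⟩
    obtain ⟨j', hj', hje'⟩ := he2 r _ hpm
    exact ⟨j', he3 r j' hj' j hj (by rw [hje']; exact hlt), hje'⟩
  refine ⟨C, R, fun r => (Pc r).card, e,
    fun r j => if h : ∃ j', j' < j ∧ e r j' = p (e r j) then h.choose else 0, hCn, ?_, ?_, ?_, ?_,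
    ?_, ?_, ?_⟩
  · simpa using hCc
  · intro r hr
    refine ⟨hpos r hr, ?_⟩
    have := h4 r
    simpa using this
  · intro r hr j hj
    have := (hmem r _).1 (he1 r j hj)
    exact ⟨this.1, this.2.1⟩
  · intro i hi hiC
    obtain ⟨ha, hb, hc⟩ := h1 i hi hiC
    refine ⟨comp i, (hRm _).2 ⟨by omega, ha, hc⟩, ?_⟩
    exact he2 (comp i) i ((hmem _ _).2 ⟨hi, hiC, rfl⟩)
  · intro r hr r' hr' j hj j' hj' h
    have ha := ((hmem r _).1 (he1 r j hj)).2.2
    have hb := ((hmem r' _).1 (he1 r' j' hj')).2.2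
    have hrr : r = r' := by rw [← ha, h, hb]
    subst hrr
    exact ⟨rfl, he4 r j hj j' hj' h⟩
  · intro r hr j hj0 hj
    have h := hpar r hr j hj0 hj
    simp only [h, dif_pos]
    exact h.choose_spec
  · intro r hr
    rw [he0 r hr]
    obtain ⟨hr1, hr2, hr3⟩ := (hRm r).1 hr
    by_contra hcon
    push Not at hcon
    have h0 : 0 < r := Nat.pos_of_ne_zero hcon.1
    have hc := h3 r hr1 hr2 h0 hcon.2
    have hlt := hp r h0 hr1
    have := (h1 (p r) (by omega) hcon.2).2.1
    omega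

theorem alloc {J : Type} [Fintype J] (s : J → ℕ) (M : ℕ) (h : ∑ j, s j ≤ M) :
    ∃ K : J → Finset (Fin M), (∀ j, (K j).card = s j) ∧
      ∀ j j', j ≠ j' → Disjoint (K j) (K j') := by
  have hc : Fintype.card (Σ j, Fin (s j)) ≤ Fintype.card (Fin M) := by
    simpa using h
  obtain ⟨f⟩ := Function.Embedding.nonempty_of_card_le hc
  refine ⟨fun j => (Finset.univ : Finset (Fin (s j))).image (fun x => f ⟨j, x⟩), ?_, ?_⟩
  · intro j
    rw [Finset.card_image_of_injective]
    · simp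
    · intro x y hxy
      have := f.injective hxy
      simpa using this
  · intro j j' hjj
    rw [Finset.disjoint_left]
    intro x hx hx'
    obtain ⟨a, -, ha⟩ := Finset.mem_image.1 hx
    obtain ⟨b, -, hb⟩ := Finset.mem_image.1 hx'
    have := f.injective (ha.trans hb.symm)
    exact hjj (congrArg Sigma.fst this)

end Pool.Agent.H60.HL
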