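import Mathlib

/-!
# HL-22a TrA1 (theorem dec only; `pieces` is job HL-22b): a tree is cut into small pieces

A tree with the vertices `0, ..., n - 1` is given by the parent function `p`, `p i < i` for `0 < i`.

`dec`: for every weight function `w` there are `C ⊆ range n` with `K * C.card ≤ ∑_{i < n} w i` and a
function `comp` such that for `i < n`, `i ∉ C`: `comp i ∉ C`, `comp i < n`, `comp i ≤ i`,
`comp (comp i) = comp i`; `comp i = i` if `i = 0` or `p i ∈ C`, and `comp i = comp (p i)` otherwise; and for
every `r`: `∑_{i < n, i ∉ C, comp i = r} w i < K` or `≤ K - 1` (so `≤ K`).
Proof by induction on `n` (for all `w`).  `n = 0`: `C = ∅`.  Step from `n` to `n + 1`: the vertex `n` has no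
children.  If `w n ≥ K`: take `C'`, `comp` for `n` and `w`, and `C = insert n C'`.  If `w n < K` and
`n = 0`: `C = ∅`, `comp 0 = 0`.  If `w n < K`, `n > 0`: let `w' = w` with `w' (p n) = w (p n) + w n`, take
`C`, `comp` for `n`, `w'`; if `p n ∉ C` put `comp n = comp (p n)`, then the sums over the classes are the
same as before; if `p n ∈ C` put `comp n = n` (a new class of weight `w n < K`).
`pieces` (with `w = 1`): `R = {i < n : i ∉ C, comp i = i}`, `Pc r = {i < n : i ∉ C, comp i = r}` for
`r ∈ R`, `k r = (Pc r).card`, `e r j` the elements of `Pc r` in increasing order
(`Finset.orderEmbOfFin`); `e r 0 = r` as `comp i ≤ i`.  For `0 < j`, `i = e r j > r`, so `comp i ≠ i`,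
hence `i ≠ 0`, `p i ∉ C` and `comp (p i) = comp i = r`, so `p i ∈ Pc r`, `p i < i`, and `p i = e r (P r j)`
with `P r j < j`.  For `j = 0`: `comp r = r`; if `r ≠ 0` and `p r ∉ C` then
`r = comp r = comp (p r) ≤ p r < r`, contradiction.
-/

namespace Pool.Agent.H60.HL

open Finset Classical

theorem dec (K : ℕ) (hK : 1 ≤ K) (n : ℕ) (p : ℕ → ℕ) (hp : ∀ i, 0 < i → i < n → p i < i)
    (w : ℕ → ℕ) :
    ∃ (C : Finset ℕ) (comp : ℕ → ℕ), C ⊆ range n ∧ C.card * K ≤ ∑ i ∈ range n, w i ∧
      (∀ i < n, i ∉ C → comp i ∉ C ∧ comp i ≤ i ∧ comp (comp i) = comp i) ∧
      (∀ i < n, i ∉ C → (i = 0 ∨ p i ∈ C) → comp i = i) ∧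
      (∀ i < n, i ∉ C → 0 < i → p i ∉ C → comp i = comp (p i)) ∧
      ∀ r, ∑ i ∈ (range n).filter (fun i => i ∉ C ∧ comp i = r), w i ≤ K := by
  induction n generalizing w with
  | zero =>
    refine ⟨∅, id, by simp, by simp, ?_, ?_, ?_, ?_⟩
    · intro i hi; omega
    · intro i hi; omega
    · intro i hi; omega
    · intro r; simp
  | succ n ih =>
    have hp' : ∀ i, 0 < i → i < n → p i < i := fun i h0 h1 => hp i h0 (by omega)
    by_cases hw : K ≤ w n
    · obtain ⟨C, comp, hC, hcard, h1, h2, h3, h4⟩ := ih hp' w
      have hnC : n ∉ C := fun h => by
        have := mem_range.1 (hC h); omega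
      refine ⟨insert n C, comp, ?_, ?_, ?_, ?_, ?_, ?_⟩
      · intro x hx
        rcases mem_insert.1 hx with rfl | hx
        · exact mem_range.2 (by omega)
        · have := mem_range.1 (hC hx)
          exact mem_range.2 (by omega)
      · rw [card_insert_of_notMem hnC, sum_range_succ, add_mul, one_mul]
        omega
      · intro i hi hiC
        have hin : i ≠ n := fun h => hiC (by rw [h]; exact mem_insert_self _ _)
        have hiC' : i ∉ C := fun h => hiC (mem_insert_of_mem h)
        have hi' : i < n := by omega
        obtain ⟨a, b, c⟩ := h1 i hi' hiC'
        refine ⟨fun h => ?_, b, c⟩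
        rcases mem_insert.1 h with h | h
        · omega
        · exact a h
      · intro i hi hiC hor
        have hin : i ≠ n := fun h => hiC (by rw [h]; exact mem_insert_self _ _)
        have hiC' : i ∉ C := fun h => hiC (mem_insert_of_mem h)
        have hi' : i < n := by omega
        refine h2 i hi' hiC' ?_
        rcases Nat.eq_zero_or_pos i with h0 | h0
        · exact Or.inl h0
        · right
          rcases hor with h | h
          · omega
          · rcases mem_insert.1 h with h | h
            · have := hp' i h0 hi'; omega
            · exact h
      · intro i hi hiC h0 hpi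
        have hin : i ≠ n := fun h => hiC (by rw [h]; exact mem_insert_self _ _)
        have hiC' : i ∉ C := fun h => hiC (mem_insert_of_mem h)
        have hi' : i < n := by omega
        exact h3 i hi' hiC' h0 (fun h => hpi (mem_insert_of_mem h))
      · intro r
        have hf : (range (n + 1)).filter (fun i => i ∉ insert n C ∧ comp i = r) =
            (range n).filter (fun i => i ∉ C ∧ comp i = r) := by
          ext i
          simp only [mem_filter, mem_range, mem_insert, not_or]
          constructor
          · rintro ⟨a, ⟨b, c⟩, d⟩
            exact ⟨by omega, c, d⟩
          · rintro ⟨a, c, d⟩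
            exact ⟨by omega, ⟨by omega, c⟩, d⟩
        rw [hf]
        exact h4 r
    · have hw' : w n < K := not_le.1 hw
      rcases Nat.eq_zero_or_pos n with hn | hn
      · subst hn
        refine ⟨∅, fun _ => 0, by simp, by simp, ?_, ?_, ?_, ?_⟩
        · intro i hi _
          simp
        · intro i hi _ _
          have : i = 0 := by omega
          exact this.symm
        · intro i hi _ h0 _
          rfl
        · intro r
          refine le_trans (sum_le_sum_of_subset (filter_subset _ _)) ?_
          rw [sum_range_succ, range_zero, sum_empty]
          omega
      · have hpn : p n < n := hp n hn (by omega)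
        obtain ⟨C, comp, hC, hcard, h1, h2, h3, h4⟩ :=
          ih hp' (fun i => w i + if i = p n then w n else 0)
        have hnC : n ∉ C := fun h => by
          have := mem_range.1 (hC h); omega
        refine ⟨C, Function.update comp n (if p n ∈ C then n else comp (p n)), ?_, ?_, ?_, ?_, ?_, ?_⟩
        · intro x hx
          have := mem_range.1 (hC hx)
          exact mem_range.2 (by omega)
        · refine le_trans hcard ?_
          rw [sum_add_distrib, sum_range_succ]
          refine Nat.add_le_add_left ?_ _
          rw [sum_ite_eq' (range n) (p n) (fun _ => w n)]
          split_ifs <;> omega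
        · intro i hi hiC
          by_cases hin : i = n
          · rw [hin, Function.update_self]
            by_cases hpC : p n ∈ C
            · rw [if_pos hpC]
              exact ⟨hnC, le_refl _, by rw [Function.update_self]⟩
            · rw [if_neg hpC]
              obtain ⟨a, b, c⟩ := h1 (p n) hpn hpC
              refine ⟨a, by omega, ?_⟩
              rw [Function.update_of_ne (by omega), c]
          · have hi' : i < n := by omega
            obtain ⟨a, b, c⟩ := h1 i hi' hiC
            rw [Function.update_of_ne hin]
            refine ⟨a, b, ?_⟩
            rw [Function.update_of_ne (by omega), c]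
        · intro i hi hiC hor
          by_cases hin : i = n
          · rw [hin, Function.update_self]
            rw [hin] at hor
            rcases hor with h | h
            · omega
            · rw [if_pos h]
          · have hi' : i < n := by omega
            rw [Function.update_of_ne hin]
            exact h2 i hi' hiC hor
        · intro i hi hiC h0 hpi
          by_cases hin : i = n
          · rw [hin] at hpi ⊢
            rw [Function.update_self, if_neg hpi, Function.update_of_ne (by omega)]
          · have hi' : i < n := by omega
            have := hp' i h0 hi'
            rw [Function.update_of_ne hin, Function.update_of_ne (by omega)]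
            exact h3 i hi' hiC h0 hpi
        · intro r
          have h4r := h4 r
          have hsum : ∑ i ∈ (range n).filter (fun i => i ∉ C ∧ comp i = r),
              (w i + if i = p n then w n else 0) =
              ∑ i ∈ (range n).filter (fun i => i ∉ C ∧ comp i = r), w i +
                if p n ∉ C ∧ comp (p n) = r then w n else 0 := by
            rw [sum_add_distrib]
            refine congrArg (fun t => _ + t) ?_
            rw [sum_ite_eq' _ (p n) (fun _ => w n)]
            by_cases hc : p n ∉ C ∧ comp (p n) = r
            · rw [if_pos hc, if_pos (mem_filter.2 ⟨mem_range.2 hpn, hc⟩)]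
            · have hn' : p n ∉ (range n).filter (fun i => i ∉ C ∧ comp i = r) :=
                fun h => hc (mem_filter.1 h).2
              rw [if_neg hc, if_neg hn']
          rw [hsum] at h4r
          have hsum2 : ∑ i ∈ (range (n + 1)).filter (fun i => i ∉ C ∧
              Function.update comp n (if p n ∈ C then n else comp (p n)) i = r), w i =
              ∑ i ∈ (range n).filter (fun i => i ∉ C ∧ comp i = r), w i +
                if (if p n ∈ C then n else comp (p n)) = r then w n else 0 := by
            rw [sum_filter, sum_range_succ, sum_filter]
            refine congrArg₂ (fun a b => a + b) ?_ ?_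
            · refine sum_congr rfl fun i hi => ?_
              have hi' : i < n := mem_range.1 hi
              rw [Function.update_of_ne (by omega)]
            · rw [Function.update_self]
              by_cases hc : (if p n ∈ C then n else comp (p n)) = r
              · rw [if_pos ⟨hnC, hc⟩, if_pos hc]
              · rw [if_neg (fun h => hc h.2), if_neg hc]
          rw [hsum2]
          by_cases hpC : p n ∈ C
          · rw [if_pos hpC]
            rw [if_neg (fun h => h.1 hpC)] at h4r
            by_cases hr : n = r
            · rw [if_pos hr]
              have hz : ∑ i ∈ (range n).filter (fun i => i ∉ C ∧ comp i = r), w i = 0 := by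
                refine sum_eq_zero fun i hi => ?_
                obtain ⟨hi1, hi2, hi3⟩ := mem_filter.1 hi
                have hi' : i < n := mem_range.1 hi1
                obtain ⟨a, b, c⟩ := h1 i hi' hi2
                omega
              rw [hz]
              omega
            · rw [if_neg hr]
              exact h4r
          · rw [if_neg hpC]
            have he : (if p n ∉ C ∧ comp (p n) = r then w n else 0) =
                if comp (p n) = r then w n else 0 := by
              by_cases hc : comp (p n) = r
              · rw [if_pos ⟨hpC, hc⟩, if_pos hc]
              · rw [if_neg (fun h => hc h.2), if_neg hc]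
            rw [he] at h4r
            exact h4r

end Pool.Agent.H60.HL
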