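import Pool.Agent.H60.HL.TrB1

/-!
# HL-23b TrB: counting the copies of a small tree

`Cpy`: the maps `x : Fin k → G` with `χ true (x j) ∈ A j` and, for `j > 0`,
`χ false (x j + x (P j)) ∈ B j`.  `α = a / M`, `q = card G`, `D = (α² q)^(k-1)`.
Proof of `code_count` by induction on `k ≥ 1`, with the error factors `(1 ± η M²)^(k-1)`: let
`δ = η M²`; for `a ≥ 1` (so `α ≥ 1 / M`) `Rnd χ 3 η` gives for all `z : G`, `j`, `j'`:
(a) `#{t : χ true t ∈ A j, χ false (t + z) ∈ B j} = α² q (1 ± δ)` (places `(true, true, 0)`,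
`(false, true, z)`); (b) `#{t : χ true t ∈ A j, χ false (t + z) ∈ B j'}`, the same;
(c) `#{t : χ true t ∈ A j, χ true (z - t) ∈ A j'} = α² q (1 ± δ)` (places `(true, true, 0)`,
`(true, false, z)`).
`k = 1`: `Cpy` are the `x` with `χ true (x 0) ∈ A 0`; exactly one with `x 0 = z` for each `z` in the class.
Step `k → k + 1` (`k ≥ 1`), the last vertex is `l = k`, `i = P l < l`; `x` is `(x', s)` with `x'` in `Cpy` of
the first `k` vertices (`Fin.snoc`, `Fin.castSucc`; `P` maps the first `k` vertices to themselves), and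
`s` with `χ true s ∈ A l`, `χ false (s + x' i) ∈ B l`.
* `x j = z`, `j < l`: for each `x'` with `x' j = z` the number of `s` is `α² q (1 ± δ)` by (a).
* `x l = z`: the number of `x'` with `χ false (z + x' i) ∈ B l` is the sum over the `t` with
`χ true t ∈ A i`, `χ false (t + z) ∈ B l` (by (b) `α² q (1 ± δ)` values) of the number of `x'` with
`x' i = t` (induction hypothesis).
* `x j + x (P j) = z`, `j < l`: as the first case.
* `x l + x i = z` (with `χ false z ∈ B l`): the sum over the `t` with `χ true t ∈ A i`,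
`χ true (z - t) ∈ A l` (by (c)) of the number of `x'` with `x' i = t`.
Finally `(1 + δ)^K ≤ 1 + ε`, `(1 - δ)^K ≥ 1 - ε` for small `δ`.
-/

namespace Pool.Agent.H60.HL

open Finset Classical

private theorem TrB_mf {α : Type} {p : α → Prop} {d : DecidablePred p} {s : Finset α} {a : α} :
    a ∈ @Finset.filter α p d s ↔ a ∈ s ∧ p a :=
  Finset.mem_filter

private theorem TrB_two {M : ℕ} {η : ℝ} {G : Type} [AddCommGroup G] [Fintype G]
    {χ : Bool → G → Fin M} (h : Rnd χ 3 η) (v0 v1 : Bool × Bool × G) (hv : v0 ≠ v1)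
    (K0 K1 : Finset (Fin M)) (S : Finset G)
    (hS : ∀ t, t ∈ S ↔ χ v0.1 (pt v0.2.1 v0.2.2 t) ∈ K0 ∧ χ v1.1 (pt v1.2.1 v1.2.2 t) ∈ K1) :
    |(S.card : ℝ) -
      Fintype.card G * (((K0.card : ℝ) / M) * ((K1.card : ℝ) / M))| ≤ η * Fintype.card G := by
  have h1 := h Bool (by simp) (fun b => if b then v0 else v1) (by
    intro a b hab
    cases a <;> cases b
    · rfl
    · exact absurd (by simpa using hab) (Ne.symm hv)
    · exact absurd (by simpa using hab) hv
    · rfl) (fun b => if b then K0 else K1)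
  obtain ⟨S', hS', h2⟩ : ∃ S' : Finset G, (∀ t, t ∈ S' ↔ ∀ x : Bool,
      χ (if x = true then v0 else v1).1
        (pt (if x = true then v0 else v1).2.1 (if x = true then v0 else v1).2.2 t) ∈
        (if x = true then K0 else K1)) ∧ |(S'.card : ℝ) - Fintype.card G *
        ∏ x : Bool, (((if x = true then K0 else K1).card : ℝ) / M)| ≤ η * Fintype.card G := by
    refine ⟨_, ?_, h1⟩
    intro t
    exact TrB_mf.trans ⟨fun h => h.2, fun h => ⟨mem_univ _, h⟩⟩
  have e1 : S' = S := by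
    ext t
    rw [hS', hS]
    constructor
    · intro ht
      exact ⟨by simpa using ht true, by simpa using ht false⟩
    · rintro ⟨ht1, ht2⟩ x
      cases x
      · simpa using ht2
      · simpa using ht1
  have e2 : (∏ x : Bool, (((if x = true then K0 else K1).card : ℝ) / M)) =
      ((K0.card : ℝ) / M) * ((K1.card : ℝ) / M) := by
    rw [Fintype.prod_bool]
    simp
  rw [e1, e2] at h2
  exact h2

/-- the copies on `n + 2` vertices in terms of the copies on the first `n + 1` vertices -/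
private theorem TrB_mem {M : ℕ} {G : Type} [AddCommGroup G] [Fintype G] (χ : Bool → G → Fin M)
    {n : ℕ} (P : Fin (n + 2) → Fin (n + 2)) (P' : Fin (n + 1) → Fin (n + 1))
    (hP' : ∀ j : Fin (n + 1), 0 < (j : ℕ) → (P' j).castSucc = P j.castSucc)
    (i : Fin (n + 1)) (hi : i.castSucc = P (Fin.last (n + 1)))
    (A B : Fin (n + 2) → Finset (Fin M)) (x : Fin (n + 2) → G) :
    x ∈ Cpy χ P A B ↔ Fin.init x ∈ Cpy χ P' (fun j => A j.castSucc) (fun j => B j.castSucc) ∧
      χ true (x (Fin.last (n + 1))) ∈ A (Fin.last (n + 1)) ∧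
      χ false (x (Fin.last (n + 1)) + Fin.init x i) ∈ B (Fin.last (n + 1)) := by
  have hI : ∀ j : Fin (n + 1), (Fin.init x : Fin (n + 1) → G) j = x j.castSucc := fun j => rfl
  simp only [Cpy, mem_filter, mem_univ, true_and]
  constructor
  · rintro ⟨h1, h2⟩
    refine ⟨⟨fun j => h1 _, fun j hj => ?_⟩, h1 _, ?_⟩
    · have := h2 j.castSucc (by simpa using hj)
      rw [hI, hI, hP' j hj]
      exact this
    · rw [hI, hi]
      exact h2 _ (by simp)
  · rintro ⟨⟨h1, h2⟩, h3, h4⟩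
    refine ⟨fun j => ?_, fun j hj => ?_⟩
    · refine Fin.lastCases (motive := fun j => χ true (x j) ∈ A j) h3 (fun k => ?_) j
      exact h1 k
    · revert hj
      refine Fin.lastCases (motive := fun j : Fin (n + 2) => 0 < (j : ℕ) →
        χ false (x j + x (P j)) ∈ B j) (fun _ => ?_) (fun k hk => ?_) j
      · rw [← hi]
        exact h4
      · have h5 := h2 k (by simpa using hk)
        rw [hI, hI, hP' k (by simpa using hk)] at h5
        exact h5

/-- the number of copies with a property as a sum -/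
private theorem TrB_card {M : ℕ} {G : Type} [AddCommGroup G] [Fintype G] (χ : Bool → G → Fin M)
    {n : ℕ} (P : Fin (n + 2) → Fin (n + 2)) (P' : Fin (n + 1) → Fin (n + 1))
    (hP' : ∀ j : Fin (n + 1), 0 < (j : ℕ) → (P' j).castSucc = P j.castSucc)
    (i : Fin (n + 1)) (hi : i.castSucc = P (Fin.last (n + 1)))
    (A B : Fin (n + 2) → Finset (Fin M)) (Φ : (Fin (n + 1) → G) → G → Prop)
    (S : Finset (Fin (n + 2) → G))
    (hS : ∀ x, x ∈ S ↔ x ∈ Cpy χ P A B ∧ Φ (Fin.init x) (x (Fin.last (n + 1))))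
    (T : (Fin (n + 1) → G) → Finset G)
    (hT : ∀ y s, s ∈ T y ↔ (χ true s ∈ A (Fin.last (n + 1)) ∧
          χ false (s + y i) ∈ B (Fin.last (n + 1))) ∧ Φ y s) :
    S.card = ∑ y ∈ Cpy χ P' (fun j => A j.castSucc) (fun j => B j.castSucc), (T y).card := by
  have hm := TrB_mem χ P P' hP' i hi A B
  rw [Finset.card_eq_sum_card_fiberwise (f := fun x : Fin (n + 2) → G => (Fin.init x : Fin (n + 1) → G))
    (t := Cpy χ P' (fun j => A j.castSucc) (fun j => B j.castSucc))]
  · refine Finset.sum_congr rfl fun y hy => ?_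
    refine Finset.card_nbij' (fun x => x (Fin.last (n + 1)))
      (fun s => (Fin.snoc y s : Fin (n + 2) → G)) ?_ ?_ ?_ ?_
    · intro x hx
      obtain ⟨hx1, hx3⟩ := mem_filter.1 (Finset.mem_coe.1 hx)
      obtain ⟨hx1, hx2⟩ := (hS x).1 hx1
      have h3 := (hm x).1 hx1
      rw [hx3] at h3 hx2
      exact Finset.mem_coe.2 ((hT y _).2 ⟨h3.2, hx2⟩)
    · intro s hs
      obtain ⟨hs1, hs2⟩ := (hT y s).1 (Finset.mem_coe.1 hs)
      have e1 : (Fin.init (Fin.snoc y s : Fin (n + 2) → G) : Fin (n + 1) → G) = y :=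
        Fin.init_snoc _ _
      have e2 : (Fin.snoc y s : Fin (n + 2) → G) (Fin.last (n + 1)) = s := Fin.snoc_last _ _
      refine Finset.mem_coe.2 (mem_filter.2 ⟨(hS _).2 ⟨(hm _).2 ?_, ?_⟩, e1⟩)
      · dsimp only
        rw [e1, e2]
        exact ⟨hy, hs1⟩
      · dsimp only
        rw [e1, e2]
        exact hs2
    · intro x hx
      obtain ⟨hx1, hx3⟩ := mem_filter.1 (Finset.mem_coe.1 hx)
      simp only
      rw [← hx3]
      exact Fin.snoc_init_self _
    · intro s hs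
      exact Fin.snoc_last _ _
  · intro x hx
    exact Finset.mem_coe.2 ((hm x).1 ((hS x).1 (Finset.mem_coe.1 hx)).1).1

private theorem TrB_sum {M : ℕ} {G : Type} [Fintype G] (χ : Bool → G → Fin M) {k : ℕ}
    (S : Finset (Fin k → G)) (i : Fin k) (K : Finset (Fin M)) (hS : ∀ x ∈ S, χ true (x i) ∈ K)
    (C : G → Prop) (T : Finset G) (hT : ∀ t, t ∈ T ↔ χ true t ∈ K ∧ C t) (f : (Fin k → G) → ℕ)
    (hf1 : ∀ x, C (x i) → f x = 1) (hf0 : ∀ x, ¬ C (x i) → f x = 0) :
    (∑ x ∈ S, f x) = ∑ t ∈ T, (S.filter fun x => x i = t).card := by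
  have e0 : (∑ x ∈ S, f x) = (S.filter fun x => C (x i)).card := by
    rw [Finset.card_filter]
    refine Finset.sum_congr rfl fun x _ => ?_
    by_cases hx : C (x i)
    · rw [hf1 x hx, if_pos hx]
    · rw [hf0 x hx, if_neg hx]
  rw [e0, Finset.card_eq_sum_card_fiberwise (f := fun x : Fin k → G => x i) (t := T)]
  · refine Finset.sum_congr rfl fun t ht => ?_
    congr 1
    ext x
    rw [mem_filter, mem_filter, mem_filter]
    constructor
    · rintro ⟨⟨h1, h2⟩, h3⟩
      exact ⟨h1, h3⟩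
    · rintro ⟨h1, h3⟩
      exact ⟨⟨h1, by rw [h3]; exact ((hT t).1 ht).2⟩, h3⟩
  · intro x hx
    obtain ⟨h1, h2⟩ := mem_filter.1 (Finset.mem_coe.1 hx)
    exact Finset.mem_coe.2 ((hT _).2 ⟨hS x h1, h2⟩)

private theorem TrB_bd {ι : Type} (S : Finset ι) (f : ι → ℕ) (lo hi l h : ℝ) (hl : 0 ≤ l)
    (hh : 0 ≤ h) (hS : lo ≤ (S.card : ℝ) ∧ (S.card : ℝ) ≤ hi)
    (hf : ∀ x ∈ S, l ≤ (f x : ℝ) ∧ (f x : ℝ) ≤ h) :
    l * lo ≤ ((∑ x ∈ S, f x : ℕ) : ℝ) ∧ ((∑ x ∈ S, f x : ℕ) : ℝ) ≤ h * hi := by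
  push_cast
  constructor
  · calc l * lo ≤ l * (S.card : ℝ) := mul_le_mul_of_nonneg_left hS.1 hl
      _ = ∑ x ∈ S, l := by rw [Finset.sum_const, nsmul_eq_mul, mul_comm]
      _ ≤ ∑ x ∈ S, (f x : ℝ) := Finset.sum_le_sum fun x hx => (hf x hx).1
  · calc ∑ x ∈ S, (f x : ℝ) ≤ ∑ x ∈ S, h := Finset.sum_le_sum fun x hx => (hf x hx).2
      _ = h * (S.card : ℝ) := by rw [Finset.sum_const, nsmul_eq_mul, mul_comm]
      _ ≤ h * hi := mul_le_mul_of_nonneg_left hS.2 hh

/-- the cardinality lies between the bounds -/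
private def TrB_in {X : Type} (lo hi : ℝ) (S : Finset X) : Prop :=
  lo ≤ (S.card : ℝ) ∧ (S.card : ℝ) ≤ hi

private theorem TrB_core {M : ℕ} {G : Type} [AddCommGroup G] [Fintype G] (χ : Bool → G → Fin M)
    (a : ℕ) (lo up : ℝ) (hlo : 0 ≤ lo) (hhi : 0 ≤ up)
    (h1 : ∀ (z : G) (K0 K1 : Finset (Fin M)), K0.card = a → K1.card = a → ∀ S : Finset G,
      (∀ t, t ∈ S ↔ χ true t ∈ K0 ∧ χ false (t + z) ∈ K1) → TrB_in lo up S)
    (h2 : ∀ (z : G) (K0 K1 : Finset (Fin M)), K0.card = a → K1.card = a → ∀ S : Finset G,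
      (∀ t, t ∈ S ↔ χ true t ∈ K0 ∧ χ true (z - t) ∈ K1) → TrB_in lo up S) :
    ∀ n : ℕ, ∀ (P : Fin (n + 1) → Fin (n + 1)), (∀ j : Fin (n + 1), 0 < (j : ℕ) → P j < j) →
      ∀ (A B : Fin (n + 1) → Finset (Fin M)), (∀ j, (A j).card = a) → (∀ j, (B j).card = a) →
      (∀ j z, χ true z ∈ A j → ∀ S : Finset (Fin (n + 1) → G),
        (∀ x, x ∈ S ↔ x ∈ Cpy χ P A B ∧ x j = z) → TrB_in (lo ^ n) (up ^ n) S) ∧
      (∀ j : Fin (n + 1), 0 < (j : ℕ) → ∀ z, χ false z ∈ B j → ∀ S : Finset (Fin (n + 1) → G),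
        (∀ x, x ∈ S ↔ x ∈ Cpy χ P A B ∧ x j + x (P j) = z) → TrB_in (lo ^ n) (up ^ n) S) := by
  intro n
  induction n with
  | zero =>
    intro P hP A B hA hB
    refine ⟨fun j z hz S hS => ?_, fun j hj => ?_⟩
    · have e1 : S = {fun _ => z} := by
        ext x
        rw [hS, mem_singleton]
        simp only [Cpy, mem_filter, mem_univ, true_and]
        constructor
        · rintro ⟨_, h⟩
          funext i
          rw [show i = j from Fin.ext (by omega), h]
        · rintro rfl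
          refine ⟨⟨fun i => by rw [show i = j from Fin.ext (by omega)]; exact hz,
            fun i hi => ?_⟩, rfl⟩
          exact absurd hi (by omega)
      rw [e1]
      simp [TrB_in]
    · exact absurd hj (by omega)
  | succ n ih =>
    intro P hP A B hA hB
    -- the parent function on the first vertices
    obtain ⟨P', hP'⟩ : ∃ P' : Fin (n + 1) → Fin (n + 1),
        ∀ j : Fin (n + 1), 0 < (j : ℕ) → (P' j).castSucc = P j.castSucc := by
      refine ⟨fun j => if h : (P j.castSucc : ℕ) < n + 1 then ⟨P j.castSucc, h⟩ else 0,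
        fun j hj => ?_⟩
      have h3 : P j.castSucc < j.castSucc := hP _ (by simpa using hj)
      have h4 : (P j.castSucc : ℕ) < n + 1 := by
        have h5 : (P j.castSucc : ℕ) < (j : ℕ) := h3
        omega
      dsimp only
      rw [dif_pos h4]
      exact Fin.ext rfl
    have hP'lt : ∀ j : Fin (n + 1), 0 < (j : ℕ) → P' j < j := by
      intro j hj
      have h3 : P j.castSucc < j.castSucc := hP _ (by simpa using hj)
      rw [← hP' j hj] at h3
      exact h3
    obtain ⟨i, hil⟩ : ∃ i : Fin (n + 1), i.castSucc = P (Fin.last (n + 1)) := by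
      have h3 : P (Fin.last (n + 1)) < Fin.last (n + 1) := hP _ (by simp)
      have h4 : (P (Fin.last (n + 1)) : ℕ) < n + 1 := h3
      exact ⟨⟨P (Fin.last (n + 1)), h4⟩, Fin.ext rfl⟩
    obtain ⟨IH1, IH2⟩ := ih P' hP'lt (fun j => A j.castSucc) (fun j => B j.castSucc)
      (fun j => hA _) (fun j => hB _)
    have hcard := TrB_card χ P P' hP' i hil A B
    -- first type: the property only depends on the first vertices
    have key1 : ∀ Φ : (Fin (n + 1) → G) → Prop,
        (∀ S' : Finset (Fin (n + 1) → G), (∀ y, y ∈ S' ↔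
          y ∈ Cpy χ P' (fun j => A j.castSucc) (fun j => B j.castSucc) ∧ Φ y) →
          TrB_in (lo ^ n) (up ^ n) S') →
        ∀ S : Finset (Fin (n + 2) → G), (∀ x, x ∈ S ↔ x ∈ Cpy χ P A B ∧ Φ (Fin.init x)) →
        TrB_in (lo ^ (n + 1)) (up ^ (n + 1)) S := by
      intro Φ hΦ S hS
      have e1 := hcard (fun y _ => Φ y) S hS (fun y => univ.filter fun s : G =>
        (χ true s ∈ A (Fin.last (n + 1)) ∧ χ false (s + y i) ∈ B (Fin.last (n + 1))) ∧ Φ y)
        (fun y s => by rw [mem_filter]; exact ⟨fun h => h.2, fun h => ⟨mem_univ _, h⟩⟩)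
      have e2 : (∑ y ∈ Cpy χ P' (fun j => A j.castSucc) (fun j => B j.castSucc),
          (univ.filter fun s : G => (χ true s ∈ A (Fin.last (n + 1)) ∧
            χ false (s + y i) ∈ B (Fin.last (n + 1))) ∧ Φ y).card) =
          ∑ y ∈ (Cpy χ P' (fun j => A j.castSucc) (fun j => B j.castSucc)).filter Φ,
            (univ.filter fun s : G => χ true s ∈ A (Fin.last (n + 1)) ∧
              χ false (s + y i) ∈ B (Fin.last (n + 1))).card := by
        rw [Finset.sum_filter]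
        refine Finset.sum_congr rfl fun y _ => ?_
        by_cases hy : Φ y
        · rw [if_pos hy]
          congr 1
          ext s
          rw [mem_filter, mem_filter]
          exact ⟨fun h => ⟨h.1, h.2.1⟩, fun h => ⟨h.1, h.2, hy⟩⟩
        · rw [if_neg hy, Finset.card_eq_zero, Finset.filter_eq_empty_iff]
          exact fun s _ h => hy h.2
      rw [e2] at e1
      unfold TrB_in
      rw [e1, pow_succ', pow_succ']
      refine TrB_bd _ _ _ _ _ _ hlo hhi (hΦ _ fun y => mem_filter) (fun y _ => ?_)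
      exact h1 _ _ _ (hA _) (hB _) _
        (fun t => by rw [mem_filter]; exact ⟨fun h => h.2, fun h => ⟨mem_univ _, h⟩⟩)
    -- second type: the last vertex is determined by the first ones
    have key2 : ∀ (Φ : (Fin (n + 1) → G) → G → Prop) (C : G → Prop)
        (e : (Fin (n + 1) → G) → G),
        (∀ (y : Fin (n + 1) → G) (s : G), ((χ true s ∈ A (Fin.last (n + 1)) ∧
            χ false (s + y i) ∈ B (Fin.last (n + 1))) ∧ Φ y s) ↔ (C (y i) ∧ s = e y)) →
        (∀ T : Finset G, (∀ t, t ∈ T ↔ χ true t ∈ A i.castSucc ∧ C t) → TrB_in lo up T) →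
        ∀ S : Finset (Fin (n + 2) → G), (∀ x, x ∈ S ↔ x ∈ Cpy χ P A B ∧
          Φ (Fin.init x) (x (Fin.last (n + 1)))) →
        TrB_in (lo ^ (n + 1)) (up ^ (n + 1)) S := by
      intro Φ C e hΦ hC S hS
      have e1 := hcard Φ S hS (fun y => univ.filter fun s : G =>
        (χ true s ∈ A (Fin.last (n + 1)) ∧ χ false (s + y i) ∈ B (Fin.last (n + 1))) ∧ Φ y s)
        (fun y s => by rw [mem_filter]; exact ⟨fun h => h.2, fun h => ⟨mem_univ _, h⟩⟩)
      have e2 := TrB_sum χ (Cpy χ P' (fun j => A j.castSucc) (fun j => B j.castSucc)) i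
        (A i.castSucc) (fun x hx => by
          simp only [Cpy, mem_filter, mem_univ, true_and] at hx
          exact hx.1 i) C (univ.filter fun t : G => χ true t ∈ A i.castSucc ∧ C t)
        (fun t => by rw [mem_filter]; exact ⟨fun h => h.2, fun h => ⟨mem_univ _, h⟩⟩)
        (fun y => (univ.filter fun s : G =>
        (χ true s ∈ A (Fin.last (n + 1)) ∧ χ false (s + y i) ∈ B (Fin.last (n + 1))) ∧
          Φ y s).card)
        (fun y hy => by
          rw [Finset.card_eq_one]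
          refine ⟨e y, ?_⟩
          ext s
          rw [mem_filter, mem_singleton, hΦ]
          exact ⟨fun h => h.2.2, fun h => ⟨mem_univ _, hy, h⟩⟩)
        (fun y hy => by
          rw [Finset.card_eq_zero, Finset.filter_eq_empty_iff]
          exact fun s _ h => hy ((hΦ y s).1 h).1)
      rw [e2] at e1
      unfold TrB_in
      rw [e1, pow_succ, pow_succ]
      refine TrB_bd _ _ _ _ _ _ (pow_nonneg hlo n) (pow_nonneg hhi n)
        (hC _ (fun t => by rw [mem_filter]; exact ⟨fun h => h.2, fun h => ⟨mem_univ _, h⟩⟩))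
        (fun t ht => ?_)
      exact IH1 i t (mem_filter.1 ht).2.1 _ (fun x => mem_filter)
    refine ⟨fun j z hz S hS => ?_, fun j hj z hz S hS => ?_⟩
    · rcases Fin.eq_castSucc_or_eq_last j with ⟨k, rfl⟩ | rfl
      · exact key1 (fun y => y k = z) (IH1 k z hz) S hS
      · refine key2 (fun _ s => s = z) (fun t => χ false (t + z) ∈ B (Fin.last (n + 1)))
          (fun _ => z) (fun y s => ?_) (h1 z _ _ (hA _) (hB _)) S hS
        constructor
        · rintro ⟨⟨_, h⟩, h3⟩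
          rw [h3, add_comm z (y i)] at h
          exact ⟨h, h3⟩
        · rintro ⟨h, h3⟩
          rw [h3, add_comm z (y i)]
          exact ⟨⟨hz, h⟩, rfl⟩
    · rcases Fin.eq_castSucc_or_eq_last j with ⟨k, rfl⟩ | rfl
      · have hk' : 0 < (k : ℕ) := hj
        rw [← hP' k hk'] at hS
        exact key1 (fun y => y k + y (P' k) = z) (IH2 k hk' z hz) S hS
      · rw [← hil] at hS
        refine key2 (fun y s => s + y i = z) (fun t => χ true (z - t) ∈ A (Fin.last (n + 1)))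
          (fun y => z - y i) (fun y s => ?_) (h2 z _ _ (hA _) (hA _)) S hS
        constructor
        · rintro ⟨⟨h, _⟩, h3⟩
          rw [eq_sub_of_add_eq h3] at h
          exact ⟨h, eq_sub_of_add_eq h3⟩
        · rintro ⟨h, rfl⟩
          exact ⟨⟨h, by rw [sub_add_cancel]; exact hz⟩, sub_add_cancel _ _⟩

theorem code_count (K M : ℕ) (ε : ℝ) (hε : 0 < ε) :
    ∃ η : ℝ, 0 < η ∧ ∀ (G : Type) [AddCommGroup G] [Fintype G] (χ : Bool → G → Fin M),
      Rnd χ 3 η → ∀ (k : ℕ), 1 ≤ k → k ≤ K → ∀ (P : Fin k → Fin k),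
      (∀ j : Fin k, 0 < (j : ℕ) → P j < j) → ∀ (a : ℕ) (A B : Fin k → Finset (Fin M)), 1 ≤ a →
      (∀ j, (A j).card = a) → (∀ j, (B j).card = a) →
      (∀ j z, χ true z ∈ A j →
        |(((Cpy χ P A B).filter fun x => x j = z).card : ℝ) -
          (((a : ℝ) / M) ^ 2 * Fintype.card G) ^ (k - 1)| ≤
          ε * (((a : ℝ) / M) ^ 2 * Fintype.card G) ^ (k - 1)) ∧
      (∀ j : Fin k, 0 < (j : ℕ) → ∀ z, χ false z ∈ B j →
        |(((Cpy χ P A B).filter fun x => x j + x (P j) = z).card : ℝ) -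
          (((a : ℝ) / M) ^ 2 * Fintype.card G) ^ (k - 1)| ≤
          ε * (((a : ℝ) / M) ^ 2 * Fintype.card G) ^ (k - 1)) := by
  obtain ⟨δ, hδ0, hδ1, hδ2⟩ : ∃ δ : ℝ, 0 < δ ∧ (K : ℝ) * δ ≤ 1 ∧ 2 * ((K : ℝ) * δ) ≤ ε ∧ δ ≤ 1 := by
    have hK : (0 : ℝ) < (K : ℝ) + 1 := by positivity
    have hm : 0 < min 1 (ε / 2) := lt_min one_pos (half_pos hε)
    refine ⟨min 1 (ε / 2) / ((K : ℝ) + 1), div_pos hm hK, ?_, ?_, ?_⟩
    · have : (K : ℝ) * (min 1 (ε / 2) / ((K : ℝ) + 1)) ≤ min 1 (ε / 2) := by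
        rw [← mul_div_assoc, div_le_iff₀ hK]
        nlinarith
      exact this.trans (min_le_left _ _)
    · have : (K : ℝ) * (min 1 (ε / 2) / ((K : ℝ) + 1)) ≤ min 1 (ε / 2) := by
        rw [← mul_div_assoc, div_le_iff₀ hK]
        nlinarith
      have h2 := this.trans (min_le_right _ _)
      linarith
    · rw [div_le_one hK]
      have := min_le_left 1 (ε / 2)
      have hK0 : (0 : ℝ) ≤ (K : ℝ) := Nat.cast_nonneg _
      linarith
  obtain ⟨hδ2, hδ3⟩ := hδ2
  refine ⟨δ / ((M : ℝ) ^ 2 + 1), by positivity, ?_⟩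
  intro G _ _ χ hR k hk1 hkK P hP a A B ha hA hB
  have hM : 0 < M := lt_of_le_of_lt (Nat.zero_le _) (χ true 0).isLt
  have hMR : (0 : ℝ) < M := by exact_mod_cast hM
  have haR : (1 : ℝ) ≤ a := by exact_mod_cast ha
  have hqR : (0 : ℝ) ≤ Fintype.card G := Nat.cast_nonneg _
  set D : ℝ := ((a : ℝ) / M) ^ 2 * Fintype.card G with hD
  have hD0 : 0 ≤ D := by positivity
  have hη : δ / ((M : ℝ) ^ 2 + 1) * Fintype.card G ≤ δ * D := by
    rw [hD, ← mul_assoc]
    refine mul_le_mul_of_nonneg_right ?_ hqR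
    rw [div_pow, div_le_iff₀ (by positivity)]
    have h3 : (1 : ℝ) ≤ (a : ℝ) ^ 2 / (M : ℝ) ^ 2 * ((M : ℝ) ^ 2 + 1) := by
      rw [div_mul_eq_mul_div, le_div_iff₀ (by positivity)]
      nlinarith [sq_nonneg (M : ℝ), mul_le_mul haR haR (by norm_num) (by linarith : (0 : ℝ) ≤ a)]
    calc δ = δ * 1 := (mul_one _).symm
      _ ≤ δ * ((a : ℝ) ^ 2 / (M : ℝ) ^ 2 * ((M : ℝ) ^ 2 + 1)) :=
        mul_le_mul_of_nonneg_left h3 hδ0.le
      _ = δ * ((a : ℝ) ^ 2 / (M : ℝ) ^ 2) * ((M : ℝ) ^ 2 + 1) := by ring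
  have hbd : ∀ (v0 v1 : Bool × Bool × G), v0 ≠ v1 → ∀ K0 K1 : Finset (Fin M), K0.card = a →
      K1.card = a → ∀ S : Finset G,
      (∀ t, t ∈ S ↔ χ v0.1 (pt v0.2.1 v0.2.2 t) ∈ K0 ∧ χ v1.1 (pt v1.2.1 v1.2.2 t) ∈ K1) →
      TrB_in ((1 - δ) * D) ((1 + δ) * D) S := by
    intro v0 v1 hv K0 K1 h0 h1 S hS
    have h2 := TrB_two hR v0 v1 hv K0 K1 S hS
    rw [h0, h1] at h2
    have h3 : (Fintype.card G : ℝ) * ((a : ℝ) / M * ((a : ℝ) / M)) = D := by rw [hD]; ring
    rw [h3] at h2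
    have h4 := abs_le.1 (h2.trans hη)
    constructor <;> linarith [h4.1, h4.2]
  have hc1 : ∀ (z : G) (K0 K1 : Finset (Fin M)), K0.card = a → K1.card = a → ∀ S : Finset G,
      (∀ t, t ∈ S ↔ χ true t ∈ K0 ∧ χ false (t + z) ∈ K1) →
      TrB_in ((1 - δ) * D) ((1 + δ) * D) S := by
    intro z K0 K1 h0 h1 S hS
    refine hbd (true, true, 0) (false, true, z) (by simp) K0 K1 h0 h1 S (fun t => ?_)
    rw [hS]
    simp [pt, add_comm]
  have hc2 : ∀ (z : G) (K0 K1 : Finset (Fin M)), K0.card = a → K1.card = a → ∀ S : Finset G,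
      (∀ t, t ∈ S ↔ χ true t ∈ K0 ∧ χ true (z - t) ∈ K1) →
      TrB_in ((1 - δ) * D) ((1 + δ) * D) S := by
    intro z K0 K1 h0 h1 S hS
    refine hbd (true, true, 0) (true, false, z) (by simp) K0 K1 h0 h1 S (fun t => ?_)
    rw [hS]
    simp [pt]
  have hcore := TrB_core χ a ((1 - δ) * D) ((1 + δ) * D)
    (mul_nonneg (by linarith) hD0) (mul_nonneg (by linarith) hD0) hc1 hc2
  obtain ⟨n, rfl⟩ : ∃ n, k = n + 1 := ⟨k - 1, by omega⟩
  have hfin : ∀ N : ℝ, ((1 - δ) * D) ^ n ≤ N ∧ N ≤ ((1 + δ) * D) ^ n →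
      |N - D ^ (n + 1 - 1)| ≤ ε * D ^ (n + 1 - 1) := by
    rintro N ⟨hN1, hN2⟩
    rw [Nat.add_sub_cancel]
    have hDn : 0 ≤ D ^ n := pow_nonneg hD0 n
    have hnK : n ≤ K := by omega
    have hu : (1 + δ) ^ n ≤ 1 + ε := by
      have h5 : (1 + δ) ^ n ≤ (1 + δ) ^ K := pow_le_pow_right₀ (by linarith) hnK
      have h6 : (1 + δ) ^ K ≤ Real.exp ((K : ℝ) * δ) := by
        rw [Real.exp_nat_mul]
        exact pow_le_pow_left₀ (by linarith) (by linarith [Real.add_one_le_exp δ]) K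
      have hKδ : 0 ≤ (K : ℝ) * δ := by positivity
      have h7 := Real.abs_exp_sub_one_le (x := (K : ℝ) * δ) (by rw [abs_of_nonneg hKδ]; exact hδ1)
      rw [abs_of_nonneg hKδ] at h7
      have h8 := (abs_le.1 h7).2
      linarith
    have hl : 1 - ε ≤ (1 - δ) ^ n := by
      have h5 : (1 - δ) ^ K ≤ (1 - δ) ^ n :=
        pow_le_pow_of_le_one (by linarith) (by linarith) hnK
      have h6 : 1 + (K : ℝ) * (-δ) ≤ (1 + (-δ)) ^ K :=
        one_add_mul_le_pow (by linarith) K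
      have h7 : (1 + (-δ)) = 1 - δ := by ring
      rw [h7] at h6
      have hKδ : 0 ≤ (K : ℝ) * δ := by positivity
      linarith
    rw [mul_pow] at hN1 hN2
    rw [abs_le]
    constructor
    · have := mul_le_mul_of_nonneg_right hl hDn
      linarith
    · have := mul_le_mul_of_nonneg_right hu hDn
      linarith
  obtain ⟨hX, hY⟩ := hcore n P hP A B hA hB
  exact ⟨fun j z hz => hfin _ (hX j z hz _ fun x => mem_filter),
    fun j hj z hz => hfin _ (hY j hj z hz _ fun x => mem_filter)⟩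

end Pool.Agent.H60.HL
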