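import Pool.Agent.H60.HL.Defs

/-!
# HL-23a TrB1: copies of a small tree, codegrees

`code_codeg`: at most `q^(k-2)` maps `x : Fin k → G` with two prescribed values among the `x j` and the
`x j + x (P j)`, `j > 0`: two coordinates can be computed from the other ones and the prescribed values:
`x j, x j'` prescribed: clear; `x j` and `x i + x (P i)`: if `j ∈ {i, P i}` the other one of `i, P i` is
determined, otherwise `x i` is determined by `x (P i)` (complement of `{i, j}`); two sums for `i < i'`:
`x i = v - x (P i)` with `P i < i`, so `P i` is in the complement of `{i, i'}`, and then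
`x i' = w - x (P i')` with `P i' ≠ i'`: the restriction of `x` to the complement of `{i, i'}`
determines `x`.
-/

namespace Pool.Agent.H60.HL

open Finset Classical

variable {G : Type} [AddCommGroup G] [Fintype G]

/-- The copies of a small tree with prescribed colours. -/
noncomputable def Cpy {M k : ℕ} (χ : Bool → G → Fin M) (P : Fin k → Fin k)
    (A B : Fin k → Finset (Fin M)) : Finset (Fin k → G) :=
  univ.filter fun x => (∀ j, χ true (x j) ∈ A j) ∧
    ∀ j : Fin k, 0 < (j : ℕ) → χ false (x j + x (P j)) ∈ B j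

private theorem TrB1_sub {k : ℕ} {i i' : Fin k} (h : i ≠ i') :
    Fintype.card {j : Fin k // j ≠ i ∧ j ≠ i'} = k - 2 := by
  rw [Fintype.card_subtype]
  have h1 : (univ.filter fun j : Fin k => j ≠ i ∧ j ≠ i') = univ \ {i, i'} := by
    ext j
    simp
  rw [h1, Finset.card_sdiff_of_subset (Finset.subset_univ _), Finset.card_univ, Fintype.card_fin,
    Finset.card_pair h]

private theorem TrB1_card {k : ℕ} {i i' : Fin k} (h : i ≠ i') (S : Finset (Fin k → G))
    (hS : ∀ x ∈ S, ∀ y ∈ S, (∀ j, j ≠ i → j ≠ i' → x j = y j) → x = y) :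
    S.card ≤ Fintype.card G ^ (k - 2) := by
  have h1 : S.card ≤ (univ : Finset ({j : Fin k // j ≠ i ∧ j ≠ i'} → G)).card := by
    refine Finset.card_le_card_of_injOn (fun x => fun j => x j.1) (fun x _ => Finset.mem_univ _) ?_
    intro x hx y hy hxy
    refine hS x hx y hy fun j hj hj' => ?_
    exact congrFun hxy ⟨j, hj, hj'⟩
  refine h1.trans (le_of_eq ?_)
  rw [Finset.card_univ, Fintype.card_fun, TrB1_sub h]

private theorem TrB1_three {k : ℕ} (P : Fin k → Fin k)
    (hP : ∀ j : Fin k, 0 < (j : ℕ) → P j < j) (i j : Fin k) (hij : i < j) (hi : 0 < (i : ℕ))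
    (hj : 0 < (j : ℕ)) (v w : G) :
    (univ.filter fun x : Fin k → G => x i + x (P i) = v ∧ x j + x (P j) = w).card ≤
      Fintype.card G ^ (k - 2) := by
  refine TrB1_card (ne_of_lt hij) _ fun x hx y hy hxy => ?_
  rw [Finset.mem_filter] at hx hy
  have hPi := hP i hi
  have hPj := hP j hj
  have e1 : x i = y i := by
    have h1 : x (P i) = y (P i) := hxy _ (ne_of_lt hPi) (ne_of_lt (hPi.trans hij))
    have h2 : x i + x (P i) = y i + y (P i) := by rw [hx.2.1, hy.2.1]
    rw [h1] at h2
    exact add_right_cancel h2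
  have e2 : x (P j) = y (P j) := by
    by_cases h1 : P j = i
    · rw [h1]
      exact e1
    · exact hxy _ h1 (ne_of_lt hPj)
  have e3 : x j = y j := by
    have h2 : x j + x (P j) = y j + y (P j) := by rw [hx.2.2, hy.2.2]
    rw [e2] at h2
    exact add_right_cancel h2
  funext l
  by_cases h1 : l = i
  · rw [h1]
    exact e1
  · by_cases h2 : l = j
    · rw [h2]
      exact e3
    · exact hxy l h1 h2

theorem code_codeg (k : ℕ) (hk : 2 ≤ k) (P : Fin k → Fin k)
    (hP : ∀ j : Fin k, 0 < (j : ℕ) → P j < j) :
    (∀ i j : Fin k, i ≠ j → ∀ v w : G,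
      (univ.filter fun x : Fin k → G => x i = v ∧ x j = w).card ≤ Fintype.card G ^ (k - 2)) ∧
    (∀ i j : Fin k, 0 < (j : ℕ) → ∀ v w : G,
      (univ.filter fun x : Fin k → G => x i = v ∧ x j + x (P j) = w).card ≤
        Fintype.card G ^ (k - 2)) ∧
    (∀ i j : Fin k, i ≠ j → 0 < (i : ℕ) → 0 < (j : ℕ) → ∀ v w : G,
      (univ.filter fun x : Fin k → G => x i + x (P i) = v ∧ x j + x (P j) = w).card ≤
        Fintype.card G ^ (k - 2)) := by
  have key : ∀ i j : Fin k, i ≠ j → ∀ v w : G,
      (univ.filter fun x : Fin k → G => x i = v ∧ x j = w).card ≤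
        Fintype.card G ^ (k - 2) := by
    intro i j hij v w
    refine TrB1_card hij _ fun x hx y hy hxy => ?_
    rw [Finset.mem_filter] at hx hy
    funext l
    by_cases h1 : l = i
    · rw [h1, hx.2.1, hy.2.1]
    · by_cases h2 : l = j
      · rw [h2, hx.2.2, hy.2.2]
      · exact hxy l h1 h2
  refine ⟨key, ?_, ?_⟩
  · intro i j hj v w
    have hPj := hP j hj
    by_cases h1 : i = j
    · subst h1
      refine (Finset.card_le_card fun x hx => ?_).trans (key i (P i) (ne_of_gt hPj) v (w - v))
      rw [Finset.mem_filter] at hx ⊢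
      refine ⟨Finset.mem_univ _, hx.2.1, ?_⟩
      rw [← hx.2.2, hx.2.1]
      abel
    · by_cases h2 : i = P j
      · subst h2
        refine (Finset.card_le_card fun x hx => ?_).trans (key (P j) j (ne_of_lt hPj) v (w - v))
        rw [Finset.mem_filter] at hx ⊢
        refine ⟨Finset.mem_univ _, hx.2.1, ?_⟩
        rw [← hx.2.2, hx.2.1]
        abel
      · refine TrB1_card h1 _ fun x hx y hy hxy => ?_
        rw [Finset.mem_filter] at hx hy
        have e2 : x (P j) = y (P j) := hxy _ (fun h => h2 h.symm) (ne_of_lt hPj)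
        have e3 : x j = y j := by
          have h3 : x j + x (P j) = y j + y (P j) := by rw [hx.2.2, hy.2.2]
          rw [e2] at h3
          exact add_right_cancel h3
        funext l
        by_cases h3 : l = i
        · rw [h3, hx.2.1, hy.2.1]
        · by_cases h4 : l = j
          · rw [h4]
            exact e3
          · exact hxy l h3 h4
  · intro i j hij hi hj v w
    rcases lt_or_gt_of_ne hij with h1 | h1
    · exact TrB1_three P hP i j h1 hi hj v w
    · refine (Finset.card_le_card fun x hx => ?_).trans (TrB1_three P hP j i h1 hj hi w v)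
      rw [Finset.mem_filter] at hx ⊢
      exact ⟨Finset.mem_univ _, hx.2.2, hx.2.1⟩

end Pool.Agent.H60.HL
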