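import Pool.Agent.H60.HL.TrB
import Pool.Agent.H60.HL.Nib

/-!
# HL-24 TrC: almost all the vertices of the classes are covered by copies of a small tree

Proof.  `k = 1`: all `x` with `χ true (x 0) ∈ A 0`, there are `≥ (a / M - η) q` of them by `Rnd`.
`k ≥ 2`: `nibble` with `r = 2 k - 1`, `κ = M^(-2 K)` (smaller than `α^(2k)`), `ν / 2`; `η` small for all the
finitely many `k ≤ K`.  `I = Fin k ⊕ {j : Fin k // 0 < (j : ℕ)}`, `E = Cpy χ P A B`, `V = G`,
`π x (inl j) = x j`, `π x (inr j) = x j + x (P j)`, `i0 = inl 0`, `D = (α² q)^(k-1)`,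
`Λ = q^(k-2) ≥ 1`.  `Reg`: by `code_count`, every vertex of a class has a colour in `A j` resp. `B j`;
codegrees by `code_codeg`.  `vx E π i0` is the set of the `z` with `χ true z ∈ A 0` (for these the degree
is `≥ (1 - ε) D > 0`), so it has at least `(α - η) q` and at most `(α + η) q` elements;
`κ (α + η) q q^(k-2) ≤ α^(2(k-1)) q^(k-1)`.
The matching `M` gives the conclusion, `(1 - ν/2) (α - η) q ≥ α q - ν q`.
-/

namespace Pool.Agent.H60.HL

open Finset Classical

private theorem TrC_mono {G : Type} [AddCommGroup G] [Fintype G] {M m : ℕ} {χ : Bool → G → Fin M}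
    {η η' : ℝ} (h : Rnd χ m η) (hle : η ≤ η') : Rnd χ m η' := fun ι _ hι v hv K =>
  (h ι hι v hv K).trans (mul_le_mul_of_nonneg_right hle (Nat.cast_nonneg _))

private theorem TrC_one {G : Type} [AddCommGroup G] [Fintype G] {M : ℕ} {χ : Bool → G → Fin M}
    {η : ℝ} (h : Rnd χ 3 η) (A0 : Finset (Fin M)) :
    ((A0.card : ℝ) / M - η) * Fintype.card G ≤
      ((univ.filter fun t : G => χ true t ∈ A0).card : ℝ) := by
  have h1 := h Unit (by simp) (fun _ => (true, true, 0)) (fun _ _ _ => Subsingleton.elim _ _)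
    (fun _ => A0)
  simp only [pt, if_true, zero_add, forall_const, Finset.univ_unique, Finset.prod_const,
    Finset.card_singleton, pow_one] at h1
  have h2 := (abs_le.mp h1).1
  nlinarith [h2]

/-- The hyperedges: values and sums of a copy. -/
private def TrC_pi {G : Type} [AddCommGroup G] {k : ℕ} (P : Fin k → Fin k) (x : Fin k → G) :
    (Fin k ⊕ {j : Fin k // 0 < (j : ℕ)}) → G :=
  Sum.elim (fun j => x j) (fun j => x j.1 + x (P j.1))

private theorem TrC_k (k M : ℕ) (hk : 1 ≤ k) (hM : 1 ≤ M) (ν : ℝ) (hν : 0 < ν) (hν1 : ν ≤ 1) :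
    ∃ η : ℝ, 0 < η ∧ ∃ q0 : ℕ, ∀ (G : Type) [AddCommGroup G] [Fintype G]
      (χ : Bool → G → Fin M), q0 ≤ Fintype.card G → Rnd χ 3 η →
      ∀ (P : Fin k → Fin k), (∀ j : Fin k, 0 < (j : ℕ) → P j < j) →
      ∀ (a : ℕ) (A B : Fin k → Finset (Fin M)), 1 ≤ a → (∀ j, (A j).card = a) →
      (∀ j, (B j).card = a) →
      ∃ S ⊆ Cpy χ P A B, (∀ j, Set.InjOn (fun x : Fin k → G => x j) (S : Set (Fin k → G))) ∧
        (∀ j : Fin k, 0 < (j : ℕ) →
          Set.InjOn (fun x : Fin k → G => x j + x (P j)) (S : Set (Fin k → G))) ∧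
        ((a : ℝ) / M - ν) * Fintype.card G ≤ S.card := by
  have hM0 : (0 : ℝ) < M := by exact_mod_cast hM
  rcases Nat.lt_or_ge k 2 with hk2 | hk2
  · -- one vertex
    obtain rfl : k = 1 := by omega
    refine ⟨ν, hν, 0, ?_⟩
    intro G _ _ χ _ hR P hP a A B ha hA hB
    refine ⟨Cpy χ P A B, Finset.Subset.refl _, ?_, ?_, ?_⟩
    · intro j x _ y _ hxy
      funext i
      have : i = j := Subsingleton.elim _ _
      rw [this]
      exact hxy
    · intro j hj
      have := j.2
      omega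
    · have h1 := TrC_one hR (A 0)
      rw [hA 0] at h1
      refine h1.trans ?_
      norm_cast
      refine Finset.card_le_card_of_injOn (fun t => fun _ => t) ?_ ?_
      · intro t ht
        have ht' : χ true t ∈ A 0 := by simpa using ht
        simp only [Cpy, Finset.coe_filter, Finset.mem_univ, true_and, Set.mem_ofPred_eq]
        refine ⟨fun j => ?_, fun j hj => ?_⟩
        · have : j = 0 := Subsingleton.elim _ _
          rw [this]
          exact ht'
        · have := j.2
          omega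
      · intro s _ t _ hst
        exact _root_.congrFun hst 0
  · -- at least two vertices: the nibble
    set κ : ℝ := ((1 : ℝ) / M) ^ (2 * (k - 1)) with hκdef
    have hκ : 0 < κ := by positivity
    obtain ⟨ηn, hηn, n0, hnib⟩ := nibble
      (Fintype.card (Fin k ⊕ {j : Fin k // 0 < (j : ℕ)})) κ (ν / 2) hκ (by linarith)
    obtain ⟨ηc, hηc, hcount⟩ := code_count k M (min ηn (1 / 2)) (by positivity)
    refine ⟨min ηc (min (ν / 2) (1 / (2 * M))), by positivity, 2 * M * n0 + 1, ?_⟩
    intro G _ _ χ hq hR P hP a A B ha hA hB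
    have hRc : Rnd χ 3 ηc := TrC_mono hR (min_le_left _ _)
    have hRν : Rnd χ 3 (ν / 2) := TrC_mono hR ((min_le_right _ _).trans (min_le_left _ _))
    have hRM : Rnd χ 3 (1 / (2 * M)) := TrC_mono hR ((min_le_right _ _).trans (min_le_right _ _))
    have hqpos : 0 < Fintype.card G := by omega
    have hq0 : (0 : ℝ) < Fintype.card G := by exact_mod_cast hqpos
    have hq1 : (1 : ℝ) ≤ Fintype.card G := by exact_mod_cast hqpos
    have haM : a ≤ M := by
      have h1 := Finset.card_le_univ (A ⟨0, by omega⟩)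
      rw [hA, Fintype.card_fin] at h1
      exact h1
    have ha1 : (1 : ℝ) ≤ a := by exact_mod_cast ha
    have hα1 : (a : ℝ) / M ≤ 1 := by
      rw [div_le_one hM0]; exact_mod_cast haM
    have hαM : (1 : ℝ) / M ≤ (a : ℝ) / M := by gcongr
    have hα0 : (0 : ℝ) < (a : ℝ) / M := by positivity
    set q : ℝ := (Fintype.card G : ℝ) with hqdef
    set D : ℝ := (((a : ℝ) / M) ^ 2 * q) ^ (k - 1) with hD
    have hD0 : 0 < D := by positivity
    obtain ⟨hc1, hc2⟩ := hcount G χ hRc k (by omega) le_rfl P hP a A B ha hA hB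
    obtain ⟨g1, g2, g3⟩ := code_codeg (G := G) k hk2 P hP
    set E : Finset (Fin k → G) := Cpy χ P A B with hE
    have hmemE : ∀ x ∈ E, (∀ j, χ true (x j) ∈ A j) ∧
        ∀ j : Fin k, 0 < (j : ℕ) → χ false (x j + x (P j)) ∈ B j := by
      intro x hx
      rw [hE, Cpy, Finset.mem_filter] at hx
      exact hx.2
    set i0 : Fin k ⊕ {j : Fin k // 0 < (j : ℕ)} := Sum.inl ⟨0, by omega⟩ with hi0
    have hεn : min ηn (1 / 2) * D ≤ ηn * D :=
      mul_le_mul_of_nonneg_right (min_le_left _ _) hD0.le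
    have hdeg1 : ∀ (j : Fin k) (v : G), χ true v ∈ A j →
        |(dg E (TrC_pi P) (Sum.inl j) v : ℝ) - D| ≤ min ηn (1 / 2) * D := by
      intro j v hv
      exact hc1 j v hv
    have hdeg2 : ∀ (j : {j : Fin k // 0 < (j : ℕ)}) (v : G), χ false v ∈ B j.1 →
        |(dg E (TrC_pi P) (Sum.inr j) v : ℝ) - D| ≤ min ηn (1 / 2) * D := by
      intro j v hv
      exact hc2 j.1 j.2 v hv
    have hReg : Reg E (TrC_pi P) D ηn (q ^ (k - 2)) := by
      refine ⟨?_, ?_⟩
      · intro i v hv
        rw [vx, Finset.mem_image] at hv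
        obtain ⟨x, hx, hxv⟩ := hv
        rcases i with j | j
        · refine (hdeg1 j v ?_).trans hεn
          rw [← hxv]
          exact (hmemE x hx).1 j
        · refine (hdeg2 j v ?_).trans hεn
          rw [← hxv]
          exact (hmemE x hx).2 j.1 j.2
      · intro i j hij v w
        have key : ∀ (p : (Fin k → G) → Prop) [DecidablePred p],
            (univ.filter p).card ≤ Fintype.card G ^ (k - 2) →
            ((E.filter p).card : ℝ) ≤ q ^ (k - 2) := by
          intro p _ hp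
          have h1 : (E.filter p).card ≤ (univ.filter p).card :=
            Finset.card_le_card (Finset.filter_subset_filter _ (Finset.subset_univ _))
          have h2 : ((E.filter p).card : ℝ) ≤ ((Fintype.card G ^ (k - 2) : ℕ) : ℝ) := by
            exact_mod_cast h1.trans hp
          refine h2.trans (le_of_eq ?_)
          push_cast
          rfl
        rcases i with i | i
        · rcases j with j | j
          · exact key _ (g1 i j (fun h => hij (by rw [h])) v w)
          · exact key _ (g2 i j.1 j.2 v w)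
        · rcases j with j | j
          · refine key (fun x => TrC_pi P x (Sum.inr i) = v ∧ TrC_pi P x (Sum.inl j) = w) ?_
            have h3 := g2 j i.1 i.2 w v
            refine le_trans (le_of_eq ?_) h3
            refine _root_.congrArg _ (Finset.filter_congr fun x _ => ?_)
            exact And.comm
          · exact key _ (g3 i.1 j.1 (fun h => hij (by rw [Subtype.ext h])) i.2 j.2 v w)
    have hvx : (univ.filter fun t : G => χ true t ∈ A ⟨0, by omega⟩) ⊆ vx E (TrC_pi P) i0 := by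
      intro t ht
      rw [Finset.mem_filter] at ht
      have h1 := hdeg1 ⟨0, by omega⟩ t ht.2
      have h2 := (abs_le.mp h1).1
      have h3 : min ηn (1 / 2) * D ≤ 1 / 2 * D :=
        mul_le_mul_of_nonneg_right (min_le_right _ _) hD0.le
      have h4 : 0 < (dg E (TrC_pi P) i0 t : ℝ) := by
        rw [hi0]
        linarith
      have h5 : 0 < dg E (TrC_pi P) i0 t := by exact_mod_cast h4
      rw [dg, Finset.card_pos] at h5
      obtain ⟨x, hx⟩ := h5
      rw [Finset.mem_filter] at hx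
      rw [vx, Finset.mem_image]
      exact ⟨x, hx.1, hx.2⟩
    have hvxc : ((univ.filter fun t : G => χ true t ∈ A ⟨0, by omega⟩).card : ℝ) ≤
        (vx E (TrC_pi P) i0).card := by exact_mod_cast Finset.card_le_card hvx
    have hn1 : ((a : ℝ) / M - ν / 2) * q ≤ (vx E (TrC_pi P) i0).card := by
      have h1 := TrC_one hRν (A ⟨0, by omega⟩)
      rw [hA] at h1
      exact h1.trans hvxc
    have hn2 : ((a : ℝ) / M - 1 / (2 * M)) * q ≤ (vx E (TrC_pi P) i0).card := by
      have h1 := TrC_one hRM (A ⟨0, by omega⟩)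
      rw [hA] at h1
      exact h1.trans hvxc
    have hn0 : n0 ≤ (vx E (TrC_pi P) i0).card := by
      have h1 : (1 : ℝ) / (2 * M) ≤ (a : ℝ) / M - 1 / (2 * M) := by
        have : (1 : ℝ) / M = 1 / (2 * M) + 1 / (2 * M) := by field_simp; norm_num
        linarith
      have h2 : (1 : ℝ) / (2 * M) * q ≤ (vx E (TrC_pi P) i0).card :=
        (mul_le_mul_of_nonneg_right h1 hq0.le).trans hn2
      have h3 : (n0 : ℝ) ≤ 1 / (2 * M) * q := by
        have h4 : ((2 * M * n0 + 1 : ℕ) : ℝ) ≤ q := by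
          rw [hqdef]; exact_mod_cast hq
        push_cast at h4
        rw [div_mul_eq_mul_div, one_mul, le_div_iff₀ (by positivity)]
        linarith
      exact_mod_cast h3.trans h2
    have hcard : κ * (vx E (TrC_pi P) i0).card * q ^ (k - 2) ≤ D := by
      have h1 : ((vx E (TrC_pi P) i0).card : ℝ) ≤ q := by
        rw [hqdef]
        exact_mod_cast Finset.card_le_univ _
      have h2 : κ ≤ ((a : ℝ) / M) ^ (2 * (k - 1)) := by
        rw [hκdef]
        exact pow_le_pow_left₀ (by positivity) hαM _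
      calc κ * (vx E (TrC_pi P) i0).card * q ^ (k - 2)
          ≤ ((a : ℝ) / M) ^ (2 * (k - 1)) * q * q ^ (k - 2) := by gcongr
        _ = ((a : ℝ) / M) ^ (2 * (k - 1)) * q ^ (k - 1) := by
            have : k - 1 = (k - 2) + 1 := by omega
            rw [this, pow_succ q]
            ring
        _ = D := by
            rw [hD, mul_pow, ← pow_mul]
    obtain ⟨S, hSE, hSM, hSc⟩ := hnib (Fin k → G) (Fin k ⊕ {j : Fin k // 0 < (j : ℕ)}) G rfl i0 E
      (TrC_pi P) D (q ^ (k - 2)) (one_le_pow₀ hq1) hReg hn0 hcard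
    refine ⟨S, hSE, fun j => hSM (Sum.inl j), fun j hj => hSM (Sum.inr ⟨j, hj⟩), ?_⟩
    refine le_trans ?_ hSc
    have h1 : (1 - ν / 2) * (((a : ℝ) / M - ν / 2) * q) ≤
        (1 - ν / 2) * (vx E (TrC_pi P) i0).card :=
      mul_le_mul_of_nonneg_left hn1 (by linarith)
    refine le_trans ?_ h1
    have h2 : (a : ℝ) / M - ν ≤ (1 - ν / 2) * ((a : ℝ) / M - ν / 2) := by nlinarith
    nlinarith [mul_le_mul_of_nonneg_right h2 hq0.le]

theorem code_nibble (K M : ℕ) (hM : 1 ≤ M) (ν : ℝ) (hν : 0 < ν) :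
    ∃ η : ℝ, 0 < η ∧ ∃ q0 : ℕ, ∀ (G : Type) [AddCommGroup G] [Fintype G]
      (χ : Bool → G → Fin M), q0 ≤ Fintype.card G → Rnd χ 3 η → ∀ (k : ℕ), 1 ≤ k → k ≤ K →
      ∀ (P : Fin k → Fin k), (∀ j : Fin k, 0 < (j : ℕ) → P j < j) →
      ∀ (a : ℕ) (A B : Fin k → Finset (Fin M)), 1 ≤ a → (∀ j, (A j).card = a) →
      (∀ j, (B j).card = a) →
      ∃ S ⊆ Cpy χ P A B, (∀ j, Set.InjOn (fun x : Fin k → G => x j) (S : Set (Fin k → G))) ∧
        (∀ j : Fin k, 0 < (j : ℕ) →
          Set.InjOn (fun x : Fin k → G => x j + x (P j)) (S : Set (Fin k → G))) ∧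
        ((a : ℝ) / M - ν) * Fintype.card G ≤ S.card := by
  obtain ⟨ν', hν', hν'1, hν'ν⟩ : ∃ ν' : ℝ, 0 < ν' ∧ ν' ≤ 1 ∧ ν' ≤ ν :=
    ⟨min ν 1, by positivity, min_le_right _ _, min_le_left _ _⟩
  induction K with
  | zero => exact ⟨1, one_pos, 0, fun G _ _ χ _ _ k hk1 hk2 => by omega⟩
  | succ K ih =>
    obtain ⟨η1, hη1, q1, h1⟩ := ih
    obtain ⟨η2, hη2, q2, h2⟩ := TrC_k (K + 1) M (by omega) hM ν' hν' hν'1
    refine ⟨min η1 η2, lt_min hη1 hη2, max q1 q2, ?_⟩
    intro G _ _ χ hq hR k hk1 hk2 P hP a A B ha hA hB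
    rcases Nat.lt_or_ge k (K + 1) with hlt | hge
    · exact h1 G χ ((le_max_left _ _).trans hq) (TrC_mono hR (min_le_left _ _)) k hk1 (by omega)
        P hP a A B ha hA hB
    · obtain rfl : k = K + 1 := by omega
      obtain ⟨S, hS, hS1, hS2, hS3⟩ := h2 G χ ((le_max_right _ _).trans hq)
        (TrC_mono hR (min_le_right _ _)) P hP a A B ha hA hB
      refine ⟨S, hS, hS1, hS2, le_trans ?_ hS3⟩
      exact mul_le_mul_of_nonneg_right (by linarith) (Nat.cast_nonneg _)

end Pool.Agent.H60.HL
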