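import Mathlib

/-!
# HL-25 TrD: greedy extension of a partial embedding

Induction on the number of vertices of `range n \ V1` (or on the finset of the vertices already added):
invariant for `V1 ⊆ V' ⊆ range n`: `g` is injective on `V'`; the sums `g i + g (p i)` of the `i ∈ V'` with
`0 < i`, `p i ∈ V'` are different for different `i`; `g = g1` on `V1`; `g i ∈ RL` for `i ∈ V' \ V1`; the
sum of `i` is in `RS` unless `i ∈ V1` and `p i ∈ V1`.
Step: `v ∈ range n \ V'`.  `N = {w ∈ V' : (0 < v ∧ w = p v) ∨ (0 < w ∧ p w = v)}` has at most `Δ + 1`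
elements, so has `g '' N`.  At least `c` of the `t ∈ RL` satisfy `r + t ∈ RS` for all `r ∈ g '' N`.
Exclude the `t = g w`, `w ∈ V' \ V1` (`w ∈ V1` has `g w ∉ RL`): less than `u`, and the `t` with
`r + t = g i + g (p i)` for an `r ∈ g '' N` and an `i` whose sum is in `RS` (the sums of `V1` are not):
such an `i` is in `V' \ V1` or `p i ∈ V' \ V1`: at most `(Δ + 1) u` values of `i`, so at most
`(Δ + 1)² u` values of `t`.  As `u + (Δ + 1)^2 u < c` there is a good `t`; put `g v = t`.  The new sums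
`g w + t`, `w ∈ N`, are different from each other and from the old ones.  (The edges of `v` in
`V' ∪ {v}` are: the edge of `i = v` with `p v ∈ V'`, and the edges of the `i ∈ V'` with `p i = v`.)
-/

namespace Pool.Agent.H60.HL

open Finset Classical

variable {G : Type} [AddCommGroup G] [Fintype G]

private theorem TrD_step (Δ n : ℕ) (p : ℕ → ℕ) (hp : ∀ i, 0 < i → i < n → p i < i)
    (hΔ : ∀ i, ((range n).filter fun j => 0 < j ∧ p j = i).card ≤ Δ) (RL RS : Finset G)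
    (V1 V' : Finset ℕ) (hV' : V' ⊆ range n) (hsub : V1 ⊆ V') (v : ℕ) (hv : v ∈ range n)
    (hvV : v ∉ V') (g : ℕ → G) (hg1 : ∀ i ∈ V1, g i ∉ RL) (hinj : Set.InjOn g (V' : Set ℕ))
    (hsum : ∀ i ∈ V', ∀ j ∈ V', 0 < i → 0 < j → p i ∈ V' → p j ∈ V' →
      g i + g (p i) = g j + g (p j) → i = j)
    (hV1 : ∀ i ∈ V1, 0 < i → p i ∈ V1 → g i + g (p i) ∉ RS)
    (hRL : ∀ i ∈ V', i ∉ V1 → g i ∈ RL)
    (hRS : ∀ i ∈ V', 0 < i → p i ∈ V' → (i ∉ V1 ∨ p i ∉ V1) → g i + g (p i) ∈ RS)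
    (c : ℕ) (h5 : ∀ D : Finset G, D.card ≤ Δ + 1 →
      c ≤ (RL.filter fun t => ∀ r ∈ D, r + t ∈ RS).card)
    (h6 : (V' \ V1).card * (1 + (Δ + 1) ^ 2) < c) :
    ∃ g' : ℕ → G, (∀ i ∈ V', g' i = g i) ∧ Set.InjOn g' ((insert v V' : Finset ℕ) : Set ℕ) ∧
      (∀ i ∈ insert v V', ∀ j ∈ insert v V', 0 < i → 0 < j → p i ∈ insert v V' →
        p j ∈ insert v V' → g' i + g' (p i) = g' j + g' (p j) → i = j) ∧
      (∀ i ∈ insert v V', i ∉ V1 → g' i ∈ RL) ∧
      ∀ i ∈ insert v V', 0 < i → p i ∈ insert v V' → (i ∉ V1 ∨ p i ∉ V1) →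
        g' i + g' (p i) ∈ RS := by
  have hvV1 : v ∉ V1 := fun h => hvV (hsub h)
  have hvn : v < n := mem_range.1 hv
  obtain ⟨W, hW⟩ : ∃ W, W = V' \ V1 := ⟨_, rfl⟩
  obtain ⟨N, hNdef⟩ : ∃ N, N = V'.filter (fun w => (0 < v ∧ w = p v) ∨ (0 < w ∧ p w = v)) :=
    ⟨_, rfl⟩
  have hmemN : ∀ w, w ∈ N ↔ w ∈ V' ∧ ((0 < v ∧ w = p v) ∨ (0 < w ∧ p w = v)) := by
    intro w
    rw [hNdef, mem_filter]
  have hN : N.card ≤ Δ + 1 := by
    have h : N ⊆ insert (p v) ((range n).filter fun j => 0 < j ∧ p j = v) := by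
      intro w hw
      rw [hmemN] at hw
      rw [mem_insert, mem_filter]
      rcases hw.2 with h | h
      · exact Or.inl h.2
      · exact Or.inr ⟨hV' hw.1, h⟩
    calc N.card ≤ (insert (p v) ((range n).filter fun j => 0 < j ∧ p j = v)).card :=
          card_le_card h
      _ ≤ ((range n).filter fun j => 0 < j ∧ p j = v).card + 1 := card_insert_le _ _
      _ ≤ Δ + 1 := Nat.add_le_add_right (hΔ v) 1
  obtain ⟨D, hDdef⟩ : ∃ D, D = N.image g := ⟨_, rfl⟩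
  have hD : D.card ≤ Δ + 1 := by
    rw [hDdef]
    exact card_image_le.trans hN
  obtain ⟨E, hEdef⟩ : ∃ E, E = V'.filter (fun i => 0 < i ∧ p i ∈ V' ∧ (i ∉ V1 ∨ p i ∉ V1)) :=
    ⟨_, rfl⟩
  have hmemE : ∀ i, i ∈ E ↔ i ∈ V' ∧ 0 < i ∧ p i ∈ V' ∧ (i ∉ V1 ∨ p i ∉ V1) := by
    intro i
    rw [hEdef, mem_filter]
  have hmemW : ∀ i, i ∈ W ↔ i ∈ V' ∧ i ∉ V1 := by
    intro i
    rw [hW, mem_sdiff]
  have hE : E.card ≤ W.card * (Δ + 1) := by
    have h : E ⊆ W ∪ W.biUnion (fun w => (range n).filter fun j => 0 < j ∧ p j = w) := by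
      intro i hi
      rw [hmemE] at hi
      obtain ⟨hiV, hi0, hpi, hor⟩ := hi
      rw [mem_union, mem_biUnion]
      rcases hor with h | h
      · exact Or.inl ((hmemW i).2 ⟨hiV, h⟩)
      · refine Or.inr ⟨p i, (hmemW _).2 ⟨hpi, h⟩, ?_⟩
        rw [mem_filter]
        exact ⟨hV' hiV, hi0, rfl⟩
    calc E.card ≤ (W ∪ W.biUnion (fun w => (range n).filter fun j => 0 < j ∧ p j = w)).card :=
          card_le_card h
      _ ≤ W.card + (W.biUnion (fun w => (range n).filter fun j => 0 < j ∧ p j = w)).card :=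
          card_union_le _ _
      _ ≤ W.card + W.card * Δ :=
          Nat.add_le_add_left (card_biUnion_le_card_mul _ _ _ fun w _ => hΔ w) _
      _ = W.card * (Δ + 1) := by ring
  obtain ⟨B, hBdef⟩ : ∃ B, B = W.image g ∪
      (D ×ˢ E).image (fun x => g x.2 + g (p x.2) - x.1) := ⟨_, rfl⟩
  have hB : B.card ≤ W.card * (1 + (Δ + 1) ^ 2) := by
    rw [hBdef]
    calc _ ≤ (W.image g).card + ((D ×ˢ E).image (fun x => g x.2 + g (p x.2) - x.1)).card :=
          card_union_le _ _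
      _ ≤ W.card + (D ×ˢ E).card := Nat.add_le_add card_image_le card_image_le
      _ = W.card + D.card * E.card := by rw [card_product]
      _ ≤ W.card + (Δ + 1) * (W.card * (Δ + 1)) :=
          Nat.add_le_add_left (Nat.mul_le_mul hD hE) _
      _ = W.card * (1 + (Δ + 1) ^ 2) := by ring
  obtain ⟨t, htT, htB⟩ : ∃ t ∈ RL.filter (fun t => ∀ r ∈ D, r + t ∈ RS), t ∉ B := by
    apply exists_mem_notMem_of_card_lt_card
    refine lt_of_le_of_lt hB ?_
    rw [hW]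
    exact lt_of_lt_of_le h6 (h5 D hD)
  rw [mem_filter] at htT
  obtain ⟨htRL, htRS⟩ := htT
  rw [hBdef, mem_union, not_or] at htB
  obtain ⟨htB1, htB2⟩ := htB
  have hDg : ∀ w ∈ N, g w + t ∈ RS := by
    intro w hw
    apply htRS
    rw [hDdef]
    exact mem_image_of_mem g hw
  -- new sums differ from the old sums
  have hnew : ∀ w ∈ N, ∀ i ∈ V', 0 < i → p i ∈ V' → g w + t ≠ g i + g (p i) := by
    intro w hw i hi hi0 hpi h
    have hiE : i ∈ E := by
      rw [hmemE]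
      refine ⟨hi, hi0, hpi, ?_⟩
      by_contra hcon
      rw [not_or, not_not, not_not] at hcon
      apply hV1 i hcon.1 hi0 hcon.2
      rw [← h]
      exact hDg w hw
    apply htB2
    rw [mem_image]
    refine ⟨(g w, i), ?_, ?_⟩
    · rw [mem_product]
      refine ⟨?_, hiE⟩
      rw [hDdef]
      exact mem_image_of_mem g hw
    · show g i + g (p i) - g w = t
      rw [← h]
      abel
  have hne : ∀ w ∈ V', g w ≠ t := by
    intro w hw h
    by_cases hw1 : w ∈ V1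
    · apply hg1 w hw1
      rw [h]
      exact htRL
    · apply htB1
      rw [mem_image]
      exact ⟨w, (hmemW w).2 ⟨hw, hw1⟩, h⟩
  have hupd : ∀ i ∈ V', Function.update g v t i = g i := by
    intro i hi
    apply Function.update_of_ne
    rintro rfl
    exact hvV hi
  have hupv : Function.update g v t v = t := Function.update_self _ _ _
  -- the edges of `insert v V'`
  have hcase : ∀ i ∈ insert v V', 0 < i → p i ∈ insert v V' →
      (i ∈ V' ∧ p i ∈ V' ∧ Function.update g v t i + Function.update g v t (p i) =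
        g i + g (p i)) ∨
      (i = v ∧ p v ∈ N ∧ Function.update g v t i + Function.update g v t (p i) =
        g (p v) + t) ∨
      (i ∈ N ∧ p i = v ∧ Function.update g v t i + Function.update g v t (p i) =
        g i + t) := by
    intro i hi hi0 hpi
    rw [mem_insert] at hi hpi
    rcases hi with hi | hi
    · right; left
      subst hi
      have hlt := hp i hi0 hvn
      have hpV : p i ∈ V' := hpi.resolve_left (by omega)
      refine ⟨rfl, (hmemN _).2 ⟨hpV, Or.inl ⟨hi0, rfl⟩⟩, ?_⟩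
      rw [hupv, hupd _ hpV, add_comm]
    · rcases hpi with hpi | hpi
      · right; right
        refine ⟨(hmemN _).2 ⟨hi, Or.inr ⟨hi0, hpi⟩⟩, hpi, ?_⟩
        rw [hpi, hupv, hupd _ hi]
      · left
        exact ⟨hi, hpi, by rw [hupd _ hi, hupd _ hpi]⟩
  have hNV : ∀ w ∈ N, w ∈ V' := fun w hw => ((hmemN w).1 hw).1
  refine ⟨Function.update g v t, hupd, ?_, ?_, ?_, ?_⟩
  · intro i hi j hj hij
    rw [mem_coe, mem_insert] at hi hj
    rcases hi with hi | hi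
    · rcases hj with hj | hj
      · rw [hi, hj]
      · rw [hi, hupv, hupd j hj] at hij
        exact absurd hij.symm (hne j hj)
    · rcases hj with hj | hj
      · rw [hj, hupv, hupd i hi] at hij
        exact absurd hij (hne i hi)
      · rw [hupd i hi, hupd j hj] at hij
        exact hinj hi hj hij
  · intro i hi j hj hi0 hj0 hpi hpj hij
    rcases hcase i hi hi0 hpi with ⟨a1, a2, a3⟩ | ⟨a1, a2, a3⟩ | ⟨a1, a2, a3⟩ <;>
      rcases hcase j hj hj0 hpj with ⟨b1, b2, b3⟩ | ⟨b1, b2, b3⟩ | ⟨b1, b2, b3⟩ <;>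
      rw [a3, b3] at hij
    · exact hsum i a1 j b1 hi0 hj0 a2 b2 hij
    · exact absurd hij.symm (hnew _ b2 i a1 hi0 a2)
    · exact absurd hij.symm (hnew _ b1 i a1 hi0 a2)
    · exact absurd hij (hnew _ a2 j b1 hj0 b2)
    · rw [a1, b1]
    · exfalso
      have h1 : p v = j := hinj (hNV _ a2) (hNV _ b1) (add_right_cancel hij)
      have h2 := hp v (by omega) hvn
      have h3 := hp j hj0 (mem_range.1 (hV' (hNV _ b1)))
      omega
    · exact absurd hij (hnew _ a1 j b1 hj0 b2)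
    · exfalso
      have h1 : i = p v := hinj (hNV _ a1) (hNV _ b2) (add_right_cancel hij)
      have h2 := hp v (by omega) hvn
      have h3 := hp i hi0 (mem_range.1 (hV' (hNV _ a1)))
      omega
    · exact hinj (hNV _ a1) (hNV _ b1) (add_right_cancel hij)
  · intro i hi hi1
    rw [mem_insert] at hi
    rcases hi with hi | hi
    · rw [hi, hupv]
      exact htRL
    · rw [hupd i hi]
      exact hRL i hi hi1
  · intro i hi hi0 hpi hor
    rcases hcase i hi hi0 hpi with ⟨a1, a2, a3⟩ | ⟨a1, a2, a3⟩ | ⟨a1, a2, a3⟩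
    · rw [a3]
      exact hRS i a1 hi0 a2 hor
    · rw [a3]
      exact hDg _ a2
    · rw [a3]
      exact hDg _ a1

private theorem TrD_ind (Δ n : ℕ) (p : ℕ → ℕ) (hp : ∀ i, 0 < i → i < n → p i < i)
    (hΔ : ∀ i, ((range n).filter fun j => 0 < j ∧ p j = i).card ≤ Δ) (RL RS : Finset G)
    (V1 : Finset ℕ) (hV1 : V1 ⊆ range n) (g1 : ℕ → G) (h1 : Set.InjOn g1 (V1 : Set ℕ))
    (h2 : ∀ i ∈ V1, ∀ j ∈ V1, 0 < i → 0 < j → p i ∈ V1 → p j ∈ V1 →
      g1 i + g1 (p i) = g1 j + g1 (p j) → i = j)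
    (h3 : ∀ i ∈ V1, g1 i ∉ RL) (h4 : ∀ i ∈ V1, 0 < i → p i ∈ V1 → g1 i + g1 (p i) ∉ RS)
    (c : ℕ) (h5 : ∀ D : Finset G, D.card ≤ Δ + 1 →
      c ≤ (RL.filter fun t => ∀ r ∈ D, r + t ∈ RS).card)
    (h6 : ((range n) \ V1).card * (1 + (Δ + 1) ^ 2) < c) (W : Finset ℕ) :
    W ⊆ (range n) \ V1 →
    ∃ g : ℕ → G, (∀ i ∈ V1, g i = g1 i) ∧ Set.InjOn g ((V1 ∪ W : Finset ℕ) : Set ℕ) ∧
      (∀ i ∈ V1 ∪ W, ∀ j ∈ V1 ∪ W, 0 < i → 0 < j → p i ∈ V1 ∪ W → p j ∈ V1 ∪ W →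
        g i + g (p i) = g j + g (p j) → i = j) ∧
      (∀ i ∈ V1 ∪ W, i ∉ V1 → g i ∈ RL) ∧
      ∀ i ∈ V1 ∪ W, 0 < i → p i ∈ V1 ∪ W → (i ∉ V1 ∨ p i ∉ V1) → g i + g (p i) ∈ RS := by
  induction W using Finset.induction_on with
  | empty =>
    intro _
    rw [union_empty]
    refine ⟨g1, fun _ _ => rfl, h1, h2, fun i hi hi' => absurd hi hi', ?_⟩
    intro i hi _ hpi hor
    rcases hor with h | h
    · exact absurd hi h
    · exact absurd hpi h
  | insert v W hv ih =>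
    intro hW
    have hW' : W ⊆ (range n) \ V1 := fun x hx => hW (mem_insert_of_mem hx)
    obtain ⟨g, e1, e2, e3, e4, e5⟩ := ih hW'
    have hvn := mem_sdiff.1 (hW (mem_insert_self v W))
    have hsubn : V1 ∪ W ⊆ range n := by
      apply union_subset hV1
      intro x hx
      exact (mem_sdiff.1 (hW' hx)).1
    have hvV : v ∉ V1 ∪ W := by
      rw [mem_union, not_or]
      exact ⟨hvn.2, hv⟩
    have hcard : ((V1 ∪ W) \ V1).card * (1 + (Δ + 1) ^ 2) < c := by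
      refine lt_of_le_of_lt (Nat.mul_le_mul_right _ ?_) h6
      apply card_le_card
      exact sdiff_subset_sdiff hsubn (Subset.refl _)
    have hpar : ∀ i ∈ V1, 0 < i → p i ∈ V1 → g i + g (p i) ∉ RS := by
      intro i hi hi0 hpi
      rw [e1 i hi, e1 _ hpi]
      exact h4 i hi hi0 hpi
    obtain ⟨g', f0, f1, f2, f3, f4⟩ := TrD_step Δ n p hp hΔ RL RS V1 (V1 ∪ W) hsubn
      subset_union_left v hvn.1 hvV g (fun i hi => by rw [e1 i hi]; exact h3 i hi) e2 e3 hpar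
      e4 e5 c h5 hcard
    rw [union_insert]
    exact ⟨g', fun i hi => by rw [f0 i (mem_union_left _ hi), e1 i hi], f1, f2, f3, f4⟩

theorem greedy_ext (Δ n : ℕ) (p : ℕ → ℕ) (hp : ∀ i, 0 < i → i < n → p i < i)
    (hΔ : ∀ i, ((range n).filter fun j => 0 < j ∧ p j = i).card ≤ Δ) (RL RS : Finset G)
    (V1 : Finset ℕ) (hV1 : V1 ⊆ range n) (g1 : ℕ → G) (h1 : Set.InjOn g1 (V1 : Set ℕ))
    (h2 : ∀ i ∈ V1, ∀ j ∈ V1, 0 < i → 0 < j → p i ∈ V1 → p j ∈ V1 →
      g1 i + g1 (p i) = g1 j + g1 (p j) → i = j)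
    (h3 : ∀ i ∈ V1, g1 i ∉ RL) (h4 : ∀ i ∈ V1, 0 < i → p i ∈ V1 → g1 i + g1 (p i) ∉ RS)
    (c : ℕ) (h5 : ∀ D : Finset G, D.card ≤ Δ + 1 →
      c ≤ (RL.filter fun t => ∀ r ∈ D, r + t ∈ RS).card)
    (h6 : ((range n) \ V1).card * (1 + (Δ + 1) ^ 2) < c) :
    ∃ g : ℕ → G, (∀ i ∈ V1, g i = g1 i) ∧ Set.InjOn g (range n : Set ℕ) ∧
      (∀ i ∈ range n, ∀ j ∈ range n, 0 < i → 0 < j → g i + g (p i) = g j + g (p j) → i = j) ∧
      (∀ i ∈ range n, i ∉ V1 → g i ∈ RL) ∧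
      ∀ i ∈ range n, 0 < i → (i ∉ V1 ∨ p i ∉ V1) → g i + g (p i) ∈ RS := by
  obtain ⟨g, e1, e2, e3, e4, e5⟩ := TrD_ind Δ n p hp hΔ RL RS V1 hV1 g1 h1 h2 h3 h4 c h5 h6
    ((range n) \ V1) (Subset.refl _)
  rw [union_sdiff_of_subset hV1] at e2 e3 e4 e5
  have hpm : ∀ i ∈ range n, 0 < i → p i ∈ range n := by
    intro i hi hi0
    rw [mem_range] at hi ⊢
    exact (hp i hi0 hi).trans hi
  exact ⟨g, e1, e2, fun i hi j hj hi0 hj0 h =>
    e3 i hi j hj hi0 hj0 (hpm i hi hi0) (hpm j hj hj0) h, e4,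
    fun i hi hi0 hor => e5 i hi hi0 (hpm i hi hi0) hor⟩

end Pool.Agent.H60.HL
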