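import Pool.Agent.H60.HL.TrE1
import Pool.Agent.H60.HL.TrC
import Pool.Agent.H60.HL.RndUse

/-!
# HL-26b TrE: almost all of the tree is embedded with the prescribed colours

Proof.  `q = card G`.  `K = ⌈4 / ζ⌉`, `N` from `codes K` (`N ≥ 1` may be assumed).  `M ≥ max M1 1`,
`M ≥ 8 K N / ζ`.  `ν = ζ / (8 K N)`.  `η`, `q0` from `code_nibble K M ν`; take the minimum of `η` and `ν`
(`Rnd` is monotone in `η`), and `q0 ≥ 2 / ρ`.
Let `n ≤ q`, `p`, `mk` be given.  `codes`: `C`, `T`, `k`, `c`, `P`, `mt`, `e`.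
`a τ = ⌊c τ * M / q⌋`, so `c τ ≤ (a τ + 1) q / M` and `a τ ≤ c τ M / q`.
Colours (`alloc` with `J = Σ τ, Fin (k τ)`, twice: labels and sums): label colours `A τ j`, sum colours
`B τ j` (for all `j : Fin (k τ)`, those for `j = 0` are not used), each with `a τ` elements, pairwise
disjoint.  The numbers: `∑ τ, k τ * a τ ≤ (M / q) ∑ τ, k τ * c τ ≤ M n / q ≤ M` (the `e τ s j` are
different elements of `range n`).
`K 0` = the union of the `A τ j` with `mt τ j`, `K 1` = the label colours in no `A τ j`, `K 2` = the sum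
colours in no `B τ j` with `j > 0`.  `(K 1).card ≥ M - M n / q` and the same for `K 2`; as `ρ q ≤ q + 1 - n` this
is `≥ M (ρ - 1 / q) ≥ (ρ / 2) M`.
For every `τ` with `a τ ≥ 1` `code_nibble` gives `S τ ⊆ Cpy` with `(S τ).card ≥ (a τ / M - ν) q`; for the
other `τ` let `S τ = ∅`.  Let `c' τ = min (c τ) (S τ).card` and choose different elements `x τ s ∈ S τ`,
`s : Fin (c τ)`, `s < c' τ`.
`V1 = {e τ s j : s < c' τ}`, `g1 (e τ s j) = x τ s j` (well defined by the injectivity of `e`).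
* `g1` injective on `V1`: different `(τ, j)` have disjoint colours; the same `(τ, j)`: injectivity of the
`j`-th coordinate on `S τ`.
* An edge `i, p i` with `0 < i`, `i, p i ∈ V1`: `i = e τ s j` with `j > 0` (if `j = 0` then `i = 0` or
`p i ∈ C`, but the elements of `V1` are not in `C`), so `p i = e τ s (P τ j)`, and the sum
`x τ s j + x τ s (P τ j)` has a colour in `B τ j`; different edges have different sums.
* `(range n \ V1).card ≤ C.card + ∑ τ, k τ (c τ - c' τ) ≤ n / K + K N (q / M + ν q) ≤ ζ q / 2`.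
* Unused: for each `(τ, j)` with `a τ ≥ 1` the number of the `z` with `χ true z ∈ A τ j` is at most
`(a τ / M + η) q` (`Rnd` with one place), at least `c' τ ≥ (a τ / M - ν) q` of them are used
(if `c' τ = c τ` then it is `≥ a τ q / M`).  So at most `2 ν q` for each class are unused (none if
`a τ = 0`, as the class is empty), and in total at most `N K 2 ν q ≤ ζ q`.  The same for the sums.
-/

namespace Pool.Agent.H60.HL

open Finset Classical

private lemma TrE_alloc {J : Type} [Fintype J] (M : ℕ) (f : J → ℕ) (h : ∑ j, f j ≤ M) :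
    ∃ A : J → Finset (Fin M), (∀ j, (A j).card = f j) ∧
      ∀ j j' c, c ∈ A j → c ∈ A j' → j = j' := by
  have h1 : Fintype.card (Σ j, Fin (f j)) ≤ Fintype.card (Fin M) := by
    simpa [Fintype.card_sigma] using h
  obtain ⟨φ⟩ := Function.Embedding.nonempty_of_card_le h1
  refine ⟨fun j => (univ : Finset (Fin (f j))).image (fun i => φ ⟨j, i⟩), ?_, ?_⟩
  · intro j
    rw [Finset.card_image_of_injective]
    · simp
    · intro x y hxy
      have := φ.injective hxy
      simpa using this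
  · intro j j' c hc hc'
    simp only [mem_image, mem_univ, true_and] at hc hc'
    obtain ⟨i, hi⟩ := hc
    obtain ⟨i', hi'⟩ := hc'
    have := φ.injective (hi.trans hi'.symm)
    exact congrArg Sigma.fst this

private lemma TrE_card {G : Type} [AddCommGroup G] [Fintype G] {M : ℕ} {χ : Bool → G → Fin M}
    {η : ℝ} (h : Rnd χ 3 η) (b : Bool) (A : Finset (Fin M)) :
    ((univ.filter fun x : G => χ b x ∈ A).card : ℝ) ≤
      ((A.card : ℝ) / M + η) * Fintype.card G := by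
  have h1 := h Unit (by simp) (fun _ => (b, true, 0)) (fun _ _ _ => rfl) (fun _ => A)
  simp only [pt, if_true, zero_add, forall_const, Finset.prod_const, Finset.card_univ,
    Fintype.card_unit, pow_one] at h1
  have h2 := (abs_le.mp h1).2
  linarith

private lemma TrE_unused {G : Type} (cl W : Finset G) (L : ℕ) (f : ℕ → G) (s0 : ℕ)
    (hf : ∀ s < L, f s ∈ cl) (hinj : ∀ s < L, ∀ s' < L, f s = f s' → s = s')
    (hW : W ⊆ cl) (hWf : ∀ x ∈ W, ∀ s < L, s ≠ s0 → f s ≠ x) : W.card + L ≤ cl.card + 1 := by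
  have h1 : (((range L).erase s0).image f).card = ((range L).erase s0).card := by
    apply Finset.card_image_of_injOn
    intro s hs s' hs' hss
    simp only [coe_erase, coe_range, Set.mem_sdiff, Set.mem_Iio, Set.mem_singleton_iff] at hs hs'
    exact hinj s hs.1 s' hs'.1 hss
  have h2 : L ≤ ((range L).erase s0).card + 1 := by
    have := Finset.pred_card_le_card_erase (s := range L) (a := s0)
    rw [Finset.card_range] at this
    omega
  have h3 : Disjoint W (((range L).erase s0).image f) := by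
    rw [Finset.disjoint_left]
    intro x hx hx'
    simp only [mem_image, mem_erase, mem_range] at hx'
    obtain ⟨s, ⟨hs, hsL⟩, rfl⟩ := hx'
    exact hWf _ hx s hsL hs rfl
  have h4 : W ∪ (((range L).erase s0).image f) ⊆ cl := by
    apply Finset.union_subset hW
    intro x hx
    simp only [mem_image, mem_erase, mem_range] at hx
    obtain ⟨s, ⟨_, hsL⟩, rfl⟩ := hx
    exact hf s hsL
  have h5 := Finset.card_le_card h4
  rw [Finset.card_union_of_disjoint h3, h1] at h5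
  omega

private lemma TrE_fin (c S : ℕ) :
    (univ.filter fun s : Fin c => S ≤ (s : ℕ)).card ≤ c - S := by
  have : (univ.filter fun s : Fin c => S ≤ (s : ℕ)).card ≤ (Finset.Ico S c).card := by
    apply Finset.card_le_card_of_injOn (fun s : Fin c => (s : ℕ))
    · intro s hs
      simp only [coe_filter, mem_univ, true_and, Set.mem_ofPred_eq] at hs
      simp [hs, s.2]
    · intro s _ s' _ h
      exact Fin.ext h
  simpa using this

private lemma TrE_enum {X : Type} [Nonempty X] (S : Finset X) :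
    ∃ x : ℕ → X, (∀ s < S.card, x s ∈ S) ∧
      ∀ s < S.card, ∀ s' < S.card, x s = x s' → s = s' := by
  refine ⟨fun s => if h : s < S.card then (S.equivFin.symm ⟨s, h⟩ : X) else Classical.arbitrary X, ?_, ?_⟩
  · intro s hs
    simp [hs]
  · intro s hs s' hs' h
    simp only [hs, hs', dite_true] at h
    have := S.equivFin.symm.injective (Subtype.ext h)
    simpa using this

private lemma TrE_core {G : Type} [AddCommGroup G] [Fintype G] {M : ℕ} (χ : Bool → G → Fin M)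
    (n : ℕ) (p : ℕ → ℕ) (mk : ℕ → Prop)
    (C : Finset ℕ) (T : ℕ) (k c : Fin T → ℕ) (P : ∀ τ, Fin (k τ) → Fin (k τ))
    (mt : ∀ τ, Fin (k τ) → Prop) (e : ∀ τ, Fin (c τ) → Fin (k τ) → ℕ)
    (he1 : ∀ τ s j, e τ s j < n ∧ e τ s j ∉ C ∧ (mk (e τ s j) ↔ mt τ j))
    (he2 : ∀ i < n, i ∉ C → ∃ τ s j, e τ s j = i)
    (he3 : ∀ τ s j, ∀ τ' s' j', e τ s j = e τ' s' j' →
        τ = τ' ∧ (s : ℕ) = s' ∧ (j : ℕ) = j')
    (he4 : ∀ τ s, ∀ j : Fin (k τ), 0 < (j : ℕ) → p (e τ s j) = e τ s (P τ j))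
    (he5 : ∀ τ s, ∀ j : Fin (k τ), (j : ℕ) = 0 → e τ s j = 0 ∨ p (e τ s j) ∈ C)
    (A : (Σ τ, Fin (k τ)) → Finset (Fin M))
    (hA : ∀ z z' c, c ∈ A z → c ∈ A z' → z = z')
    (S : ∀ τ, Finset (Fin (k τ) → G))
    (hS1 : ∀ τ, S τ ⊆ Cpy χ (P τ) (fun j => A ⟨τ, j⟩) (fun j => A ⟨τ, j⟩))
    (hS2 : ∀ τ j, Set.InjOn (fun x : Fin (k τ) → G => x j) (S τ : Set (Fin (k τ) → G)))
    (hS3 : ∀ τ, ∀ j : Fin (k τ), 0 < (j : ℕ) →
          Set.InjOn (fun x : Fin (k τ) → G => x j + x (P τ j)) (S τ : Set (Fin (k τ) → G))) :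
    ∃ (K : Fin 3 → Finset (Fin M)) (V1 : Finset ℕ) (g1 : ℕ → G),
        Disjoint (K 0) (K 1) ∧ (∀ c, c ∉ K 1 ↔ ∃ z, c ∈ A z) ∧ (K 1 ⊆ K 2) ∧
        (∀ c, c ∉ K 2 → ∃ z : (Σ τ, Fin (k τ)), 0 < (z.2 : ℕ) ∧ c ∈ A z) ∧
        V1 ⊆ range n ∧ (((range n) \ V1).card : ℕ) ≤ C.card + ∑ τ, (c τ - (S τ).card) * k τ ∧
        Set.InjOn g1 (V1 : Set ℕ) ∧
        (∀ i ∈ V1, ∀ j ∈ V1, 0 < i → 0 < j → p i ∈ V1 → p j ∈ V1 →
          g1 i + g1 (p i) = g1 j + g1 (p j) → i = j) ∧
        (∀ i ∈ V1, χ true (g1 i) ∉ K 1 ∧ (χ true (g1 i) ∈ K 0 ↔ mk i)) ∧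
        (∀ i ∈ V1, 0 < i → p i ∈ V1 → χ false (g1 i + g1 (p i)) ∉ K 2) ∧
        (∀ z : (Σ τ, Fin (k τ)),
          (univ.filter fun x : G => χ true x ∈ A z ∧ ∀ i ∈ V1, g1 i ≠ x).card +
            min (c z.1) (S z.1).card ≤ (univ.filter fun x : G => χ true x ∈ A z).card + 1) ∧
        (∀ z : (Σ τ, Fin (k τ)), 0 < (z.2 : ℕ) →
          (univ.filter fun x : G => χ false x ∈ A z ∧
            ∀ i ∈ V1, 0 < i → p i ∈ V1 → g1 i + g1 (p i) ≠ x).card +
            min (c z.1) (S z.1).card ≤ (univ.filter fun x : G => χ false x ∈ A z).card + 1) := by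
  choose x hx1 hx2 using fun τ => TrE_enum (S τ)
  -- the map
  have hE : Function.Injective
      (fun z : (Σ τ : Fin T, Fin (c τ) × Fin (k τ)) => e z.1 z.2.1 z.2.2) := by
    rintro ⟨τ, s, j⟩ ⟨τ', s', j'⟩ h
    obtain ⟨rfl, hs, hj⟩ := he3 _ _ _ _ _ _ h
    have hs' := Fin.ext hs
    have hj' := Fin.ext hj
    subst hs' hj'
    rfl
  obtain ⟨g1, hg1⟩ : ∃ g1 : ℕ → G, ∀ τ (s : Fin (c τ)) (j : Fin (k τ)),
      g1 (e τ s j) = x τ s j := by
    refine ⟨Function.extend (fun z : (Σ τ : Fin T, Fin (c τ) × Fin (k τ)) => e z.1 z.2.1 z.2.2)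
      (fun z => x z.1 z.2.1 z.2.2) 0, ?_⟩
    intro τ s j
    exact hE.extend_apply (fun z => x z.1 z.2.1 z.2.2) 0 ⟨τ, s, j⟩
  -- colours
  have hcol : ∀ τ (s : ℕ), s < (S τ).card → ∀ j : Fin (k τ), χ true (x τ s j) ∈ A ⟨τ, j⟩ := by
    intro τ s hs j
    have := hS1 τ (hx1 τ s hs)
    simp only [Cpy, mem_filter, mem_univ, true_and] at this
    exact this.1 j
  have hcol2 : ∀ τ (s : ℕ), s < (S τ).card → ∀ j : Fin (k τ), 0 < (j : ℕ) →
      χ false (x τ s j + x τ s (P τ j)) ∈ A ⟨τ, j⟩ := by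
    intro τ s hs j hj
    have := hS1 τ (hx1 τ s hs)
    simp only [Cpy, mem_filter, mem_univ, true_and] at this
    exact this.2 j hj
  have hV : ∀ i, i ∈ (range n).filter (fun i => ∃ τ, ∃ (s : Fin (c τ)) (j : Fin (k τ)),
      (s : ℕ) < (S τ).card ∧ e τ s j = i) ↔ ∃ τ, ∃ (s : Fin (c τ)) (j : Fin (k τ)),
      (s : ℕ) < (S τ).card ∧ e τ s j = i := by
    intro i
    simp only [mem_filter, mem_range, and_iff_right_iff_imp]
    rintro ⟨τ, s, j, _, rfl⟩
    exact (he1 τ s j).1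
  have hedge : ∀ τ (s : Fin (c τ)) (j : Fin (k τ)), 0 < e τ s j →
      p (e τ s j) ∈ (range n).filter (fun i => ∃ τ, ∃ (s : Fin (c τ)) (j : Fin (k τ)),
      (s : ℕ) < (S τ).card ∧ e τ s j = i) → 0 < (j : ℕ) := by
    intro τ s j h0 hp
    by_contra hj
    rcases he5 τ s j (by omega) with h | h
    · omega
    · rw [hV] at hp
      obtain ⟨τ', s', j', _, h'⟩ := hp
      rw [← h'] at h
      exact (he1 τ' s' j').2.1 h
  refine ⟨![univ.filter fun c => ∃ z : (Σ τ, Fin (k τ)), mt z.1 z.2 ∧ c ∈ A z,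
    univ.filter fun c => ¬ ∃ z, c ∈ A z,
    univ.filter fun c => ¬ ∃ z : (Σ τ, Fin (k τ)), 0 < (z.2 : ℕ) ∧ c ∈ A z],
    (range n).filter (fun i => ∃ τ, ∃ (s : Fin (c τ)) (j : Fin (k τ)),
      (s : ℕ) < (S τ).card ∧ e τ s j = i), g1, ?_, ?_, ?_, ?_, ?_, ?_, ?_, ?_, ?_, ?_, ?_, ?_⟩
  · rw [Finset.disjoint_left]
    intro c hc hc'
    simp only [Matrix.cons_val_zero, Matrix.cons_val_one, mem_filter, mem_univ, true_and] at hc hc'
    obtain ⟨z, _, hz⟩ := hc
    exact hc' ⟨z, hz⟩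
  · intro c
    simp
  · intro c hc
    simp only [Matrix.cons_val_one, Matrix.cons_val, mem_filter, mem_univ, true_and] at hc ⊢
    rintro ⟨z, _, hz⟩
    exact hc ⟨z, hz⟩
  · intro c hc
    simpa using hc
  · exact Finset.filter_subset _ _
  · have hsub : (range n) \ (range n).filter (fun i => ∃ τ, ∃ (s : Fin (c τ)) (j : Fin (k τ)),
      (s : ℕ) < (S τ).card ∧ e τ s j = i) ⊆ C ∪ univ.biUnion (fun τ : Fin T =>
        ((univ.filter fun s : Fin (c τ) => (S τ).card ≤ (s : ℕ)) ×ˢ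
          (univ : Finset (Fin (k τ)))).image (fun z => e τ z.1 z.2)) := by
      intro i hi
      rw [mem_sdiff, mem_range, hV] at hi
      rw [mem_union]
      by_cases hC : i ∈ C
      · exact Or.inl hC
      · right
        obtain ⟨τ, s, j, h⟩ := he2 i hi.1 hC
        simp only [mem_biUnion, mem_univ, true_and, mem_image, mem_product, mem_filter, and_true]
        refine ⟨τ, (s, j), ?_, h⟩
        by_contra hlt
        exact hi.2 ⟨τ, s, j, by simpa using hlt, h⟩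
    refine (Finset.card_le_card hsub).trans ((Finset.card_union_le _ _).trans ?_)
    refine Nat.add_le_add_left ((Finset.card_biUnion_le).trans ?_) _
    apply Finset.sum_le_sum
    intro τ _
    refine Finset.card_image_le.trans ?_
    rw [Finset.card_product]
    simp only [Finset.card_univ, Fintype.card_fin]
    exact Nat.mul_le_mul_right _ (TrE_fin _ _)
  · intro i hi i' hi' h
    rw [Finset.mem_coe, hV] at hi hi'
    obtain ⟨τ, s, j, hs, rfl⟩ := hi
    obtain ⟨τ', s', j', hs', rfl⟩ := hi'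
    rw [hg1, hg1] at h
    have h1 := hcol τ s hs j
    rw [h] at h1
    have h2 := hA _ _ _ h1 (hcol τ' s' hs' j')
    obtain ⟨rfl, h3⟩ := Sigma.mk.inj_iff.mp h2
    have h3 := eq_of_heq h3
    subst h3
    have h4 := hS2 τ j (hx1 τ s hs) (hx1 τ s' hs') h
    have h5 := hx2 τ s hs s' hs' h4
    rw [Fin.ext h5]
  · intro i hi i' hi' h0 h0' hp hp' h
    rw [hV] at hi hi'
    obtain ⟨τ, s, j, hs, rfl⟩ := hi
    obtain ⟨τ', s', j', hs', rfl⟩ := hi'
    have hj := hedge _ _ _ h0 hp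
    have hj' := hedge _ _ _ h0' hp'
    rw [he4 _ _ _ hj, he4 _ _ _ hj', hg1, hg1, hg1, hg1] at h
    have h1 := hcol2 τ s hs j hj
    rw [h] at h1
    have h2 := hA _ _ _ h1 (hcol2 τ' s' hs' j' hj')
    obtain ⟨rfl, h3⟩ := Sigma.mk.inj_iff.mp h2
    have h3 := eq_of_heq h3
    subst h3
    have h4 := hS3 τ j hj (hx1 τ s hs) (hx1 τ s' hs') h
    have h5 := hx2 τ s hs s' hs' h4
    rw [Fin.ext h5]
  · intro i hi
    rw [hV] at hi
    obtain ⟨τ, s, j, hs, rfl⟩ := hi
    have h1 := hcol τ s hs j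
    rw [hg1]
    constructor
    · simp only [Matrix.cons_val_one, Matrix.cons_val, mem_filter, mem_univ, true_and, not_not]
      exact ⟨_, h1⟩
    · rw [(he1 τ s j).2.2]
      simp only [Matrix.cons_val_zero, mem_filter, mem_univ, true_and]
      constructor
      · rintro ⟨z, hz, hz'⟩
        have := hA _ _ _ hz' h1
        subst this
        exact hz
      · intro h
        exact ⟨⟨τ, j⟩, h, h1⟩
  · intro i hi h0 hp
    rw [hV] at hi
    obtain ⟨τ, s, j, hs, rfl⟩ := hi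
    have hj := hedge _ _ _ h0 hp
    have h1 := hcol2 τ s hs j hj
    rw [he4 _ _ _ hj, hg1, hg1]
    simp only [Matrix.cons_val, mem_filter, mem_univ, true_and, not_not]
    exact ⟨⟨τ, j⟩, hj, h1⟩
  · rintro ⟨τ, j⟩
    apply TrE_unused _ _ _ (fun s => x τ s j) (c τ)
    · intro s hs
      simp only [mem_filter, mem_univ, true_and]
      exact hcol τ s (lt_of_lt_of_le hs (min_le_right _ _)) j
    · intro s hs s' hs' h
      have a1 := lt_of_lt_of_le hs (min_le_right _ _)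
      have a2 := lt_of_lt_of_le hs' (min_le_right _ _)
      exact hx2 τ s a1 s' a2 (hS2 τ j (hx1 τ s a1) (hx1 τ s' a2) h)
    · intro y hy
      simp only [mem_filter, mem_univ, true_and] at hy ⊢
      exact hy.1
    · intro y hy s hs _ h
      simp only [mem_filter, mem_univ, true_and] at hy
      have a1 := lt_of_lt_of_le hs (min_le_right _ _)
      have a0 := lt_of_lt_of_le hs (min_le_left _ _)
      apply hy.2 (e τ ⟨s, a0⟩ j)
      · exact Finset.mem_filter.mp ((hV _).mpr ⟨τ, ⟨s, a0⟩, j, a1, rfl⟩)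
      · rw [hg1]; exact h
  · rintro ⟨τ, j⟩ hj
    obtain ⟨s0, hs0⟩ : ∃ s0 : ℕ, ∀ s : Fin (c τ), (s : ℕ) ≠ s0 → e τ s j ≠ 0 := by
      by_cases h : ∃ s : Fin (c τ), e τ s j = 0
      · obtain ⟨s1, hs1⟩ := h
        refine ⟨s1, fun s hs h0 => hs ?_⟩
        exact (he3 τ s j τ s1 j (h0.trans hs1.symm)).2.1
      · push Not at h
        exact ⟨0, fun s _ => h s⟩
    apply TrE_unused _ _ _ (fun s => x τ s j + x τ s (P τ j)) s0
    · intro s hs
      simp only [mem_filter, mem_univ, true_and]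
      exact hcol2 τ s (lt_of_lt_of_le hs (min_le_right _ _)) j hj
    · intro s hs s' hs' h
      have a1 := lt_of_lt_of_le hs (min_le_right _ _)
      have a2 := lt_of_lt_of_le hs' (min_le_right _ _)
      exact hx2 τ s a1 s' a2 (hS3 τ j hj (hx1 τ s a1) (hx1 τ s' a2) h)
    · intro y hy
      simp only [mem_filter, mem_univ, true_and] at hy ⊢
      exact hy.1
    · intro y hy s hs hss h
      simp only [mem_filter, mem_univ, true_and] at hy
      have a1 := lt_of_lt_of_le hs (min_le_right _ _)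
      have a0 := lt_of_lt_of_le hs (min_le_left _ _)
      apply hy.2 (e τ ⟨s, a0⟩ j)
      · exact Finset.mem_filter.mp ((hV _).mpr ⟨τ, ⟨s, a0⟩, j, a1, rfl⟩)
      · exact Nat.pos_of_ne_zero (hs0 ⟨s, a0⟩ hss)
      · rw [he4 _ _ _ hj]
        exact Finset.mem_filter.mp ((hV _).mpr ⟨τ, ⟨s, a0⟩, P τ j, a1, rfl⟩)
      · rw [he4 _ _ _ hj, hg1, hg1]; exact h

theorem partial_embed (m M1 : ℕ) (ρ ζ : ℝ) (hρ : 0 < ρ) (hρ1 : ρ ≤ 1) (hζ : 0 < ζ) (hζ1 : ζ ≤ 1) :
    ∃ M : ℕ, M1 ≤ M ∧ 1 ≤ M ∧ ∃ η : ℝ, 0 < η ∧ ∃ q0 : ℕ,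
      ∀ (G : Type) [AddCommGroup G] [Fintype G] (χ : Bool → G → Fin M),
      q0 ≤ Fintype.card G → Rnd χ 3 η →
      ∀ (n : ℕ) (p : ℕ → ℕ) (mk : ℕ → Prop), (∀ i, 0 < i → i < n → p i < i) → 0 < n →
      n ≤ Fintype.card G → ρ * Fintype.card G ≤ Fintype.card G + 1 - (n : ℝ) →
      ∃ (K : Fin 3 → Finset (Fin M)) (V1 : Finset ℕ) (g1 : ℕ → G),
        Disjoint (K 0) (K 1) ∧ (ρ / 2 * M ≤ (K 1).card) ∧ (ρ / 2 * M ≤ (K 2).card) ∧
        V1 ⊆ range n ∧ (((range n) \ V1).card : ℝ) ≤ ζ * Fintype.card G ∧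
        Set.InjOn g1 (V1 : Set ℕ) ∧
        (∀ i ∈ V1, ∀ j ∈ V1, 0 < i → 0 < j → p i ∈ V1 → p j ∈ V1 →
          g1 i + g1 (p i) = g1 j + g1 (p j) → i = j) ∧
        (∀ i ∈ V1, χ true (g1 i) ∉ K 1 ∧ (χ true (g1 i) ∈ K 0 ↔ mk i)) ∧
        (∀ i ∈ V1, 0 < i → p i ∈ V1 → χ false (g1 i + g1 (p i)) ∉ K 2) ∧
        (((univ.filter fun x : G => χ true x ∉ K 1 ∧ ∀ i ∈ V1, g1 i ≠ x).card : ℝ) ≤
          ζ * Fintype.card G) ∧
        ((univ.filter fun x : G => χ false x ∉ K 2 ∧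
          ∀ i ∈ V1, 0 < i → p i ∈ V1 → g1 i + g1 (p i) ≠ x).card : ℝ) ≤
            ζ * Fintype.card G := by
  obtain ⟨KK, hKK1, hKK2⟩ : ∃ KK : ℕ, 1 ≤ KK ∧ 4 / ζ ≤ (KK : ℝ) :=
    ⟨max 1 ⌈4 / ζ⌉₊, le_max_left _ _, (Nat.le_ceil _).trans (by exact_mod_cast le_max_right _ _)⟩
  obtain ⟨N0, hN0⟩ := codes KK hKK1
  obtain ⟨N, hN1, hNN⟩ : ∃ N : ℕ, 1 ≤ N ∧ N0 ≤ N := ⟨max 1 N0, le_max_left _ _, le_max_right _ _⟩
  have hKKp : (0 : ℝ) < KK := by exact_mod_cast hKK1
  have hNp : (0 : ℝ) < N := by exact_mod_cast hN1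
  obtain ⟨ν, hνdef⟩ : ∃ ν : ℝ, ν = ζ / (8 * KK * N) := ⟨_, rfl⟩
  have hν : 0 < ν := by rw [hνdef]; positivity
  have hν1 : (N : ℝ) * KK * ν = ζ / 8 := by
    rw [hνdef]; field_simp
  obtain ⟨M, hM1, hM2, hM3⟩ : ∃ M : ℕ, M1 ≤ M ∧ 1 ≤ M ∧ 8 * KK * N / ζ ≤ (M : ℝ) :=
    ⟨max M1 (max 1 ⌈8 * KK * N / ζ⌉₊), le_max_left _ _,
      (le_max_left _ _).trans (le_max_right _ _),
      (Nat.le_ceil _).trans (by exact_mod_cast (le_max_right _ _).trans (le_max_right _ _))⟩
  have hMp : (0 : ℝ) < M := by exact_mod_cast hM2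
  have hM4 : (N : ℝ) * KK * (1 / M) ≤ ζ / 8 := by
    rw [div_le_iff₀ hζ] at hM3
    rw [mul_one_div, div_le_iff₀ hMp]
    nlinarith
  obtain ⟨η0, hη0, q00, hnib⟩ := code_nibble KK M hM2 ν hν
  refine ⟨M, hM1, hM2, min η0 ν, lt_min hη0 hν,
    max q00 (max 1 (max ⌈2 / ρ⌉₊ ⌈2 * N * KK / ζ⌉₊)), ?_⟩
  intro G _ _ χ hq hR n p mk hp hn0 hnq hρq
  have hq1 : q00 ≤ Fintype.card G := (le_max_left _ _).trans hq
  have hq' := (le_max_right _ _).trans hq
  have hq2 : 1 ≤ Fintype.card G := (le_max_left _ _).trans hq'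
  have hq'' := (le_max_right _ _).trans hq'
  have hq3 : 2 / ρ ≤ (Fintype.card G : ℝ) :=
    (Nat.le_ceil _).trans (by exact_mod_cast (le_max_left _ _).trans hq'')
  have hq4 : 2 * N * KK / ζ ≤ (Fintype.card G : ℝ) :=
    (Nat.le_ceil _).trans (by exact_mod_cast (le_max_right _ _).trans hq'')
  clear hq hq' hq''
  have hR0 : Rnd χ 3 η0 := by
    intro ι _ h1 v hv K
    exact (hR ι h1 v hv K).trans
      (mul_le_mul_of_nonneg_right (min_le_left _ _) (by positivity))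
  have hRν : Rnd χ 3 ν := by
    intro ι _ h1 v hv K
    exact (hR ι h1 v hv K).trans
      (mul_le_mul_of_nonneg_right (min_le_right _ _) (by positivity))
  obtain ⟨q, hqd⟩ : ∃ q : ℕ, q = Fintype.card G := ⟨_, rfl⟩
  rw [← hqd] at hq1 hq2 hq3 hq4 hnq hρq ⊢
  have hqp : (0 : ℝ) < q := by exact_mod_cast hq2
  obtain ⟨C, T, k, c, P, mt, e, hC1, hC2, hT, hk, hP, he1, he2, he3, he4, he5⟩ :=
    hN0 n p mk hp
  obtain ⟨a, had⟩ : ∃ a : Fin T → ℕ, ∀ τ, a τ = c τ * M / q := ⟨_, fun _ => rfl⟩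
  have ha1 : ∀ τ, a τ * q ≤ c τ * M := fun τ => by
    rw [had]; exact Nat.div_mul_le_self _ _
  have ha2 : ∀ τ, c τ * M < (a τ + 1) * q := fun τ => by
    rw [had, mul_comm (_ + 1)]; exact Nat.lt_mul_div_succ _ hq2
  have ha1' : ∀ τ, (a τ : ℝ) / M * q ≤ c τ := fun τ => by
    rw [div_mul_eq_mul_div, div_le_iff₀ hMp]; exact_mod_cast ha1 τ
  have ha2' : ∀ τ, (c τ : ℝ) ≤ (a τ : ℝ) / M * q + 1 / M * q := fun τ => by
    have h1 : (c τ : ℝ) * M ≤ ((a τ : ℝ) + 1) * q := by exact_mod_cast (ha2 τ).le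
    rw [← add_mul, ← add_div, div_mul_eq_mul_div, le_div_iff₀ hMp]
    exact h1
  -- the total number of vertices in the pieces
  have hsum : ∑ τ, c τ * k τ ≤ n := by
    have hE : Function.Injective
        (fun z : (Σ τ : Fin T, Fin (c τ) × Fin (k τ)) => e z.1 z.2.1 z.2.2) := by
      rintro ⟨τ, s, j⟩ ⟨τ', s', j'⟩ h
      obtain ⟨rfl, hs, hj⟩ := he3 _ _ _ _ _ _ h
      have hs' := Fin.ext hs
      have hj' := Fin.ext hj
      subst hs' hj'
      rfl
    have h1 : (univ : Finset (Σ τ : Fin T, Fin (c τ) × Fin (k τ))).card ≤ (range n).card := by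
      apply Finset.card_le_card_of_injOn
        (fun z : (Σ τ : Fin T, Fin (c τ) × Fin (k τ)) => e z.1 z.2.1 z.2.2)
      · intro z _
        simpa using (he1 z.1 z.2.1 z.2.2).1
      · exact hE.injOn
    simpa [Fintype.card_sigma] using h1
  have hsum2 : (∑ z : (Σ τ, Fin (k τ)), a z.1) * q ≤ n * M := by
    rw [Fintype.sum_sigma, Finset.sum_mul]
    calc ∑ τ, (∑ _j : Fin (k τ), a τ) * q ≤ ∑ τ, (c τ * k τ) * M := by
          apply Finset.sum_le_sum
          intro τ _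
          simp only [Finset.sum_const, Finset.card_univ, Fintype.card_fin, smul_eq_mul]
          have := Nat.mul_le_mul_left (k τ) (ha1 τ)
          calc k τ * a τ * q = k τ * (a τ * q) := by ring
            _ ≤ k τ * (c τ * M) := this
            _ = c τ * k τ * M := by ring
      _ = (∑ τ, c τ * k τ) * M := by rw [Finset.sum_mul]
      _ ≤ n * M := Nat.mul_le_mul_right _ hsum
  have hsum3 : ∑ z : (Σ τ, Fin (k τ)), a z.1 ≤ M := by
    have : (∑ z : (Σ τ, Fin (k τ)), a z.1) * q ≤ M * q :=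
      hsum2.trans (by rw [mul_comm]; exact Nat.mul_le_mul_left _ hnq)
    exact Nat.le_of_mul_le_mul_right this hq2
  have hnz : (Fintype.card (Σ τ, Fin (k τ)) : ℝ) ≤ N * KK := by
    have h1 : Fintype.card (Σ τ, Fin (k τ)) ≤ N * KK := by
      rw [Fintype.card_sigma]
      calc ∑ τ, Fintype.card (Fin (k τ)) ≤ ∑ _τ : Fin T, KK :=
            Finset.sum_le_sum fun τ _ => by simpa using (hk τ).2
        _ = T * KK := by simp
        _ ≤ N * KK := Nat.mul_le_mul_right _ (hT.trans hNN)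
    exact_mod_cast h1
  obtain ⟨A, hA1, hA2⟩ := TrE_alloc M (fun z : (Σ τ, Fin (k τ)) => a z.1) hsum3
  have hS : ∀ τ, ∃ S : Finset (Fin (k τ) → G),
      S ⊆ Cpy χ (P τ) (fun j => A ⟨τ, j⟩) (fun j => A ⟨τ, j⟩) ∧
      (∀ j, Set.InjOn (fun x : Fin (k τ) → G => x j) (S : Set (Fin (k τ) → G))) ∧
      (∀ j : Fin (k τ), 0 < (j : ℕ) →
          Set.InjOn (fun x : Fin (k τ) → G => x j + x (P τ j)) (S : Set (Fin (k τ) → G))) ∧
      (1 ≤ a τ → ((a τ : ℝ) / M - ν) * q ≤ S.card) := by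
    intro τ
    by_cases h : 1 ≤ a τ
    · obtain ⟨S, h1, h2, h3, h4⟩ := hnib G χ (hqd ▸ hq1) hR0 (k τ) (hk τ).1 (hk τ).2 (P τ) (hP τ)
        (a τ) (fun j => A ⟨τ, j⟩) (fun j => A ⟨τ, j⟩) h (fun j => hA1 _) (fun j => hA1 _)
      exact ⟨S, h1, h2, h3, fun _ => hqd ▸ h4⟩
    · exact ⟨∅, by simp, by simp, by simp, fun h' => absurd h' h⟩
  choose S hS1 hS2 hS3 hS4 using hS
  obtain ⟨K, V1, g1, c1, c2, c3, c4, c5, c6, c7, c8, c9, c10, c11, c12⟩ :=
    TrE_core χ n p mk C T k c P mt e he1 he2 he3 he4 he5 A hA2 S hS1 hS2 hS3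
  have hK1 : ρ / 2 * M ≤ ((K 1).card : ℝ) := by
    have h1 : ((univ : Finset (Fin M)) \ K 1).card ≤ ∑ z : (Σ τ, Fin (k τ)), a z.1 := by
      have h2 : (univ : Finset (Fin M)) \ K 1 ⊆ univ.biUnion A := by
        intro c hc
        simp only [mem_sdiff, mem_univ, true_and] at hc
        simpa using (c2 c).mp hc
      refine (Finset.card_le_card h2).trans (Finset.card_biUnion_le.trans ?_)
      simp [hA1]
    have h3 : (M : ℝ) ≤ (K 1).card + ∑ z : (Σ τ, Fin (k τ)), (a z.1 : ℝ) := by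
      have h4 : (univ : Finset (Fin M)).card = ((univ : Finset (Fin M)) \ K 1).card + (K 1).card :=
        (Finset.card_sdiff_add_card_eq_card (Finset.subset_univ _)).symm
      rw [Finset.card_univ, Fintype.card_fin] at h4
      have h5 : M ≤ (K 1).card + ∑ z : (Σ τ, Fin (k τ)), a z.1 := by omega
      exact_mod_cast h5
    have h6 : (∑ z : (Σ τ, Fin (k τ)), (a z.1 : ℝ)) * q ≤ n * M := by exact_mod_cast hsum2
    have h7 : (1 : ℝ) ≤ ρ / 2 * q := by
      rw [div_le_iff₀ hρ] at hq3; linarith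
    have h8 : ((M : ℝ) - (K 1).card) * q ≤ n * M :=
      le_trans (mul_le_mul_of_nonneg_right (by linarith) hqp.le) h6
    have h9 : (n : ℝ) * M ≤ (q + 1 - ρ * q) * M :=
      mul_le_mul_of_nonneg_right (by linarith) hMp.le
    have h10 : (ρ / 2 * M) * q ≤ (K 1).card * q := by
      nlinarith
    exact le_of_mul_le_mul_right h10 hqp
  have hK2 : ρ / 2 * M ≤ ((K 2).card : ℝ) :=
    hK1.trans (by exact_mod_cast Finset.card_le_card c3)
  have hmin : ∀ τ, 1 ≤ a τ → ((a τ : ℝ) / M - ν) * q ≤ (min (c τ) (S τ).card : ℕ) := by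
    intro τ h
    rw [Nat.cast_min]
    apply le_min
    · refine le_trans ?_ (ha1' τ)
      exact mul_le_mul_of_nonneg_right (by linarith) hqp.le
    · exact hS4 τ h
  have hunused : ∀ (b : Bool) (z : (Σ τ, Fin (k τ))) (W : Finset G),
      W ⊆ (univ.filter fun x : G => χ b x ∈ A z) →
      W.card + min (c z.1) (S z.1).card ≤ (univ.filter fun x : G => χ b x ∈ A z).card + 1 →
      (W.card : ℝ) ≤ 2 * ν * q + 1 := by
    intro b z W hW hc
    by_cases h : 1 ≤ a z.1
    · have h1 := TrE_card hRν b (A z)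
      rw [hA1, ← hqd] at h1
      have h2 := hmin z.1 h
      have h3 : (W.card : ℝ) + (min (c z.1) (S z.1).card : ℕ) ≤
          (univ.filter fun x : G => χ b x ∈ A z).card + 1 := by exact_mod_cast hc
      nlinarith
    · have h1 : A z = ∅ := by
        rw [← Finset.card_eq_zero, hA1]; omega
      have h2 : W = ∅ := by
        rw [h1] at hW
        simpa using hW
      rw [h2]
      simp only [card_empty, Nat.cast_zero]
      positivity
  have hfin : (N * KK : ℝ) * (2 * ν * q + 1) ≤ ζ * q := by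
    have h1 : (N * KK : ℝ) * (2 * ν * q + 1) = 2 * (N * KK * ν) * q + N * KK := by ring
    rw [h1, hν1]
    rw [div_le_iff₀ hζ] at hq4
    nlinarith
  have htot : ∀ (b : Bool) (U : Finset G) (Z : Finset (Σ τ, Fin (k τ)))
      (W : (Σ τ, Fin (k τ)) → Finset G), U ⊆ Z.biUnion W →
      (∀ z ∈ Z, ((W z).card : ℝ) ≤ 2 * ν * q + 1) → (U.card : ℝ) ≤ ζ * q := by
    intro b U Z W hU hW
    have h1 : (U.card : ℝ) ≤ ∑ z ∈ Z, ((W z).card : ℝ) := by
      exact_mod_cast (Finset.card_le_card hU).trans Finset.card_biUnion_le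
    have h2 : ∑ z ∈ Z, ((W z).card : ℝ) ≤ Z.card * (2 * ν * q + 1) := by
      have := Finset.sum_le_card_nsmul Z (fun z => ((W z).card : ℝ)) (2 * ν * q + 1) hW
      rwa [nsmul_eq_mul] at this
    have h3 : (Z.card : ℝ) ≤ N * KK :=
      le_trans (by exact_mod_cast Finset.card_le_univ Z) hnz
    have h4 : (0 : ℝ) ≤ 2 * ν * q + 1 := by positivity
    calc (U.card : ℝ) ≤ Z.card * (2 * ν * q + 1) := h1.trans h2
      _ ≤ N * KK * (2 * ν * q + 1) := mul_le_mul_of_nonneg_right h3 h4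
      _ ≤ ζ * q := hfin
  refine ⟨K, V1, g1, c1, hK1, hK2, c5, ?_, c7, c8, c9, c10, ?_, ?_⟩
  · have h1 : ((((range n) \ V1).card : ℕ) : ℝ) ≤
        C.card + ∑ τ, (((c τ - (S τ).card : ℕ)) : ℝ) * k τ := by exact_mod_cast c6
    have h2 : (C.card : ℝ) ≤ ζ / 4 * q := by
      have h3 : (C.card : ℝ) * KK ≤ q := by exact_mod_cast hC2.trans hnq
      rw [div_le_iff₀ hζ] at hKK2
      have h5 : (C.card : ℝ) * 4 ≤ C.card * (KK * ζ) :=
        mul_le_mul_of_nonneg_left (by linarith) (by positivity)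
      nlinarith
    have h3 : ∀ τ, (((c τ - (S τ).card : ℕ)) : ℝ) ≤ (1 / M + ν) * q := by
      intro τ
      by_cases hcs : c τ ≤ (S τ).card
      · rw [Nat.sub_eq_zero_of_le hcs]
        simp only [Nat.cast_zero]
        positivity
      · rw [Nat.cast_sub (by omega)]
        by_cases h : 1 ≤ a τ
        · have h4 := hS4 τ h
          have h5 := ha2' τ
          linarith
        · have h5 := ha2' τ
          have h6 : a τ = 0 := by omega
          rw [h6] at h5
          simp only [Nat.cast_zero, zero_div, zero_mul, zero_add] at h5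
          have h7 : (0 : ℝ) ≤ (S τ).card := by positivity
          have h8 : (0 : ℝ) ≤ ν * q := by positivity
          linarith
    have h4 : ∑ τ, (((c τ - (S τ).card : ℕ)) : ℝ) * k τ ≤ N * KK * ((1 / M + ν) * q) := by
      calc ∑ τ, (((c τ - (S τ).card : ℕ)) : ℝ) * k τ ≤ ∑ _τ : Fin T, ((1 / M + ν) * q) * KK := by
            apply Finset.sum_le_sum
            intro τ _
            apply mul_le_mul (h3 τ) (by exact_mod_cast (hk τ).2) (by positivity) (by positivity)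
        _ = T * (((1 / M + ν) * q) * KK) := by simp
        _ ≤ N * (((1 / M + ν) * q) * KK) := by
            apply mul_le_mul_of_nonneg_right
            · exact_mod_cast hT.trans hNN
            · positivity
        _ = N * KK * ((1 / M + ν) * q) := by ring
    have h5 : (N * KK : ℝ) * ((1 / M + ν) * q) ≤ ζ / 4 * q := by
      have : (N * KK : ℝ) * ((1 / M + ν) * q) = (N * KK * (1 / M) + N * KK * ν) * q := by ring
      rw [this]
      apply mul_le_mul_of_nonneg_right _ hqp.le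
      linarith
    have h6 : (0 : ℝ) ≤ ζ * q := by positivity
    linarith
  · apply htot true _ univ (fun z => univ.filter fun x : G => χ true x ∈ A z ∧ ∀ i ∈ V1, g1 i ≠ x)
    · intro x hx
      simp only [mem_filter, mem_univ, true_and] at hx
      obtain ⟨z, hz⟩ := (c2 _).mp hx.1
      simp only [mem_biUnion, mem_univ, true_and, mem_filter]
      exact ⟨z, hz, hx.2⟩
    · intro z _
      apply hunused true z _ _ (c11 z)
      intro x hx
      simp only [mem_filter, mem_univ, true_and] at hx ⊢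
      exact hx.1
  · apply htot false _ (univ.filter fun z : (Σ τ, Fin (k τ)) => 0 < (z.2 : ℕ))
      (fun z => univ.filter fun x : G => χ false x ∈ A z ∧
        ∀ i ∈ V1, 0 < i → p i ∈ V1 → g1 i + g1 (p i) ≠ x)
    · intro x hx
      simp only [mem_filter, mem_univ, true_and] at hx
      obtain ⟨z, hz0, hz⟩ := c4 _ hx.1
      simp only [mem_biUnion, mem_univ, true_and, mem_filter]
      exact ⟨z, hz0, hz, hx.2⟩
    · intro z hz
      simp only [mem_filter, mem_univ, true_and] at hz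
      apply hunused false z _ _ (c12 z hz)
      intro x hx
      simp only [mem_filter, mem_univ, true_and] at hx ⊢
      exact hx.1

end Pool.Agent.H60.HL
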