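import Pool.Agent.H60.HL.TrA

/-!
# HL-26a TrE1: the pieces grouped by their isomorphism type (code)

`N = (K + 1) * K ^ K * 2 ^ K` works (any bound depending only on `K` is fine).
Proof.  `pieces K n p` gives `C`, `R`, `kk`, `ee`, `PP`.  The code of `r ∈ R` is the element
`(kk r, j ↦ PP r j if 0 < j < kk r else 0, j ↦ [mk (ee r j)] if j < kk r else false)` of the finite type
`Cd = Fin (K + 1) × (Fin K → Fin K) × (Fin K → Bool)`.  Take `T = ` the number of the codes which occur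
(a finset of `Cd`), identified with `Fin T`; `k τ`, `P τ`, `mt τ` are read off from the code, `c τ` is
the number of the `r ∈ R` with the code `τ`, and `e τ s j = ee r j` for the `s`-th such `r`.
-/

namespace Pool.Agent.H60.HL

open Finset Classical

private theorem TrE1_group {α : Type} [Fintype α] (R : Finset ℕ) (cd : ℕ → α) :
    ∃ (T : ℕ) (σ : Fin T → α) (c : Fin T → ℕ) (rr : ∀ τ, Fin (c τ) → ℕ),
      T ≤ Fintype.card α ∧ Function.Injective σ ∧ (∀ τ s, rr τ s ∈ R ∧ cd (rr τ s) = σ τ) ∧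
      (∀ τ, Function.Injective (rr τ)) ∧ (∀ τ, ∃ r ∈ R, cd r = σ τ) ∧
      ∀ r ∈ R, ∃ τ s, rr τ s = r := by
  obtain ⟨S, hS⟩ : ∃ S : Finset α, S = R.image cd := ⟨_, rfl⟩
  refine ⟨S.card, fun τ => (S.equivFin.symm τ : α),
    fun τ => (R.filter (fun r => cd r = (S.equivFin.symm τ : α))).card,
    fun τ s => (((R.filter (fun r => cd r = (S.equivFin.symm τ : α))).equivFin.symm s :
      {x // x ∈ R.filter (fun r => cd r = (S.equivFin.symm τ : α))}) : ℕ), ?_, ?_, ?_, ?_, ?_, ?_⟩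
  · exact Finset.card_le_univ S
  · intro a b hab
    exact S.equivFin.symm.injective (Subtype.ext hab)
  · intro τ s
    have := ((R.filter (fun r => cd r = (S.equivFin.symm τ : α))).equivFin.symm s).2
    exact Finset.mem_filter.1 this
  · intro τ a b hab
    exact (R.filter (fun r => cd r = (S.equivFin.symm τ : α))).equivFin.symm.injective
      (Subtype.ext hab)
  · intro τ
    have h := (S.equivFin.symm τ).2
    have hS' : ∀ x ∈ S, ∃ r ∈ R, cd r = x := by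
      intro x hx
      rw [hS, Finset.mem_image] at hx
      exact hx
    exact hS' _ h
  · intro r hr
    have hm : cd r ∈ S := by rw [hS]; exact Finset.mem_image_of_mem _ hr
    have hσ : ((S.equivFin.symm (S.equivFin ⟨cd r, hm⟩) : {x // x ∈ S}) : α) = cd r := by
      rw [Equiv.symm_apply_apply]
    have hr' : r ∈ R.filter
        (fun r' => cd r' = (S.equivFin.symm (S.equivFin ⟨cd r, hm⟩) : α)) := by
      rw [Finset.mem_filter]
      exact ⟨hr, hσ.symm⟩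
    refine ⟨S.equivFin ⟨cd r, hm⟩,
      (R.filter (fun r' => cd r' = (S.equivFin.symm (S.equivFin ⟨cd r, hm⟩) : α))).equivFin
        ⟨r, hr'⟩, ?_⟩
    simp only [Equiv.symm_apply_apply]

theorem codes (K : ℕ) (hK : 1 ≤ K) :
    ∃ N : ℕ, ∀ (n : ℕ) (p : ℕ → ℕ) (mk : ℕ → Prop), (∀ i, 0 < i → i < n → p i < i) →
    ∃ (C : Finset ℕ) (T : ℕ) (k c : Fin T → ℕ) (P : ∀ τ, Fin (k τ) → Fin (k τ))
      (mt : ∀ τ, Fin (k τ) → Prop) (e : ∀ τ, Fin (c τ) → Fin (k τ) → ℕ),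
      C ⊆ range n ∧ C.card * K ≤ n ∧ T ≤ N ∧ (∀ τ, 1 ≤ k τ ∧ k τ ≤ K) ∧
      (∀ τ, ∀ j : Fin (k τ), 0 < (j : ℕ) → P τ j < j) ∧
      (∀ τ s j, e τ s j < n ∧ e τ s j ∉ C ∧ (mk (e τ s j) ↔ mt τ j)) ∧
      (∀ i < n, i ∉ C → ∃ τ s j, e τ s j = i) ∧
      (∀ τ s j, ∀ τ' s' j', e τ s j = e τ' s' j' →
        τ = τ' ∧ (s : ℕ) = s' ∧ (j : ℕ) = j') ∧
      (∀ τ s, ∀ j : Fin (k τ), 0 < (j : ℕ) → p (e τ s j) = e τ s (P τ j)) ∧
      ∀ τ s, ∀ j : Fin (k τ), (j : ℕ) = 0 → e τ s j = 0 ∨ p (e τ s j) ∈ C := by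
  obtain ⟨N, hN⟩ : ∃ N, N = Fintype.card (Fin (K + 1) × (Fin K → Fin K) × (Fin K → Bool)) :=
    ⟨_, rfl⟩
  refine ⟨N, ?_⟩
  intro n p mk hp
  obtain ⟨C, R, kk, ee, PP, hC1, hC2, hk, he, hsur, hinj, hP, hroot⟩ := pieces K hK n p hp
  obtain ⟨cd, hcd⟩ : ∃ cd : ℕ → Fin (K + 1) × (Fin K → Fin K) × (Fin K → Bool),
      cd = fun r : ℕ => ((⟨min (kk r) K, Nat.lt_succ_of_le (min_le_right _ _)⟩ : Fin (K + 1)),
        (fun j : Fin K => (⟨PP r j % K, Nat.mod_lt _ hK⟩ : Fin K)),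
        (fun j : Fin K => decide (mk (ee r j)))) := ⟨_, rfl⟩
  have hcd1 : ∀ r ∈ R, ((cd r).1 : ℕ) = kk r := by
    intro r hr
    rw [hcd]
    exact min_eq_left (hk r hr).2
  have hcd2 : ∀ r ∈ R, ∀ j : Fin K, 0 < (j : ℕ) → (j : ℕ) < kk r →
      (((cd r).2.1 j : Fin K) : ℕ) = PP r j := by
    intro r hr j hj0 hj
    have h1 := (hP r hr j hj0 hj).1
    rw [hcd]
    exact Nat.mod_eq_of_lt (lt_trans h1 j.2)
  have hcd3 : ∀ r, ∀ j : Fin K, (cd r).2.2 j = true ↔ mk (ee r j) := by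
    intro r j
    rw [hcd]
    exact decide_eq_true_iff
  obtain ⟨T, σ, c, rr, hT, hσ, hrr, hri, hat, hrs⟩ := TrE1_group R cd
  have hlt : ∀ τ, ∀ j : Fin ((σ τ).1 : ℕ), (j : ℕ) < K := fun τ j =>
    lt_of_lt_of_le j.2 (Nat.le_of_lt_succ (σ τ).1.2)
  refine ⟨C, T, fun τ => ((σ τ).1 : ℕ), c,
    fun τ j => ⟨min (((σ τ).2.1 ⟨j, hlt τ j⟩ : Fin K) : ℕ) j,
      lt_of_le_of_lt (min_le_right _ _) j.2⟩,
    fun τ j => (σ τ).2.2 ⟨j, hlt τ j⟩ = true, fun τ s j => ee (rr τ s) j,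
    hC1, hC2, ?_, ?_, ?_, ?_, ?_, ?_, ?_, ?_⟩
  · rw [hN]; exact hT
  · intro τ
    obtain ⟨r, hr, h⟩ := hat τ
    show 1 ≤ ((σ τ).1 : ℕ) ∧ ((σ τ).1 : ℕ) ≤ K
    rw [← h, hcd1 r hr]
    exact hk r hr
  · intro τ j hj
    obtain ⟨r, hr, h⟩ := hat τ
    have hkr : ((σ τ).1 : ℕ) = kk r := by rw [← h, hcd1 r hr]
    have hjr : (j : ℕ) < kk r := by rw [← hkr]; exact j.2
    have h2 := hcd2 r hr ⟨j, hlt τ j⟩ hj hjr
    have h3 := (hP r hr j hj hjr).1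
    rw [h] at h2
    rw [Fin.lt_def]
    exact lt_of_le_of_lt (min_le_left _ _) (by rw [h2]; exact h3)
  · intro τ s j
    obtain ⟨hr, h⟩ := hrr τ s
    have hkr : ((σ τ).1 : ℕ) = kk (rr τ s) := by rw [← h, hcd1 _ hr]
    have hjr : (j : ℕ) < kk (rr τ s) := by rw [← hkr]; exact j.2
    refine ⟨(he _ hr j hjr).1, (he _ hr j hjr).2, ?_⟩
    have h3 := hcd3 (rr τ s) ⟨j, hlt τ j⟩
    rw [h] at h3
    exact h3.symm
  · intro i hi hiC
    obtain ⟨r, hr, j, hj, h⟩ := hsur i hi hiC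
    obtain ⟨τ, s, hs⟩ := hrs r hr
    have hkr : ((σ τ).1 : ℕ) = kk r := by rw [← (hrr τ s).2, hs, hcd1 _ hr]
    refine ⟨τ, s, ⟨j, lt_of_lt_of_eq hj hkr.symm⟩, ?_⟩
    show ee (rr τ s) j = i
    rw [hs, h]
  · intro τ s j τ' s' j' h
    have hkr : ((σ τ).1 : ℕ) = kk (rr τ s) := by rw [← (hrr τ s).2, hcd1 _ (hrr τ s).1]
    have hkr' : ((σ τ').1 : ℕ) = kk (rr τ' s') := by rw [← (hrr τ' s').2, hcd1 _ (hrr τ' s').1]
    obtain ⟨h1, h2⟩ := hinj (rr τ s) (hrr τ s).1 (rr τ' s') (hrr τ' s').1 j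
      (by rw [← hkr]; exact j.2) j' (by rw [← hkr']; exact j'.2) h
    have hτ : τ = τ' := hσ (by rw [← (hrr τ s).2, ← (hrr τ' s').2, h1])
    subst hτ
    exact ⟨rfl, congrArg _ (hri τ h1), h2⟩
  · intro τ s j hj
    obtain ⟨hr, h⟩ := hrr τ s
    have hkr : ((σ τ).1 : ℕ) = kk (rr τ s) := by rw [← h, hcd1 _ hr]
    have hjr : (j : ℕ) < kk (rr τ s) := by rw [← hkr]; exact j.2
    have h2 := hcd2 _ hr ⟨j, hlt τ j⟩ hj hjr
    have h3 := hP _ hr j hj hjr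
    rw [h] at h2
    show p (ee (rr τ s) j) = ee (rr τ s) (min (((σ τ).2.1 ⟨j, hlt τ j⟩ : Fin K) : ℕ) j)
    rw [h2, ← h3.2]
    congr 1
    exact (min_eq_left h3.1.le).symm
  · intro τ s j hj
    show ee (rr τ s) j = 0 ∨ p (ee (rr τ s) j) ∈ C
    rw [hj]
    exact hroot _ (hrr τ s).1

end Pool.Agent.H60.HL
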