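import Pool.Agent.H60.HL.TrD
import Pool.Agent.H60.HL.TrE
import Pool.Agent.H60.HL.RndEx

/-!
# HL-27 TrF: embedding the tree without the pending leaves

Proof.  `q = card G`, `ζ' = min (ζ / (Δ + 3), (ρ/2)^(Δ+2) / (8 (1 + (Δ+1)²)))`.  `M`, `η1` from
`partial_embed` (with `ζ'`); `χ` from `exists_rnd` with `m' = max m (max 3 (Δ + 2))` and
`η' = min (η, η1, (ρ/2)^(Δ+2) / 4)` (`Rnd` is monotone: smaller `m`, larger `η`).
Given `n, p, mk`: `partial_embed` gives `K`, `V1`, `g1`.  `greedy_ext` with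
`RL = {t : χ true t ∈ K 1}`, `RS = {t : χ false t ∈ K 2}`, `c = ⌊(ρ/2)^(Δ+2) q / 2⌋`.
`h5`: for `D.card ≤ Δ + 1` the pattern `(true, true, 0)` with colours `K 1` and `(false, true, r)`, `r ∈ D`,
with colours `K 2` (index type `Option D`) has at least `((ρ/2)^(Δ+2) - η') q` solutions.
`h6`: `(range n \ V1).card ≤ ζ' q`.  So we have `g`.
`Near (cls χ K) (XYS g n p mk) ζ`:
type `0`: if `χ true x ∈ K 0` and `x` is not `g i` for a marked `i`, then `x` is not `g1 i` for any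
`i ∈ V1` (such an `i` would be marked) and `χ true x ∉ K 1`: at most `ζ' q`.  If `x = g i`, `i` marked and
`χ true x ∉ K 0`, then `i ∉ V1`: at most `ζ' q`.
type `1`: `x = g i` with `χ true x ∈ K 1`: `i ∉ V1`.  `x` unused and `χ true x ∉ K 1`: counted in
`partial_embed`.
type `2`: `-x` a sum with colour in `K 2`: the edge has an end outside `V1`: at most `(Δ + 1) ζ' q`
(each vertex `v` is in at most `Δ + 1` edges: the edge `(v, p v)` and the edges of the children).  `-x` not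
a sum and `χ false (-x) ∉ K 2`: counted in `partial_embed` (the map `x ↦ -x` is a bijection).
-/

namespace Pool.Agent.H60.HL

open Finset Classical

/-- The three sets which have to be matched: the labels of the marked vertices, the unused labels, the
negatives of the unused sums. -/
noncomputable def XYS {G : Type} [AddCommGroup G] [Fintype G] (g : ℕ → G) (n : ℕ) (p : ℕ → ℕ)
    (mk : ℕ → Prop) : Fin 3 → Finset G :=
  fun i => if i = 0 then ((range n).filter mk).image g else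
    if i = 1 then univ \ (range n).image g else
      univ.filter fun x => ∀ j, 0 < j → j < n → g j + g (p j) ≠ -x

private theorem TrF_rnd_mono {G : Type} [AddCommGroup G] [Fintype G] {M : ℕ} {χ : Bool → G → Fin M}
    {m m' : ℕ} {η η' : ℝ} (hm : m' ≤ m) (hη : η ≤ η') (h : Rnd χ m η) : Rnd χ m' η' := by
  intro ι _ hι v hv K
  refine (h ι (hι.trans hm) v hv K).trans ?_
  exact mul_le_mul_of_nonneg_right hη (Nat.cast_nonneg _)

/-- The number of good labels for a new vertex. -/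
private theorem TrF_count {G : Type} [AddCommGroup G] [Fintype G] {M : ℕ} {χ : Bool → G → Fin M}
    {Δ : ℕ} {η ρ : ℝ} (hρ : 0 < ρ) (hρ1 : ρ ≤ 1) (hM : 1 ≤ M) (h : Rnd χ (Δ + 2) η)
    (K1 K2 : Finset (Fin M)) (hK1 : ρ / 2 * M ≤ (K1.card : ℝ)) (hK2 : ρ / 2 * M ≤ (K2.card : ℝ))
    (D : Finset G) (hD : D.card ≤ Δ + 1) :
    ((ρ / 2) ^ (Δ + 2) - η) * Fintype.card G ≤
      (((univ.filter fun t : G => χ true t ∈ K1).filter fun t => ∀ r ∈ D, r + t ∈
        (univ.filter fun s : G => χ false s ∈ K2)).card : ℝ) := by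
  have hM0 : (0 : ℝ) < M := by
    have : (1 : ℝ) ≤ M := by exact_mod_cast hM
    linarith
  let v : Option {x // x ∈ D} → Bool × Bool × G := fun o =>
    match o with
    | none => (true, true, 0)
    | some r => (false, true, r.1)
  let Kf : Option {x // x ∈ D} → Finset (Fin M) := fun o =>
    match o with
    | none => K1
    | some _ => K2
  have hv : Function.Injective v := by
    intro a b hab
    match a, b with
    | none, none => rfl
    | none, some r => simp [v] at hab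
    | some r, none => simp [v] at hab
    | some r, some s =>
      have : r.1 = s.1 := by simpa [v] using hab
      rw [Subtype.ext this]
  have hc : Fintype.card (Option {x // x ∈ D}) ≤ Δ + 2 := by
    rw [Fintype.card_option, Fintype.card_coe]
    omega
  have h1 := h (Option {x // x ∈ D}) hc v hv Kf
  have h2 : ((univ.filter fun t : G => ∀ x, χ (v x).1 (pt (v x).2.1 (v x).2.2 t) ∈ Kf x).card : ℝ) ≤
      (((univ.filter fun t : G => χ true t ∈ K1).filter fun t => ∀ r ∈ D, r + t ∈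
        (univ.filter fun s : G => χ false s ∈ K2)).card : ℝ) := by
    apply Nat.cast_le.2
    apply Finset.card_le_card
    intro t ht
    rw [mem_filter] at ht
    rw [mem_filter, mem_filter]
    refine ⟨⟨mem_univ _, ?_⟩, ?_⟩
    · have := ht.2 none
      simpa [v, Kf, pt] using this
    · intro r hr
      rw [mem_filter]
      refine ⟨mem_univ _, ?_⟩
      have := ht.2 (some ⟨r, hr⟩)
      simpa [v, Kf, pt] using this
  have h3 : (ρ / 2) ^ (Δ + 2) ≤ ∏ x, (((Kf x).card : ℝ) / M) := by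
    have h4 : ∏ _x : Option {x // x ∈ D}, (ρ / 2) ≤ ∏ x, (((Kf x).card : ℝ) / M) := by
      apply Finset.prod_le_prod
      · intro i _
        positivity
      · intro i _
        rw [le_div_iff₀ hM0]
        match i with
        | none => exact hK1
        | some r => exact hK2
    refine le_trans ?_ h4
    rw [Finset.prod_const, Finset.card_univ]
    exact pow_le_pow_of_le_one (by positivity) (by linarith) hc
  have h5 := (abs_le.1 h1).1
  have h6 : (ρ / 2) ^ (Δ + 2) * Fintype.card G ≤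
      Fintype.card G * ∏ x, (((Kf x).card : ℝ) / M) := by
    rw [mul_comm]
    exact mul_le_mul_of_nonneg_left h3 (Nat.cast_nonneg _)
  rw [sub_mul]
  linarith

/-- The vertices `j` with an edge `j, p j` which has an end in `U`. -/
private theorem TrF_edges (Δ n : ℕ) (p : ℕ → ℕ)
    (hΔ : ∀ i, ((range n).filter fun j => 0 < j ∧ p j = i).card ≤ Δ) (U : Finset ℕ) :
    ((range n).filter fun j => 0 < j ∧ (j ∈ U ∨ p j ∈ U)).card ≤ U.card * (Δ + 1) := by
  have h1 : ((range n).filter fun j => 0 < j ∧ (j ∈ U ∨ p j ∈ U)) ⊆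
      U ∪ U.biUnion fun i => (range n).filter fun j => 0 < j ∧ p j = i := by
    intro j hj
    rw [mem_filter] at hj
    rw [mem_union]
    rcases hj.2.2 with h | h
    · exact Or.inl h
    · right
      rw [mem_biUnion]
      exact ⟨p j, h, mem_filter.2 ⟨hj.1, hj.2.1, rfl⟩⟩
  calc _ ≤ _ := card_le_card h1
    _ ≤ U.card + (U.biUnion fun i => (range n).filter fun j => 0 < j ∧ p j = i).card :=
      card_union_le _ _
    _ ≤ U.card + U.card * Δ := by
      gcongr
      exact card_biUnion_le_card_mul _ _ _ fun i _ => hΔ i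
    _ = U.card * (Δ + 1) := by ring

/-- The three ideal sets are close to the three real ones. -/
private theorem TrF_near {G : Type} [AddCommGroup G] [Fintype G] {M : ℕ} {χ : Bool → G → Fin M}
    {Δ n : ℕ} {ζ ζ' : ℝ} (hζ' : 0 ≤ ζ') (hζζ : ζ' * (Δ + 3) ≤ ζ) (p : ℕ → ℕ) (mk : ℕ → Prop)
    (hp : ∀ i, 0 < i → i < n → p i < i)
    (hΔ : ∀ i, ((range n).filter fun j => 0 < j ∧ p j = i).card ≤ Δ)
    (K : Fin 3 → Finset (Fin M)) (V1 : Finset ℕ) (g1 g : ℕ → G) (hK : Disjoint (K 0) (K 1))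
    (hV1 : V1 ⊆ range n) (hU : (((range n) \ V1).card : ℝ) ≤ ζ' * Fintype.card G)
    (hc1 : ∀ i ∈ V1, χ true (g1 i) ∉ K 1 ∧ (χ true (g1 i) ∈ K 0 ↔ mk i))
    (hc2 : ∀ i ∈ V1, 0 < i → p i ∈ V1 → χ false (g1 i + g1 (p i)) ∉ K 2)
    (hu1 : ((univ.filter fun x : G => χ true x ∉ K 1 ∧ ∀ i ∈ V1, g1 i ≠ x).card : ℝ) ≤
      ζ' * Fintype.card G)
    (hu2 : ((univ.filter fun x : G => χ false x ∉ K 2 ∧
          ∀ i ∈ V1, 0 < i → p i ∈ V1 → g1 i + g1 (p i) ≠ x).card : ℝ) ≤ ζ' * Fintype.card G)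
    (hg : ∀ i ∈ V1, g i = g1 i) :
    Near (cls χ K) (XYS g n p mk) ζ := by
  have hq : (0 : ℝ) ≤ Fintype.card G := Nat.cast_nonneg _
  have hΔ0 : (0 : ℝ) ≤ Δ := Nat.cast_nonneg _
  have hzq : 0 ≤ ζ' * Fintype.card G := by positivity
  have hfin : ζ' * (Δ + 3) * Fintype.card G ≤ ζ * Fintype.card G :=
    mul_le_mul_of_nonneg_right hζζ hq
  have hpos : 0 ≤ Δ * (ζ' * Fintype.card G) := by positivity
  have him : (((((range n) \ V1).image g).card : ℕ) : ℝ) ≤ ζ' * Fintype.card G :=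
    (Nat.cast_le.2 card_image_le).trans hU
  intro i
  have hi : i = 0 ∨ i = 1 ∨ i = 2 := by fin_cases i <;> simp
  rcases hi with rfl | rfl | rfl
  · -- type 0
    have hA : ∀ x, x ∈ cls χ K 0 ↔ χ true x ∈ K 0 := by
      intro x
      simp [cls]
    have hB : ∀ x, x ∈ XYS g n p mk 0 ↔ ∃ i, i < n ∧ mk i ∧ g i = x := by
      intro x
      simp [XYS, and_assoc]
    have h1 : (((cls χ K 0 \ XYS g n p mk 0).card : ℕ) : ℝ) ≤ ζ' * Fintype.card G := by
      refine le_trans (Nat.cast_le.2 (card_le_card ?_)) hu1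
      intro x hx
      rw [mem_sdiff, hA, hB] at hx
      rw [mem_filter]
      refine ⟨mem_univ _, fun h => (Finset.disjoint_left.1 hK) hx.1 h, fun i hi hix => ?_⟩
      apply hx.2
      refine ⟨i, mem_range.1 (hV1 hi), ?_, ?_⟩
      · rw [← (hc1 i hi).2, hix]
        exact hx.1
      · rw [hg i hi, hix]
    have h2 : (((XYS g n p mk 0 \ cls χ K 0).card : ℕ) : ℝ) ≤ ζ' * Fintype.card G := by
      refine le_trans (Nat.cast_le.2 (card_le_card ?_)) him
      intro x hx
      rw [mem_sdiff, hA, hB] at hx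
      obtain ⟨⟨i, hin, hmk, hix⟩, hx2⟩ := hx
      rw [mem_image]
      refine ⟨i, mem_sdiff.2 ⟨mem_range.2 hin, fun hi => hx2 ?_⟩, hix⟩
      rw [← hix, hg i hi, (hc1 i hi).2]
      exact hmk
    linarith
  · -- type 1
    have hA : ∀ x, x ∈ cls χ K 1 ↔ χ true x ∈ K 1 := by
      intro x
      simp [cls]
    have hB : ∀ x, x ∈ XYS g n p mk 1 ↔ ∀ i, i < n → g i ≠ x := by
      intro x
      simp [XYS]
    have h1 : (((cls χ K 1 \ XYS g n p mk 1).card : ℕ) : ℝ) ≤ ζ' * Fintype.card G := by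
      refine le_trans (Nat.cast_le.2 (card_le_card ?_)) him
      intro x hx
      rw [mem_sdiff, hA, hB] at hx
      obtain ⟨hx1, hx2⟩ := hx
      push Not at hx2
      obtain ⟨i, hin, hix⟩ := hx2
      rw [mem_image]
      refine ⟨i, mem_sdiff.2 ⟨mem_range.2 hin, fun hi => (hc1 i hi).1 ?_⟩, hix⟩
      rw [← hg i hi, hix]
      exact hx1
    have h2 : (((XYS g n p mk 1 \ cls χ K 1).card : ℕ) : ℝ) ≤ ζ' * Fintype.card G := by
      refine le_trans (Nat.cast_le.2 (card_le_card ?_)) hu1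
      intro x hx
      rw [mem_sdiff, hA, hB] at hx
      rw [mem_filter]
      refine ⟨mem_univ _, hx.2, fun i hi hix => ?_⟩
      apply hx.1 i (mem_range.1 (hV1 hi))
      rw [hg i hi, hix]
    linarith
  · -- type 2
    have hA : ∀ x, x ∈ cls χ K 2 ↔ χ false (-x) ∈ K 2 := by
      intro x
      simp [cls]
    have hB : ∀ x, x ∈ XYS g n p mk 2 ↔ ∀ j, 0 < j → j < n → g j + g (p j) ≠ -x := by
      intro x
      simp [XYS]
    have h1 : (((cls χ K 2 \ XYS g n p mk 2).card : ℕ) : ℝ) ≤ ζ' * Fintype.card G * (Δ + 1) := by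
      have h3 := TrF_edges Δ n p hΔ ((range n) \ V1)
      have h4 : (((((range n).filter fun j => 0 < j ∧ (j ∈ (range n) \ V1 ∨ p j ∈ (range n) \ V1)).image
          fun j => -(g j + g (p j))).card : ℕ) : ℝ) ≤ ζ' * Fintype.card G * (Δ + 1) := by
        refine (Nat.cast_le.2 (card_image_le.trans h3)).trans ?_
        push_cast
        exact mul_le_mul_of_nonneg_right hU (by positivity)
      refine le_trans (Nat.cast_le.2 (card_le_card ?_)) h4
      intro x hx
      rw [mem_sdiff, hA, hB] at hx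
      obtain ⟨hx1, hx2⟩ := hx
      push Not at hx2
      obtain ⟨j, hj0, hjn, hjx⟩ := hx2
      rw [mem_image]
      refine ⟨j, ?_, by rw [hjx, neg_neg]⟩
      rw [mem_filter, mem_sdiff, mem_sdiff, mem_range]
      refine ⟨hjn, hj0, ?_⟩
      by_contra hcon
      push Not at hcon
      have hj1 : j ∈ V1 := by
        by_contra hj1
        exact hj1 (hcon.1 hjn)
      have hj2 : p j ∈ V1 := by
        by_contra hj2
        exact hj2 (hcon.2 (mem_range.2 ((hp j hj0 hjn).trans hjn)))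
      apply hc2 j hj1 hj0 hj2
      rw [← hg j hj1, ← hg _ hj2, hjx]
      exact hx1
    have h2 : (((XYS g n p mk 2 \ cls χ K 2).card : ℕ) : ℝ) ≤ ζ' * Fintype.card G := by
      have h3 : (XYS g n p mk 2 \ cls χ K 2).card =
          ((XYS g n p mk 2 \ cls χ K 2).image fun x => -x).card :=
        (card_image_of_injective _ neg_injective).symm
      rw [h3]
      refine le_trans (Nat.cast_le.2 (card_le_card ?_)) hu2
      intro y hy
      rw [mem_image] at hy
      obtain ⟨x, hx, rfl⟩ := hy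
      rw [mem_sdiff, hA, hB] at hx
      rw [mem_filter]
      refine ⟨mem_univ _, hx.2, fun i hi hi0 hpi hix => ?_⟩
      apply hx.1 i hi0 (mem_range.1 (hV1 hi))
      rw [hg i hi, hg _ hpi, hix]
    have e1 : ζ' * Fintype.card G * (Δ + 1) = Δ * (ζ' * Fintype.card G) + ζ' * Fintype.card G := by
      ring
    have e2 : ζ' * (Δ + 3) * Fintype.card G =
        Δ * (ζ' * Fintype.card G) + 3 * (ζ' * Fintype.card G) := by ring
    linarith

theorem embed (Δ m M1 : ℕ) (ρ ζ η : ℝ) (hρ : 0 < ρ) (hρ1 : ρ ≤ 1) (hζ : 0 < ζ) (hζ1 : ζ ≤ 1)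
    (hη : 0 < η) :
    ∃ M : ℕ, M1 ≤ M ∧ 1 ≤ M ∧ ∃ q0 : ℕ, ∀ (G : Type) [AddCommGroup G] [Fintype G], Tor2 G →
      q0 ≤ Fintype.card G → ∃ χ : Bool → G → Fin M, Rnd χ m η ∧
      ∀ (n : ℕ) (p : ℕ → ℕ) (mk : ℕ → Prop), (∀ i, 0 < i → i < n → p i < i) →
      (∀ i, ((range n).filter fun j => 0 < j ∧ p j = i).card ≤ Δ) → 0 < n →
      n ≤ Fintype.card G → ρ * Fintype.card G ≤ Fintype.card G + 1 - (n : ℝ) →
      ∃ (K : Fin 3 → Finset (Fin M)) (g : ℕ → G), Disjoint (K 0) (K 1) ∧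
        Set.InjOn g (range n : Set ℕ) ∧
        (∀ i ∈ range n, ∀ j ∈ range n, 0 < i → 0 < j → g i + g (p i) = g j + g (p j) → i = j) ∧
        Near (cls χ K) (XYS g n p mk) ζ := by
  have hα0 : 0 < (ρ / 2) ^ (Δ + 2) := by positivity
  have hα1 : (ρ / 2) ^ (Δ + 2) ≤ 1 := pow_le_one₀ (by positivity) (by linarith)
  have hΔ0 : (0 : ℝ) ≤ Δ := Nat.cast_nonneg _
  have hW0 : (0 : ℝ) < 1 + (Δ + 1) ^ 2 := by positivity
  obtain ⟨α, hα⟩ : ∃ α, α = (ρ / 2) ^ (Δ + 2) := ⟨_, rfl⟩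
  rw [← hα] at hα0 hα1
  obtain ⟨ζ', hζ'0, hz1, hz2⟩ : ∃ ζ' : ℝ, 0 < ζ' ∧ ζ' * (Δ + 3) ≤ ζ ∧
      ζ' * (1 + (Δ + 1) ^ 2) ≤ α / 8 := by
    refine ⟨min (ζ / (Δ + 3)) (α / 8 / (1 + (Δ + 1) ^ 2)), ?_, ?_, ?_⟩
    · apply lt_min <;> positivity
    · have := min_le_left (ζ / (Δ + 3)) (α / 8 / (1 + ((Δ : ℝ) + 1) ^ 2))
      rwa [le_div_iff₀ (by positivity)] at this
    · have := min_le_right (ζ / (Δ + 3)) (α / 8 / (1 + ((Δ : ℝ) + 1) ^ 2))
      rwa [le_div_iff₀ (by positivity)] at this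
  have hζ'1 : ζ' ≤ 1 := by nlinarith [mul_nonneg hζ'0.le hΔ0]
  obtain ⟨M, hM1, hM, η1, hη1, q1, hPE⟩ := partial_embed m M1 ρ ζ' hρ hρ1 hζ'0 hζ'1
  have hη' : 0 < min η (min η1 (α / 4)) := lt_min hη (lt_min hη1 (by positivity))
  obtain ⟨q2, hR⟩ := exists_rnd M (max m (max 3 (Δ + 2))) hM _ hη'
  refine ⟨M, hM1, hM, max q1 (max q2 ⌈3 / α⌉₊), fun G _ _ hT hq => ?_⟩
  obtain ⟨χ, hχ⟩ := hR G hT ((le_max_left _ _).trans ((le_max_right _ _).trans hq))
  have hq1 : q1 ≤ Fintype.card G := (le_max_left _ _).trans hq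
  have hq3 : 3 / α ≤ Fintype.card G := by
    refine (Nat.le_ceil _).trans ?_
    exact_mod_cast (le_max_right _ _).trans ((le_max_right _ _).trans hq)
  have hαq : 3 ≤ α * Fintype.card G := by
    rw [div_le_iff₀ hα0] at hq3
    linarith
  refine ⟨χ, TrF_rnd_mono (le_max_left _ _) (min_le_left _ _) hχ, ?_⟩
  intro n p mk hp hΔ hn0 hn hρn
  have hχ3 : Rnd χ 3 η1 := TrF_rnd_mono ((le_max_left _ _).trans (le_max_right _ _))
    ((min_le_right _ _).trans (min_le_left _ _)) hχ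
  have hχΔ : Rnd χ (Δ + 2) (α / 4) := TrF_rnd_mono ((le_max_right _ _).trans (le_max_right _ _))
    ((min_le_right _ _).trans (min_le_right _ _)) hχ
  obtain ⟨K, V1, g1, hK, hK1, hK2, hV1, hU, hinj, hsum, hc1, hc2, hu1, hu2⟩ :=
    hPE G χ hq1 hχ3 n p mk hp hn0 hn hρn
  have hc : (⌊α * Fintype.card G / 2⌋₊ : ℝ) ≤ α * Fintype.card G / 2 :=
    Nat.floor_le (by positivity)
  have hc' : α * Fintype.card G / 2 < ⌊α * Fintype.card G / 2⌋₊ + 1 := Nat.lt_floor_add_one _
  obtain ⟨g, hg1, hg2, hg3, -, -⟩ := greedy_ext Δ n p hp hΔ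
    (univ.filter fun t : G => χ true t ∈ K 1) (univ.filter fun s : G => χ false s ∈ K 2) V1 hV1 g1
    hinj hsum
    (fun i hi h => (hc1 i hi).1 (mem_filter.1 h).2)
    (fun i hi hi0 hpi h => hc2 i hi hi0 hpi (mem_filter.1 h).2)
    ⌊α * Fintype.card G / 2⌋₊
    (by
      intro D hD
      have h1 := TrF_count hρ hρ1 hM hχΔ (K 1) (K 2) hK1 hK2 D hD
      rw [← hα] at h1
      have h2 : (⌊α * Fintype.card G / 2⌋₊ : ℝ) ≤
          (((univ.filter fun t : G => χ true t ∈ K 1).filter fun t => ∀ r ∈ D, r + t ∈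
            (univ.filter fun s : G => χ false s ∈ K 2)).card : ℝ) := by
        refine le_trans ?_ h1
        nlinarith
      exact_mod_cast h2)
    (by
      have h3 : ((((range n) \ V1).card * (1 + (Δ + 1) ^ 2) : ℕ) : ℝ) <
          ⌊α * Fintype.card G / 2⌋₊ := by
        push_cast
        have h4 : (((range n) \ V1).card : ℝ) * (1 + ((Δ : ℝ) + 1) ^ 2) ≤
            ζ' * Fintype.card G * (1 + ((Δ : ℝ) + 1) ^ 2) :=
          mul_le_mul_of_nonneg_right hU hW0.le
        have h5 : ζ' * (1 + ((Δ : ℝ) + 1) ^ 2) * Fintype.card G ≤ α / 8 * Fintype.card G :=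
          mul_le_mul_of_nonneg_right hz2 (Nat.cast_nonneg _)
        nlinarith
      exact_mod_cast h3)
  exact ⟨K, g, hK, hg2, hg3, TrF_near hζ'0.le hz1 p mk hp hΔ K V1 g1 g hK hV1 hU hc1 hc2 hu1 hu2 hg1⟩

end Pool.Agent.H60.HL
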