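import Pool.Agent.H60.HL.TrG1

/-!
# HL-28b TrG: the labelling of an enumerated tree with pending leaves

The tree: vertices `0, ..., n - 1` with parents `p`, and a pending leaf at each marked vertex; `L` marked
vertices, `n + L = q + 1`.  Result: labels `g i` of the vertices and `y i` of the pending leaf at `i`.
`tor2_zmod`: `2 a = 2 b` means `q ∣ 2 (a - b)` for representatives in `[0, q)`, so `a - b ∈ {0, ±q/2}`.

`pm_main` gives `g`, `x`, `z` and the finset `T` of triples.  For a marked `i < n` with `g i ≠ x` there is exactly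
one `t ∈ T` with `t 0 = g i`; `y i = t 1`, so `g i + y i = -t 2`.  For `g i = x`: `y i = -z - x`, so
`g i + y i = -z`.  All the sums `g i + y i` are negatives of different elements of `B 2`, so they are
different from each other and from the sums `g j + g (p j)`.
Surjectivity: `c ∉ g '' range n` means `c ∈ B 1`, so `c = t 1` for a `t ∈ T`, `t 0 = g i` with `i` marked,
`g i ≠ x`, `y i = c`.
-/

namespace Pool.Agent.H60.HL

open Finset Classical

private theorem trG_mod (a b q : ℕ) (ha : a < q) (hb : b < q)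
    (h : (a + a) % q = (b + b) % q) : a = b ∨ 2 * a = 2 * b + q ∨ 2 * b = 2 * a + q := by
  have e : ∀ c, c < q → ((c + c) % q = c + c ∧ c + c < q) ∨ ((c + c) % q = c + c - q ∧ q ≤ c + c) := by
    intro c hc
    rcases lt_or_ge (c + c) q with h1 | h1
    · exact Or.inl ⟨Nat.mod_eq_of_lt h1, h1⟩
    · right
      refine ⟨?_, h1⟩
      rw [Nat.mod_eq_sub_mod h1, Nat.mod_eq_of_lt (by omega)]
  rcases e a ha with ⟨h1, h2⟩ | ⟨h1, h2⟩ <;> rcases e b hb with ⟨h3, h4⟩ | ⟨h3, h4⟩ <;>
    rw [h1, h3] at h <;> omega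

private theorem trG_tor2 (G : Type) [AddCommGroup G] [Fintype G]
    (h : ∀ c a b d : G, a + a = c → b + b = c → d + d = c → a ≠ b → a ≠ d → b ≠ d → False) :
    Tor2 G := by
  intro c
  by_contra hcon
  push Not at hcon
  obtain ⟨a, ha, b, hb, d, hd, hab, had, hbd⟩ := Finset.two_lt_card.mp hcon
  exact h c a b d (Finset.mem_filter.mp ha).2 (Finset.mem_filter.mp hb).2
    (Finset.mem_filter.mp hd).2 hab had hbd

theorem tor2_zmod (q : ℕ) [NeZero q] : Tor2 (ZMod q) := by
  apply trG_tor2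
  intro c a b d ha hb hd hab had hbd
  have key : ∀ u v : ZMod q, u + u = c → v + v = c →
      u.val = v.val ∨ 2 * u.val = 2 * v.val + q ∨ 2 * v.val = 2 * u.val + q := by
    intro u v hu hv
    apply trG_mod _ _ _ (ZMod.val_lt u) (ZMod.val_lt v)
    rw [← ZMod.val_add, ← ZMod.val_add, hu, hv]
  have h1 := key a b ha hb
  have h2 := key a d ha hd
  have h3 := key b d hb hd
  have n1 : a.val ≠ b.val := fun h => hab (ZMod.val_injective q h)
  have n2 : a.val ≠ d.val := fun h => had (ZMod.val_injective q h)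
  have n3 : b.val ≠ d.val := fun h => hbd (ZMod.val_injective q h)
  have hq : 0 < q := Nat.pos_of_ne_zero (NeZero.ne q)
  omega

theorem enum_main (Δ : ℕ) (ρ : ℝ) (hρ : 0 < ρ) (hρ1 : ρ ≤ 1) :
    ∃ q0 : ℕ, ∀ (G : Type) [AddCommGroup G] [Fintype G], Tor2 G → q0 ≤ Fintype.card G →
      ∀ (n : ℕ) (p : ℕ → ℕ) (mk : ℕ → Prop), (∀ i, 0 < i → i < n → p i < i) →
      (∀ i, ((range n).filter fun j => 0 < j ∧ p j = i).card ≤ Δ) → 0 < n →
      n + ((range n).filter mk).card = Fintype.card G + 1 →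
      ((range n).filter mk).card = ⌊ρ * Fintype.card G⌋₊ →
      ∃ g y : ℕ → G,
        (∀ i ∈ range n, ∀ j ∈ range n, 0 < i → 0 < j → g i + g (p i) = g j + g (p j) → i = j) ∧
        (∀ i ∈ range n, ∀ j ∈ range n, mk i → mk j → g i + y i = g j + y j → i = j) ∧
        (∀ i ∈ range n, ∀ j ∈ range n, mk i → 0 < j → g i + y i ≠ g j + g (p j)) ∧
        ∀ c : G, (∃ i ∈ range n, g i = c) ∨ ∃ i ∈ range n, mk i ∧ y i = c := by
  obtain ⟨q0, hq0⟩ := pm_main Δ ρ hρ hρ1
  refine ⟨q0, ?_⟩
  intro G _ _ hT hcard n p mk hp hdeg hn hnL hL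
  obtain ⟨g, hinj, hsum, x, hx, z, hz, M, hM0, hMi, hMB⟩ :=
    hq0 G hT hcard n p mk hp hdeg hn hnL hL
  have hB0 : M.image (fun t => t 0) = (XYS g n p mk 0).erase x := by
    have := hMB 0
    simpa using this
  have hB1 : M.image (fun t => t 1) = XYS g n p mk 1 := by
    have := hMB 1
    simpa using this
  have hB2 : M.image (fun t => t 2) = (XYS g n p mk 2).erase z := by
    have := hMB 2
    simpa using this
  have hX0 : ∀ u, u ∈ XYS g n p mk 0 ↔ ∃ i ∈ range n, mk i ∧ g i = u := by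
    intro u
    unfold XYS
    simp only [if_true, Finset.mem_image, Finset.mem_filter, and_assoc]
  have hX1 : ∀ u, u ∈ XYS g n p mk 1 ↔ ¬ ∃ i ∈ range n, g i = u := by
    intro u
    unfold XYS
    rw [if_neg (by decide), if_pos rfl]
    simp only [Finset.mem_sdiff, Finset.mem_univ, true_and, Finset.mem_image]
  have hX2 : ∀ u, u ∈ XYS g n p mk 2 → ∀ j, 0 < j → j < n → g j + g (p j) ≠ -u := by
    intro u hu
    unfold XYS at hu
    rw [if_neg (by decide), if_neg (by decide)] at hu
    exact (Finset.mem_filter.mp hu).2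
  set y : ℕ → G := fun i => if h : ∃ t ∈ M, t 0 = g i then (Classical.choose h) 1 else -z - x
    with hy
  have key : ∀ i ∈ range n, mk i → ∃ w ∈ XYS g n p mk 2, g i + y i = -w ∧ (g i = x → w = z) ∧
      (g i ≠ x → w ≠ z ∧ ∃ t ∈ M, t 0 = g i ∧ t 1 = y i ∧ t 2 = w) := by
    intro i hi hmk
    by_cases hgx : g i = x
    · have hno : ¬ ∃ t ∈ M, t 0 = g i := by
        rintro ⟨t, ht, h0⟩
        have : t 0 ∈ (XYS g n p mk 0).erase x := by
          rw [← hB0]
          exact Finset.mem_image.mpr ⟨t, ht, rfl⟩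
        exact (Finset.mem_erase.mp this).1 (h0.trans hgx)
      refine ⟨z, hz, ?_, fun _ => rfl, fun h => absurd hgx h⟩
      have : y i = -z - x := by
        rw [hy]
        exact dif_neg hno
      rw [this, hgx]
      abel
    · have hmem : g i ∈ (XYS g n p mk 0).erase x :=
        Finset.mem_erase.mpr ⟨hgx, (hX0 _).mpr ⟨i, hi, hmk, rfl⟩⟩
      rw [← hB0] at hmem
      obtain ⟨t, ht, ht0⟩ := Finset.mem_image.mp hmem
      have hex : ∃ t ∈ M, t 0 = g i := ⟨t, ht, ht0⟩
      have hyi : y i = (Classical.choose hex) 1 := by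
        rw [hy]
        exact dif_pos hex
      obtain ⟨hc1, hc2⟩ := Classical.choose_spec hex
      set s := Classical.choose hex with hs
      have hs2 : s 2 ∈ (XYS g n p mk 2).erase z := by
        rw [← hB2]
        exact Finset.mem_image.mpr ⟨s, hc1, rfl⟩
      obtain ⟨hne, hmem2⟩ := Finset.mem_erase.mp hs2
      refine ⟨s 2, hmem2, ?_, fun h => absurd h hgx, fun _ => ⟨hne, s, hc1, hc2, hyi.symm, rfl⟩⟩
      rw [hyi, ← hc2]
      have := hM0 s hc1
      exact eq_neg_of_add_eq_zero_left this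
  refine ⟨g, y, hsum, ?_, ?_, ?_⟩
  · intro i hi j hj hmi hmj he
    obtain ⟨w, hw, h1, h2, h3⟩ := key i hi hmi
    obtain ⟨w', hw', h1', h2', h3'⟩ := key j hj hmj
    have hww : w = w' := by
      have : -w = -w' := by rw [← h1, ← h1', he]
      exact neg_injective this
    have hgg : g i = g j := by
      by_cases hix : g i = x <;> by_cases hjx : g j = x
      · rw [hix, hjx]
      · exact absurd (hww.symm.trans (h2 hix)) (h3' hjx).1
      · exact absurd (hww.trans (h2' hjx)) (h3 hix).1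
      · obtain ⟨-, t, ht, t0, t1, t2⟩ := h3 hix
        obtain ⟨-, t', ht', t0', t1', t2'⟩ := h3' hjx
        have htt : t = t' := hMi 2 ht ht' (by
          show t 2 = t' 2
          rw [t2, t2', hww])
        rw [← t0, ← t0', htt]
    exact hinj (by exact_mod_cast hi) (by exact_mod_cast hj) hgg
  · intro i hi j hj hmi hj0 he
    obtain ⟨w, hw, h1, -, -⟩ := key i hi hmi
    exact hX2 w hw j hj0 (Finset.mem_range.mp hj) (he.symm.trans h1)
  · intro c
    by_cases hc : ∃ i ∈ range n, g i = c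
    · exact Or.inl hc
    · right
      have hmem : c ∈ XYS g n p mk 1 := (hX1 c).mpr hc
      rw [← hB1] at hmem
      obtain ⟨t, ht, ht1⟩ := Finset.mem_image.mp hmem
      have h0 : t 0 ∈ (XYS g n p mk 0).erase x := by
        rw [← hB0]
        exact Finset.mem_image.mpr ⟨t, ht, rfl⟩
      obtain ⟨hne, hmem0⟩ := Finset.mem_erase.mp h0
      obtain ⟨i, hi, hmi, hgi⟩ := (hX0 _).mp hmem0
      obtain ⟨w, hw, -, -, h3⟩ := key i hi hmi
      obtain ⟨-, t', ht', t0', t1', -⟩ := h3 (by rw [hgi]; exact hne)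
      have htt : t' = t := hMi 0 ht' ht (by
        show t' 0 = t 0
        rw [t0', hgi])
      refine ⟨i, hi, hmi, ?_⟩
      rw [← t1', htt]
      exact ht1

end Pool.Agent.H60.HL
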