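import Pool.Agent.H60.HL.TrF
import Pool.Agent.H60.HL.Emt

/-!
# HL-28a TrG1: the exact matching for an enumerated tree

Proof.  `Θ = {0}`.  `cH = (ρ/2)^12 / 2`, `ζ1` from `emt ρ cH` (we may assume `ζ1 ≤ ρ`, because the
hypotheses of `emt` are monotone in `ζ`), `εF = ζ1 / 8`, `cF = εF^12 / 2`, `q0` from `emt`,
`ζ = η = ζ1 cF cH / 1000`, `M1 ≥ 1 / ζ`; `embed Δ 12 M1 (ρ/2) ζ η` (`L ≥ ρ q - 1`).
`B = XYS g n p mk` has `(B 0).card = L`, `(B 1).card = q - n = L - 1`, `(B 2).card = q - (n - 1) = L`.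
By `cls_card` and `Near`, `|(K i).card / M - ρ| ≤ ζ + η + 2 / q ≤ 3 ζ`.  `a = min_i (K i).card`, choose
`K' i ⊆ K i` with `a` elements, `KF i ⊆ K' i` with `⌈εF M⌉` elements, `KH i = K' i \ KF i`
(`≥ (ρ/2) M` elements).  `A = cls χ K'`, `F i = B i ∩ cls χ KF i`.
* `QR A Θ ρ ζ1`: `qr_of_rnd` with `ζ1 / 5`.
* `Near A B ζ1`: `cls χ K i \ A i` is the set for the colours `K i \ K' i`, at most `(6 ζ + η) q` elements.
* `(F i).card ≤ (εF + 1/M + η) q ≤ ζ1 q`.
* `Rich F Θ 12 cF`: `rich_of_rnd` for `KF` (`α = εF`): `cls χ KF i \ F i ⊆ cls χ K i \ B i`.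
* `Rich (B \ F) Θ 12 cH`: `rich_of_rnd` for `KH` (`α = ρ/2`): `cls χ KH i \ (B i \ F i) ⊆
cls χ K i \ B i` since `cls χ KH i` and `cls χ KF i` are disjoint.
`emt` gives the conclusion.
-/

namespace Pool.Agent.H60.HL

open Finset Classical

private lemma TrG1_mem {G : Type} [AddCommGroup G] [Fintype G] {M : ℕ} (χ : Bool → G → Fin M)
    (K : Fin 3 → Finset (Fin M)) (i : Fin 3) (x : G) :
    x ∈ cls χ K i ↔ (if i = 2 then χ false (-x) else χ true x) ∈ K i := by
  unfold cls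
  by_cases h : i = 2
  · subst h; simp
  · simp [h]

private lemma TrG1_card {G : Type} [AddCommGroup G] [Fintype G] (g : ℕ → G) (n : ℕ)
    (p : ℕ → ℕ) (mk : ℕ → Prop) (hg : Set.InjOn g (range n : Set ℕ))
    (hs : ∀ i ∈ range n, ∀ j ∈ range n, 0 < i → 0 < j → g i + g (p i) = g j + g (p j) → i = j)
    (hn : 0 < n) :
    (XYS g n p mk 0).card = ((range n).filter mk).card ∧
      (XYS g n p mk 1).card + n = Fintype.card G ∧
      (XYS g n p mk 2).card + (n - 1) = Fintype.card G := by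
  refine ⟨?_, ?_, ?_⟩
  · simp only [XYS, if_true]
    apply Finset.card_image_of_injOn
    exact hg.mono (by intro x hx; simp only [coe_filter, Set.mem_ofPred_eq] at hx; exact hx.1)
  · have h1 : XYS g n p mk 1 = univ \ (range n).image g := by
      simp [XYS]
    have h2 := Finset.card_sdiff_add_card_eq_card (Finset.subset_univ ((range n).image g))
    rw [Finset.card_image_of_injOn hg, Finset.card_range, Finset.card_univ] at h2
    rw [h1]; exact h2
  · have h1 : XYS g n p mk 2 =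
        univ \ ((range n).erase 0).image (fun j => -(g j + g (p j))) := by
      ext x
      simp only [XYS, show (2 : Fin 3) ≠ 0 by decide, show (2 : Fin 3) ≠ 1 by decide, if_false,
        mem_filter, mem_univ, true_and, mem_sdiff, mem_image, mem_erase, mem_range, not_exists,
        not_and]
      constructor
      · intro h j hj h2
        exact h j (Nat.pos_of_ne_zero hj.1) hj.2 (by rw [← h2, neg_neg])
      · intro h j h0 hj h2
        exact h j ⟨h0.ne', hj⟩ (by rw [h2, neg_neg])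
    have hi : (((range n).erase 0).image (fun j => -(g j + g (p j)))).card = n - 1 := by
      rw [Finset.card_image_of_injOn, Finset.card_erase_of_mem (by simpa using hn),
        Finset.card_range]
      intro i hi j hj h
      simp only [coe_erase, coe_range, Set.mem_sdiff, Set.mem_Iio, Set.mem_singleton_iff] at hi hj
      exact hs i (by simpa using hi.1) j (by simpa using hj.1) (Nat.pos_of_ne_zero hi.2)
        (Nat.pos_of_ne_zero hj.2) (neg_injective h)
    have h2 := Finset.card_sdiff_add_card_eq_card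
      (Finset.subset_univ (((range n).erase 0).image (fun j => -(g j + g (p j)))))
    rw [hi, Finset.card_univ] at h2
    rw [h1]; exact h2

private lemma TrG1_rich {G : Type} [AddCommGroup G] [Fintype G] {B : Fin 3 → Finset G}
    {Θ : Finset G} {m : ℕ} {c c' : ℝ} (h : Rich B Θ m c) (hc : c' ≤ c) : Rich B Θ m c' := by
  intro ι _ h1 v hv
  exact (mul_le_mul_of_nonneg_right hc (by positivity)).trans (h ι h1 v hv)

private lemma TrG1_qr {G : Type} [AddCommGroup G] [Fintype G] {A : Fin 3 → Finset G}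
    {Θ : Finset G} {ρ η η' : ℝ} (h : QR A Θ ρ η) (hη : η ≤ η') : QR A Θ ρ η' := by
  have hq : η * Fintype.card G ≤ η' * Fintype.card G :=
    mul_le_mul_of_nonneg_right hη (by positivity)
  exact ⟨fun i => (h.1 i).trans hq, fun i x => (h.2.1 i x).trans hq,
    fun i k hk => (h.2.2 i k hk).trans hq⟩

private lemma TrG1_rnd {G : Type} [AddCommGroup G] [Fintype G] {M : ℕ} {χ : Bool → G → Fin M}
    {m : ℕ} {η η' : ℝ} (h : Rnd χ m η) (hη : η ≤ η') : Rnd χ m η' := by
  intro ι _ h1 v hv K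
  exact (h ι h1 v hv K).trans (mul_le_mul_of_nonneg_right hη (by positivity))

theorem pm_main (Δ : ℕ) (ρ : ℝ) (hρ : 0 < ρ) (hρ1 : ρ ≤ 1) :
    ∃ q0 : ℕ, ∀ (G : Type) [AddCommGroup G] [Fintype G], Tor2 G → q0 ≤ Fintype.card G →
      ∀ (n : ℕ) (p : ℕ → ℕ) (mk : ℕ → Prop), (∀ i, 0 < i → i < n → p i < i) →
      (∀ i, ((range n).filter fun j => 0 < j ∧ p j = i).card ≤ Δ) → 0 < n →
      n + ((range n).filter mk).card = Fintype.card G + 1 →
      ((range n).filter mk).card = ⌊ρ * Fintype.card G⌋₊ →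
      ∃ g : ℕ → G, Set.InjOn g (range n : Set ℕ) ∧
        (∀ i ∈ range n, ∀ j ∈ range n, 0 < i → 0 < j → g i + g (p i) = g j + g (p j) → i = j) ∧
        ∃ x ∈ XYS g n p mk 0, ∃ z ∈ XYS g n p mk 2,
          PM (fun i => if i = 0 then (XYS g n p mk 0).erase x else
            if i = 2 then (XYS g n p mk 2).erase z else XYS g n p mk 1) := by
  have hcH : 0 < (ρ / 2) ^ 12 / 2 := by positivity
  obtain ⟨cH, hcHd⟩ : ∃ cH : ℝ, cH = (ρ / 2) ^ 12 / 2 := ⟨_, rfl⟩
  rw [← hcHd] at hcH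
  have hcH1 : cH ≤ 1 := by
    have : (ρ / 2) ^ 12 ≤ 1 := pow_le_one₀ (by positivity) (by linarith)
    linarith
  obtain ⟨ζ0, hζ0, hemt⟩ := emt ρ cH hρ hρ1 hcH
  obtain ⟨ζ1, hζ1, hζ1a, hζ1b⟩ : ∃ ζ1 : ℝ, 0 < ζ1 ∧ ζ1 ≤ ζ0 ∧ ζ1 ≤ ρ :=
    ⟨min ζ0 ρ, lt_min hζ0 hρ, min_le_left _ _, min_le_right _ _⟩
  obtain ⟨εF, hεd⟩ : ∃ εF : ℝ, εF = ζ1 / 8 := ⟨_, rfl⟩
  have hε : 0 < εF := by rw [hεd]; positivity
  have hε1 : εF ≤ 1 := by rw [hεd]; linarith
  obtain ⟨cF, hcFd⟩ : ∃ cF : ℝ, cF = εF ^ 12 / 2 := ⟨_, rfl⟩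
  have hcF : 0 < cF := by rw [hcFd]; positivity
  have hcF1 : cF ≤ 1 := by
    have : εF ^ 12 ≤ 1 := pow_le_one₀ hε.le hε1
    linarith
  obtain ⟨q1, hemt⟩ := hemt cF hcF
  obtain ⟨ζ, hζd⟩ : ∃ ζ : ℝ, ζ = ζ1 * cF * cH / 1000 := ⟨_, rfl⟩
  have hζ : 0 < ζ := by rw [hζd]; positivity
  have hz1 : ζ ≤ ζ1 / 1000 := by
    rw [hζd]
    have h1 : ζ1 * cF * cH ≤ ζ1 * 1 * 1 := by gcongr
    linarith
  have hz2 : ζ ≤ cF / 1000 := by
    rw [hζd]
    have h1 : ζ1 * cF * cH ≤ 1 * cF * 1 := by gcongr; linarith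
    linarith
  have hz3 : ζ ≤ cH / 1000 := by
    rw [hζd]
    have h1 : ζ1 * cF * cH ≤ 1 * 1 * cH := by gcongr; linarith
    linarith
  have hz4 : ζ ≤ ρ / 1000 := by linarith
  obtain ⟨M, hM1, hM2, q2, hemb⟩ := embed Δ 12 ⌈1 / ζ⌉₊ (ρ / 2) ζ ζ (by positivity) (by linarith)
    hζ (by linarith) hζ
  have hMp : (0 : ℝ) < M := by exact_mod_cast hM2
  have hM3 : 1 / (M : ℝ) ≤ ζ := by
    have h1 : 1 / ζ ≤ M := (Nat.le_ceil _).trans (by exact_mod_cast hM1)
    rw [div_le_iff₀ hζ] at h1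
    rw [div_le_iff₀ hMp]
    linarith
  refine ⟨max q1 (max q2 (max ⌈2 / ρ⌉₊ ⌈2 / ζ⌉₊)), ?_⟩
  intro G _ _ hT hq n p mk hp hd hn hnL hL
  have hq1 : q1 ≤ Fintype.card G := (le_max_left _ _).trans hq
  have hq' := (le_max_right _ _).trans hq
  have hq2 : q2 ≤ Fintype.card G := (le_max_left _ _).trans hq'
  have hq'' := (le_max_right _ _).trans hq'
  have hq3 : 2 / ρ ≤ (Fintype.card G : ℝ) :=
    (Nat.le_ceil _).trans (by exact_mod_cast (le_max_left _ _).trans hq'')
  have hq4 : 2 / ζ ≤ (Fintype.card G : ℝ) :=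
    (Nat.le_ceil _).trans (by exact_mod_cast (le_max_right _ _).trans hq'')
  clear hq hq' hq''
  obtain ⟨q, hqd⟩ : ∃ q : ℝ, q = (Fintype.card G : ℝ) := ⟨_, rfl⟩
  have hqp : 0 < q := by
    rw [hqd]; exact lt_of_lt_of_le (by positivity) hq3
  rw [← hqd] at hq3 hq4
  obtain ⟨L, hLd⟩ : ∃ L : ℕ, L = ((range n).filter mk).card := ⟨_, rfl⟩
  rw [← hLd] at hnL hL
  have hL1 : (L : ℝ) ≤ ρ * q := by
    rw [hL, hqd]; exact Nat.floor_le (by positivity)
  have hL2 : ρ * q - 1 ≤ L := by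
    have := (Nat.lt_floor_add_one (ρ * Fintype.card G)).le
    rw [hL, hqd]; linarith
  rw [div_le_iff₀ hρ] at hq3
  rw [div_le_iff₀ hζ] at hq4
  have hL3 : 1 ≤ L := by
    have : (1 : ℝ) ≤ L := by linarith
    exact_mod_cast this
  have hnLr : (n : ℝ) + L = q + 1 := by rw [hqd]; exact_mod_cast hnL
  obtain ⟨χ, hχ, hemb⟩ := hemb G hT hq2
  obtain ⟨K, g, hK01, hg, hs, hnear⟩ := hemb n p mk hp hd hn (by omega) (by
    rw [← hqd]; nlinarith)
  obtain ⟨hB0, hB1, hB2⟩ := TrG1_card g n p mk hg hs hn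
  rw [← hLd] at hB0
  refine ⟨g, hg, hs, ?_⟩
  obtain ⟨B, hB⟩ : ∃ B : Fin 3 → Finset G, B = XYS g n p mk := ⟨_, rfl⟩
  rw [← hB] at hnear hB0 hB1 hB2 ⊢
  -- the sizes
  have hBc : ∀ i, |((B i).card : ℝ) - ρ * q| ≤ 2 := by
    intro i
    have h : (B i).card ≤ L ∧ L ≤ (B i).card + 1 := by
      fin_cases i
      · simp only [Fin.zero_eta]; omega
      · simp only [Fin.mk_one]; omega
      · simp only [Fin.reduceFinMk]; omega
    have h1 : ((B i).card : ℝ) ≤ L := by exact_mod_cast h.1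
    have h2 : (L : ℝ) ≤ (B i).card + 1 := by exact_mod_cast h.2
    rw [abs_le]; constructor <;> linarith
  have hKc : ∀ i, |((K i).card : ℝ) / M - ρ| ≤ 3 * ζ := by
    intro i
    have h1 := cls_card (by norm_num) hχ K i
    have h2 := hnear i
    have h3 := hBc i
    have h4 : ((cls χ K i).card : ℝ) ≤ (cls χ K i \ B i).card + (B i).card := by
      exact_mod_cast Finset.card_le_card_sdiff_add_card
    have h5 : ((B i).card : ℝ) ≤ (B i \ cls χ K i).card + (cls χ K i).card := by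
      exact_mod_cast Finset.card_le_card_sdiff_add_card
    have h6 : (0 : ℝ) ≤ (cls χ K i \ B i).card := by positivity
    have h7 : (0 : ℝ) ≤ (B i \ cls χ K i).card := by positivity
    rw [← hqd] at h1 h2
    rw [abs_le] at h1 h3 ⊢
    constructor
    · have : (-(3 * ζ)) * q ≤ (((K i).card : ℝ) / M - ρ) * q := by nlinarith
      exact le_of_mul_le_mul_right this hqp
    · have : (((K i).card : ℝ) / M - ρ) * q ≤ (3 * ζ) * q := by nlinarith
      exact le_of_mul_le_mul_right this hqp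
  obtain ⟨i0, -, hi0⟩ := Finset.exists_min_image (univ : Finset (Fin 3)) (fun i => (K i).card)
    ⟨0, mem_univ _⟩
  obtain ⟨a, had⟩ : ∃ a : ℕ, a = (K i0).card := ⟨_, rfl⟩
  have haK : ∀ i, a ≤ (K i).card := fun i => by rw [had]; exact hi0 i (mem_univ _)
  have haρ : |(a : ℝ) / M - ρ| ≤ 3 * ζ := by rw [had]; exact hKc i0
  have hK' : ∀ i, ∃ X ⊆ K i, X.card = a := fun i => Finset.exists_subset_card_eq (haK i)
  choose K' hK'1 hK'2 using hK'
  obtain ⟨f, hfd⟩ : ∃ f : ℕ, f = ⌈εF * M⌉₊ := ⟨_, rfl⟩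
  have hf1 : εF ≤ (f : ℝ) / M := by
    rw [le_div_iff₀ hMp, hfd]; exact Nat.le_ceil _
  have hf2 : (f : ℝ) / M ≤ εF + ζ := by
    have h1 : (f : ℝ) ≤ εF * M + 1 := by
      rw [hfd]; exact (Nat.ceil_lt_add_one (by positivity)).le
    have h2 : (f : ℝ) / M ≤ (εF * M + 1) / M := by gcongr
    have h3 : (εF * M + 1) / M = εF + 1 / M := by field_simp
    linarith
  have hfa : f ≤ a := by
    have h1 : (f : ℝ) / M ≤ (a : ℝ) / M := by
      have := (abs_le.mp haρ).1
      rw [hεd] at hf2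
      linarith
    rw [div_le_div_iff_of_pos_right hMp] at h1
    exact_mod_cast h1
  have hKF : ∀ i, ∃ X ⊆ K' i, X.card = f := fun i =>
    Finset.exists_subset_card_eq (by rw [hK'2]; exact hfa)
  choose KF hKF1 hKF2 using hKF
  have hR5 : Rnd χ 12 (ζ1 / 5) := TrG1_rnd hχ (by linarith)
  have hQR : QR (cls χ K') {0} ρ ζ0 := by
    refine TrG1_qr (qr_of_rnd (by norm_num) (by positivity) (by linarith) hρ.le hρ1 hR5 K' ?_
      (by simp)) (η := 5 * (ζ1 / 5)) (by linarith)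
    intro i
    rw [hK'2]
    exact haρ.trans (by linarith)
  have hsubK : ∀ i, cls χ K' i ⊆ cls χ K i := by
    intro i x hx
    rw [TrG1_mem] at hx ⊢
    exact hK'1 i hx
  have hNear : Near (cls χ K') B ζ0 := by
    intro i
    have h1 := hnear i
    have h2 : ((cls χ K' i \ B i).card : ℝ) ≤ (cls χ K i \ B i).card := by
      exact_mod_cast Finset.card_le_card (Finset.sdiff_subset_sdiff (hsubK i) (le_refl _))
    have h3 : ((B i \ cls χ K' i).card : ℝ) ≤ (B i \ cls χ K i).card +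
        (cls χ (fun i => K i \ K' i) i).card := by
      have h4 : B i \ cls χ K' i ⊆ (B i \ cls χ K i) ∪ cls χ (fun i => K i \ K' i) i := by
        intro x hx
        simp only [mem_sdiff, mem_union, TrG1_mem] at hx ⊢
        by_cases h : (if i = 2 then χ false (-x) else χ true x) ∈ K i
        · exact Or.inr ⟨h, hx.2⟩
        · exact Or.inl ⟨hx.1, h⟩
      exact_mod_cast (Finset.card_le_card h4).trans (Finset.card_union_le _ _)
    have h5 := cls_card (by norm_num) hχ (fun i => K i \ K' i) i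
    have h6 : (((K i \ K' i).card : ℕ) : ℝ) / M ≤ 6 * ζ := by
      have h7 : (K i \ K' i).card + a = (K i).card := by
        rw [← hK'2 i]; exact Finset.card_sdiff_add_card_eq_card (hK'1 i)
      have h8 : (((K i \ K' i).card : ℕ) : ℝ) = (K i).card - a := by
        rw [← h7]; push_cast; ring
      rw [h8, sub_div]
      have h9 := (abs_le.mp (hKc i)).2
      have h10 := (abs_le.mp haρ).1
      linarith
    have h7 := (abs_le.mp h5).2
    rw [← hqd] at h1 h7 ⊢
    have h8 : (((K i \ K' i).card : ℕ) : ℝ) / M * q ≤ 6 * ζ * q :=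
      mul_le_mul_of_nonneg_right h6 hqp.le
    have h9 : 8 * ζ * q ≤ ζ0 * q := mul_le_mul_of_nonneg_right (by linarith) hqp.le
    linarith
  obtain ⟨F, hF⟩ : ∃ F : Fin 3 → Finset G, ∀ i, F i = B i ∩ cls χ KF i := ⟨_, fun _ => rfl⟩
  have hFc : ∀ i, ((F i).card : ℝ) ≤ ζ0 * Fintype.card G := by
    intro i
    have h1 : ((F i).card : ℝ) ≤ (cls χ KF i).card := by
      rw [hF]; exact_mod_cast Finset.card_le_card Finset.inter_subset_right
    have h2 := (abs_le.mp (cls_card (by norm_num) hχ KF i)).2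
    rw [hKF2, ← hqd] at h2
    rw [← hqd]
    have h3 : (f : ℝ) / M * q ≤ (εF + ζ) * q := mul_le_mul_of_nonneg_right hf2 hqp.le
    have h4 : (εF + ζ + ζ) * q ≤ ζ0 * q :=
      mul_le_mul_of_nonneg_right (by rw [hεd]; linarith) hqp.le
    linarith
  have hrF : Rich F {0} 12 cF := by
    refine TrG1_rich (rich_of_rnd hε.le hε1 hζ.le hχ KF ?_ (by simp) F ?_) (c' := cF) ?_
    · intro i
      rw [hKF2]; exact hf1
    · intro i
      have h1 := hnear i
      have h2 : (0 : ℝ) ≤ (B i \ cls χ K i).card := by positivity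
      have h3 : ((cls χ KF i \ F i).card : ℝ) ≤ (cls χ K i \ B i).card := by
        have h4 : cls χ KF i \ F i ⊆ cls χ K i \ B i := by
          intro x hx
          rw [hF] at hx
          simp only [mem_sdiff, mem_inter, TrG1_mem] at hx ⊢
          refine ⟨hK'1 i (hKF1 i hx.1), fun h => hx.2 ⟨h, hx.1⟩⟩
        exact_mod_cast Finset.card_le_card h4
      linarith
    · push_cast
      linarith
  have hrH : Rich (fun i => B i \ F i) {0} 12 cH := by
    refine TrG1_rich (rich_of_rnd (α := ρ / 2) (by positivity) (by linarith) hζ.le hχ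
      (fun i => K' i \ KF i) ?_ (by simp) (fun i => B i \ F i) ?_) (c' := cH) ?_
    · intro i
      have h7 : (K' i \ KF i).card + f = a := by
        rw [← hK'2 i, ← hKF2 i]; exact Finset.card_sdiff_add_card_eq_card (hKF1 i)
      have h8 : (((K' i \ KF i).card : ℕ) : ℝ) = a - f := by
        rw [← h7]; push_cast; ring
      rw [h8, sub_div]
      have h10 := (abs_le.mp haρ).1
      rw [hεd] at hf2
      linarith
    · intro i
      have h1 := hnear i
      have h2 : (0 : ℝ) ≤ (B i \ cls χ K i).card := by positivity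
      have h3 : ((cls χ (fun i => K' i \ KF i) i \ (B i \ F i)).card : ℝ) ≤
          (cls χ K i \ B i).card := by
        have h4 : cls χ (fun i => K' i \ KF i) i \ (B i \ F i) ⊆ cls χ K i \ B i := by
          intro x hx
          rw [hF] at hx
          simp only [mem_sdiff, mem_inter, TrG1_mem] at hx ⊢
          refine ⟨hK'1 i hx.1.1, fun h => hx.2 ⟨h, fun h' => hx.1.2 h'.2⟩⟩
        exact_mod_cast Finset.card_le_card h4
      linarith
    · push_cast
      linarith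
  exact hemt G hT hq1 {0} (cls χ K') B F ⟨by simp, by simp, by simp⟩ hQR hNear
    (fun i => by rw [hF]; exact Finset.inter_subset_left) hFc hrF hrH (by omega) (by omega)

end Pool.Agent.H60.HL
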