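import Mathlib

/-!
# HL-29a TrH1: enumeration of a tree

`tree_enum`: induction on `card V`.  One vertex: clear.  More vertices: a tree with at least two
vertices has a leaf `v` (`SimpleGraph.IsTree.exists_vert_degree_one_of_nontrivial` or similar in Mathlib),
`T` without `v` (induced on `{v}ᶜ`) is a tree (`SimpleGraph.Connected.induce_compl_singleton_of_degree_eq_one`
or similar, `IsAcyclic` is inherited); enumerate it and put `v` at the end, `p` of the last vertex is the
index of the neighbour of `v`.
-/

namespace Pool.Agent.H60.HL

open Finset Classical

private theorem TrH1_aux (n : ℕ) : ∀ (V : Type) [Fintype V] (T : SimpleGraph V), T.IsTree →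
    Fintype.card V = n →
    ∃ (e : ℕ → V) (p : ℕ → ℕ), (∀ i, 0 < i → i < n → p i < i) ∧
      (∀ v, ∃ i < n, e i = v) ∧
      Set.InjOn e (range n : Set ℕ) ∧
      ∀ i < n, ∀ j < n,
        (T.Adj (e i) (e j) ↔ (0 < i ∧ p i = j) ∨ (0 < j ∧ p j = i)) := by
  induction n with
  | zero =>
    intro V _ T hT h0
    have := hT.connected.nonempty
    have h1 := Fintype.card_pos (α := V)
    omega
  | succ n ih =>
    intro V _ T hT hc
    have hne : Nonempty V := hT.connected.nonempty
    rcases Nat.eq_zero_or_pos n with rfl | hn
    · have h1 : Fintype.card V = 1 := by simpa using hc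
      obtain ⟨x, hx⟩ := Fintype.card_eq_one_iff.mp h1
      refine ⟨fun _ => x, fun _ => 0, ?_, ?_, ?_, ?_⟩
      · intro i h0 h1; omega
      · intro v; exact ⟨0, by omega, (hx v).symm⟩
      · intro i hi j hj _
        simp only [zero_add, range_one, coe_singleton, Set.mem_singleton_iff] at hi hj
        omega
      · intro i hi j hj
        constructor
        · intro h; exact absurd h (T.irrefl)
        · rintro (⟨h, _⟩ | ⟨h, _⟩) <;> omega
    · have hnt : Nontrivial V := by
        rw [← Fintype.one_lt_card_iff_nontrivial]; omega
      obtain ⟨v, hv⟩ := hT.exists_vert_degree_one_of_nontrivial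
      have hcon := hT.connected.induce_compl_singleton_of_degree_eq_one hv
      have htree : (T.induce ({v}ᶜ : Set V)).IsTree := ⟨hcon, hT.isAcyclic.induce _⟩
      have hcard : Fintype.card (({v}ᶜ : Set V)) = n := by
        have := Fintype.card_compl_set ({v} : Set V)
        rw [this]
        simp [hc]
      obtain ⟨e, p, hp, hsur, hinj, hadj⟩ := ih _ _ htree hcard
      obtain ⟨w, hvw, hw⟩ := SimpleGraph.degree_eq_one_iff_existsUnique_adj.mp hv
      have hwv : w ≠ v := fun h => T.irrefl (h ▸ hvw)
      obtain ⟨k, hk, hek⟩ := hsur ⟨w, by simpa using hwv⟩
      refine ⟨fun i => if i < n then (e i : V) else v, fun i => if i < n then p i else k, ?_, ?_, ?_, ?_⟩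
      · intro i h0 h1
        by_cases h : i < n
        · simp only [h, if_true]; exact hp i h0 h
        · simp only [h, if_false]; omega
      · intro u
        by_cases h : u = v
        · exact ⟨n, by omega, by simp [h]⟩
        · obtain ⟨i, hi, hei⟩ := hsur ⟨u, by simpa using h⟩
          exact ⟨i, by omega, by simp [hi, hei]⟩
      · intro i hi j hj hij
        simp only [coe_range, Set.mem_Iio] at hi hj
        by_cases h1 : i < n <;> by_cases h2 : j < n
        · simp only [h1, h2, if_true] at hij
          exact hinj (by simpa using h1) (by simpa using h2) (Subtype.ext hij)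
        · simp only [h1, h2, if_true, if_false] at hij
          exact absurd hij (e i).2
        · simp only [h1, h2, if_true, if_false] at hij
          exact absurd hij.symm (e j).2
        · omega
      · intro i hi j hj
        by_cases h1 : i < n <;> by_cases h2 : j < n
        · simp only [h1, h2, if_true]
          rw [← hadj i h1 j h2]
          simp
        · have hj' : j = n := by omega
          subst hj'
          simp only [h1, lt_irrefl, if_true, if_false]
          constructor
          · intro h
            have h3 : (e i : V) = w := hw _ h.symm
            right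
            refine ⟨by omega, ?_⟩
            apply hinj (by simpa using hk) (by simpa using h1)
            rw [hek]; exact Subtype.ext h3.symm
          · rintro (⟨h3, h4⟩ | ⟨h3, h4⟩)
            · have := hp i h3 h1; omega
            · rw [← h4, hek]; exact hvw.symm
        · have hi' : i = n := by omega
          subst hi'
          simp only [h2, lt_irrefl, if_true, if_false]
          constructor
          · intro h
            have h3 : (e j : V) = w := hw _ h
            left
            refine ⟨by omega, ?_⟩
            apply hinj (by simpa using hk) (by simpa using h2)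
            rw [hek]; exact Subtype.ext h3.symm
          · rintro (⟨h3, h4⟩ | ⟨h3, h4⟩)
            · rw [← h4, hek]; exact hvw
            · have := hp j h3 h2; omega
        · have hi' : i = n := by omega
          have hj' : j = n := by omega
          subst hi'
          subst hj'
          simp only [lt_irrefl, if_false]
          constructor
          · intro h; exact absurd h (T.irrefl)
          · rintro (⟨h, h4⟩ | ⟨h, h4⟩) <;> omega

theorem tree_enum {V : Type} [Fintype V] (T : SimpleGraph V) (hT : T.IsTree) :
    ∃ (e : ℕ → V) (p : ℕ → ℕ), (∀ i, 0 < i → i < Fintype.card V → p i < i) ∧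
      (∀ v, ∃ i < Fintype.card V, e i = v) ∧
      Set.InjOn e (range (Fintype.card V) : Set ℕ) ∧
      ∀ i < Fintype.card V, ∀ j < Fintype.card V,
        (T.Adj (e i) (e j) ↔ (0 < i ∧ p i = j) ∨ (0 < j ∧ p j = i)) :=
  TrH1_aux _ V T hT rfl

end Pool.Agent.H60.HL
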