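import Pool.Agent.H60.HL.TrG
import Pool.Agent.H60.HL.TrH1

/-!
# HL-29b TrH: trees as graphs

`graph_main`: let `q = card V - 1`, `G = ZMod q`, `Lf` the set of the leaves; `Δ ≥ 1` may be assumed
(`Δ` can be enlarged).  Every vertex is adjacent to at most `Δ` leaves, so there is a set of at least
`Lf.card / Δ ≥ (δ / Δ) card V` leaves with different neighbours; take `Λ` among them with exactly
`⌊ρ q⌋` elements, `ρ = min (δ / (2 Δ)) 1`.  For `q ≥ 2` the neighbour of a leaf is not a leaf.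
`T0 = T.induce Λᶜ` is a tree: acyclic; connected, because a path in `T` between two vertices outside `Λ`
does not pass through a leaf.  `tree_enum` for `T0`: `e`, `p`, `n = card V - Λ.card = q + 1 - Λ.card`.
`mk i`: `e i` is adjacent to an element of `Λ`; the number of marked `i < n` is `Λ.card`.  The children of
`i` are neighbours of `e i`, so at most `Δ`.  `enum_main` gives `g`, `y`.  `f v = g i` for `v = e i`,
and `f v = y i` for `v ∈ Λ` with the neighbour `e i`.  Every edge of `T` is `{e j, e (p j)}`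
(`0 < j < n`) or `{e i, v}`, `v ∈ Λ`.
-/

namespace Pool.Agent.H60.HL

open Finset Classical

private theorem trH_closed {V : Type} {T : SimpleGraph V} (S : Set V)
    (hS : ∀ x ∈ S, ∀ y, T.Adj x y → y ∈ S) {x y : V} (w : T.Walk x y) (hx : x ∈ S) : y ∈ S := by
  induction w with
  | nil => exact hx
  | cons h _ ih => exact ih (hS _ hx _ h)

/-- the neighbour of a leaf is not a leaf -/
private theorem trH_nb {V : Type} [Fintype V] {T : SimpleGraph V} (hT : T.IsTree)
    (h3 : 3 ≤ Fintype.card V) {u v : V} (hv : T.neighborSet v = {u})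
    (hu : (T.neighborSet u).ncard = 1) : False := by
  obtain ⟨w, hw⟩ := Set.ncard_eq_one.1 hu
  have h1 : T.Adj v u := by
    have : u ∈ T.neighborSet v := by rw [hv]; rfl
    exact this
  have h2 : v ∈ T.neighborSet u := h1.symm
  rw [hw] at h2
  have h4 : v = w := h2
  rw [← h4] at hw
  have hcl : ∀ x ∈ ({v, u} : Set V), ∀ y, T.Adj x y → y ∈ ({v, u} : Set V) := by
    rintro x (rfl | rfl) y hy
    · have h5 : y ∈ T.neighborSet x := hy
      rw [hv] at h5
      exact Or.inr h5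
    · have h5 : y ∈ T.neighborSet x := hy
      rw [hw] at h5
      exact Or.inl h5
  have hall : (Finset.univ : Finset V) ⊆ {v, u} := by
    intro y _
    obtain ⟨q⟩ := hT.1.1 v y
    have h5 := trH_closed {v, u} hcl q (Or.inl rfl)
    rw [Finset.mem_insert, Finset.mem_singleton]
    exact h5
  have h6 := Finset.card_le_card hall
  have h7 : ({v, u} : Finset V).card ≤ 2 := Finset.card_le_two
  rw [Finset.card_univ] at h6
  omega

private theorem trH_sel {V : Type} [Fintype V] {T : SimpleGraph V} (hT : T.IsTree)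
    (h3 : 3 ≤ Fintype.card V) {Δ L : ℕ} (hΔ : ∀ v, (T.neighborSet v).ncard ≤ Δ)
    (hL : L * (Δ + 1) ≤ ({v | (T.neighborSet v).ncard = 1} : Set V).ncard) :
    ∃ (U : Finset V) (lf : V → V), U.card = L ∧ (∀ u ∈ U, T.neighborSet (lf u) = {u}) ∧
      ∀ u ∈ U, (T.neighborSet u).ncard ≠ 1 := by
  have hnb : ∀ v : V, ∃ u : V, (T.neighborSet v).ncard = 1 → T.neighborSet v = {u} := by
    intro v
    by_cases h : (T.neighborSet v).ncard = 1
    · obtain ⟨u, hu⟩ := Set.ncard_eq_one.1 h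
      exact ⟨u, fun _ => hu⟩
    · exact ⟨v, fun h' => absurd h' h⟩
  choose nb hnb using hnb
  let Lf : Finset V := Finset.univ.filter fun v => (T.neighborSet v).ncard = 1
  have hLf : ({v | (T.neighborSet v).ncard = 1} : Set V).ncard = Lf.card := by
    rw [← Set.ncard_coe_finset]
    congr 1
    ext v
    simp [Lf]
  have hmul : Lf.card ≤ Δ * (Lf.image nb).card := by
    apply Finset.card_le_mul_card_image
    intro u _
    refine le_trans ?_ (hΔ u)
    rw [← Set.ncard_coe_finset]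
    refine Set.ncard_le_ncard ?_ (Set.toFinite _)
    intro v hv
    obtain ⟨hv1, hv2⟩ := Finset.mem_filter.1 (Finset.mem_coe.1 hv)
    have h4 := hnb v (Finset.mem_filter.1 hv1).2
    rw [hv2] at h4
    have h5 : u ∈ T.neighborSet v := by rw [h4]; rfl
    exact SimpleGraph.Adj.symm h5
  have hcard : L ≤ (Lf.image nb).card := by
    rw [hLf] at hL
    have h4 := hL.trans hmul
    by_contra hcon
    push Not at hcon
    have h5 : Δ * (Lf.image nb).card ≤ Δ * L := Nat.mul_le_mul_left _ hcon.le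
    have h6 : L * (Δ + 1) = Δ * L + L := by ring
    omega
  obtain ⟨U, hU, hUL⟩ := Finset.exists_subset_card_eq hcard
  have hlf : ∀ u : V, ∃ v : V, u ∈ U → T.neighborSet v = {u} := by
    intro u
    by_cases h : u ∈ U
    · obtain ⟨v, hv, hvu⟩ := Finset.mem_image.1 (hU h)
      refine ⟨v, fun _ => ?_⟩
      rw [← hvu]
      exact hnb v (Finset.mem_filter.1 hv).2
    · exact ⟨u, fun h' => absurd h' h⟩
  choose lf hlf using hlf
  exact ⟨U, lf, hUL, hlf, fun u hu h => trH_nb hT h3 (hlf u hu) h⟩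

private theorem trH_enum {V : Type} [Fintype V] {T : SimpleGraph V} (hT : T.IsTree)
    (Λ : Finset V) (hne : ∃ v, v ∉ Λ) (hΛ : ∀ v ∈ Λ, (T.neighborSet v).ncard = 1) :
    ∃ (n : ℕ) (e : ℕ → V) (p : ℕ → ℕ), n + Λ.card = Fintype.card V ∧
      (∀ i, 0 < i → i < n → p i < i) ∧ (∀ i, e i ∉ Λ) ∧ (∀ v, v ∉ Λ → ∃ i < n, e i = v) ∧
      Set.InjOn e (range n : Set ℕ) ∧
      ∀ i < n, ∀ j < n, (T.Adj (e i) (e j) ↔ (0 < i ∧ p i = j) ∨ (0 < j ∧ p j = i)) := by
  have hpre : (T.induce {v | v ∉ Λ}).Preconnected := by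
    refine SimpleGraph.Preconnected.induce_of_degree_eq_one hT.1.1 fun v hv => ?_
    have h1 : v ∈ Λ := by
      by_contra h
      exact hv h
    obtain ⟨u, hu⟩ := Set.ncard_eq_one.1 (hΛ v h1)
    rw [hu]
    exact Set.subsingleton_singleton
  obtain ⟨v0, hv0⟩ := hne
  have hT0 : (T.induce {v | v ∉ Λ}).IsTree :=
    ⟨@SimpleGraph.Connected.mk _ _ hpre ⟨⟨v0, hv0⟩⟩, hT.2.induce _⟩
  obtain ⟨e, p, h1, h2, h3, h4⟩ := tree_enum (T.induce {v | v ∉ Λ}) hT0
  refine ⟨Fintype.card {v | v ∉ Λ}, fun i => (e i : V), p, ?_, h1, fun i => (e i).2, ?_, ?_, ?_⟩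
  · have h5 : Fintype.card {v | v ∉ Λ} = (Finset.univ \ Λ).card := by
      refine Fintype.card_of_subtype (Finset.univ \ Λ) fun v => ?_
      rw [Finset.mem_sdiff]
      exact ⟨fun h => h.2, fun h => ⟨Finset.mem_univ _, h⟩⟩
    rw [h5, Finset.card_sdiff_add_card_eq_card (Finset.subset_univ Λ), Finset.card_univ]
  · intro v hv
    obtain ⟨i, hi, hiv⟩ := h2 ⟨v, hv⟩
    exact ⟨i, hi, congrArg Subtype.val hiv⟩
  · intro i hi j hj hij
    exact h3 hi hj (Subtype.ext hij)
  · intro i hi j hj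
    rw [← h4 i hi j hj]
    exact Iff.rfl

theorem graph_main (Δ : ℕ) (δ : ℝ) (hδ : 0 < δ) :
    ∃ N : ℕ, ∀ (V : Type) [Fintype V] (T : SimpleGraph V), T.IsTree → N ≤ Fintype.card V →
      (∀ v, (T.neighborSet v).ncard ≤ Δ) →
      δ * Fintype.card V ≤ ({v | (T.neighborSet v).ncard = 1} : Set V).ncard →
      ∃ f : V → ZMod (Fintype.card V - 1), Function.Surjective f ∧
        ∀ u v x y : V, T.Adj u v → T.Adj x y → f u + f v = f x + f y → s(u, v) = s(x, y) := by
  have hΔ1 : (0 : ℝ) < (Δ : ℝ) + 1 := by positivity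
  obtain ⟨q0, hq0⟩ := enum_main Δ (min (δ / ((Δ : ℝ) + 1)) 1)
    (lt_min (div_pos hδ hΔ1) one_pos) (min_le_right _ _)
  refine ⟨max (q0 + 1) 3, fun V _ T hT hN hΔ hLf => ?_⟩
  have hN1 : q0 + 1 ≤ Fintype.card V := (le_max_left _ _).trans hN
  have h3 : 3 ≤ Fintype.card V := (le_max_right _ _).trans hN
  have hq : Fintype.card V = (Fintype.card V - 1) + 1 := by omega
  have hqne : NeZero (Fintype.card V - 1) := ⟨by omega⟩
  set q := Fintype.card V - 1 with hqdef
  set ρ : ℝ := min (δ / ((Δ : ℝ) + 1)) 1 with hρ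
  have hρ0 : 0 < ρ := lt_min (div_pos hδ hΔ1) one_pos
  set L := ⌊ρ * (q : ℝ)⌋₊ with hLdef
  have hL : L * (Δ + 1) ≤ ({v | (T.neighborSet v).ncard = 1} : Set V).ncard := by
    have h4 : (L : ℝ) ≤ ρ * q := Nat.floor_le (mul_nonneg hρ0.le (Nat.cast_nonneg _))
    have h5 : ρ ≤ δ / ((Δ : ℝ) + 1) := min_le_left _ _
    have h6 : (q : ℝ) ≤ (Fintype.card V : ℝ) := by exact_mod_cast Nat.sub_le _ _
    have h7 : (L : ℝ) * ((Δ : ℝ) + 1) ≤ δ * Fintype.card V := by
      calc (L : ℝ) * ((Δ : ℝ) + 1) ≤ (δ / ((Δ : ℝ) + 1) * Fintype.card V) * ((Δ : ℝ) + 1) := by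
            refine mul_le_mul_of_nonneg_right (h4.trans ?_) hΔ1.le
            exact mul_le_mul h5 h6 (Nat.cast_nonneg _) (div_pos hδ hΔ1).le
        _ = δ * Fintype.card V := by
            field_simp
    exact_mod_cast h7.trans hLf
  obtain ⟨U, lf, hUL, hlf, hUn⟩ := trH_sel hT h3 hΔ hL
  -- the removed leaves
  have hlfinj : Set.InjOn lf (U : Set V) := by
    intro u hu w hw huw
    have h4 := hlf u hu
    rw [huw, hlf w hw] at h4
    exact (Set.singleton_injective h4).symm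
  let Λ : Finset V := U.image lf
  have hΛmem : ∀ v, v ∈ Λ ↔ ∃ u ∈ U, lf u = v := fun v => Finset.mem_image
  have hΛcard : Λ.card = L := by
    rw [← hUL]
    exact Finset.card_image_of_injOn hlfinj
  have hΛ1 : ∀ v ∈ Λ, (T.neighborSet v).ncard = 1 := by
    intro v hv
    obtain ⟨u, hu, rfl⟩ := (hΛmem v).1 hv
    rw [hlf u hu, Set.ncard_singleton]
  have hUΛ : ∀ u ∈ U, u ∉ Λ := fun u hu h => hUn u hu (hΛ1 u h)
  have hne : ∃ v, v ∉ Λ := by
    have : Nonempty V := Fintype.card_pos_iff.1 (by omega)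
    obtain ⟨v⟩ := this
    by_cases hv : v ∈ Λ
    · obtain ⟨u, hu, -⟩ := (hΛmem v).1 hv
      exact ⟨u, hUΛ u hu⟩
    · exact ⟨v, hv⟩
  obtain ⟨n, e, p, hn, hp, heΛ, hesurj, heinj, hadj⟩ := trH_enum hT Λ hne hΛ1
  rw [hΛcard] at hn
  have hn0 : 0 < n := by
    obtain ⟨v, hv⟩ := hne
    obtain ⟨i, hi, -⟩ := hesurj v hv
    omega
  have hmk : ∀ inst : DecidablePred fun i : ℕ => e i ∈ U,
      (@Finset.filter ℕ (fun i => e i ∈ U) inst (range n)).card = L := by
    intro inst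
    have h4 : (@Finset.filter ℕ (fun i => e i ∈ U) inst (range n)).image e = U := by
      ext u
      constructor
      · intro hu
        obtain ⟨i, hi, rfl⟩ := Finset.mem_image.1 hu
        exact (Finset.mem_filter.1 hi).2
      · intro hu
        obtain ⟨i, hi, rfl⟩ := hesurj u (hUΛ u hu)
        exact Finset.mem_image.2 ⟨i, Finset.mem_filter.2 ⟨Finset.mem_range.2 hi, hu⟩, rfl⟩
    have h5 := Finset.card_image_of_injOn
      (s := @Finset.filter ℕ (fun i => e i ∈ U) inst (range n)) (f := e)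
      (fun i hi j hj hij => heinj (Finset.mem_coe.2 (Finset.mem_filter.1 (Finset.mem_coe.1 hi)).1)
        (Finset.mem_coe.2 (Finset.mem_filter.1 (Finset.mem_coe.1 hj)).1) hij)
    rw [h4, hUL] at h5
    exact h5.symm
  have hch : ∀ i, ((range n).filter fun j => 0 < j ∧ p j = i).card ≤ Δ := by
    intro i
    by_cases hi : i < n
    · refine le_trans ?_ (hΔ (e i))
      have h4 : ((range n).filter fun j => 0 < j ∧ p j = i).card =
          (((range n).filter fun j => 0 < j ∧ p j = i).image e).card := by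
        refine (Finset.card_image_of_injOn fun a ha b hb hab => heinj ?_ ?_ hab).symm
        · exact (Finset.mem_filter.1 ha).1
        · exact (Finset.mem_filter.1 hb).1
      rw [h4, ← Set.ncard_coe_finset]
      refine Set.ncard_le_ncard ?_ (Set.toFinite _)
      intro v hv
      obtain ⟨j, hj, rfl⟩ := Finset.mem_image.1 (Finset.mem_coe.1 hv)
      obtain ⟨hj1, hj2⟩ := Finset.mem_filter.1 hj
      exact (hadj i hi j (Finset.mem_range.1 hj1)).2 (Or.inr hj2)
    · have h4 : ((range n).filter fun j => 0 < j ∧ p j = i) = ∅ := by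
        rw [Finset.eq_empty_iff_forall_notMem]
        intro j hj
        obtain ⟨hj1, hj2, hj3⟩ := Finset.mem_filter.1 hj
        have h5 := hp j hj2 (Finset.mem_range.1 hj1)
        have h6 := Finset.mem_range.1 hj1
        omega
      rw [h4, Finset.card_empty]
      exact Nat.zero_le _
  have hcardq : Fintype.card (ZMod q) = q := ZMod.card q
  obtain ⟨g, y, hA, hB, hAB, hsur⟩ := hq0 (ZMod q) (tor2_zmod q) (by rw [hcardq]; omega) n p
    (fun i => e i ∈ U) hp hch hn0 (by rw [hcardq, hmk]; omega) (by rw [hcardq]; exact hmk _)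
  -- indices
  have hidx : ∀ v, ∃ i, v ∉ Λ → i < n ∧ e i = v := by
    intro v
    by_cases hv : v ∈ Λ
    · exact ⟨0, fun h => absurd hv h⟩
    · obtain ⟨i, hi, hiv⟩ := hesurj v hv
      exact ⟨i, fun _ => ⟨hi, hiv⟩⟩
  choose idx hidx using hidx
  have hidxe : ∀ i, i < n → idx (e i) = i := by
    intro i hi
    obtain ⟨h4, h5⟩ := hidx (e i) (heΛ i)
    exact heinj (Finset.mem_coe.2 (Finset.mem_range.2 h4)) (Finset.mem_coe.2 (Finset.mem_range.2 hi)) h5
  have hnb : ∀ v, ∃ u, v ∈ Λ → u ∈ U ∧ lf u = v := by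
    intro v
    by_cases hv : v ∈ Λ
    · obtain ⟨u, hu, huv⟩ := (hΛmem v).1 hv
      exact ⟨u, fun _ => ⟨hu, huv⟩⟩
    · exact ⟨v, fun h => absurd h hv⟩
  choose nb hnb using hnb
  have hnblf : ∀ u ∈ U, nb (lf u) = u := by
    intro u hu
    obtain ⟨h4, h5⟩ := hnb (lf u) ((hΛmem _).2 ⟨u, hu, rfl⟩)
    exact hlfinj h4 hu h5
  let f : V → ZMod q := fun v => if v ∈ Λ then y (idx (nb v)) else g (idx v)
  have hfe : ∀ v, v ∉ Λ → f v = g (idx v) := fun v hv => if_neg hv
  have hfl : ∀ u ∈ U, f (lf u) = y (idx u) := by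
    intro u hu
    have h4 : f (lf u) = y (idx (nb (lf u))) := if_pos ((hΛmem _).2 ⟨u, hu, rfl⟩)
    rw [h4, hnblf u hu]
  have hleaf : ∀ u v, T.Adj u v → u ∈ Λ → ∃ i < n, e i ∈ U ∧ s(u, v) = s(e i, lf (e i)) ∧
      f u + f v = g i + y i := by
    intro u v huv hu
    obtain ⟨w, hw, rfl⟩ := (hΛmem u).1 hu
    have h4 : v ∈ T.neighborSet (lf w) := huv
    rw [hlf w hw] at h4
    have h5 : v = w := h4
    subst h5
    obtain ⟨h6, h7⟩ := hidx v (hUΛ v hw)
    refine ⟨idx v, h6, by rw [h7]; exact hw, by rw [h7]; exact Sym2.eq_swap, ?_⟩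
    rw [hfl v hw, hfe v (hUΛ v hw), add_comm]
  have hedge : ∀ u v, T.Adj u v →
      (∃ i < n, 0 < i ∧ s(u, v) = s(e i, e (p i)) ∧ f u + f v = g i + g (p i)) ∨
      (∃ i < n, e i ∈ U ∧ s(u, v) = s(e i, lf (e i)) ∧ f u + f v = g i + y i) := by
    intro u v huv
    by_cases hu : u ∈ Λ
    · exact Or.inr (hleaf u v huv hu)
    · by_cases hv : v ∈ Λ
      · obtain ⟨i, h4, h5, h6, h7⟩ := hleaf v u huv.symm hv
        refine Or.inr ⟨i, h4, h5, ?_, ?_⟩
        · rw [← h6]
          exact Sym2.eq_swap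
        · rw [← h7, add_comm]
      · left
        obtain ⟨i1, i2⟩ := hidx u hu
        obtain ⟨j1, j2⟩ := hidx v hv
        have h4 : T.Adj (e (idx u)) (e (idx v)) := by
          rw [i2, j2]
          exact huv
        rcases (hadj _ i1 _ j1).1 h4 with ⟨h5, h6⟩ | ⟨h5, h6⟩
        · refine ⟨idx u, i1, h5, ?_, ?_⟩
          · rw [h6, i2, j2]
          · rw [h6, hfe u hu, hfe v hv]
        · refine ⟨idx v, j1, h5, ?_, ?_⟩
          · rw [h6, i2, j2]
            exact Sym2.eq_swap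
          · rw [h6, hfe u hu, hfe v hv, add_comm]
  refine ⟨f, ?_, ?_⟩
  · intro c
    rcases hsur c with ⟨i, hi, hc⟩ | ⟨i, hi, hiU, hc⟩
    · refine ⟨e i, ?_⟩
      rw [hfe _ (heΛ i), hidxe i (Finset.mem_range.1 hi), hc]
    · refine ⟨lf (e i), ?_⟩
      rw [hfl _ hiU, hidxe i (Finset.mem_range.1 hi), hc]
  · intro u v x z huv hxz hsum
    rcases hedge u v huv with ⟨i, h4, h5, h6, h7⟩ | ⟨i, h4, h5, h6, h7⟩ <;>
      rcases hedge x z hxz with ⟨j, k4, k5, k6, k7⟩ | ⟨j, k4, k5, k6, k7⟩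
    · have h8 := hA i (Finset.mem_range.2 h4) j (Finset.mem_range.2 k4) h5 k5
        (by rw [← h7, ← k7, hsum])
      rw [h6, k6, h8]
    · exact absurd (by rw [← h7, ← k7, hsum])
        (hAB j (Finset.mem_range.2 k4) i (Finset.mem_range.2 h4) k5 h5)
    · exact absurd (by rw [← h7, ← k7, hsum])
        (hAB i (Finset.mem_range.2 h4) j (Finset.mem_range.2 k4) h5 k5)
    · have h8 := hB i (Finset.mem_range.2 h4) j (Finset.mem_range.2 k4) h5 k5
        (by rw [← h7, ← k7, hsum])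
      rw [h6, k6, h8]

end Pool.Agent.H60.HL
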